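import Mathlib

/-!
Families of two by two matrices, depending linearly on a vector space over an algebraically closed
subfield, with determinants in the subfield: after a change of basis all entries are in the
subfield.
-/

set_option linter.unusedSectionVars false

namespace Pool.Agent.Lib.MP_44a246_ntB

open Matrix

section KS

variable {Ω : Type*} [Field Ω] [CharZero Ω] {K : Subfield Ω}

theorem mem_of_quad (hKa : ∀ y : Ω, IsAlgebraic K y → y ∈ K) {a b c y : Ω} (ha : a ∈ K) (hb : b ∈ K)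
    (hc : c ∈ K) (ha0 : a ≠ 0) (h : a * y ^ 2 + b * y + c = 0) : y ∈ K := by
  apply hKa
  refine ⟨Polynomial.C ⟨a, ha⟩ * Polynomial.X ^ 2 + Polynomial.C ⟨b, hb⟩ * Polynomial.X +
    Polynomial.C ⟨c, hc⟩, ?_, ?_⟩
  · intro h0
    have h1 := congrArg (fun f => Polynomial.coeff f 2) h0
    simp only [Polynomial.coeff_add, Polynomial.coeff_C_mul, Polynomial.coeff_X_pow,
      Polynomial.coeff_X, Polynomial.coeff_C, Polynomial.coeff_zero] at h1
    norm_num at h1
    exact ha0 (congrArg Subtype.val h1)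
  · simp only [map_add, map_mul, Polynomial.aeval_C, Polynomial.aeval_X, map_pow]
    exact h

theorem exists_eig [IsAlgClosed Ω] (t d : Ω) : ∃ r s : Ω, r + s = t ∧ r * s = d := by
  obtain ⟨r, hr⟩ := IsAlgClosed.exists_root
    (Polynomial.X ^ 2 + Polynomial.C (-t) * Polynomial.X + Polynomial.C d : Polynomial Ω) (by
      have : (Polynomial.X ^ 2 + Polynomial.C (-t) * Polynomial.X + Polynomial.C d :
          Polynomial Ω).degree = 2 := by
        compute_degree!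
      rw [this]; norm_num)
  refine ⟨r, t - r, by ring, ?_⟩
  simp only [Polynomial.IsRoot.def, Polynomial.eval_add, Polynomial.eval_pow, Polynomial.eval_X,
    Polynomial.eval_mul, Polynomial.eval_C] at hr
  linear_combination -hr

variable {W : Type*} [AddCommGroup W] [Module K W]

/-- a linear family of matrices with determinants in the subfield, containing the identity, such
that the elements of the radical vanish -/
structure KFam (Φ : W →ₗ[K] Matrix (Fin 2) (Fin 2) Ω) (c₀ : W) : Prop where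
  hdet : ∀ Q, (Φ Q).det ∈ K
  h1 : Φ c₀ = 1
  hrad : ∀ Q, (∀ Q', (Φ (Q + Q')).det = (Φ Q).det + (Φ Q').det) → Φ Q = 0

variable {Φ : W →ₗ[K] Matrix (Fin 2) (Fin 2) Ω} {c₀ : W}

theorem KFam.tr_mem (h : KFam Φ c₀) (Q : W) : Φ Q 0 0 + Φ Q 1 1 ∈ K := by
  have h1 := h.hdet (Q + c₀)
  have h2 := h.hdet Q
  rw [map_add, h.h1, det_fin_two] at h1
  rw [det_fin_two] at h2
  simp only [Matrix.add_apply, Matrix.one_apply_eq, ne_eq, zero_ne_one, not_false_eq_true, Matrix.one_apply_ne,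
    one_ne_zero, add_zero] at h1
  have : Φ Q 0 0 + Φ Q 1 1 = ((Φ Q 0 0 + 1) * (Φ Q 1 1 + 1) - Φ Q 0 1 * Φ Q 1 0) -
      (Φ Q 0 0 * Φ Q 1 1 - Φ Q 0 1 * Φ Q 1 0) - 1 := by ring
  rw [this]
  exact K.sub_mem (K.sub_mem h1 h2) K.one_mem

/-- the polar form of the determinant -/
def pol (X Y : Matrix (Fin 2) (Fin 2) Ω) : Ω :=
  X 0 0 * Y 1 1 + Y 0 0 * X 1 1 - X 0 1 * Y 1 0 - Y 0 1 * X 1 0

omit [CharZero Ω] in
theorem det_add_two (X Y : Matrix (Fin 2) (Fin 2) Ω) : (X + Y).det = X.det + Y.det + pol X Y := by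
  rw [det_fin_two, det_fin_two, det_fin_two]
  unfold pol
  simp only [Matrix.add_apply]
  ring

theorem KFam.pol_mem (h : KFam Φ c₀) (Q Q' : W) : pol (Φ Q) (Φ Q') ∈ K := by
  have h1 := h.hdet (Q + Q')
  rw [map_add, det_add_two] at h1
  have := K.sub_mem (K.sub_mem h1 (h.hdet Q)) (h.hdet Q')
  have e : (Φ Q).det + (Φ Q').det + pol (Φ Q) (Φ Q') - (Φ Q).det - (Φ Q').det =
      pol (Φ Q) (Φ Q') := by ring
  rwa [e] at this

theorem KFam.rad (h : KFam Φ c₀) {Q : W} (hQ : ∀ Q', pol (Φ Q) (Φ Q') = 0) : Φ Q = 0 := by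
  refine h.hrad Q fun Q' => ?_
  rw [map_add, det_add_two, hQ, add_zero]

theorem smul_mat (c : K) (Q : W) (i j : Fin 2) : Φ (c • Q) i j = (c : Ω) * Φ Q i j := by
  rw [map_smul]
  rfl

/-- all members scalar -/
theorem KFam.scalar (h : KFam Φ c₀)
    (hd : ∀ Q, (Φ Q 0 0 + Φ Q 1 1) ^ 2 = 4 * (Φ Q).det) (Q : W) (i j : Fin 2) : Φ Q i j ∈ K := by
  set t : K := ⟨(Φ Q 0 0 + Φ Q 1 1) / 2, K.div_mem (h.tr_mem Q) (by
    have := natCast_mem K 2
    simpa using this)⟩ with ht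
  have h0 : Φ (Q - t • c₀) = 0 := by
    apply h.rad
    intro Q'
    have e1 := hd (Q + Q')
    have e2 := hd Q
    have e3 := hd Q'
    rw [map_add, det_add_two] at e1
    simp only [Matrix.add_apply] at e1
    have e4 : (2 : Ω) * pol (Φ Q) (Φ Q') =
        (Φ Q 0 0 + Φ Q 1 1) * (Φ Q' 0 0 + Φ Q' 1 1) := by
      have h2 : (2 : Ω) ≠ 0 := two_ne_zero
      apply mul_left_cancel₀ h2
      linear_combination -e1 + e2 + e3
    have e5 : pol (Φ (Q - t • c₀)) (Φ Q') = pol (Φ Q) (Φ Q') -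
        (t : Ω) * (Φ Q' 0 0 + Φ Q' 1 1) := by
      unfold pol
      rw [map_sub]
      simp only [Matrix.sub_apply, smul_mat, h.h1, Matrix.one_apply_eq, ne_eq, zero_ne_one, not_false_eq_true,
        Matrix.one_apply_ne, one_ne_zero]
      ring
    rw [e5]
    have e6 : (t : Ω) = (Φ Q 0 0 + Φ Q 1 1) / 2 := rfl
    rw [e6]
    linear_combination (1 / 2 : Ω) * e4
  have h1 : Φ Q = (t : Ω) • (1 : Matrix (Fin 2) (Fin 2) Ω) := by
    rw [map_sub, sub_eq_zero] at h0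
    ext i j
    rw [h0, smul_mat, h.h1]
    rfl
  rw [h1, Matrix.smul_apply, smul_eq_mul, Matrix.one_apply]
  split_ifs
  · rw [mul_one]; exact t.2
  · rw [mul_zero]; exact K.zero_mem

/-- conjugation -/
def conjL (Φ : W →ₗ[K] Matrix (Fin 2) (Fin 2) Ω) (G H : Matrix (Fin 2) (Fin 2) Ω) :
    W →ₗ[K] Matrix (Fin 2) (Fin 2) Ω where
  toFun Q := H * Φ Q * G
  map_add' := by
    intro P Q
    rw [map_add, Matrix.mul_add, Matrix.add_mul]
  map_smul' := by
    intro c Q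
    rw [map_smul, RingHom.id_apply, Matrix.mul_smul, Matrix.smul_mul]

theorem conjL_apply (G H : Matrix (Fin 2) (Fin 2) Ω) (Q : W) : conjL Φ G H Q = H * Φ Q * G := rfl

theorem KFam.conj (h : KFam Φ c₀) {G H : Matrix (Fin 2) (Fin 2) Ω} (hHG : H * G = 1) :
    KFam (conjL Φ G H) c₀ := by
  have hGH : G * H = 1 := mul_eq_one_comm.mp hHG
  have hd : H.det * G.det = 1 := by rw [← det_mul, hHG, det_one]
  have key : ∀ X : Matrix (Fin 2) (Fin 2) Ω, (H * X * G).det = X.det := by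
    intro X
    rw [det_mul, det_mul]
    linear_combination X.det * hd
  refine ⟨fun Q => ?_, ?_, fun Q hQ => ?_⟩
  · rw [conjL_apply, key]; exact h.hdet Q
  · rw [conjL_apply, h.h1, Matrix.mul_one, hHG]
  · have h1 : Φ Q = 0 := by
      refine h.hrad Q fun Q' => ?_
      have := hQ Q'
      rwa [conjL_apply, conjL_apply, conjL_apply, key, key, key] at this
    rw [conjL_apply, h1, Matrix.mul_zero, Matrix.zero_mul]

/-- a member is diagonal with distinct entries: then the diagonals of all members are in the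
subfield, and after scaling also the other entries -/
theorem KFam.diag (h : KFam Φ c₀) (hKa : ∀ y : Ω, IsAlgebraic K y → y ∈ K) {Q₁ : W} {r s : Ω}
    (hr : r ∈ K) (hs : s ∈ K) (hrs : r ≠ s) (hQ₁ : Φ Q₁ = !![r, 0; 0, s]) :
    ∃ G H : Matrix (Fin 2) (Fin 2) Ω, H * G = 1 ∧ ∀ Q i j, (H * Φ Q * G) i j ∈ K := by
  have hdiag : ∀ Q, Φ Q 0 0 ∈ K ∧ Φ Q 1 1 ∈ K := by
    intro Q
    have h1 := h.tr_mem Q
    have h2 := h.pol_mem Q₁ Q
    unfold pol at h2
    rw [hQ₁] at h2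
    have e1 : r * Φ Q 1 1 + s * Φ Q 0 0 ∈ K := by
      have : (!![r, 0; 0, s] : Matrix (Fin 2) (Fin 2) Ω) 0 0 * Φ Q 1 1 + Φ Q 0 0 *
          (!![r, 0; 0, s] : Matrix (Fin 2) (Fin 2) Ω) 1 1 -
          (!![r, 0; 0, s] : Matrix (Fin 2) (Fin 2) Ω) 0 1 * Φ Q 1 0 -
          Φ Q 0 1 * (!![r, 0; 0, s] : Matrix (Fin 2) (Fin 2) Ω) 1 0 =
          r * Φ Q 1 1 + s * Φ Q 0 0 := by
        simp
        ring
      rwa [this] at h2
    have hrs' : r - s ≠ 0 := sub_ne_zero.mpr hrs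
    have e2 : Φ Q 1 1 ∈ K := by
      have : Φ Q 1 1 = ((r * Φ Q 1 1 + s * Φ Q 0 0) - s * (Φ Q 0 0 + Φ Q 1 1)) / (r - s) := by
        field_simp
        ring
      rw [this]
      exact K.div_mem (K.sub_mem e1 (K.mul_mem hs h1)) (K.sub_mem hr hs)
    refine ⟨?_, e2⟩
    have : Φ Q 0 0 = (Φ Q 0 0 + Φ Q 1 1) - Φ Q 1 1 := by ring
    rw [this]
    exact K.sub_mem h1 e2
  have hoff : ∀ Q, Φ Q 0 1 * Φ Q 1 0 ∈ K := by
    intro Q
    have h1 := h.hdet Q
    rw [det_fin_two] at h1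
    have : Φ Q 0 1 * Φ Q 1 0 = Φ Q 0 0 * Φ Q 1 1 - (Φ Q 0 0 * Φ Q 1 1 - Φ Q 0 1 * Φ Q 1 0) := by
      ring
    rw [this]
    exact K.sub_mem (K.mul_mem (hdiag Q).1 (hdiag Q).2) h1
  have hoff' : ∀ Q Q', Φ Q 0 1 * Φ Q' 1 0 + Φ Q' 0 1 * Φ Q 1 0 ∈ K := by
    intro Q Q'
    have h1 := hoff (Q + Q')
    rw [map_add] at h1
    simp only [Matrix.add_apply] at h1
    have : Φ Q 0 1 * Φ Q' 1 0 + Φ Q' 0 1 * Φ Q 1 0 =
        (Φ Q 0 1 + Φ Q' 0 1) * (Φ Q 1 0 + Φ Q' 1 0) - Φ Q 0 1 * Φ Q 1 0 - Φ Q' 0 1 * Φ Q' 1 0 := by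
      ring
    rw [this]
    exact K.sub_mem (K.sub_mem h1 (hoff Q)) (hoff Q')
  by_cases hB : ∃ Q, Φ Q 0 1 * Φ Q 1 0 ≠ 0
  · obtain ⟨Q₂, hQ₂⟩ := hB
    have ht : Φ Q₂ 0 1 ≠ 0 := left_ne_zero_of_mul hQ₂
    set t := Φ Q₂ 0 1 with htd
    refine ⟨!![t, 0; 0, 1], !![t⁻¹, 0; 0, 1], ?_, ?_⟩
    · rw [Matrix.mul_fin_two, one_fin_two]
      simp [ht]
    · intro Q
      have h01 : Φ Q 0 1 / t ∈ K := by
        set y := Φ Q 0 1 / t with hy
        have hyt : Φ Q 0 1 = y * t := by rw [hy]; field_simp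
        have e1 := hoff Q
        have e2 := hoff' Q Q₂
        have e3 := hoff Q₂
        rw [← htd] at e2 e3
        rw [hyt] at e1 e2
        refine mem_of_quad hKa (a := t * Φ Q₂ 1 0) (b := -(y * t * Φ Q₂ 1 0 + t * Φ Q 1 0))
          (c := y * t * Φ Q 1 0) e3 (K.neg_mem e2) e1 hQ₂ ?_
        ring
      have h10 : t * Φ Q 1 0 ∈ K := by
        have e2 := hoff' Q Q₂
        rw [← htd] at e2
        have e3 := hoff Q₂
        rw [← htd] at e3
        have : t * Φ Q 1 0 = (Φ Q 0 1 * Φ Q₂ 1 0 + t * Φ Q 1 0) -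
            (Φ Q 0 1 / t) * (t * Φ Q₂ 1 0) := by
          field_simp
          ring
        rw [this]
        exact K.sub_mem e2 (K.mul_mem h01 e3)
      have hmat : (!![t⁻¹, 0; 0, 1] : Matrix (Fin 2) (Fin 2) Ω) * Φ Q * !![t, 0; 0, 1] =
          !![Φ Q 0 0, Φ Q 0 1 / t; t * Φ Q 1 0, Φ Q 1 1] := by
        rw [eta_fin_two (Φ Q)]
        rw [Matrix.mul_fin_two, Matrix.mul_fin_two]
        simp only [of_apply, cons_val', cons_val_zero, cons_val_fin_one, cons_val_one]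
        congr 1
        ext i j
        fin_cases i <;> fin_cases j <;> simp <;> field_simp
      intro i j
      rw [hmat]
      fin_cases i <;> fin_cases j
      · exact (hdiag Q).1
      · exact h01
      · exact h10
      · exact (hdiag Q).2
  · push Not at hB
    have hB' : ∀ Q Q', Φ Q 0 1 * Φ Q' 1 0 + Φ Q' 0 1 * Φ Q 1 0 = 0 := by
      intro Q Q'
      have h1 := hB (Q + Q')
      rw [map_add] at h1
      simp only [Matrix.add_apply] at h1
      linear_combination h1 - hB Q - hB Q'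
    -- elements with zero diagonal vanish
    have hz : ∀ Q, Φ Q 0 1 = 0 ∧ Φ Q 1 0 = 0 := by
      intro Q
      have hrs' : r - s ≠ 0 := sub_ne_zero.mpr hrs
      set v : K := ⟨(Φ Q 0 0 - Φ Q 1 1) / (r - s), K.div_mem (K.sub_mem (hdiag Q).1 (hdiag Q).2)
        (K.sub_mem hr hs)⟩ with hv
      set u : K := ⟨Φ Q 0 0 - (Φ Q 0 0 - Φ Q 1 1) / (r - s) * r, K.sub_mem (hdiag Q).1
        (K.mul_mem (K.div_mem (K.sub_mem (hdiag Q).1 (hdiag Q).2) (K.sub_mem hr hs)) hr)⟩ with hu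
      set Q₄ := Q - u • c₀ - v • Q₁ with hQ₄
      have hΦ : ∀ i j, Φ Q₄ i j = Φ Q i j - (u : Ω) * (1 : Matrix (Fin 2) (Fin 2) Ω) i j -
          (v : Ω) * (!![r, 0; 0, s] : Matrix (Fin 2) (Fin 2) Ω) i j := by
        intro i j
        rw [hQ₄, map_sub, map_sub]
        simp only [Matrix.sub_apply, smul_mat, h.h1, hQ₁]
      have h00 : Φ Q₄ 0 0 = 0 := by
        rw [hΦ, hu, hv]
        simp
      have h11 : Φ Q₄ 1 1 = 0 := by
        rw [hΦ, hu, hv]
        simp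
        field_simp
        ring
      have h01 : Φ Q₄ 0 1 = Φ Q 0 1 := by
        rw [hΦ]; simp
      have h10 : Φ Q₄ 1 0 = Φ Q 1 0 := by
        rw [hΦ]; simp
      have h0 : Φ Q₄ = 0 := by
        apply h.rad
        intro Q'
        unfold pol
        rw [h00, h11]
        linear_combination -hB' Q₄ Q'
      constructor
      · rw [← h01, h0]; rfl
      · rw [← h10, h0]; rfl
    refine ⟨1, 1, by rw [Matrix.one_mul], fun Q i j => ?_⟩
    rw [Matrix.mul_one, Matrix.one_mul]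
    fin_cases i <;> fin_cases j
    · exact (hdiag Q).1
    · show Φ Q 0 1 ∈ K
      rw [(hz Q).1]; exact K.zero_mem
    · show Φ Q 1 0 ∈ K
      rw [(hz Q).2]; exact K.zero_mem
    · exact (hdiag Q).2

/-- The structure theorem. -/
theorem KFam.exists_basis [IsAlgClosed Ω] (h : KFam Φ c₀)
    (hKa : ∀ y : Ω, IsAlgebraic K y → y ∈ K) :
    ∃ G H : Matrix (Fin 2) (Fin 2) Ω, H * G = 1 ∧ ∀ Q i j, (H * Φ Q * G) i j ∈ K := by
  by_cases hd : ∀ Q, (Φ Q 0 0 + Φ Q 1 1) ^ 2 = 4 * (Φ Q).det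
  · exact ⟨1, 1, by rw [Matrix.one_mul], fun Q i j => by
      rw [Matrix.mul_one, Matrix.one_mul]; exact h.scalar hd Q i j⟩
  push Not at hd
  obtain ⟨Q₁, hQ₁⟩ := hd
  obtain ⟨r, s, hrs1, hrs2⟩ := exists_eig (Φ Q₁ 0 0 + Φ Q₁ 1 1) (Φ Q₁).det
  have hrs : r ≠ s := by
    rintro rfl
    apply hQ₁
    rw [← hrs1, ← hrs2]; ring
  have hr : r ∈ K := by
    refine mem_of_quad hKa (a := 1) (b := -(Φ Q₁ 0 0 + Φ Q₁ 1 1)) (c := (Φ Q₁).det) K.one_mem
      (K.neg_mem (h.tr_mem Q₁)) (h.hdet Q₁) one_ne_zero ?_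
    rw [← hrs1, ← hrs2]; ring
  have hs : s ∈ K := by
    have : s = (Φ Q₁ 0 0 + Φ Q₁ 1 1) - r := by rw [← hrs1]; ring
    rw [this]
    exact K.sub_mem (h.tr_mem Q₁) hr
  -- eigenvectors
  have hev : ∀ x : Ω, x ^ 2 - (Φ Q₁ 0 0 + Φ Q₁ 1 1) * x + (Φ Q₁).det = 0 →
      ∃ v : Fin 2 → Ω, v ≠ 0 ∧ Φ Q₁ *ᵥ v = x • v := by
    intro x hx
    have h1 : (Φ Q₁ - x • (1 : Matrix (Fin 2) (Fin 2) Ω)).det = 0 := by
      rw [det_fin_two]
      rw [det_fin_two] at hx
      simp only [Matrix.sub_apply, Matrix.smul_apply, Matrix.one_apply_eq, smul_eq_mul, mul_one, ne_eq, zero_ne_one,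
        not_false_eq_true, Matrix.one_apply_ne, mul_zero, sub_zero, one_ne_zero]
      linear_combination hx
    obtain ⟨v, hv, hv2⟩ := exists_mulVec_eq_zero_iff.mpr h1
    refine ⟨v, hv, ?_⟩
    rw [sub_mulVec, smul_mulVec, one_mulVec, sub_eq_zero] at hv2
    exact hv2
  obtain ⟨v, hv0, hv⟩ := hev r (by rw [← hrs1, ← hrs2]; ring)
  obtain ⟨w, hw0, hw⟩ := hev s (by rw [← hrs1, ← hrs2]; ring)
  set G : Matrix (Fin 2) (Fin 2) Ω := !![v 0, w 0; v 1, w 1] with hG
  have hGdet : G.det ≠ 0 := by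
    intro h0
    obtain ⟨c, hc0, hc⟩ := exists_mulVec_eq_zero_iff.mpr h0
    -- c 0 v + c 1 w = 0
    have e0 : c 0 * v 0 + c 1 * w 0 = 0 := by
      have := congrFun hc 0
      simp [hG, mulVec, dotProduct, Fin.sum_univ_two] at this
      linear_combination this
    have e1 : c 0 * v 1 + c 1 * w 1 = 0 := by
      have := congrFun hc 1
      simp [hG, mulVec, dotProduct, Fin.sum_univ_two] at this
      linear_combination this
    have hcomb : c 0 • v + c 1 • w = 0 := by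
      funext i
      fin_cases i
      · simpa using e0
      · simpa using e1
    have h2 : c 0 • (r • v) + c 1 • (s • w) = 0 := by
      rw [← hv, ← hw, ← mulVec_smul, ← mulVec_smul, ← mulVec_add, hcomb, mulVec_zero]
    have h3 : (c 0 * (r - s)) • v = 0 := by
      have : (c 0 * (r - s)) • v = (c 0 • (r • v) + c 1 • (s • w)) - s • (c 0 • v + c 1 • w) := by
        simp only [smul_add, smul_smul, mul_sub, sub_smul]
        rw [mul_comm s (c 0), mul_comm s (c 1)]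
        abel
      rw [this, h2, hcomb, smul_zero, sub_zero]
    have h4 : c 0 = 0 := by
      rcases smul_eq_zero.mp h3 with h5 | h5
      · exact (mul_eq_zero.mp h5).resolve_right (sub_ne_zero.mpr hrs)
      · exact absurd h5 hv0
    have h5 : c 1 = 0 := by
      rw [h4, zero_smul, zero_add] at hcomb
      exact (smul_eq_zero.mp hcomb).resolve_right hw0
    apply hc0
    funext i
    fin_cases i
    · exact h4
    · exact h5
  have hHG : G⁻¹ * G = 1 := nonsing_inv_mul G (isUnit_iff_ne_zero.mpr hGdet)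
  have hNG : Φ Q₁ * G = G * !![r, 0; 0, s] := by
    have hv0' := congrFun hv 0
    have hv1' := congrFun hv 1
    have hw0' := congrFun hw 0
    have hw1' := congrFun hw 1
    simp only [mulVec, dotProduct, Fin.sum_univ_two, Pi.smul_apply, smul_eq_mul] at hv0' hv1' hw0' hw1'
    ext i j
    rw [mul_apply, mul_apply, Fin.sum_univ_two, Fin.sum_univ_two]
    fin_cases i <;> fin_cases j <;> simp [hG]
    · linear_combination hv0'
    · linear_combination hw0'
    · linear_combination hv1'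
    · linear_combination hw1'
  have hconj := h.conj hHG
  obtain ⟨G', H', h1, h2⟩ := hconj.diag hKa (Q₁ := Q₁) hr hs hrs (by
    rw [conjL_apply, Matrix.mul_assoc, hNG, ← Matrix.mul_assoc, hHG, Matrix.one_mul])
  refine ⟨G * G', H' * G⁻¹, ?_, fun Q i j => ?_⟩
  · calc H' * G⁻¹ * (G * G') = H' * (G⁻¹ * G) * G' := by simp only [Matrix.mul_assoc]
      _ = 1 := by rw [hHG, Matrix.mul_one, h1]
  · have := h2 Q i j
    rw [conjL_apply] at this
    have e : H' * G⁻¹ * Φ Q * (G * G') = H' * (G⁻¹ * Φ Q * G) * G' := by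
      simp only [Matrix.mul_assoc]
    rw [e]; exact this

end KS

end Pool.Agent.Lib.MP_44a246_ntB
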