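import Mathlib
import Pool.Agent.Lib.MP_e52354_ntP.Back5

/-!
Bounded functions on a set of places: the abstract form of the weights, and the basic lemma on
polynomials whose multiples lie in the radical.
-/

set_option linter.unusedSectionVars false

namespace Pool.Agent.Lib.MP_44a246_ntB

open Pool.Agent.Lib.MP_e52354_nt Pool.Agent.Lib.MP_e52354_ntP
open MvPolynomial

section LB

variable {Ω : Type*} [Field Ω] {P : Type*} {σ : Type*} [Fintype σ] [DecidableEq σ]

/-- A point `p`, a value `z` of degree `d`, a ring `B` of bounded functions on the set of places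
and a chart at every place. -/
structure LB (K : Subfield Ω) (B : Subring (P → Ω)) (𝒟 : Submodule K (Derivation ℤ Ω Ω)) (d : ℕ)
    (p : σ → Ω) (z : Ω) (c : P → σ) : Prop where
  hconst : ∀ y : Ω, (fun _ : P => y) ∈ B ↔ y ∈ K
  hc : ∀ π, p (c π) ≠ 0
  hind : ∀ k, (fun π => if c π = k then (1 : Ω) else 0) ∈ B
  hp : ∀ k, (fun π => p k / p (c π)) ∈ B
  hD : ∀ D ∈ 𝒟, ∀ k, (fun π => D (p k / p (c π))) ∈ B
  hlog : ∀ D ∈ 𝒟, (fun π => D (z / p (c π) ^ d) / (z / p (c π) ^ d)) ∈ B
  hneg : ∀ (J : Ω) (e : ℕ), 0 < e → (fun π => J * p (c π) ^ e) ∈ B → J = 0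
  hz : z ≠ 0

variable {K : Subfield Ω} {B : Subring (P → Ω)} {𝒟 : Submodule K (Derivation ℤ Ω Ω)} {d : ℕ}
  {p : σ → Ω} {z : Ω} {c : P → σ}

theorem LB.K_mem (L : LB K B 𝒟 d p z c) {y : Ω} (hy : y ∈ K) : (fun _ : P => y) ∈ B :=
  (L.hconst y).mpr hy

theorem LB.smul_mem (L : LB K B 𝒟 d p z c) {y : Ω} (hy : y ∈ K) {x : P → Ω} (hx : x ∈ B) :
    (fun π => y * x π) ∈ B := B.mul_mem (L.K_mem hy) hx

theorem mem_congr {B : Subring (P → Ω)} {x y : P → Ω} (hx : x ∈ B) (h : ∀ π, x π = y π) :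
    y ∈ B := by
  have : x = y := funext h
  rwa [← this]

/-- gluing over the charts -/
theorem LB.glue_ind (L : LB K B 𝒟 d p z c) {y : P → Ω} (x : σ → P → Ω) (hx : ∀ k, x k ∈ B)
    (h : ∀ π, y π = x (c π) π) : y ∈ B := by
  classical
  have h1 : (∑ k, (fun π => (if c π = k then (1 : Ω) else 0)) * x k) ∈ B :=
    B.sum_mem fun k _ => B.mul_mem (L.hind k) (hx k)
  refine mem_congr h1 fun π => ?_
  rw [Finset.sum_apply]
  simp only [Pi.mul_apply, ite_mul, one_mul, zero_mul]
  rw [Finset.sum_ite_eq Finset.univ (c π) (fun k => x k π), if_pos (Finset.mem_univ _)]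
  exact (h π).symm

theorem LB.glue (L : LB K B 𝒟 d p z c) {y : P → Ω} (j : ℕ)
    (h : ∀ k, (fun π => y π * (p k / p (c π)) ^ j) ∈ B) : y ∈ B := by
  refine L.glue_ind (fun k π => y π * (p k / p (c π)) ^ j) h fun π => ?_
  show y π = y π * (p (c π) / p (c π)) ^ j
  rw [div_self (L.hc π), one_pow, mul_one]

theorem LB.nonempty (L : LB K B 𝒟 d p z c) : Nonempty P := by
  by_contra hP
  have hP' : IsEmpty P := not_nonempty_iff.mp hP
  have h1 : (fun π : P => (1 : Ω) * p (c π) ^ 1) ∈ B := by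
    have : (fun π : P => (1 : Ω) * p (c π) ^ 1) = 1 := Subsingleton.elim _ _
    rw [this]
    exact B.one_mem
  exact one_ne_zero (L.hneg 1 1 one_pos h1)

end LB

section Good

variable {Ω : Type*} [Field Ω] {P : Type*} {σ : Type*} [Fintype σ] [DecidableEq σ]
  {K : Subfield Ω} {B : Subring (P → Ω)} {d : ℕ} {p : σ → Ω} {z : Ω} {c : P → σ}

/-- the derivations which satisfy the conditions form a vector space -/
def goodD (hKB : ∀ y ∈ K, (fun _ : P => y) ∈ B) (d : ℕ) (p : σ → Ω) (z : Ω) (c : P → σ) :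
    Submodule K (Derivation ℤ Ω Ω) where
  carrier := {D | (∀ k, (fun π => D (p k / p (c π))) ∈ B) ∧
    (fun π => D (z / p (c π) ^ d) / (z / p (c π) ^ d)) ∈ B}
  add_mem' := by
    rintro D D' ⟨h1, h2⟩ ⟨h3, h4⟩
    refine ⟨fun k => ?_, ?_⟩
    · exact mem_congr (B.add_mem (h1 k) (h3 k)) fun π => by
        rw [Pi.add_apply, Derivation.add_apply]
    · exact mem_congr (B.add_mem h2 h4) fun π => by
        rw [Pi.add_apply, Derivation.add_apply, add_div]
  zero_mem' := by
    refine ⟨fun k => ?_, ?_⟩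
    · exact mem_congr B.zero_mem fun π => by
        rw [Pi.zero_apply, Derivation.zero_apply]
    · exact mem_congr B.zero_mem fun π => by
        rw [Pi.zero_apply, Derivation.zero_apply, zero_div]
  smul_mem' := by
    rintro y D ⟨h1, h2⟩
    refine ⟨fun k => ?_, ?_⟩
    · exact mem_congr (B.mul_mem (hKB y y.2) (h1 k)) fun π => by
        rw [Pi.mul_apply, Derivation.smul_apply]; rfl
    · exact mem_congr (B.mul_mem (hKB y y.2) h2) fun π => by
        rw [Pi.mul_apply, Derivation.smul_apply, ← mul_div_assoc]; rfl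

end Good

section DGm

variable {Ω : Type*} [Field Ω] {σ : Type*} [Fintype σ] [DecidableEq σ]
  {K : Subfield Ω} {𝒟 : Submodule K (Derivation ℤ Ω Ω)} {d : ℕ} {p : σ → Ω}
  {D : (σ →₀ ℕ) → Derivation ℤ Ω Ω} {l a b : σ} {al be ga : σ → K}

theorem DG_mem (hD : ∀ I : σ →₀ ℕ, I.degree = d → D I ∈ 𝒟) {G : MvPolynomial (Fin 2) K}
    (hG : G ∈ WW K d) : DG K D d l a b G ∈ 𝒟 := by
  refine WW_induction (P := fun G => DG K D d l a b G ∈ 𝒟) ?_ ?_ ?_ hG
  · intro m hm0
    rw [DG_monomial]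
    exact hD _ (degree_hm hm0)
  · intro Q R hQ hR
    rw [map_add]; exact add_mem hQ hR
  · intro y Q hQ
    rw [map_smul]; exact 𝒟.smul_mem y hQ

end DGm

section LemW

variable {Ω : Type*} [Field Ω] {P : Type*} {σ : Type*} [Fintype σ] [DecidableEq σ]
  {K : Subfield Ω} {B : Subring (P → Ω)} {𝒟 : Submodule K (Derivation ℤ Ω Ω)} {d : ℕ}
  {p : σ → Ω} {z : Ω} {c : P → σ} {D : (σ →₀ ℕ) → Derivation ℤ Ω Ω} {l a b : σ}
  {al be ga : σ → K}

theorem EE_lf (h : Pln D d p l a b al be ga) {Q : MvPolynomial (Fin 2) K}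
    (hQ : ∀ i, UU K D d l a b p i Q = 0) (k : σ) :
    EE K D d l a b p (lf al be ga k * Q) = p k • EE K D d l a b p Q := by
  have h0 := hQ 0
  have h1 := hQ 1
  rw [UU_apply, sub_eq_zero] at h0 h1
  have e0 : (![a, b] : Fin 2 → σ) 0 = a := rfl
  have e1 : (![a, b] : Fin 2 → σ) 1 = b := rfl
  rw [e0] at h0
  rw [e1] at h1
  have e3 : lf al be ga k * Q = al k • Q + be k • (X 0 * Q) + ga k • (X 1 * Q) := by
    simp only [lf, smul_eq_C_mul]
    ring
  rw [e3, map_add, map_add, map_smul, map_smul, map_smul, h0, h1]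
  funext t
  simp only [Pi.add_apply, Pi.smul_apply, smul_eq', smul_eq_mul]
  rw [h.hp k]
  ring

theorem UU_lf {Q : MvPolynomial (Fin 2) K} (i : Fin 2)
    (h0 : UU K D d l a b p i Q = 0) (h1 : ∀ j, UU K D d l a b p i (X j * Q) = 0) (k : σ) :
    UU K D d l a b p i (lf al be ga k * Q) = 0 := by
  have e3 : lf al be ga k * Q = al k • Q + be k • (X 0 * Q) + ga k • (X 1 * Q) := by
    simp only [lf, smul_eq_C_mul]
    ring
  rw [e3, map_add, map_add, map_smul, map_smul, map_smul, h0, h1, h1, smul_zero, smul_zero,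
    smul_zero, add_zero, add_zero]

/-- Polynomials of degree `d - 2` all of whose multiples by linear polynomials lie in the radical
vanish at the point. -/
theorem lemW (L : LB K B 𝒟 d p z c) (h : Pln D d p l a b al be ga)
    (hD𝒟 : ∀ I : σ →₀ ℕ, I.degree = d → D I ∈ 𝒟) (gr : σ → Ω)
    (hzD : ∀ G ∈ WW K d, DG K D d l a b G z =
      evp K (p a) (p b) G + ∑ k, gr k * EE K D d l a b p G k) {e : ℕ} (he : e + 2 = d)
    {Q : MvPolynomial (Fin 2) K} (hQ : Q ∈ WW K e) (h0 : ∀ i, UU K D d l a b p i Q = 0)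
    (h1 : ∀ i j, UU K D d l a b p i (X j * Q) = 0) : evp K (p a) (p b) Q = 0 := by
  classical
  set f := EE K D d l a b p Q with hf
  have hG : ∀ k k' : σ, lf al be ga k * (lf al be ga k' * Q) ∈ WW K d := by
    intro k k'
    have := mul_mem_WW (lf_mem (al := al) (be := be) (ga := ga) k)
      (mul_mem_WW (lf_mem (al := al) (be := be) (ga := ga) k') hQ)
    have e1 : 1 + (1 + e) = d := by omega
    rwa [e1] at this
  have hE : ∀ k k', EE K D d l a b p (lf al be ga k * (lf al be ga k' * Q)) =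
      (p k * p k') • f := by
    intro k k'
    rw [EE_lf h (fun i => UU_lf i (h0 i) (h1 i) k') k, EE_lf h h0 k', smul_smul]
  have hDp : ∀ k k' t, DG K D d l a b (lf al be ga k * (lf al be ga k' * Q)) (p t) =
      p k * p k' * f t := by
    intro k k' t
    have := congrFun (hE k k') t
    rw [EE_apply] at this
    exact this
  have hB : ∀ j, (fun π => p (c π) * f j - p j * f (c π)) ∈ B := by
    intro j
    refine L.glue 2 fun k => ?_
    refine mem_congr (L.hD (DG K D d l a b (lf al be ga k * (lf al be ga k * Q)))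
      (DG_mem hD𝒟 (hG k k)) j) fun π => ?_
    have hcπ := L.hc π
    rw [div_eq_mul_inv, Derivation.leibniz, Derivation.leibniz_inv, hDp, hDp]
    simp only [smul_eq_mul]
    field_simp
    ring
  have hKij : ∀ i j, p i * f j - p j * f i ∈ K := by
    intro i j
    rw [← L.hconst]
    refine mem_congr (B.sub_mem (B.mul_mem (L.hp i) (hB j)) (B.mul_mem (L.hp j) (hB i)))
      fun π => ?_
    have hcπ := L.hc π
    simp only [Pi.sub_apply, Pi.mul_apply]
    field_simp
    ring
  have hfl : f l = 0 := by rw [hf, EE_l h.hpl]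
  have hfK : ∀ j, f j ∈ K := by
    intro j
    have := hKij l j
    rwa [h.hpl, one_mul, hfl, mul_zero, sub_zero] at this
  obtain ⟨-, hfb, hfa⟩ := h.hxy ⟨-(p a * f b - p b * f a), K.neg_mem (hKij a b)⟩
    ⟨f b, hfK b⟩ ⟨-f a, K.neg_mem (hfK a)⟩ (by
      show -(p a * f b - p b * f a) + f b * p a + -f a * p b = 0
      ring)
  have hfa' : f a = 0 := by
    have := congrArg Subtype.val hfa
    exact neg_eq_zero.mp this
  have hf0 : f = 0 := by
    funext j
    have h2 := hKij a j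
    rw [hfa', mul_zero, sub_zero] at h2
    obtain ⟨-, h3, -⟩ := h.hxy ⟨-(p a * f j), K.neg_mem h2⟩ ⟨f j, hfK j⟩ 0 (by
      show -(p a * f j) + f j * p a + ((0 : K) : Ω) * p b = 0
      rw [ZeroMemClass.coe_zero]
      ring)
    exact congrArg Subtype.val h3
  have hDz : ∀ k k', DG K D d l a b (lf al be ga k * (lf al be ga k' * Q)) z =
      p k * p k' * evp K (p a) (p b) Q := by
    intro k k'
    rw [hzD _ (hG k k'), hE, hf0, smul_zero]
    simp only [Pi.zero_apply, mul_zero, Finset.sum_const_zero, add_zero, map_mul, evp_lf]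
    rw [← h.hp k, ← h.hp k']
    ring
  have hKs : ∀ k k', p k * p k' * evp K (p a) (p b) Q / z ∈ K := by
    intro k k'
    rw [← L.hconst]
    refine mem_congr (L.hlog (DG K D d l a b (lf al be ga k * (lf al be ga k' * Q)))
      (DG_mem hD𝒟 (hG k k'))) fun π => ?_
    have hcπ := L.hc π
    have hz := L.hz
    have e1 : DG K D d l a b (lf al be ga k * (lf al be ga k' * Q)) (p (c π)) = 0 := by
      rw [hDp, hf0, Pi.zero_apply, mul_zero]
    have e2 : DG K D d l a b (lf al be ga k * (lf al be ga k' * Q)) (z / p (c π) ^ d) =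
        (p k * p k' * evp K (p a) (p b) Q) / p (c π) ^ d := by
      rw [div_eq_mul_inv, Derivation.leibniz, Derivation.leibniz_inv, Derivation.leibniz_pow, e1,
        hDz]
      simp only [smul_eq_mul, mul_zero, smul_zero, zero_add]
      rw [div_eq_mul_inv]
      ring
    rw [e2]
    have h3 : p (c π) ^ d ≠ 0 := pow_ne_zero _ hcπ
    field_simp
  have h3 := hKs l l
  have h4 := hKs a l
  rw [h.hpl] at h3 h4
  obtain ⟨-, h5, -⟩ := h.hxy ⟨-(p a * 1 * evp K (p a) (p b) Q / z), K.neg_mem h4⟩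
    ⟨1 * 1 * evp K (p a) (p b) Q / z, h3⟩ 0 (by
      show -(p a * 1 * evp K (p a) (p b) Q / z) + 1 * 1 * evp K (p a) (p b) Q / z * p a +
        ((0 : K) : Ω) * p b = 0
      rw [ZeroMemClass.coe_zero]
      ring)
  have h6 : 1 * 1 * evp K (p a) (p b) Q / z = 0 := congrArg Subtype.val h5
  rw [one_mul, one_mul] at h6
  exact (div_eq_zero_iff.mp h6).resolve_right L.hz

end LemW

end Pool.Agent.Lib.MP_44a246_ntB
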