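import Mathlib

/-!
A space of two by three matrices of dimension at least three contains a matrix of rank one.
-/

set_option linter.unusedSectionVars false

namespace Pool.Agent.Lib.MP_44a246_ntB

open Matrix

section Seg

variable {Ω : Type*} [Field Ω] {K : Subfield Ω}

theorem isAlgClosed_sub [IsAlgClosed Ω] (hKa : ∀ y : Ω, IsAlgebraic K y → y ∈ K) :
    IsAlgClosed K := by
  apply IsAlgClosed.of_exists_root
  intro f hf hirr
  have hdeg : (f.map (algebraMap K Ω)).degree ≠ 0 := by
    rw [Polynomial.degree_map]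
    exact hirr.degree_pos.ne'
  obtain ⟨r, hr⟩ := IsAlgClosed.exists_root _ hdeg
  have hr' : Polynomial.aeval r f = 0 := by
    rw [Polynomial.IsRoot.def, Polynomial.eval_map] at hr
    exact hr
  have hrK : r ∈ K := hKa r ⟨f, hf.ne_zero, hr'⟩
  refine ⟨⟨r, hrK⟩, ?_⟩
  apply Subtype.ext
  have h1 : (algebraMap K Ω) (Polynomial.eval (⟨r, hrK⟩ : K) f) = 0 := by
    rw [← Polynomial.eval₂_at_apply]
    exact hr'
  exact h1

/-- two matrices have a singular combination -/
theorem exists_singular [IsAlgClosed K] (A B : Matrix (Fin 3) (Fin 3) K) :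
    ∃ s t : K, (s ≠ 0 ∨ t ≠ 0) ∧ (s • A + t • B).det = 0 := by
  by_cases hA : A.det = 0
  · exact ⟨1, 0, Or.inl one_ne_zero, by rw [one_smul, zero_smul, add_zero, hA]⟩
  · have hAu : IsUnit A.det := isUnit_iff_ne_zero.mpr hA
    obtain ⟨x, hx⟩ := IsAlgClosed.exists_root (A⁻¹ * B).charpoly (by
      rw [Matrix.charpoly_degree_eq_dim]
      simp)
    rw [Polynomial.IsRoot.def, Matrix.eval_charpoly] at hx
    refine ⟨x, -1, Or.inr (neg_ne_zero.mpr one_ne_zero), ?_⟩
    have h1 : x • A + (-1 : K) • B = A * (scalar (Fin 3) x - A⁻¹ * B) := by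
      rw [Matrix.mul_sub, ← Matrix.mul_assoc, mul_nonsing_inv A hAu, Matrix.one_mul]
      have : A * scalar (Fin 3) x = x • A := by
        rw [← scalar_commute x (fun r => mul_comm _ _) A]
        ext i j
        simp
      rw [this, neg_smul, one_smul, sub_eq_add_neg]
    rw [h1, det_mul, hx, mul_zero]

theorem segre [IsAlgClosed K] (μ₁ μ₂ : Fin 3 → Ω) :
    (∃ (χ : Ω →ₗ[K] K) (s t : K), (s ≠ 0 ∨ t ≠ 0) ∧ (∀ u, s * χ (μ₁ u) + t * χ (μ₂ u) = 0) ∧
      ∃ u, χ (μ₁ u) ≠ 0 ∨ χ (μ₂ u) ≠ 0) ∨
    ∃ (θ₁ θ₂ : Ω) (A₁ A₂ B₁ B₂ : Fin 3 → K), (∀ u, μ₁ u = θ₁ * A₁ u + θ₂ * B₁ u) ∧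
      ∀ u, μ₂ u = θ₁ * A₂ u + θ₂ * B₂ u := by
  classical
  set f : Fin 3 ⊕ Fin 3 → Ω := Sum.elim μ₁ μ₂ with hf
  set V := Submodule.span K (Set.range f) with hV
  have hfin : FiniteDimensional K V := FiniteDimensional.span_of_finite K (Set.finite_range f)
  have hfV : ∀ i, f i ∈ V := fun i => Submodule.subset_span ⟨i, rfl⟩
  let b := Module.finBasis K V
  by_cases hn : Module.finrank K V ≤ 2
  · right
    -- coordinates
    let c : Fin 2 → Ω := fun j => if h : (j : ℕ) < Module.finrank K V then (b ⟨j, h⟩ : Ω) else 0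
    let k : Fin 3 ⊕ Fin 3 → Fin 2 → K := fun i j =>
      if h : (j : ℕ) < Module.finrank K V then b.repr ⟨f i, hfV i⟩ ⟨j, h⟩ else 0
    have key : ∀ i, f i = c 0 * k i 0 + c 1 * k i 1 := by
      intro i
      have h1 := congrArg Subtype.val (b.sum_repr ⟨f i, hfV i⟩)
      rw [AddSubmonoidClass.coe_finsetSum] at h1
      have h2 : f i = ∑ j : Fin 2, c j * (k i j : Ω) := by
        refine Eq.trans (show f i = _ from h1.symm) ?_
        symm
        let e : Fin (Module.finrank K V) → Fin 2 := fun j => ⟨j, lt_of_lt_of_le j.2 hn⟩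
        have he : Function.Injective e := by
          intro j j' h
          exact Fin.ext (congrArg (fun z : Fin 2 => (z : ℕ)) h)
        have h3 : ∑ j : Fin 2, c j * (k i j : Ω) =
            ∑ j ∈ Finset.univ.map ⟨e, he⟩, c j * (k i j : Ω) := by
          symm
          apply Finset.sum_subset (Finset.subset_univ _)
          intro j _ hj
          have : ¬ (j : ℕ) < Module.finrank K V := by
            intro hlt
            apply hj
            rw [Finset.mem_map]
            exact ⟨⟨j, hlt⟩, Finset.mem_univ _, Fin.ext rfl⟩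
          simp only [c, dif_neg this, zero_mul]
        rw [h3, Finset.sum_map]
        refine Finset.sum_congr rfl fun j _ => ?_
        have hlt : ((e j : Fin 2) : ℕ) < Module.finrank K V := j.2
        simp only [Function.Embedding.coeFn_mk, c, k, dif_pos hlt]
        show ((b j : V) : Ω) * ((b.repr ⟨f i, hfV i⟩ j : K) : Ω) = _
        rw [mul_comm]
        rfl
      rw [h2, Fin.sum_univ_two]
    exact ⟨c 0, c 1, fun u => k (Sum.inl u) 0, fun u => k (Sum.inr u) 0,
      fun u => k (Sum.inl u) 1, fun u => k (Sum.inr u) 1, fun u => key (Sum.inl u),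
      fun u => key (Sum.inr u)⟩
  · left
    push Not at hn
    let ix : Fin 3 → Fin (Module.finrank K V) := fun i => ⟨i, lt_of_lt_of_le i.2 hn⟩
    have hix : Function.Injective ix := by
      intro j j' h
      exact Fin.ext (congrArg (fun z : Fin (Module.finrank K V) => (z : ℕ)) h)
    choose χ hχ using fun i : Fin 3 => LinearMap.exists_extend (b.coord (ix i))
    have hχb : ∀ i j, χ i (b (ix j) : Ω) = if i = j then 1 else 0 := by
      intro i j
      have h1 := congrArg (fun g => g (b (ix j))) (hχ i)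
      have h2 : χ i (b (ix j) : Ω) = b.coord (ix i) (b (ix j)) := h1
      rw [h2, Module.Basis.coord_apply, Module.Basis.repr_self, Finsupp.single_apply]
      by_cases hij : i = j
      · subst hij; simp
      · rw [if_neg hij, if_neg (fun h => hij (hix h).symm)]
    obtain ⟨s, t, hst, hdet⟩ := exists_singular (Matrix.of fun i u => χ i (μ₁ u))
      (Matrix.of fun i u => χ i (μ₂ u))
    obtain ⟨lam, hlam0, hlam⟩ := exists_vecMul_eq_zero_iff.mpr hdet
    refine ⟨∑ i, lam i • χ i, s, t, hst, fun u => ?_, ?_⟩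
    · have h1 := congrFun hlam u
      simp only [vecMul, dotProduct, Matrix.add_apply, Matrix.smul_apply, Matrix.of_apply,
        smul_eq_mul, Pi.zero_apply] at h1
      simp only [LinearMap.sum_apply, LinearMap.smul_apply, smul_eq_mul]
      rw [Finset.mul_sum, Finset.mul_sum, ← Finset.sum_add_distrib, ← h1]
      refine Finset.sum_congr rfl fun i _ => ?_
      ring
    · by_contra hcon
      push Not at hcon
      apply hlam0
      have h1 : ∀ y ∈ V, (∑ i, lam i • χ i) y = 0 := by
        intro y hy
        induction hy using Submodule.span_induction with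
        | mem x hx =>
          obtain ⟨i, rfl⟩ := hx
          rcases i with u | u
          · exact (hcon u).1
          · exact (hcon u).2
        | zero => exact map_zero _
        | add x y _ _ hx hy => rw [map_add, hx, hy, add_zero]
        | smul k x _ hx => rw [map_smul, hx, smul_zero]
      funext j
      have h2 := h1 (b (ix j)) (b (ix j)).2
      simp only [LinearMap.sum_apply, LinearMap.smul_apply, smul_eq_mul, hχb, mul_ite, mul_one,
        mul_zero, Finset.sum_ite_eq', Finset.mem_univ, if_true] at h2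
      exact h2

end Seg

end Pool.Agent.Lib.MP_44a246_ntB
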