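import Mathlib
import Pool.Agent.Lib.MP_44a246_ntB.KS
import Pool.Agent.Lib.MP_44a246_ntB.Seg
import Pool.Agent.Lib.MP_44a246_ntB.LSys
import Pool.Agent.Lib.MP_e52354_ntP.Back1

/-!
One slot: a two-dimensional quotient of the tangent space with determinants in the subfield.
Either a product of two linear polynomials generates elements of the kernel of the slot, or the
point lies on a conic parametrised over the subfield.
-/

set_option linter.unusedSectionVars false

namespace Pool.Agent.Lib.MP_44a246_ntB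

open Pool.Agent.Lib.MP_e52354_nt Pool.Agent.Lib.MP_e52354_ntP
open MvPolynomial

section Slot

variable {Ω : Type*} [Field Ω] [CharZero Ω] {σ : Type*} [Fintype σ] [DecidableEq σ]
  {K : Subfield Ω} {d : ℕ} {p : σ → Ω} {D : (σ →₀ ℕ) → Derivation ℤ Ω Ω} {l a b : σ}
  {al be ga : σ → K}

/-- the restrictions of the partial derivatives to the plane, and the equivariance relations -/
structure PData (D : (σ →₀ ℕ) → Derivation ℤ Ω Ω) (d : ℕ) (p : σ → Ω) (l a b : σ) (e : ℕ)
    (PP : σ → MvPolynomial (Fin 2) K) : Prop where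
  hmem : ∀ u, PP u ∈ WW K e
  hE : ∀ u, EE K D d l a b p (PP u) = (if u = l then (1 : Ω) else 0) • p - Pi.single u 1
  hU : ∀ u i, UU K D d l a b p i (PP u) = 0
  hne : ∑ u, p u * evp K (p a) (p b) (PP u) ≠ 0

/-- The second case of the dichotomy is impossible. -/
theorem case_two_log (h : Pln D d p l a b al be ga) {e : ℕ} {PP : σ → MvPolynomial (Fin 2) K}
    (hP : PData D d p l a b e PP)
    (Φ : (σ → Ω) →ₗ[Ω] Ω) (hΦ : Φ p = 0)
    (g : MvPolynomial (Fin 2) K →ₗ[K] K) {n₁ n₂ : Ω} (hn : n₁ ≠ 0 ∨ n₂ ≠ 0)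
    (h1 : ∀ Q ∈ WW K e, Φ (UU K D d l a b p 0 Q) = - n₂ * (g Q : Ω))
    (h2 : ∀ Q ∈ WW K e, Φ (UU K D d l a b p 1 Q) = n₁ * (g Q : Ω))
    {c₀ : MvPolynomial (Fin 2) K} (hc₀ : c₀ ∈ WW K e) (hg : g c₀ ≠ 0) : False := by
  let Ψ : MvPolynomial (Fin 2) K →ₗ[K] Ω := (Φ.restrictScalars K) ∘ₗ EE K D d l a b p
  have hΨ : ∀ Q, Ψ Q = Φ (EE K D d l a b p Q) := fun _ => rfl
  have e1 : ∀ Q : MvPolynomial (Fin 2) K, Q.totalDegree ≤ e →
      Ψ (MvPolynomial.X 0 * Q) = p a * Ψ Q - n₂ * (g Q : Ω) := by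
    intro Q hQ
    have h3 := h1 Q (mem_WW.mpr hQ)
    rw [UU_apply, map_sub, map_smul, smul_eq_mul] at h3
    rw [hΨ, hΨ]
    have h4 : p (![a, b] 0) = p a := rfl
    rw [h4] at h3
    linear_combination h3
  have e2 : ∀ Q : MvPolynomial (Fin 2) K, Q.totalDegree ≤ e →
      Ψ (MvPolynomial.X 1 * Q) = p b * Ψ Q + n₁ * (g Q : Ω) := by
    intro Q hQ
    have h3 := h2 Q (mem_WW.mpr hQ)
    rw [UU_apply, map_sub, map_smul, smul_eq_mul] at h3
    rw [hΨ, hΨ]
    have h4 : p (![a, b] 1) = p b := rfl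
    rw [h4] at h3
    linear_combination h3
  obtain ⟨θ, κ, hθ⟩ := almost_eval h.hxy Ψ g hn e1 e2
  have hgP : ∀ i, g (PP i) = 0 := by
    intro i
    have h3 := h1 (PP i) (hP.hmem i)
    have h4 := h2 (PP i) (hP.hmem i)
    rw [hP.hU, map_zero] at h3 h4
    apply Subtype.ext
    rcases hn with hn | hn
    · exact (mul_eq_zero.mp h4.symm).resolve_left hn
    · exact (mul_eq_zero.mp h3.symm).resolve_left (neg_ne_zero.mpr hn)
  have hΦe : ∀ i, Φ (Pi.single i 1) = - κ * evp K (p a) (p b) (PP i) := by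
    intro i
    have h3 := hθ _ (mem_WW.mp (hP.hmem i))
    rw [hgP, hΨ, hP.hE, map_sub, map_smul, hΦ, smul_zero] at h3
    rw [ZeroMemClass.coe_zero, mul_zero] at h3
    linear_combination -h3
  have hΦz : ∀ v : σ → Ω, Φ v = - κ * ∑ i, v i * evp K (p a) (p b) (PP i) := by
    intro v
    have h3 : v = ∑ i, v i • (Pi.single i (1 : Ω) : σ → Ω) := by
      funext k
      rw [Finset.sum_apply]
      simp [Pi.single_apply]
    conv_lhs => rw [h3]
    rw [map_sum, Finset.mul_sum]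
    refine Finset.sum_congr rfl fun i _ => ?_
    rw [map_smul, hΦe, smul_eq_mul]
    ring
  have hκ : κ = 0 := by
    have h3 := hΦz p
    rw [hΦ] at h3
    rcases mul_eq_zero.mp h3.symm with h4 | h4
    · exact neg_eq_zero.mp h4
    · exact absurd h4 hP.hne
  have hΦ0 : ∀ v, Φ v = 0 := by
    intro v
    rw [hΦz, hκ, neg_zero, zero_mul]
  have h3 := h1 c₀ hc₀
  have h4 := h2 c₀ hc₀
  rw [hΦ0] at h3 h4
  have hg' : (g c₀ : Ω) ≠ 0 := fun h0 => hg (Subtype.ext h0)
  rcases hn with hn | hn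
  · exact mul_ne_zero hn hg' h4.symm
  · exact mul_ne_zero (neg_ne_zero.mpr hn) hg' h3.symm

/-- the matrix of a slot -/
noncomputable def slotM (K : Subfield Ω) (D : (σ →₀ ℕ) → Derivation ℤ Ω Ω) (d : ℕ) (l a b : σ)
    (p : σ → Ω) (e : ℕ) (L : Fin 2 → (σ → Ω) →ₗ[Ω] Ω) :
    WW K e →ₗ[K] Matrix (Fin 2) (Fin 2) Ω where
  toFun Q := Matrix.of fun j j' => L j (UU K D d l a b p j' (Q : MvPolynomial (Fin 2) K))
  map_add' := by
    intro Q Q'
    ext j j'
    simp only [Matrix.of_apply, Matrix.add_apply, Submodule.coe_add, map_add]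
  map_smul' := by
    intro c Q
    ext j j'
    simp only [Matrix.of_apply, Matrix.smul_apply, Submodule.coe_smul, RingHom.id_apply]
    rw [map_smul]
    have : c • UU K D d l a b p j' (Q : MvPolynomial (Fin 2) K) =
        (c : Ω) • UU K D d l a b p j' (Q : MvPolynomial (Fin 2) K) := rfl
    rw [this, map_smul]
    rfl

theorem slotM_apply {e : ℕ} (L : Fin 2 → (σ → Ω) →ₗ[Ω] Ω) (Q : WW K e) (j j' : Fin 2) :
    slotM K D d l a b p e L Q j j' =
      L j (UU K D d l a b p j' (Q : MvPolynomial (Fin 2) K)) := rfl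

/-- data of a slot -/
structure SlotD (K : Subfield Ω) (D : (σ →₀ ℕ) → Derivation ℤ Ω Ω) (d : ℕ) (l a b : σ)
    (p : σ → Ω) (e : ℕ) (L : Fin 2 → (σ → Ω) →ₗ[Ω] Ω) (c₀ : MvPolynomial (Fin 2) K) : Prop where
  hLp : ∀ j, L j p = 0
  hc₀ : c₀ ∈ WW K e
  h1 : ∀ j j', L j (UU K D d l a b p j' c₀) = if j = j' then 1 else 0
  hK : ∀ Q ∈ WW K e, L 0 (UU K D d l a b p 0 Q) * L 1 (UU K D d l a b p 1 Q) -
    L 1 (UU K D d l a b p 0 Q) * L 0 (UU K D d l a b p 1 Q) ∈ K

theorem SlotD.kfam (hKa : ∀ y : Ω, IsAlgebraic K y → y ∈ K)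
    (h : Pln D d p l a b al be ga) {e : ℕ} {PP : σ → MvPolynomial (Fin 2) K}
    (hP : PData D d p l a b e PP) {L : Fin 2 → (σ → Ω) →ₗ[Ω] Ω} {c₀ : MvPolynomial (Fin 2) K}
    (hS : SlotD K D d l a b p e L c₀) :
    KFam (slotM K D d l a b p e L) ⟨c₀, hS.hc₀⟩ := by
  classical
  have hsq : ∀ y : Ω, y ^ 2 ∈ K → y ∈ K := by
    intro y hy
    refine mem_of_quad hKa (a := 1) (b := 0) (c := - y ^ 2) K.one_mem K.zero_mem (K.neg_mem hy)
      one_ne_zero ?_
    ring
  let vL : Fin 2 → Fin 2 → (WW K e →ₗ[K] Ω) := fun j j' =>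
    ((L j).restrictScalars K) ∘ₗ (UU K D d l a b p j') ∘ₗ (WW K e).subtype
  have hvL : ∀ j j' Q, vL j j' Q = slotM K D d l a b p e L Q j j' := fun _ _ _ => rfl
  have hq : ∀ Q, vL 0 0 Q * vL 1 1 Q - vL 1 0 Q * vL 0 1 Q ∈ K := fun Q => hS.hK Q Q.2
  refine ⟨fun Q => ?_, ?_, ?_⟩
  · rw [Matrix.det_fin_two]
    have := hq Q
    rw [hvL, hvL, hvL, hvL] at this
    rwa [mul_comm (slotM K D d l a b p e L Q 0 1)]
  · ext j j'
    rw [slotM_apply, Matrix.one_apply]
    exact hS.h1 j j'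
  · rcases dich_rad (vL 0 0) (vL 1 0) (vL 0 1) (vL 1 1) hsq hq (c₀ := ⟨c₀, hS.hc₀⟩)
      (hS.h1 0 0) (by exact hS.h1 1 0) (by exact hS.h1 0 1) (hS.h1 1 1) with
      hrad | ⟨n₁, n₂, φ₁, φ₂, g, hn₁, hg, hgQ⟩
    · intro Q hQ
      have h2 : Q ∈ radB (vL 0 0) (vL 1 0) (vL 0 1) (vL 1 1) := by
        rw [mem_radB]
        intro Q'
        have h3 := hQ Q'
        rw [map_add, det_add_two] at h3
        unfold polB
        unfold pol at h3
        simp only [hvL]
        linear_combination h3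
      obtain ⟨h3, h4, h5, h6⟩ := hrad Q h2
      ext j j'
      fin_cases j <;> fin_cases j'
      · exact h3
      · exact h5
      · exact h4
      · exact h6
    · exfalso
      obtain ⟨g', hg'⟩ := LinearMap.exists_extend g
      have hgg : ∀ Q (hQ : Q ∈ WW K e), g' Q = g ⟨Q, hQ⟩ := by
        intro Q hQ
        exact LinearMap.congr_fun hg' ⟨Q, hQ⟩
      refine case_two_log h hP (φ₁ • L 0 + φ₂ • L 1) ?_ g' hn₁ ?_ ?_ (c₀ := c₀) hS.hc₀ ?_
      · rw [LinearMap.add_apply, LinearMap.smul_apply, LinearMap.smul_apply, hS.hLp, hS.hLp,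
          smul_zero, smul_zero, add_zero]
      · intro Q hQ
        rw [hgg Q hQ, ← (hgQ ⟨Q, hQ⟩).1]
        rfl
      · intro Q hQ
        rw [hgg Q hQ, ← (hgQ ⟨Q, hQ⟩).2]
        rfl
      · rw [hgg _ hS.hc₀]
        exact hg

/-- the combination of the two vectors -/
noncomputable def TV (K : Subfield Ω) (D : (σ →₀ ℕ) → Derivation ℤ Ω Ω) (d : ℕ) (l a b : σ)
    (p : σ → Ω) (v : Fin 2 → Ω) (Q : MvPolynomial (Fin 2) K) : σ → Ω :=
  v 0 • UU K D d l a b p 0 Q + v 1 • UU K D d l a b p 1 Q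

/-- the coefficients of the linear form attached to `v` -/
def muV (p : σ → Ω) (a b : σ) (v : Fin 2 → Ω) : Fin 3 → Ω :=
  ![-(v 0 * p a + v 1 * p b), v 0, v 1]

/-- the coordinates -/
noncomputable def xs (K : Subfield Ω) : Fin 3 → MvPolynomial (Fin 2) K := ![1, X 0, X 1]

theorem UU_comm (Q : MvPolynomial (Fin 2) K) :
    UU K D d l a b p 0 (X 1 * Q) - p b • UU K D d l a b p 0 Q =
      UU K D d l a b p 1 (X 0 * Q) - p a • UU K D d l a b p 1 Q := by
  have e0 : (![a, b] : Fin 2 → σ) 0 = a := rfl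
  have e1 : (![a, b] : Fin 2 → σ) 1 = b := rfl
  rw [UU_apply, UU_apply, UU_apply, UU_apply, e0, e1]
  have : (X 0 * (X 1 * Q) : MvPolynomial (Fin 2) K) = X 1 * (X 0 * Q) := by ring
  rw [this]
  funext t
  simp only [Pi.sub_apply, Pi.smul_apply, smul_eq_mul]
  ring

theorem TV_symm (v w : Fin 2 → Ω) (Q : MvPolynomial (Fin 2) K) :
    ∑ u, muV p a b w u • TV K D d l a b p v (xs K u * Q) =
      ∑ u, muV p a b v u • TV K D d l a b p w (xs K u * Q) := by
  have h1 := UU_comm (D := D) (d := d) (l := l) (a := a) (b := b) (p := p) Q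
  funext t
  have h2 := congrFun h1 t
  simp only [Pi.sub_apply, Pi.smul_apply, smul_eq_mul] at h2
  simp only [Fin.sum_univ_three, muV, xs, TV, Matrix.cons_val_zero, Matrix.cons_val_one,
    Matrix.cons_val, Pi.add_apply, Pi.smul_apply, smul_eq_mul, one_mul]
  linear_combination (w 1 * v 0 - v 1 * w 0) * h2

/-- the linear polynomial with given coefficients -/
noncomputable def linP (c : Fin 3 → K) : MvPolynomial (Fin 2) K := ∑ u, c u • xs K u

theorem linP_mem (c : Fin 3 → K) : linP c ∈ WW K 1 := by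
  unfold linP
  refine Submodule.sum_mem _ fun u _ => Submodule.smul_mem _ _ ?_
  fin_cases u
  · exact C_mem_WW 1 1
  · exact X_mem_WW le_rfl 0
  · exact X_mem_WW le_rfl 1

theorem evp_linP (c : Fin 3 → K) (x y : Ω) : evp K x y (linP c) =
    (c 0 : Ω) + c 1 * x + c 2 * y := by
  unfold linP
  rw [map_sum, Fin.sum_univ_three]
  simp only [xs, Matrix.cons_val_zero, Matrix.cons_val_one, Matrix.cons_val,
    map_smul, map_one, evp_X0, evp_X1]
  show (c 0 : Ω) * 1 + c 1 * x + c 2 * y = _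
  ring

theorem evp_linP_ne (h : Pln D d p l a b al be ga) {c : Fin 3 → K} (hc : c ≠ 0) :
    evp K (p a) (p b) (linP c) ≠ 0 := by
  intro h0
  rw [evp_linP] at h0
  obtain ⟨h1, h2, h3⟩ := h.hxy _ _ _ h0
  apply hc
  funext u
  fin_cases u
  · exact h1
  · exact h2
  · exact h3

/-- the first alternative: products of two linear polynomials generate elements of the kernel -/
theorem slot_seg {e : ℕ} {L : Fin 2 → (σ → Ω) →ₗ[Ω] Ω} {G H : Matrix (Fin 2) (Fin 2) Ω}
    (hHG : H * G = 1) (hA : ∀ Q i j, (H * slotM K D d l a b p e L Q * G) i j ∈ K)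
    (χ : Ω →ₗ[K] K) (h0 : ∀ u, χ (muV p a b (fun j => G j 0) u) = 0)
    (h1 : ∃ u, χ (muV p a b (fun j => G j 1) u) ≠ 0) :
    ∃ n m : Fin 3 → K, n ≠ 0 ∧ m ≠ 0 ∧ ∀ Q : MvPolynomial (Fin 2) K, ∀ k, Q ∈ WW K k →
      k + 2 ≤ e → ∀ j j', L j (UU K D d l a b p j' (linP n * linP m * Q)) = 0 := by
  classical
  have hGH : G * H = 1 := mul_eq_one_comm.mp hHG
  set v : Fin 2 → Fin 2 → Ω := fun k j => G j k with hv
  -- values in K
  let A : Fin 2 → Fin 2 → (WW K e →ₗ[K] K) := fun i k =>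
    { toFun := fun Q => ⟨(H * slotM K D d l a b p e L Q * G) i k, hA Q i k⟩
      map_add' := by
        intro Q Q'
        apply Subtype.ext
        show (H * slotM K D d l a b p e L (Q + Q') * G) i k = _
        rw [map_add, Matrix.mul_add, Matrix.add_mul]
        rfl
      map_smul' := by
        intro c Q
        apply Subtype.ext
        show (H * slotM K D d l a b p e L (c • Q) * G) i k = _
        rw [map_smul, Matrix.mul_smul, Matrix.smul_mul]
        rfl }
  have hAv : ∀ i k Q, ((A i k Q : K) : Ω) = (H * slotM K D d l a b p e L Q * G) i k :=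
    fun _ _ _ => rfl
  have hLT : ∀ j k (Q : WW K e), L j (TV K D d l a b p (v k) (Q : MvPolynomial (Fin 2) K)) =
      (slotM K D d l a b p e L Q * G) j k := by
    intro j k Q
    rw [Matrix.mul_apply, Fin.sum_univ_two, TV, map_add, map_smul, map_smul, slotM_apply,
      slotM_apply, smul_eq_mul, smul_eq_mul]
    ring
  have hx : ∀ (u : Fin 3) {Q : MvPolynomial (Fin 2) K} {k : ℕ}, Q ∈ WW K k → k + 1 ≤ e →
      xs K u * Q ∈ WW K e := by
    intro u Q k hQ hk
    fin_cases u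
    · show (1 : MvPolynomial (Fin 2) K) * Q ∈ WW K e
      rw [one_mul]
      exact WW_mono (by omega) hQ
    · exact WW_mono hk (X_mul_mem 0 hQ)
    · exact WW_mono hk (X_mul_mem 1 hQ)
  -- the symmetry
  have hsym : ∀ (Q : MvPolynomial (Fin 2) K) (k : ℕ) (hQ : Q ∈ WW K k) (hk : k + 1 ≤ e) (i : Fin 2),
      ∑ u, muV p a b (v 1) u * ((A i 0 ⟨xs K u * Q, hx u hQ hk⟩ : K) : Ω) =
        ∑ u, muV p a b (v 0) u * ((A i 1 ⟨xs K u * Q, hx u hQ hk⟩ : K) : Ω) := by
    intro Q k hQ hk i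
    have h2 := TV_symm (D := D) (d := d) (l := l) (a := a) (b := b) (p := p) (v 0) (v 1) Q
    have h3 : ∀ j, ∑ u, muV p a b (v 1) u *
        (slotM K D d l a b p e L ⟨xs K u * Q, hx u hQ hk⟩ * G) j 0 =
        ∑ u, muV p a b (v 0) u *
          (slotM K D d l a b p e L ⟨xs K u * Q, hx u hQ hk⟩ * G) j 1 := by
      intro j
      have h4 := congrArg (L j) h2
      rw [map_sum, map_sum] at h4
      simp only [map_smul, smul_eq_mul] at h4
      rw [Finset.sum_congr rfl fun u _ => by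
        rw [← hLT j 0 ⟨xs K u * Q, hx u hQ hk⟩]]
      rw [h4]
      refine Finset.sum_congr rfl fun u _ => ?_
      rw [← hLT j 1 ⟨xs K u * Q, hx u hQ hk⟩]
    have hmulH : ∀ (X : Matrix (Fin 2) (Fin 2) Ω) i k, (H * X) i k = ∑ j, H i j * X j k :=
      fun _ _ _ => Matrix.mul_apply
    simp only [hAv, Matrix.mul_assoc]
    simp only [hmulH, Finset.mul_sum]
    rw [Finset.sum_comm, Finset.sum_comm (γ := Fin 3)]
    refine Finset.sum_congr rfl fun j _ => ?_
    have h5 := h3 j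
    calc ∑ u, muV p a b (v 1) u * (H i j *
          (slotM K D d l a b p e L ⟨xs K u * Q, hx u hQ hk⟩ * G) j 0)
        = H i j * ∑ u, muV p a b (v 1) u *
          (slotM K D d l a b p e L ⟨xs K u * Q, hx u hQ hk⟩ * G) j 0 := by
          rw [Finset.mul_sum]
          exact Finset.sum_congr rfl fun u _ => by ring
      _ = _ := by
          rw [h5, Finset.mul_sum]
          exact Finset.sum_congr rfl fun u _ => by ring
  -- apply functionals
  have hmulW : ∀ (c : Fin 3 → K) {Q : MvPolynomial (Fin 2) K} {k : ℕ}, Q ∈ WW K k → k + 1 ≤ e →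
      linP c * Q ∈ WW K e := by
    intro c Q k hQ hk
    exact WW_mono (by omega) (mul_mem_WW (linP_mem c) hQ)
  have hfun : ∀ (ψ : Ω →ₗ[K] K) (Q : MvPolynomial (Fin 2) K) (k : ℕ) (hQ : Q ∈ WW K k)
      (hk : k + 1 ≤ e) (i : Fin 2),
      A i 0 ⟨linP (fun u => ψ (muV p a b (v 1) u)) * Q, hmulW _ hQ hk⟩ =
        A i 1 ⟨linP (fun u => ψ (muV p a b (v 0) u)) * Q, hmulW _ hQ hk⟩ := by
    intro ψ Q k hQ hk i
    have h2 := congrArg ψ (hsym Q k hQ hk i)
    rw [map_sum, map_sum] at h2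
    have h3 : ∀ (y : Ω) (c : K), ψ (y * (c : Ω)) = ψ y * c := by
      intro y c
      have : y * (c : Ω) = c • y := by rw [mul_comm]; rfl
      rw [this, map_smul, smul_eq_mul, mul_comm]
    simp only [h3] at h2
    have h4 : ∀ (c : Fin 3 → K) (i' : Fin 2), A i i' ⟨linP c * Q, hmulW c hQ hk⟩ =
        ∑ u, c u * A i i' ⟨xs K u * Q, hx u hQ hk⟩ := by
      intro c i'
      have : (⟨linP c * Q, hmulW c hQ hk⟩ : WW K e) =
          ∑ u, c u • ⟨xs K u * Q, hx u hQ hk⟩ := by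
        apply Subtype.ext
        rw [AddSubmonoidClass.coe_finsetSum]
        show linP c * Q = ∑ u, c u • (xs K u * Q)
        unfold linP
        rw [Finset.sum_mul]
        exact Finset.sum_congr rfl fun u _ => smul_mul_assoc _ _ _
      rw [this, map_sum]
      simp only [map_smul, smul_eq_mul]
    rw [h4, h4]
    exact h2
  -- the two linear polynomials
  set m : Fin 3 → K := fun u => χ (muV p a b (v 1) u) with hm
  have hm0 : m ≠ 0 := by
    obtain ⟨u, hu⟩ := h1
    intro h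
    exact hu (congrFun h u)
  have hv0 : ∃ u, muV p a b (v 0) u ≠ 0 := by
    by_contra hcon
    push Not at hcon
    have e1 := hcon 1
    have e2 := hcon 2
    have e1' : G 0 0 = 0 := e1
    have e2' : G 1 0 = 0 := e2
    have h2 := congrFun (congrFun hHG 0) 0
    rw [Matrix.mul_apply, Fin.sum_univ_two, e1', e2', mul_zero, mul_zero, add_zero,
      Matrix.one_apply_eq] at h2
    exact zero_ne_one h2
  obtain ⟨u₀, hu₀⟩ := hv0
  obtain ⟨ψ, hψ⟩ : ∃ ψ : Ω →ₗ[K] K, ψ (muV p a b (v 0) u₀) ≠ 0 := by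
    by_contra hcon
    push Not at hcon
    exact hu₀ ((Module.forall_dual_apply_eq_zero_iff K _).mp hcon)
  set n : Fin 3 → K := fun u => ψ (muV p a b (v 0) u) with hn
  have hn0 : n ≠ 0 := fun h => hψ (congrFun h u₀)
  refine ⟨n, m, hn0, hm0, ?_⟩
  intro Q k hQ hk j j'
  have hA0 : ∀ (Q' : MvPolynomial (Fin 2) K) (k' : ℕ) (hQ' : Q' ∈ WW K k') (hk' : k' + 1 ≤ e)
      (i : Fin 2), A i 0 ⟨linP m * Q', hmulW m hQ' hk'⟩ = 0 := by
    intro Q' k' hQ' hk' i
    rw [hfun χ Q' k' hQ' hk' i]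
    have h2 : (⟨linP (fun u => χ (muV p a b (v 0) u)) * Q', hmulW _ hQ' hk'⟩ : WW K e) = 0 := by
      apply Subtype.ext
      show linP (fun u => χ (muV p a b (v 0) u)) * Q' = 0
      have : linP (fun u => χ (muV p a b (v 0) u)) = 0 := by
        unfold linP
        refine Finset.sum_eq_zero fun u _ => ?_
        show χ (muV p a b (v 0) u) • xs K u = 0
        rw [show χ (muV p a b (v 0) u) = 0 from h0 u, zero_smul]
      rw [this, zero_mul]
    rw [h2, map_zero]
  have hmem : ∀ c : Fin 3 → K, linP c * Q ∈ WW K (k + 1) := by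
    intro c
    have := mul_mem_WW (linP_mem c) hQ
    rwa [add_comm] at this
  have hmn : linP n * linP m * Q ∈ WW K e := by
    have := hmulW n (hmem m) (by omega)
    rwa [← mul_assoc] at this
  have hall : ∀ i i', A i i' ⟨linP n * linP m * Q, hmn⟩ = 0 := by
    intro i i'
    fin_cases i'
    · have h2 := hA0 (linP n * Q) (k + 1) (hmem n) (by omega) i
      have h3 : (⟨linP n * linP m * Q, hmn⟩ : WW K e) =
          ⟨linP m * (linP n * Q), hmulW m (hmem n) (by omega)⟩ := by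
        apply Subtype.ext
        show linP n * linP m * Q = linP m * (linP n * Q)
        ring
      show A i 0 _ = 0
      rw [h3]; exact h2
    · have h2 := hfun ψ (linP m * Q) (k + 1) (hmem m) (by omega) i
      have h3 : (⟨linP n * linP m * Q, hmn⟩ : WW K e) =
          ⟨linP (fun u => ψ (muV p a b (v 0) u)) * (linP m * Q), hmulW _ (hmem m) (by omega)⟩ := by
        apply Subtype.ext
        show linP n * linP m * Q = linP n * (linP m * Q)
        ring
      show A i 1 _ = 0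
      rw [h3, ← h2]
      have h4 := hA0 (linP (fun u => ψ (muV p a b (v 1) u)) * Q) (k + 1) (hmem _) (by omega) i
      have h5 : (⟨linP (fun u => ψ (muV p a b (v 1) u)) * (linP m * Q),
          hmulW _ (hmem m) (by omega)⟩ : WW K e) =
          ⟨linP m * (linP (fun u => ψ (muV p a b (v 1) u)) * Q), hmulW m (hmem _) (by omega)⟩ := by
        apply Subtype.ext
        show _ * (_ * Q) = _ * (_ * Q)
        ring
      rw [h5]; exact h4
  have hM0 : H * slotM K D d l a b p e L ⟨linP n * linP m * Q, hmn⟩ * G = 0 := by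
    ext i i'
    rw [← hAv, hall i i']
    rfl
  have hM : slotM K D d l a b p e L ⟨linP n * linP m * Q, hmn⟩ = 0 := by
    have h2 : slotM K D d l a b p e L ⟨linP n * linP m * Q, hmn⟩ =
        G * (H * slotM K D d l a b p e L ⟨linP n * linP m * Q, hmn⟩ * G) * H := by
      rw [← Matrix.mul_assoc, ← Matrix.mul_assoc, hGH, Matrix.one_mul, Matrix.mul_assoc, hGH,
        Matrix.mul_one]
    rw [h2, hM0, Matrix.mul_zero, Matrix.zero_mul]
  have h2 := congrFun (congrFun hM j) j'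
  exact h2

/-- The two alternatives of a slot. -/
theorem slot_alt [IsAlgClosed Ω] (hKa : ∀ y : Ω, IsAlgebraic K y → y ∈ K)
    (h : Pln D d p l a b al be ga) {e : ℕ} {PP : σ → MvPolynomial (Fin 2) K}
    (hP : PData D d p l a b e PP) {L : Fin 2 → (σ → Ω) →ₗ[Ω] Ω} {c₀ : MvPolynomial (Fin 2) K}
    (hS : SlotD K D d l a b p e L c₀) :
    (∃ n m : Fin 3 → K, n ≠ 0 ∧ m ≠ 0 ∧ ∀ Q : MvPolynomial (Fin 2) K, ∀ k, Q ∈ WW K k →
      k + 2 ≤ e → ∀ j j', L j (UU K D d l a b p j' (linP n * linP m * Q)) = 0) ∨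
    ∃ (ω θ₁ θ₂ : Ω) (A B C : Fin 3 → K), ω ≠ 0 ∧
      ∀ u, ω * (![1, p a, p b] : Fin 3 → Ω) u = θ₁ ^ 2 * A u + θ₁ * θ₂ * B u + θ₂ ^ 2 * C u := by
  obtain ⟨G, H, hHG, hA⟩ := (hS.kfam hKa h hP).exists_basis hKa
  have hac := isAlgClosed_sub hKa
  rcases segre (K := K) (muV p a b (fun j => G j 0)) (muV p a b (fun j => G j 1)) with
    ⟨χ, s, t, hst, hχ, u₁, hu₁⟩ | ⟨θ₁, θ₂, A₁, A₂, B₁, B₂, h1, h2⟩
  · left
    -- change of basis by a matrix over `K`
    obtain ⟨s', t', hdet⟩ : ∃ s' t' : K, s * t' - t * s' = 1 := by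
      rcases hst with hs | ht
      · exact ⟨0, s⁻¹, by field_simp; ring⟩
      · exact ⟨-t⁻¹, 0, by field_simp; ring⟩
    have hdet' : (s : Ω) * t' - t * s' = 1 := by
      have := congrArg Subtype.val hdet
      push_cast at this
      exact this
    set N : Matrix (Fin 2) (Fin 2) Ω := !![(s : Ω), s'; t, t'] with hN
    set N' : Matrix (Fin 2) (Fin 2) Ω := !![(t' : Ω), -s'; -t, s] with hN'
    have hNN : N' * N = 1 := by
      have e1 : (t' : Ω) * s + -s' * t = 1 := by linear_combination hdet'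
      have e2 : (t' : Ω) * s' + -s' * t' = 0 := by ring
      have e3 : (-t : Ω) * s + s * t = 0 := by ring
      have e4 : (-t : Ω) * s' + s * t' = 1 := by linear_combination hdet'
      rw [hN, hN', Matrix.mul_fin_two, e1, e2, e3, e4, Matrix.one_fin_two]
    have hHG' : (N' * H) * (G * N) = 1 := by
      calc (N' * H) * (G * N) = N' * (H * G) * N := by simp only [Matrix.mul_assoc]
        _ = 1 := by rw [hHG, Matrix.mul_one, hNN]
    have hNK : ∀ i j, N i j ∈ K := by
      intro i j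
      fin_cases i <;> fin_cases j
      · exact s.2
      · exact s'.2
      · exact t.2
      · exact t'.2
    have hNK' : ∀ i j, N' i j ∈ K := by
      intro i j
      fin_cases i <;> fin_cases j
      · exact t'.2
      · exact K.neg_mem s'.2
      · exact K.neg_mem t.2
      · exact s.2
    have hA' : ∀ Q i j, ((N' * H) * slotM K D d l a b p e L Q * (G * N)) i j ∈ K := by
      intro Q i j
      have e1 : (N' * H) * slotM K D d l a b p e L Q * (G * N) =
          N' * (H * slotM K D d l a b p e L Q * G) * N := by simp only [Matrix.mul_assoc]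
      rw [e1, Matrix.mul_apply]
      refine K.sum_mem fun x _ => K.mul_mem ?_ (hNK x j)
      rw [Matrix.mul_apply]
      exact K.sum_mem fun y _ => K.mul_mem (hNK' i y) (hA Q y x)
    have hmu : ∀ (α β : K) u, muV p a b (fun j => G j 0 * α + G j 1 * β) u =
        α * muV p a b (fun j => G j 0) u + β * muV p a b (fun j => G j 1) u := by
      intro α β u
      fin_cases u
      · simp only [muV, Fin.zero_eta, Matrix.cons_val_zero]
        ring
      · show G 0 0 * α + G 0 1 * β = α * G 0 0 + β * G 0 1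
        ring
      · show G 1 0 * α + G 1 1 * β = α * G 1 0 + β * G 1 1
        ring
    have hcol0 : (fun j => (G * N) j 0) = fun j => G j 0 * (s : Ω) + G j 1 * t := by
      funext j
      rw [Matrix.mul_apply, Fin.sum_univ_two]
      rfl
    have hcol1 : (fun j => (G * N) j 1) = fun j => G j 0 * (s' : Ω) + G j 1 * t' := by
      funext j
      rw [Matrix.mul_apply, Fin.sum_univ_two]
      rfl
    have hχK : ∀ (α : K) (y : Ω), χ ((α : Ω) * y) = α * χ y := by
      intro α y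
      have : (α : Ω) * y = α • y := rfl
      rw [this, map_smul, smul_eq_mul]
    refine slot_seg hHG' hA' χ ?_ ⟨u₁, ?_⟩
    · intro u
      rw [hcol0, hmu, map_add, hχK, hχK]
      exact hχ u
    · rw [hcol1, hmu, map_add, hχK, hχK]
      intro h0
      have h1 := hχ u₁
      -- both values vanish
      have e0 : χ (muV p a b (fun j => G j 0) u₁) = 0 := by
        linear_combination t' * h1 - t * h0 - χ (muV p a b (fun j => G j 0) u₁) * hdet
      have e1 : χ (muV p a b (fun j => G j 1) u₁) = 0 := by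
        linear_combination -s' * h1 + s * h0 - χ (muV p a b (fun j => G j 1) u₁) * hdet
      rcases hu₁ with h2 | h2
      · exact h2 e0
      · exact h2 e1
  · right
    have hGd : G.det ≠ 0 := by
      intro h0
      have := congrArg Matrix.det hHG
      rw [Matrix.det_mul, h0, mul_zero, Matrix.det_one] at this
      exact zero_ne_one this
    refine ⟨G.det, θ₁, θ₂,
      ![A₁ 1 * A₂ 2 - A₁ 2 * A₂ 1, A₁ 2 * A₂ 0 - A₁ 0 * A₂ 2, A₁ 0 * A₂ 1 - A₁ 1 * A₂ 0],
      ![A₁ 1 * B₂ 2 - A₁ 2 * B₂ 1 + (B₁ 1 * A₂ 2 - B₁ 2 * A₂ 1),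
        A₁ 2 * B₂ 0 - A₁ 0 * B₂ 2 + (B₁ 2 * A₂ 0 - B₁ 0 * A₂ 2),
        A₁ 0 * B₂ 1 - A₁ 1 * B₂ 0 + (B₁ 0 * A₂ 1 - B₁ 1 * A₂ 0)],
      ![B₁ 1 * B₂ 2 - B₁ 2 * B₂ 1, B₁ 2 * B₂ 0 - B₁ 0 * B₂ 2, B₁ 0 * B₂ 1 - B₁ 1 * B₂ 0],
      hGd, ?_⟩
    have a0 := h1 0
    have a1 := h1 1
    have a2 := h1 2
    have b0 := h2 0
    have b1 := h2 1
    have b2 := h2 2
    simp only [muV, Matrix.cons_val_zero, Matrix.cons_val_one, Matrix.cons_val] at a0 a1 a2 b0 b1 b2
    rw [Matrix.det_fin_two]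
    intro u
    fin_cases u
    · simp only [Fin.zero_eta, Matrix.cons_val_zero]
      push_cast
      rw [a1, a2, b1, b2]
      ring
    · simp only [Fin.mk_one, Matrix.cons_val_one]
      push_cast
      linear_combination (-(G 1 1)) * a0 + (G 1 0) * b0 +
        (θ₁ * (A₂ 0 : Ω) + θ₂ * B₂ 0) * a2 - (θ₁ * (A₁ 0 : Ω) + θ₂ * B₁ 0) * b2
    · simp only [Fin.reduceFinMk, Matrix.cons_val]
      push_cast
      linear_combination (G 0 1) * a0 - (G 0 0) * b0 +
        (θ₁ * (A₁ 0 : Ω) + θ₂ * B₁ 0) * b1 - (θ₁ * (A₂ 0 : Ω) + θ₂ * B₂ 0) * a1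

end Slot

end Pool.Agent.Lib.MP_44a246_ntB
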