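import Mathlib
import Pool.Agent.Lib.MP_44a246_ntB.Slot

/-!
All slots together: the point lies on a conic parametrised over the subfield.
-/

set_option linter.unusedSectionVars false

namespace Pool.Agent.Lib.MP_44a246_ntB

open Pool.Agent.Lib.MP_e52354_nt Pool.Agent.Lib.MP_e52354_ntP
open MvPolynomial

section BackL

variable {Ω : Type*} [Field Ω] [CharZero Ω] {P : Type*} {σ : Type*} [Fintype σ] [DecidableEq σ]
  {K : Subfield Ω} {B : Subring (P → Ω)} {𝒟 : Submodule K (Derivation ℤ Ω Ω)} {d : ℕ}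
  {p : σ → Ω} {z : Ω} {c : P → σ} {D : (σ →₀ ℕ) → Derivation ℤ Ω Ω} {l a b : σ}
  {al be ga : σ → K}

/-- the point `(1, x, y)` lies on a conic parametrised over the subfield -/
def OnConic (K : Subfield Ω) (x y : Ω) : Prop :=
  ∃ (ω θ₁ θ₂ : Ω) (A B C : Fin 3 → K), ω ≠ 0 ∧
    ∀ u, ω * (![1, x, y] : Fin 3 → Ω) u = θ₁ ^ 2 * A u + θ₁ * θ₂ * B u + θ₂ ^ 2 * C u

theorem back_conic [IsAlgClosed Ω] (hKa : ∀ y : Ω, IsAlgebraic K y → y ∈ K)
    (LL : LB K B 𝒟 d p z c) (h : Pln D d p l a b al be ga)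
    (hD𝒟 : ∀ I : σ →₀ ℕ, I.degree = d → D I ∈ 𝒟) (gr : σ → Ω)
    (hzD : ∀ G ∈ WW K d, DG K D d l a b G z =
      evp K (p a) (p b) G + ∑ k, gr k * EE K D d l a b p G k) {e : ℕ} (he : e + 1 = d)
    {PP : σ → MvPolynomial (Fin 2) K} (hP : PData D d p l a b e PP)
    {S : ℕ} (hS : 2 * S + 1 ≤ e)
    (L : Fin S → Fin 2 → (σ → Ω) →ₗ[Ω] Ω) (c₀ : Fin S → MvPolynomial (Fin 2) K)
    (hL : ∀ i, SlotD K D d l a b p e (L i) (c₀ i))
    (hnd : ∀ v : σ → Ω, (∀ i j, L i j v = 0) → ∃ t : Ω, v = t • p) :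
    OnConic K (p a) (p b) := by
  classical
  by_contra hcon
  have halt : ∀ i, ∃ n m : Fin 3 → K, n ≠ 0 ∧ m ≠ 0 ∧ ∀ Q : MvPolynomial (Fin 2) K, ∀ k,
      Q ∈ WW K k → k + 2 ≤ e → ∀ j j', L i j (UU K D d l a b p j' (linP n * linP m * Q)) = 0 := by
    intro i
    rcases slot_alt hKa h hP (hL i) with h1 | h1
    · exact h1
    · exact absurd h1 hcon
  choose n m hn hm hnm using halt
  set H : MvPolynomial (Fin 2) K := ∏ i, (linP (n i) * linP (m i)) with hH
  have hdeg : ∀ s : Finset (Fin S), (∏ i ∈ s, (linP (n i) * linP (m i))) ∈ WW K (2 * s.card) := by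
    intro s
    induction s using Finset.induction_on with
    | empty => rw [Finset.prod_empty]; exact C_mem_WW _ 1
    | insert i s hi ih =>
      rw [Finset.prod_insert hi, Finset.card_insert_of_notMem hi]
      have := mul_mem_WW (mul_mem_WW (linP_mem (n i)) (linP_mem (m i))) ih
      have e1 : 1 + 1 + 2 * s.card = 2 * (s.card + 1) := by ring
      rwa [e1] at this
  have hkill : ∀ (R : MvPolynomial (Fin 2) K), R ∈ WW K 1 → ∀ j',
      UU K D d l a b p j' (R * H) = 0 := by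
    intro R hR j'
    obtain ⟨t, ht⟩ := hnd (UU K D d l a b p j' (R * H)) (by
      intro i j
      have h1 : R * H = linP (n i) * linP (m i) *
          (R * ∏ i' ∈ Finset.univ.erase i, (linP (n i') * linP (m i'))) := by
        rw [hH, ← Finset.mul_prod_erase Finset.univ _ (Finset.mem_univ i)]
        ring
      rw [h1]
      refine hnm i _ (1 + 2 * (Finset.univ.erase i).card) (mul_mem_WW hR (hdeg _)) ?_ j j'
      rw [Finset.card_erase_of_mem (Finset.mem_univ i), Finset.card_univ, Fintype.card_fin]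
      have := i.2
      omega)
    have h2 := congrFun ht l
    rw [UU_l h.hpl, Pi.smul_apply, h.hpl, smul_eq_mul, mul_one] at h2
    rw [ht, ← h2, zero_smul]
  have hHmem : H ∈ WW K (2 * S) := by
    have := hdeg Finset.univ
    rwa [Finset.card_univ, Fintype.card_fin] at this
  obtain ⟨e', he'⟩ : ∃ e', e' + 1 = e := ⟨e - 1, by omega⟩
  have h1 := lemW LL h hD𝒟 gr hzD (e := e') (by omega) (Q := H) (WW_mono (by omega) hHmem)
    (fun i => by
      have := hkill 1 (C_mem_WW 1 1) i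
      rwa [one_mul] at this)
    (fun i j => hkill (X j) (X_mem_WW le_rfl j) i)
  rw [hH, map_prod] at h1
  obtain ⟨i, -, hi⟩ := Finset.prod_eq_zero_iff.mp h1
  rw [map_mul] at hi
  rcases mul_eq_zero.mp hi with h2 | h2
  · exact evp_linP_ne h (hn i) h2
  · exact evp_linP_ne h (hm i) h2

end BackL

end Pool.Agent.Lib.MP_44a246_ntB
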