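import Mathlib

/-!
Bounded families over a set of valuation rings: the bounded elements, the field of bounded
fractions, and its algebraic closedness in the field.
-/

set_option linter.unusedSectionVars false

namespace Pool.Agent.Lib.MP_44a246_ntB

section Base

variable {M : Type*} [Field M] {P : Type*}

/-- a family of valuation rings with distinguished elements -/
structure VData (O : P → Subring M) (δ : P → M) : Prop where
  hval : ∀ π y, y ∈ O π ∨ y⁻¹ ∈ O π
  hδ : ∀ π, δ π ∈ O π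

/-- the bounded elements -/
def Bdd (O : P → Subring M) (δ : P → M) (h : VData O δ) : Subring M where
  carrier := {y | ∃ c : ℕ, ∀ π, δ π ^ c * y ∈ O π}
  mul_mem' := by
    rintro y z ⟨c, hc⟩ ⟨c', hc'⟩
    refine ⟨c + c', fun π => ?_⟩
    have : δ π ^ (c + c') * (y * z) = (δ π ^ c * y) * (δ π ^ c' * z) := by rw [pow_add]; ring
    rw [this]
    exact (O π).mul_mem (hc π) (hc' π)
  one_mem' := ⟨0, fun π => by rw [pow_zero, one_mul]; exact (O π).one_mem⟩
  add_mem' := by
    rintro y z ⟨c, hc⟩ ⟨c', hc'⟩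
    refine ⟨c + c', fun π => ?_⟩
    have : δ π ^ (c + c') * (y + z) =
        δ π ^ c' * (δ π ^ c * y) + δ π ^ c * (δ π ^ c' * z) := by rw [pow_add]; ring
    rw [this]
    exact (O π).add_mem ((O π).mul_mem (pow_mem (h.hδ π) _) (hc π))
      ((O π).mul_mem (pow_mem (h.hδ π) _) (hc' π))
  zero_mem' := ⟨0, fun π => by rw [mul_zero]; exact (O π).zero_mem⟩
  neg_mem' := by
    rintro y ⟨c, hc⟩
    refine ⟨c, fun π => ?_⟩
    rw [mul_neg]
    exact (O π).neg_mem (hc π)

variable {O : P → Subring M} {δ : P → M} {h : VData O δ}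

theorem mem_Bdd {y : M} : y ∈ Bdd O δ h ↔ ∃ c : ℕ, ∀ π, δ π ^ c * y ∈ O π := Iff.rfl

theorem VData.up (h : VData O δ) {π : P} {c c' : ℕ} (hc : c ≤ c') {y : M}
    (hy : δ π ^ c * y ∈ O π) : δ π ^ c' * y ∈ O π := by
  obtain ⟨k, rfl⟩ := Nat.exists_eq_add_of_le hc
  have : δ π ^ (c + k) * y = δ π ^ k * (δ π ^ c * y) := by rw [pow_add]; ring
  rw [this]
  exact (O π).mul_mem (pow_mem (h.hδ π) _) hy

/-- bounded families, up to a bounded factor -/
def B0 (O : P → Subring M) (δ : P → M) (h : VData O δ) : Subring (P → M) where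
  carrier := {y | ∃ β ∈ Bdd O δ h, β ≠ 0 ∧ ∃ c : ℕ, ∀ π, δ π ^ c * (β * y π) ∈ O π}
  mul_mem' := by
    rintro y z ⟨β, h1, h2, c, hc⟩ ⟨β', h1', h2', c', hc'⟩
    refine ⟨β * β', mul_mem h1 h1', mul_ne_zero h2 h2', c + c', fun π => ?_⟩
    have : δ π ^ (c + c') * (β * β' * (y * z) π) =
        (δ π ^ c * (β * y π)) * (δ π ^ c' * (β' * z π)) := by
      rw [pow_add, Pi.mul_apply]; ring
    rw [this]
    exact (O π).mul_mem (hc π) (hc' π)
  one_mem' := ⟨1, one_mem _, one_ne_zero, 0, fun π => by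
    rw [pow_zero, one_mul, one_mul, Pi.one_apply]; exact (O π).one_mem⟩
  add_mem' := by
    rintro y z ⟨β, h1, h2, c, hc⟩ ⟨β', h1', h2', c', hc'⟩
    obtain ⟨b, hb⟩ := mem_Bdd.mp h1
    obtain ⟨b', hb'⟩ := mem_Bdd.mp h1'
    refine ⟨β * β', mul_mem h1 h1', mul_ne_zero h2 h2', c + c' + b + b', fun π => ?_⟩
    have : δ π ^ (c + c' + b + b') * (β * β' * (y + z) π) =
        (δ π ^ (c' + b)) * (δ π ^ b' * β') * (δ π ^ c * (β * y π)) +
        (δ π ^ (c + b')) * (δ π ^ b * β) * (δ π ^ c' * (β' * z π)) := by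
      rw [Pi.add_apply]
      simp only [pow_add]
      ring
    rw [this]
    exact (O π).add_mem ((O π).mul_mem ((O π).mul_mem (pow_mem (h.hδ π) _) (hb' π)) (hc π))
      ((O π).mul_mem ((O π).mul_mem (pow_mem (h.hδ π) _) (hb π)) (hc' π))
  zero_mem' := ⟨1, one_mem _, one_ne_zero, 0, fun π => by
    rw [Pi.zero_apply, mul_zero, mul_zero]; exact (O π).zero_mem⟩
  neg_mem' := by
    rintro y ⟨β, h1, h2, c, hc⟩
    refine ⟨β, h1, h2, c, fun π => ?_⟩
    rw [Pi.neg_apply, mul_neg, mul_neg]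
    exact (O π).neg_mem (hc π)

theorem mem_B0 {y : P → M} : y ∈ B0 O δ h ↔
    ∃ β ∈ Bdd O δ h, β ≠ 0 ∧ ∃ c : ℕ, ∀ π, δ π ^ c * (β * y π) ∈ O π := Iff.rfl

theorem B0_of_int {y : P → M} (c : ℕ) (hy : ∀ π, δ π ^ c * y π ∈ O π) : y ∈ B0 O δ h :=
  ⟨1, one_mem _, one_ne_zero, c, fun π => by rw [one_mul]; exact hy π⟩

/-- the field of fractions of the ring of bounded elements -/
def K0 (O : P → Subring M) (δ : P → M) (h : VData O δ) : Subfield M where
  carrier := {y | (fun _ => y) ∈ B0 O δ h}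
  mul_mem' := fun {y z} hy hz => (B0 O δ h).mul_mem hy hz
  one_mem' := (B0 O δ h).one_mem
  add_mem' := fun {y z} hy hz => (B0 O δ h).add_mem hy hz
  zero_mem' := (B0 O δ h).zero_mem
  neg_mem' := fun {y} hy => (B0 O δ h).neg_mem hy
  inv_mem' := by
    rintro y ⟨β, h1, h2, c, hc⟩
    by_cases hy : y = 0
    · rw [hy, inv_zero]
      exact (B0 O δ h).zero_mem
    · obtain ⟨b, hb⟩ := mem_Bdd.mp h1
      refine ⟨β * y, ⟨c, fun π => hc π⟩, mul_ne_zero h2 hy, b, fun π => ?_⟩
      have : β * y * y⁻¹ = β := by field_simp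
      rw [this]
      exact hb π

theorem mem_K0 {y : M} : y ∈ K0 O δ h ↔ (fun _ => y) ∈ B0 O δ h := Iff.rfl

theorem mem_K0' {y : M} : y ∈ K0 O δ h ↔ ∃ β ∈ Bdd O δ h, β ≠ 0 ∧ β * y ∈ Bdd O δ h := Iff.rfl

theorem Bdd_le_K0 {y : M} (hy : y ∈ Bdd O δ h) : y ∈ K0 O δ h :=
  ⟨1, one_mem _, one_ne_zero, by
    obtain ⟨c, hc⟩ := hy
    exact ⟨c, fun π => by rw [one_mul]; exact hc π⟩⟩

/-- an integral element is bounded -/
theorem Bdd_of_integral {w : M} (hw : IsIntegral (Bdd O δ h) w) : w ∈ Bdd O δ h := by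
  classical
  obtain ⟨p, hp, hpw⟩ := hw
  -- uniform exponent
  obtain ⟨c, hc⟩ : ∃ c : ℕ, ∀ i ∈ p.support, ∀ π, δ π ^ c * (p.coeff i : M) ∈ O π := by
    choose c hc using fun i => mem_Bdd.mp (p.coeff i).2
    refine ⟨∑ i ∈ p.support, c i, fun i hi π => h.up ?_ (hc i π)⟩
    exact Finset.single_le_sum (f := c) (fun _ _ => Nat.zero_le _) hi
  refine ⟨c, fun π => ?_⟩
  -- the polynomial over `M`
  set P' : Polynomial M := p.map (algebraMap (Bdd O δ h) M) with hP'
  have hP'm : P'.Monic := hp.map _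
  have hroot : P'.eval w = 0 := by
    rw [hP', Polynomial.eval_map]
    exact hpw
  set Q : Polynomial M := P'.scaleRoots (δ π ^ c) with hQ
  have hQm : Q.Monic := (Polynomial.monic_scaleRoots_iff _).mpr hP'm
  have hQroot : Q.eval (δ π ^ c * w) = 0 := by
    have := Polynomial.scaleRoots_eval₂_eq_zero (p := P') (f := RingHom.id M) (r := w)
      (s := δ π ^ c) (by rw [Polynomial.eval₂_id]; exact hroot)
    rw [Polynomial.eval₂_id] at this
    exact this
  have hcoef : ∀ i, Q.coeff i ∈ O π := by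
    intro i
    rw [hQ, Polynomial.coeff_scaleRoots]
    by_cases hi : i < P'.natDegree
    · obtain ⟨k, hk⟩ : ∃ k, P'.natDegree - i = k + 1 := ⟨P'.natDegree - i - 1, by omega⟩
      rw [hk, ← pow_mul, Nat.mul_succ, pow_add, hP', Polynomial.coeff_map]
      by_cases hs : i ∈ p.support
      · have h1 := hc i hs π
        have h2 : (algebraMap (Bdd O δ h) M (p.coeff i)) * (δ π ^ (c * k) * δ π ^ c) =
            δ π ^ (c * k) * (δ π ^ c * (p.coeff i : M)) := by
          show (p.coeff i : M) * _ = _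
          ring
        rw [h2]
        exact (O π).mul_mem (pow_mem (h.hδ π) _) h1
      · rw [Polynomial.notMem_support_iff.mp hs, map_zero, zero_mul]
        exact (O π).zero_mem
    · have h3 : P'.natDegree - i = 0 := by omega
      rw [h3, pow_zero, mul_one]
      by_cases hi' : i = P'.natDegree
      · rw [hi', Polynomial.coeff_natDegree, hP'm]
        exact (O π).one_mem
      · rw [Polynomial.coeff_eq_zero_of_natDegree_lt (by omega)]
        exact (O π).zero_mem
  -- the valuation ring is integrally closed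
  let V : ValuationSubring M := { O π with mem_or_inv_mem' := h.hval π }
  have hV : ∀ y, y ∈ V ↔ y ∈ O π := fun _ => Iff.rfl
  have hint : IsIntegral V (δ π ^ c * w) := by
    refine ⟨Q.toSubring V.toSubring (fun a ha => ?_), ?_, ?_⟩
    · rw [Finset.mem_coe, Polynomial.mem_coeffs_iff] at ha
      obtain ⟨n, -, hn⟩ := ha
      rw [hn]
      exact hcoef n
    · exact (Polynomial.monic_toSubring _ _ _).mpr hQm
    · rw [← Polynomial.eval_map]
      have h4 : (Q.toSubring V.toSubring (fun a ha => by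
          rw [Finset.mem_coe, Polynomial.mem_coeffs_iff] at ha
          obtain ⟨n, -, hn⟩ := ha
          rw [hn]
          exact hcoef n)).map (algebraMap V M) = Q := by
        exact Polynomial.map_toSubring _ _ _
      rw [h4]
      exact hQroot
  obtain ⟨y, hy⟩ := IsIntegrallyClosed.isIntegral_iff.mp hint
  rw [← hy]
  exact y.2

/-- the field of bounded fractions is algebraically closed in the field -/
theorem K0_of_algebraic {y : M} (hy : IsAlgebraic (K0 O δ h) y) : y ∈ K0 O δ h := by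
  classical
  -- a polynomial over the bounded elements
  obtain ⟨p, hp0, hpy⟩ := hy
  choose β h1 h2 h3 using fun i => mem_K0'.mp (p.coeff i).2
  set b : M := ∏ i ∈ p.support, β i with hb
  have hbB : b ∈ Bdd O δ h := prod_mem fun i _ => h1 i
  have hb0 : b ≠ 0 := Finset.prod_ne_zero_iff.mpr fun i _ => h2 i
  have hbc : ∀ i, b * (p.coeff i : M) ∈ Bdd O δ h := by
    intro i
    by_cases hi : i ∈ p.support
    · rw [hb, ← Finset.mul_prod_erase p.support β hi]
      have : β i * (∏ x ∈ p.support.erase i, β x) * (p.coeff i : M) =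
          (∏ x ∈ p.support.erase i, β x) * (β i * (p.coeff i : M)) := by ring
      rw [this]
      exact mul_mem (prod_mem fun i _ => h1 i) (h3 i)
    · rw [Polynomial.notMem_support_iff.mp hi, ZeroMemClass.coe_zero, mul_zero]
      exact zero_mem _
  -- the polynomial with coefficients in the ring
  set p' : Polynomial (Bdd O δ h) := ∑ i ∈ Finset.range (p.natDegree + 1),
    Polynomial.monomial i ⟨b * (p.coeff i : M), hbc i⟩ with hp'
  have hcoef : ∀ i, ((p'.coeff i : Bdd O δ h) : M) = b * (p.coeff i : M) := by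
    intro i
    rw [hp', Polynomial.finsetSum_coeff]
    simp only [Polynomial.coeff_monomial]
    rw [Finset.sum_ite_eq' (Finset.range (p.natDegree + 1)) i
      (fun j => (⟨b * (p.coeff j : M), hbc j⟩ : Bdd O δ h))]
    by_cases hi : i ∈ Finset.range (p.natDegree + 1)
    · rw [if_pos hi]
    · rw [if_neg hi]
      rw [Finset.mem_range] at hi
      rw [Polynomial.coeff_eq_zero_of_natDegree_lt (by omega)]
      simp
  have halg : IsAlgebraic (Bdd O δ h) y := by
    refine ⟨p', ?_, ?_⟩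
    · intro h0
      apply hp0
      ext i
      have := hcoef i
      rw [h0, Polynomial.coeff_zero, ZeroMemClass.coe_zero] at this
      rw [Polynomial.coeff_zero, ZeroMemClass.coe_zero]
      exact (mul_eq_zero.mp this.symm).resolve_left hb0
    · have h4 : Polynomial.aeval y p' = b * Polynomial.aeval y p := by
        rw [Polynomial.aeval_eq_sum_range' (n := p.natDegree + 1) (Nat.lt_succ_self _), hp', map_sum,
          Finset.mul_sum]
        refine Finset.sum_congr rfl fun i _ => ?_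
        rw [Polynomial.aeval_monomial]
        show b * (p.coeff i : M) * y ^ i = b * ((p.coeff i : M) * y ^ i)
        ring
      rw [h4, hpy, mul_zero]
  obtain ⟨r, hr0, hr⟩ := halg.exists_integral_multiple
  have h5 := Bdd_of_integral hr
  refine mem_K0'.mpr ⟨r, r.2, fun h0 => hr0 (Subtype.ext h0), h5⟩

section Der

variable (D : Derivation ℤ M M) (hD : ∀ π, ∀ y ∈ O π, δ π * D y ∈ O π)
include hD

theorem Bdd_D {y : M} (hy : y ∈ Bdd O δ h) : D y ∈ Bdd O δ h := by
  obtain ⟨c, hc⟩ := hy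
  refine ⟨c + 2, fun π => ?_⟩
  have h1 := hD π _ (hc π)
  have h2 := hD π _ (h.hδ π)
  rw [Derivation.leibniz, Derivation.leibniz_pow] at h1
  simp only [smul_eq_mul, nsmul_eq_mul] at h1
  rcases Nat.eq_zero_or_pos c with rfl | hc0
  · simp only [pow_zero, one_mul, Nat.cast_zero, zero_mul, mul_zero, add_zero] at h1
    have : δ π ^ (0 + 2) * D y = δ π * (δ π * D y) := by ring
    rw [this]
    exact (O π).mul_mem (h.hδ π) h1
  · obtain ⟨k, rfl⟩ : ∃ k, c = k + 1 := ⟨c - 1, by omega⟩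
    have h3 : δ π ^ (k + 1 + 2) * D y = δ π * (δ π * (δ π ^ (k + 1) * D y +
        y * ((k + 1 : ℕ) * (δ π ^ (k + 1 - 1) * D (δ π))))) -
        ((k + 1 : ℕ) : M) * ((δ π ^ (k + 1) * y) * (δ π * D (δ π))) := by
      rw [Nat.add_sub_cancel]
      push_cast
      ring
    rw [h3]
    exact (O π).sub_mem ((O π).mul_mem (h.hδ π) h1) ((O π).mul_mem (natCast_mem (O π) _)
      ((O π).mul_mem (hc π) h2))

theorem K0_D {y : M} (hy : y ∈ K0 O δ h) : D y ∈ K0 O δ h := by
  obtain ⟨β, h1, h2, h3⟩ := mem_K0'.mp hy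
  have h4 := Bdd_D (h := h) D hD h3
  have h5 := Bdd_D (h := h) D hD h1
  rw [Derivation.leibniz] at h4
  simp only [smul_eq_mul] at h4
  have h6 : D y = ((β * D y + y * D β) - y * D β) / β := by field_simp; ring
  rw [h6]
  exact (K0 O δ h).div_mem ((K0 O δ h).sub_mem (Bdd_le_K0 h4) ((K0 O δ h).mul_mem hy
    (Bdd_le_K0 h5))) (Bdd_le_K0 h1)

end Der

end Base

end Pool.Agent.Lib.MP_44a246_ntB
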