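import Mathlib
import Pool.Agent.Lib.MP_44a246_ntB.Base1

/-!
Linear disjointness from the algebraic closure of a relatively algebraically closed subfield; the
ring of bounded families over the large field.
-/

set_option linter.unusedSectionVars false

namespace Pool.Agent.Lib.MP_44a246_ntB

open Polynomial TensorProduct

section LD

variable {k M Ω : Type*} [Field k] [Field M] [Field Ω] [Algebra k M] [Algebra M Ω]
  [Algebra k Ω] [IsScalarTower k M Ω]

theorem natDegree_minpoly_le (hk : ∀ y : M, IsAlgebraic k y → y ∈ (algebraMap k M).range) {x : Ω}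
    (hx : IsAlgebraic k x) : (minpoly k x).natDegree ≤ (minpoly M x).natDegree := by
  have hxi : IsIntegral k x := hx.isIntegral
  have hxM : IsIntegral M x := hxi.tower_top
  have hd : minpoly M x ∣ (minpoly k x).map (algebraMap k M) :=
    minpoly.dvd_map_of_isScalarTower k M x
  have h1 := integralClosure.mem_lifts_of_monic_of_dvd_map M (minpoly.monic hxi)
    (minpoly.monic hxM) hd
  have h2 : minpoly M x ∈ lifts (algebraMap k M) := by
    rw [lifts_iff_coeff_lifts] at h1 ⊢
    intro n
    obtain ⟨y, hy⟩ := h1 n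
    rw [← hy]
    obtain ⟨w, hw⟩ := hk (y : M) y.2.isAlgebraic
    exact ⟨w, hw⟩
  obtain ⟨q, hq, hqd, hqm⟩ := lifts_and_natDegree_eq_and_monic h2 (minpoly.monic hxM)
  rw [← hqd]
  have h3 : aeval x q = 0 := by
    rw [← aeval_map_algebraMap M, hq, minpoly.aeval]
  exact natDegree_le_of_dvd (minpoly.dvd k x h3) hqm.ne_zero

theorem linDisj [CharZero k] (hk : ∀ y : M, IsAlgebraic k y → y ∈ (algebraMap k M).range)
    {ι : Type*} {v : ι → Ω} (hv : ∀ i, IsAlgebraic k (v i)) (hli : LinearIndependent k v) :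
    LinearIndependent M v := by
  classical
  rw [linearIndependent_iff_finset_linearIndependent]
  intro s
  set N : IntermediateField k Ω := IntermediateField.adjoin k (v '' (s : Set ι)) with hN
  have hfin : FiniteDimensional k N := by
    rw [hN]
    have : ((s.image v : Finset Ω) : Set Ω) = v '' (s : Set ι) := by rw [Finset.coe_image]
    rw [← this]
    exact IntermediateField.finiteDimensional_adjoin fun x hx => by
      rw [Finset.coe_image] at hx
      obtain ⟨i, -, rfl⟩ := hx
      exact (hv i).isIntegral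
  let pb := Field.powerBasisOfFiniteOfSeparable k N
  set θ : Ω := (pb.gen : Ω) with hθ
  have hθalg : IsAlgebraic k θ := by
    have h1 : IsAlgebraic k pb.gen := Algebra.IsAlgebraic.isAlgebraic _
    exact h1.algebraMap
  have hdeg : (minpoly k θ).natDegree = pb.dim := by
    have h1 : minpoly k θ = minpoly k pb.gen := minpoly.algebraMap_eq (algebraMap N Ω).injective _
    rw [h1, pb.natDegree_minpoly]
  have hdegM : pb.dim ≤ (minpoly M θ).natDegree := by
    rw [← hdeg]
    exact natDegree_minpoly_le hk hθalg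
  have hli' : LinearIndependent M (N.val ∘ pb.basis) := by
    have h1 := linearIndependent_pow (K := M) θ
    have h2 := h1.comp (Fin.castLE hdegM) (Fin.castLE_injective hdegM)
    convert! h2 using 1
    funext i
    rw [Function.comp_apply, Function.comp_apply, pb.basis_eq_pow]
    rfl
  have hLD : N.LinearDisjoint M := IntermediateField.LinearDisjoint.of_basis_left pb.basis hli'
  have hmem : ∀ i : s, v i ∈ N := fun i =>
    IntermediateField.subset_adjoin _ _ ⟨i, i.2, rfl⟩
  have h3 : LinearIndependent k (fun i : s => (⟨v i, hmem i⟩ : N)) := by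
    have h4 : LinearIndependent k (fun i : s => v i) := hli.comp _ Subtype.val_injective
    exact LinearIndependent.of_comp N.val.toLinearMap h4
  exact hLD.linearIndependent_left h3

end LD

section BO

variable {M : Type*} [Field M] {P : Type*} {O : P → Subring M} {δ : P → M} {h : VData O δ}
  {Ω : Type*} [Field Ω] [Algebra M Ω]

/-- the ring of bounded families as an algebra -/
def B0a (O : P → Subring M) (δ : P → M) (h : VData O δ) : Subalgebra (K0 O δ h) (P → M) where
  __ := B0 O δ h
  algebraMap_mem' := fun r => r.2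

theorem mem_B0a {y : P → M} : y ∈ B0a O δ h ↔ y ∈ B0 O δ h := Iff.rfl

variable (h Ω)

/-- the algebraic closure of the field of bounded fractions -/
def KO : Subfield Ω := (algebraicClosure (K0 O δ h) Ω).toSubfield

/-- the map from the tensor product -/
noncomputable def pm : (algebraicClosure (K0 O δ h) Ω) ⊗[K0 O δ h] (B0a O δ h) →ₐ[K0 O δ h]
    (P → Ω) :=
  Algebra.TensorProduct.productMap
    ((Pi.constAlgHom (K0 O δ h) P Ω).comp (algebraicClosure (K0 O δ h) Ω).val)
    (((IsScalarTower.toAlgHom (K0 O δ h) M Ω).compLeft P).comp (B0a O δ h).val)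

/-- the ring of bounded families over the large field -/
noncomputable def BO : Subring (P → Ω) := (pm h Ω).range.toSubring

variable {h Ω}

theorem mem_KO {y : Ω} : y ∈ KO h Ω ↔ IsAlgebraic (K0 O δ h) y := by
  show y ∈ algebraicClosure (K0 O δ h) Ω ↔ _
  exact mem_algebraicClosure_iff

theorem pm_tmul (a : algebraicClosure (K0 O δ h) Ω) (b : B0a O δ h) (π : P) :
    pm h Ω (a ⊗ₜ b) π = (a : Ω) * algebraMap M Ω ((b : P → M) π) := by
  unfold pm
  rw [Algebra.TensorProduct.productMap_apply_tmul]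
  rfl

theorem BO_of_const {y : Ω} (hy : y ∈ KO h Ω) : (fun _ : P => y) ∈ BO h Ω := by
  refine ⟨(⟨y, hy⟩ : algebraicClosure (K0 O δ h) Ω) ⊗ₜ 1, ?_⟩
  funext π
  show pm h Ω _ π = y
  rw [pm_tmul]
  simp

theorem BO_of_B0 {y : P → M} (hy : y ∈ B0 O δ h) : (fun π => algebraMap M Ω (y π)) ∈ BO h Ω := by
  refine ⟨(1 : algebraicClosure (K0 O δ h) Ω) ⊗ₜ (⟨y, hy⟩ : B0a O δ h), ?_⟩
  funext π
  show pm h Ω _ π = _
  rw [pm_tmul]
  simp

variable [CharZero M]

/-- a basis of the algebraic closure -/
theorem BO_repr {y : P → Ω} (hy : y ∈ BO h Ω) :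
    ∃ (s : Finset (Module.Basis.ofVectorSpaceIndex (K0 O δ h) (algebraicClosure (K0 O δ h) Ω)))
      (c : Module.Basis.ofVectorSpaceIndex (K0 O δ h) (algebraicClosure (K0 O δ h) Ω) → P → M),
      (∀ i ∈ s, c i ∈ B0 O δ h) ∧ ∀ π, y π = ∑ i ∈ s,
        ((Module.Basis.ofVectorSpace (K0 O δ h) (algebraicClosure (K0 O δ h) Ω) i :
          algebraicClosure (K0 O δ h) Ω) : Ω) * algebraMap M Ω (c i π) := by
  obtain ⟨t, rfl⟩ := hy
  obtain ⟨c, hc⟩ := TensorProduct.eq_repr_basis_left
    (Module.Basis.ofVectorSpace (K0 O δ h) (algebraicClosure (K0 O δ h) Ω)) t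
  refine ⟨c.support, fun i => (c i : P → M), fun i _ => (c i).2, fun π => ?_⟩
  rw [← hc]
  show pm h Ω (c.sum _) π = _
  rw [Finsupp.sum, map_sum, Finset.sum_apply]
  refine Finset.sum_congr rfl fun i _ => ?_
  rw [pm_tmul]

theorem basis_indep : LinearIndependent M (fun i : Module.Basis.ofVectorSpaceIndex (K0 O δ h)
    (algebraicClosure (K0 O δ h) Ω) => ((Module.Basis.ofVectorSpace (K0 O δ h)
      (algebraicClosure (K0 O δ h) Ω) i : algebraicClosure (K0 O δ h) Ω) : Ω)) := by
  refine linDisj (k := K0 O δ h) (fun y hy => ⟨⟨y, K0_of_algebraic hy⟩, rfl⟩) (fun i => ?_) ?_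
  · exact mem_algebraicClosure_iff.mp
      (Module.Basis.ofVectorSpace (K0 O δ h) (algebraicClosure (K0 O δ h) Ω) i).2
  · exact (Module.Basis.ofVectorSpace (K0 O δ h) (algebraicClosure (K0 O δ h) Ω)).linearIndependent.map'
      (algebraicClosure (K0 O δ h) Ω).val.toLinearMap
      (LinearMap.ker_eq_bot.mpr (algebraicClosure (K0 O δ h) Ω).val.injective)

/-- the basic principle: an element of the large field times a family of elements of the small
field -/
theorem BO_scalar [Nonempty P] {J : Ω} {w : P → M} (hw : ∀ π, w π ≠ 0)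
    (hJ : (fun π => J * algebraMap M Ω (w π)) ∈ BO h Ω) :
    ∃ (s : Finset (Module.Basis.ofVectorSpaceIndex (K0 O δ h) (algebraicClosure (K0 O δ h) Ω)))
      (j : Module.Basis.ofVectorSpaceIndex (K0 O δ h) (algebraicClosure (K0 O δ h) Ω) → M),
      (∀ i ∈ s, (fun π => j i * w π) ∈ B0 O δ h) ∧ J = ∑ i ∈ s,
        ((Module.Basis.ofVectorSpace (K0 O δ h) (algebraicClosure (K0 O δ h) Ω) i :
          algebraicClosure (K0 O δ h) Ω) : Ω) * algebraMap M Ω (j i) := by
  classical
  obtain ⟨s, c, hc, hcy⟩ := BO_repr hJ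
  obtain ⟨π₀⟩ := ‹Nonempty P›
  have h1 : ∀ π, J = ∑ i ∈ s,
      ((Module.Basis.ofVectorSpace (K0 O δ h) (algebraicClosure (K0 O δ h) Ω) i :
          algebraicClosure (K0 O δ h) Ω) : Ω) * algebraMap M Ω (c i π / w π) := by
    intro π
    have h2 := hcy π
    have h3 : algebraMap M Ω (w π) ≠ 0 := by
      rw [Ne, _root_.map_eq_zero]; exact hw π
    rw [← eq_div_iff h3] at h2
    rw [h2, Finset.sum_div]
    refine Finset.sum_congr rfl fun i _ => ?_
    rw [map_div₀]
    ring
  have h2 : ∀ π, ∀ i ∈ s, c i π / w π = c i π₀ / w π₀ := by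
    intro π i hi
    have h3 : ∑ i ∈ s, (c i π / w π - c i π₀ / w π₀) •
        ((Module.Basis.ofVectorSpace (K0 O δ h) (algebraicClosure (K0 O δ h) Ω) i :
          algebraicClosure (K0 O δ h) Ω) : Ω) = 0 := by
      have h4 := h1 π
      rw [h1 π₀, ← sub_eq_zero, ← Finset.sum_sub_distrib] at h4
      rw [← neg_eq_zero, ← h4, ← Finset.sum_neg_distrib]
      refine Finset.sum_congr rfl fun i _ => ?_
      rw [Algebra.smul_def, map_sub]
      ring
    have h5 := linearIndependent_iff'.mp (basis_indep (h := h) (Ω := Ω)) s _ h3 i hi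
    exact sub_eq_zero.mp h5
  refine ⟨s, fun i => c i π₀ / w π₀, fun i hi => ?_, h1 π₀⟩
  have h3 : (fun π => c i π₀ / w π₀ * w π) = c i := by
    funext π
    rw [← h2 π i hi, div_mul_cancel₀ _ (hw π)]
  rw [h3]
  exact hc i hi

theorem BO_const_iff [Nonempty P] {y : Ω} : (fun _ : P => y) ∈ BO h Ω ↔ y ∈ KO h Ω := by
  constructor
  · intro hy
    have h0 : (fun π : P => y * algebraMap M Ω ((fun _ : P => (1 : M)) π)) ∈ BO h Ω := by
      have e1 : (fun π : P => y * algebraMap M Ω ((fun _ : P => (1 : M)) π)) = fun _ => y := by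
        funext π
        rw [map_one, mul_one]
      rw [e1]
      exact hy
    obtain ⟨s, j, hj, hJ⟩ := BO_scalar (h := h) (fun _ : P => one_ne_zero) h0
    rw [hJ]
    refine (KO h Ω).sum_mem fun i hi => (KO h Ω).mul_mem ?_ ?_
    · exact (Module.Basis.ofVectorSpace (K0 O δ h) (algebraicClosure (K0 O δ h) Ω) i).2
    · have h1 := hj i hi
      simp only [mul_one] at h1
      rw [mem_KO]
      exact isAlgebraic_algebraMap (⟨j i, h1⟩ : K0 O δ h)
  · exact BO_of_const

theorem BO_neg [Nonempty P] {J : Ω} {w : P → M} (hw : ∀ π, w π ≠ 0)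
    (hneg : ∀ j : M, (fun π => j * w π) ∈ B0 O δ h → j = 0)
    (hJ : (fun π => J * algebraMap M Ω (w π)) ∈ BO h Ω) : J = 0 := by
  obtain ⟨s, j, hj, hJ⟩ := BO_scalar hw hJ
  rw [hJ]
  refine Finset.sum_eq_zero fun i hi => ?_
  rw [hneg _ (hj i hi), map_zero, mul_zero]

/-- the inclusion as a ring homomorphism -/
def KOhom : KO h Ω →+* algebraicClosure (K0 O δ h) Ω where
  toFun y := ⟨y.1, y.2⟩
  map_one' := rfl
  map_mul' _ _ := rfl
  map_zero' := rfl
  map_add' _ _ := rfl

theorem KO_algebraic {y : Ω} (hy : IsAlgebraic (KO h Ω) y) : y ∈ KO h Ω := by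
  obtain ⟨p, hp, hpy⟩ := hy
  have h1 : IsAlgebraic (algebraicClosure (K0 O δ h) Ω) y := by
    refine ⟨p.map KOhom, ?_, ?_⟩
    · rw [Polynomial.map_ne_zero_iff (RingHom.injective _)]
      exact hp
    · rw [Polynomial.aeval_def, Polynomial.eval₂_map]
      exact hpy
  exact mem_KO.mpr (h1.restrictScalars (K0 O δ h))

end BO

end Pool.Agent.Lib.MP_44a246_ntB
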