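import Mathlib
import Pool.Agent.Lib.MP_44a246_ntB.Base2
import Pool.Agent.Lib.MP_44a246_ntB.LSys

/-!
The structure of bounded functions attached to a family of admissible valuation rings.
-/

set_option linter.unusedSectionVars false

namespace Pool.Agent.Lib.MP_44a246_ntB

open Polynomial

section DerAlg

variable {k Ω : Type*} [Field k] [Field Ω] [Algebra k Ω]

theorem der_aeval_one (D : Derivation ℤ Ω Ω) (y : Ω) (p : k[X]) :
    D (aeval y p) = ∑ i ∈ p.support, D (algebraMap k Ω (p.coeff i)) * y ^ i +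
      aeval y (derivative p) * D y := by
  have h1 : ∀ (i : ℕ) (r : k), D (aeval y (monomial i r)) = D (algebraMap k Ω r) * y ^ i +
      aeval y (derivative (monomial i r)) * D y := by
    intro i r
    rw [aeval_monomial, Derivation.leibniz, Derivation.leibniz_pow, derivative_monomial,
      aeval_monomial]
    simp only [smul_eq_mul, nsmul_eq_mul, map_mul, map_natCast]
    ring
  conv_lhs => rw [p.as_sum_support]
  rw [map_sum, map_sum, Finset.sum_congr rfl fun i _ => h1 i (p.coeff i), Finset.sum_add_distrib]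
  congr 1
  rw [← Finset.sum_mul, ← map_sum, ← map_sum, ← p.as_sum_support]

/-- derivations preserve the algebraic closure of a stable subfield -/
theorem der_algebraic [CharZero k] (D : Derivation ℤ Ω Ω)
    (hD : ∀ r : k, IsAlgebraic k (D (algebraMap k Ω r))) {y : Ω} (hy : IsAlgebraic k y) :
    IsAlgebraic k (D y) := by
  have hyi := hy.isIntegral
  have h1 := der_aeval_one D y (minpoly k y)
  rw [minpoly.aeval, map_zero] at h1
  have hsep : (minpoly k y).Separable := (minpoly.irreducible hyi).separable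
  have h2 : aeval y (derivative (minpoly k y)) ≠ 0 :=
    hsep.aeval_derivative_ne_zero (minpoly.aeval k y)
  have h3 : D y = -(∑ i ∈ (minpoly k y).support,
      D (algebraMap k Ω ((minpoly k y).coeff i)) * y ^ i) /
      aeval y (derivative (minpoly k y)) := by
    rw [eq_div_iff h2]
    linear_combination -h1
  have h4 : ∀ w : Ω, w ∈ algebraicClosure k Ω ↔ IsAlgebraic k w := fun w =>
    mem_algebraicClosure_iff
  rw [← h4, h3]
  refine div_mem (neg_mem (sum_mem fun i _ => mul_mem ((h4 _).mpr (hD _))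
    (pow_mem ((h4 _).mpr hy) _))) ?_
  rw [aeval_eq_sum_range]
  refine sum_mem fun i _ => ?_
  rw [Algebra.smul_def]
  exact mul_mem ((algebraicClosure k Ω).algebraMap_mem _) (pow_mem ((h4 _).mpr hy) _)

end DerAlg

section LBO

variable {M Ω : Type*} [Field M] [Field Ω] [Algebra M Ω] [CharZero M] {P : Type*}
  {O : P → Subring M} {δ : P → M} {h : VData O δ} {σ ι : Type*} [Fintype σ] [DecidableEq σ]

/-- the derivations of the large field -/
def DDO (h : VData O δ) (DO : ι → Derivation ℤ Ω Ω) :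
    Submodule (KO h Ω) (Derivation ℤ Ω Ω) := Submodule.span _ (Set.range DO)

/-- the input of the construction -/
structure Inp (h : VData O δ) (d : ℕ) (p : σ → M) (z : M) (c : P → σ)
    (DM : ι → Derivation ℤ M M) (DO : ι → Derivation ℤ Ω Ω) : Prop where
  hc : ∀ π, p (c π) ≠ 0
  hp : ∀ π k, p k / p (c π) ∈ O π
  hDM : ∀ i y, DO i (algebraMap M Ω y) = algebraMap M Ω (DM i y)
  hDO : ∀ i π, ∀ y ∈ O π, δ π * DM i y ∈ O π
  hlog : ∀ i π, δ π * (DM i (z / p (c π) ^ d) / (z / p (c π) ^ d)) ∈ O π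
  hNB : ∀ (J : M) (a e : ℕ), 0 < e → (∀ π, δ π ^ a * (J * p (c π) ^ e) ∈ O π) → J = 0
  hz : z ≠ 0
  hconst : ∀ y : Ω, (∀ i, DO i y = 0) → ∃ y' : M, algebraMap M Ω y' = y ∧ ∀ π, y' ∈ O π

variable {d : ℕ} {p : σ → M} {z : M} {c : P → σ} {DM : ι → Derivation ℤ M M}
  {DO : ι → Derivation ℤ Ω Ω}

namespace Inp

variable (X : Inp h d p z c DM DO)
include X

theorem nonempty : Nonempty P := by
  by_contra hP
  have hP' : IsEmpty P := not_nonempty_iff.mp hP
  exact one_ne_zero (X.hNB 1 0 1 one_pos fun π => hP'.elim π)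

theorem neg0 {J : M} {e : ℕ} (he : 0 < e) (hJ : (fun π => J * p (c π) ^ e) ∈ B0 O δ h) :
    J = 0 := by
  obtain ⟨β, -, h2, a, ha⟩ := hJ
  have := X.hNB (β * J) a e he fun π => by
    rw [mul_assoc]; exact ha π
  exact (mul_eq_zero.mp this).resolve_left h2

theorem mem_of_int {y : P → M} (hy : ∀ π, δ π * y π ∈ O π) :
    (fun π => algebraMap M Ω (y π)) ∈ BO h Ω :=
  BO_of_B0 (B0_of_int 1 fun π => by rw [pow_one]; exact hy π)

theorem hKD : ∀ D ∈ DDO h DO, ∀ y ∈ KO h Ω, D y ∈ KO h Ω := by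
  have hcΩ : CharZero (K0 O δ h) := inferInstance
  intro D hD
  refine Submodule.span_induction (p := fun D _ => ∀ y ∈ KO h Ω, D y ∈ KO h Ω) ?_ ?_ ?_ ?_ hD
  · rintro _ ⟨i, rfl⟩ y hy
    rw [mem_KO] at hy ⊢
    refine der_algebraic (DO i) (fun r => ?_) hy
    have h1 : algebraMap (K0 O δ h) Ω r = algebraMap M Ω (r : M) := rfl
    rw [h1, X.hDM]
    exact isAlgebraic_algebraMap (⟨DM i r, K0_D (DM i) (X.hDO i) r.2⟩ : K0 O δ h)
  · intro y _
    rw [Derivation.zero_apply]
    exact (KO h Ω).zero_mem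
  · intro D D' _ _ h1 h2 y hy
    rw [Derivation.add_apply]
    exact (KO h Ω).add_mem (h1 y hy) (h2 y hy)
  · intro r D _ h1 y hy
    rw [Derivation.smul_apply]
    exact (KO h Ω).mul_mem r.2 (h1 y hy)

theorem hf : ∀ y : Ω, (∀ D ∈ DDO h DO, D y = 0) → y ∈ KO h Ω := by
  intro y hy
  obtain ⟨y', rfl, h1⟩ := X.hconst y fun i => hy _ (Submodule.subset_span ⟨i, rfl⟩)
  rw [mem_KO]
  have h2 : y' ∈ K0 O δ h := Bdd_le_K0 ⟨0, fun π => by rw [pow_zero, one_mul]; exact h1 π⟩
  exact isAlgebraic_algebraMap (⟨y', h2⟩ : K0 O δ h)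

theorem lb : LB (KO h Ω) (BO h Ω) (DDO h DO) d (fun k => algebraMap M Ω (p k))
    (algebraMap M Ω z) c := by
  have hne := X.nonempty
  have hpB : ∀ k, (fun π => algebraMap M Ω (p k / p (c π))) ∈ BO h Ω := fun k =>
    BO_of_B0 (B0_of_int 0 fun π => by rw [pow_zero, one_mul]; exact X.hp π k)
  have hDle : DDO h DO ≤ goodD (fun y hy => BO_of_const hy) d
      (fun k => algebraMap M Ω (p k)) (algebraMap M Ω z) c := by
    unfold DDO
    rw [Submodule.span_le]
    rintro _ ⟨i, rfl⟩
    refine ⟨fun k => ?_, ?_⟩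
    · refine mem_congr (X.mem_of_int (Ω := Ω) (y := fun π => DM i (p k / p (c π))) fun π =>
        X.hDO i π _ (X.hp π k)) fun π => ?_
      rw [← map_div₀, X.hDM]
    · refine mem_congr (X.mem_of_int (Ω := Ω) (y := fun π => DM i (z / p (c π) ^ d) /
        (z / p (c π) ^ d)) fun π => X.hlog i π) fun π => ?_
      rw [← map_pow, ← map_div₀, X.hDM, ← map_div₀]
  refine ⟨fun y => BO_const_iff, fun π => ?_, fun k => ?_, fun k => ?_, fun D hD k => ?_,
    fun D hD => ?_, fun J e he hJ => ?_, ?_⟩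
  · rw [Ne, _root_.map_eq_zero]
    exact X.hc π
  · refine mem_congr (BO_of_B0 (y := fun π => if c π = k then (1 : M) else 0)
      (B0_of_int 0 fun π => ?_)) fun π => ?_
    · rw [pow_zero, one_mul]
      split_ifs
      · exact (O π).one_mem
      · exact (O π).zero_mem
    · split_ifs <;> simp
  · exact mem_congr (hpB k) fun π => map_div₀ _ _ _
  · exact (hDle hD).1 k
  · exact (hDle hD).2
  · refine BO_neg (w := fun π => p (c π) ^ e) (fun π => pow_ne_zero _ (X.hc π))
      (fun j hj => X.neg0 he hj) ?_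
    refine mem_congr hJ fun π => ?_
    rw [map_pow]
  · rw [Ne, _root_.map_eq_zero]
    exact X.hz

end Inp

end LBO

end Pool.Agent.Lib.MP_44a246_ntB
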