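import Mathlib

/-!
A generic form does not restrict to a monomial `c T ^ a` on a parametrised conic.
-/

set_option linter.unusedSectionVars false

namespace Pool.Agent.Lib.MP_44a246_ntB

open MvPolynomial

section Chain

variable {R₀ R A σ : Type*} [CommRing R₀] [CommRing R] [CommRing A] [Algebra R₀ A] [Algebra R A]
  [Fintype σ] [DecidableEq σ]

theorem der_mon (Δ : Derivation R₀ A A) (φ : σ → A) (G : MvPolynomial σ ℤ) :
    Δ (aeval φ G) = ∑ k, aeval φ (pderiv k G) * Δ (φ k) := by
  induction G using MvPolynomial.induction_on with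
  | C a =>
    rw [aeval_C, algebraMap_int_eq, eq_intCast, Derivation.map_intCast]
    symm
    apply Finset.sum_eq_zero
    intro k _
    rw [pderiv_C, map_zero, zero_mul]
  | add p q hp hq =>
    rw [map_add, map_add, hp, hq, ← Finset.sum_add_distrib]
    refine Finset.sum_congr rfl fun k _ => ?_
    rw [map_add, map_add, add_mul]
  | mul_X p n hp =>
    rw [map_mul, aeval_X, Derivation.leibniz, hp]
    simp only [smul_eq_mul]
    have e1 : ∀ k, aeval φ (pderiv k (p * X n)) * Δ (φ k) =
        φ n * (aeval φ (pderiv k p) * Δ (φ k)) + (if k = n then aeval φ p * Δ (φ n) else 0) := by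
      intro k
      rw [Derivation.leibniz, map_add]
      simp only [smul_eq_mul]
      rw [map_mul, map_mul, aeval_X, pderiv_X]
      by_cases hk : k = n
      · subst hk
        rw [Pi.single_eq_same, map_one, if_pos rfl]
        ring
      · rw [Pi.single_eq_of_ne (Ne.symm hk), map_zero, if_neg hk]
        ring
    rw [Finset.sum_congr rfl fun k _ => e1 k, Finset.sum_add_distrib, Finset.sum_ite_eq' Finset.univ n,
      if_pos (Finset.mem_univ n), ← Finset.mul_sum]
    ring

theorem der_aeval (Δ : Derivation R₀ A A) (δ : R → R)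
    (hδ : ∀ r, Δ (algebraMap R A r) = algebraMap R A (δ r)) (φ : σ → A) (F : MvPolynomial σ R) :
    Δ (aeval φ F) = ∑ J ∈ F.support, algebraMap R A (δ (coeff J F)) * ∏ k, φ k ^ J k +
      ∑ k, aeval φ (pderiv k F) * Δ (φ k) := by
  have hmon : ∀ (J : σ →₀ ℕ) (r : R), Δ (aeval φ (monomial J r)) =
      algebraMap R A (δ r) * ∏ k, φ k ^ J k +
      ∑ k, aeval φ (pderiv k (monomial J r)) * Δ (φ k) := by
    intro J r
    have h1 := der_mon Δ φ (monomial J 1)
    rw [aeval_monomial, map_one, one_mul] at h1
    rw [aeval_monomial, Derivation.leibniz, h1, hδ, Finsupp.prod_fintype _ _ fun i => pow_zero _]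
    simp only [smul_eq_mul]
    rw [mul_comm (∏ i, φ i ^ J i), add_comm, Finset.mul_sum]
    congr 1
    refine Finset.sum_congr rfl fun k _ => ?_
    rw [pderiv_monomial, pderiv_monomial, aeval_monomial, aeval_monomial, map_mul, map_mul]
    simp only [map_natCast, map_one]
    ring
  conv_lhs => rw [F.as_sum]
  rw [map_sum, map_sum, Finset.sum_congr rfl fun J _ => hmon J (coeff J F),
    Finset.sum_add_distrib]
  congr 1
  rw [Finset.sum_comm]
  refine Finset.sum_congr rfl fun k _ => ?_
  rw [← Finset.sum_mul, ← map_sum, ← map_sum, ← F.as_sum]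

end Chain

section HT

variable {K σ : Type*} [Field K] [CharZero K] [Fintype σ] [DecidableEq σ]

/-- a derivation applied to the coefficients -/
noncomputable def mcD (δ : Derivation ℤ K K) : Derivation ℤ (Polynomial K) (Polynomial K) :=
  Derivation.mk' (AddMonoidHom.toIntLinearMap
    ((letI : Differential K := ⟨δ⟩
      Differential.mapCoeffs (A := K)).toLinearMap.toAddMonoidHom)) (by
    intro q q'
    exact (let _ : Differential K := ⟨δ⟩
      (Differential.mapCoeffs (A := K)).leibniz q q'))

theorem coeff_mcD (δ : Derivation ℤ K K) (q : Polynomial K) (i : ℕ) :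
    (mcD δ q).coeff i = δ (q.coeff i) := by
  let _ : Differential K := ⟨δ⟩
  exact Differential.coeff_mapCoeffs q i

theorem mcD_C (δ : Derivation ℤ K K) (r : K) : mcD δ (Polynomial.C r) = Polynomial.C (δ r) := by
  let _ : Differential K := ⟨δ⟩
  exact Differential.mapCoeffs_C r

theorem mcD_X (δ : Derivation ℤ K K) : mcD δ (Polynomial.X) = 0 := by
  let _ : Differential K := ⟨δ⟩
  exact Differential.mapCoeffs_X

theorem span_monomials {φ : σ → Polynomial K}
    (hspan : ∀ i : ℕ, i ≤ 2 → (Polynomial.X ^ i : Polynomial K) ∈ Submodule.span K (Set.range φ))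
    (m : ℕ) : ∀ i : ℕ, i ≤ 2 * m → (Polynomial.X ^ i : Polynomial K) ∈
      Submodule.span K {q | ∃ I : σ →₀ ℕ, I.degree = m ∧ q = ∏ k, φ k ^ I k} := by
  induction m with
  | zero =>
    intro i hi
    have : i = 0 := by omega
    subst this
    refine Submodule.subset_span ⟨0, by simp, by simp⟩
  | succ m ih =>
    intro i hi
    obtain ⟨j, i', hj, hi', hij⟩ : ∃ j i', j ≤ 2 ∧ i' ≤ 2 * m ∧ i = i' + j := by
      by_cases h2 : i ≤ 2 * m
      · exact ⟨0, i, by omega, h2, rfl⟩
      · exact ⟨i - 2 * m, 2 * m, by omega, le_rfl, by omega⟩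
    have h1 := Submodule.mul_mem_mul (ih i' hi') (hspan j hj)
    rw [Submodule.span_mul_span, ← pow_add, ← hij] at h1
    refine Submodule.span_mono ?_ h1
    rintro q ⟨q₁, ⟨I, hI, rfl⟩, q₂, ⟨k, rfl⟩, rfl⟩
    refine ⟨I + Finsupp.single k 1, by rw [map_add, Finsupp.degree_single, hI], ?_⟩
    show (∏ k, φ k ^ I k) * φ k = _
    simp only [Finsupp.add_apply, pow_add, Finset.prod_mul_distrib]
    congr 1
    rw [Finset.prod_eq_single k]
    · rw [Finsupp.single_eq_same, pow_one]
    · intro b _ hb
      rw [Finsupp.single_eq_of_ne hb, pow_zero]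
    · intro h; exact absurd (Finset.mem_univ k) h

/-- A generic form does not restrict to a monomial on a parametrised conic. -/
theorem no_hypertangent {d : ℕ} (hd : 0 < d) (hcard : 3 * Fintype.card σ ≤ 2 * d + 1)
    {F : MvPolynomial σ K} (hF : F.IsHomogeneous d) (δ : (σ →₀ ℕ) → Derivation ℤ K K)
    (hδ : ∀ I : σ →₀ ℕ, I.degree = d → ∀ J : σ →₀ ℕ, J.degree = d →
      δ I (coeff J F) = if I = J then 1 else 0)
    {φ : σ → Polynomial K} (hφ : ∀ k, (φ k).natDegree ≤ 2)
    (hspan : ∀ i : ℕ, i ≤ 2 → (Polynomial.X ^ i : Polynomial K) ∈ Submodule.span K (Set.range φ))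
    {c : K} (hc : c ≠ 0) {a : ℕ} (h : aeval φ F = Polynomial.C c * Polynomial.X ^ a) : False := by
  classical
  set g : σ → Polynomial K := fun k => aeval φ (pderiv k F) with hg
  -- Euler
  have heul : ∑ k, φ k * g k = (d : Polynomial K) * (Polynomial.C c * Polynomial.X ^ a) := by
    have h1 := hF.sum_X_mul_pderiv
    have h2 := congrArg (aeval φ) h1
    rw [map_sum, nsmul_eq_mul, map_mul, map_natCast, h] at h2
    rw [← h2]
    refine Finset.sum_congr rfl fun k _ => ?_
    rw [map_mul, aeval_X]
  -- the linear map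
  let Γ : (σ → Polynomial.degreeLT K 3) →ₗ[K] Polynomial K :=
    { toFun := fun h => ∑ k, g k * (h k : Polynomial K)
      map_add' := by
        intro h h'
        rw [← Finset.sum_add_distrib]
        refine Finset.sum_congr rfl fun k _ => ?_
        rw [Pi.add_apply, Submodule.coe_add, mul_add]
      map_smul' := by
        intro y h
        rw [RingHom.id_apply, Finset.smul_sum]
        refine Finset.sum_congr rfl fun k _ => ?_
        rw [Pi.smul_apply, Submodule.coe_smul, mul_smul_comm] }
  have hΓ : ∀ h, Γ h = ∑ k, g k * (h k : Polynomial K) := fun _ => rfl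
  have hmem3 : ∀ q : Polynomial K, q.natDegree ≤ 2 → q ∈ Polynomial.degreeLT K 3 := by
    intro q hq
    rw [Polynomial.mem_degreeLT]
    refine lt_of_le_of_lt Polynomial.degree_le_natDegree ?_
    exact_mod_cast Nat.lt_succ_of_le hq
  have hrange : ∀ h : σ → Polynomial K, (∀ k, (h k).natDegree ≤ 2) →
      ∑ k, g k * h k ∈ LinearMap.range Γ := by
    intro h hh
    exact ⟨fun k => ⟨h k, hmem3 _ (hh k)⟩, rfl⟩
  have hTa : Polynomial.X ^ a ∈ LinearMap.range Γ := by
    have h1 := hrange φ hφ
    have h2 : ∑ k, g k * φ k = (d * c : K) • (Polynomial.X ^ a : Polynomial K) := by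
      rw [Polynomial.smul_eq_C_mul, map_mul, map_natCast, mul_assoc, ← heul]
      exact Finset.sum_congr rfl fun k _ => mul_comm _ _
    rw [h2] at h1
    have h3 : (d * c : K) ≠ 0 := mul_ne_zero (Nat.cast_ne_zero.mpr hd.ne') hc
    exact (Submodule.smul_mem_iff _ h3).mp h1
  have hI : ∀ I : σ →₀ ℕ, I.degree = d → ∏ k, φ k ^ I k ∈ LinearMap.range Γ := by
    intro I hI
    have h1 := der_aeval (R := K) (A := Polynomial K) (mcD (δ I)) (δ I) (fun r => by
      rw [Polynomial.algebraMap_apply, Polynomial.algebraMap_apply, Algebra.algebraMap_self,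
        RingHom.id_apply, RingHom.id_apply, mcD_C]) φ F
    have h2 : ∑ J ∈ F.support, algebraMap K (Polynomial K) (δ I (coeff J F)) * ∏ k, φ k ^ J k =
        ∏ k, φ k ^ I k := by
      rw [Finset.sum_eq_single I]
      · rw [hδ I hI I hI, if_pos rfl, map_one, one_mul]
      · intro J hJ hJI
        have hJd : J.degree = d := by
          by_contra hne
          exact (mem_support_iff.mp hJ) (hF.coeff_eq_zero hne)
        rw [hδ I hI J hJd, if_neg (Ne.symm hJI), map_zero, zero_mul]
      · intro hIs
        rw [notMem_support_iff] at hIs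
        have := hδ I hI I hI
        rw [hIs, map_zero, if_pos rfl] at this
        exact absurd this zero_ne_one
    rw [h2, h, Derivation.leibniz, mcD_C] at h1
    have h3 : mcD (δ I) (Polynomial.X ^ a : Polynomial K) = 0 := by
      rw [Derivation.leibniz_pow, mcD_X, smul_zero, smul_zero]
    rw [h3, smul_zero, zero_add] at h1
    have h4 : ∏ k, φ k ^ I k = (δ I c) • (Polynomial.X ^ a : Polynomial K) -
        ∑ k, g k * mcD (δ I) (φ k) := by
      rw [eq_sub_iff_add_eq, ← h1, Polynomial.smul_eq_C_mul, smul_eq_mul, mul_comm]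
    rw [h4]
    refine Submodule.sub_mem _ (Submodule.smul_mem _ _ hTa) (hrange _ fun k => ?_)
    rw [Polynomial.natDegree_le_iff_coeff_eq_zero]
    intro i hi
    rw [coeff_mcD, Polynomial.coeff_eq_zero_of_natDegree_lt
      (lt_of_le_of_lt (hφ k) hi), map_zero]
  have hle : Polynomial.degreeLT K (2 * d + 1) ≤ LinearMap.range Γ := by
    rw [Polynomial.degreeLT_eq_span_X_pow, Submodule.span_le]
    intro q hq
    rw [Finset.mem_coe, Finset.mem_image] at hq
    obtain ⟨i, hi, rfl⟩ := hq
    rw [Finset.mem_range] at hi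
    have h1 := span_monomials hspan d i (by omega)
    refine (Submodule.span_le.mpr ?_) h1
    rintro q ⟨I, hI', rfl⟩
    exact hI I hI'
  -- the kernel
  set w : σ → Polynomial K := fun k => (d : Polynomial K) * (Polynomial.X *
    Polynomial.derivative (φ k)) - (a : Polynomial K) * φ k with hw
  have hwd : ∀ k, (w k).natDegree ≤ 2 := by
    intro k
    refine (Polynomial.natDegree_sub_le _ _).trans (max_le ?_ ?_)
    · refine (Polynomial.natDegree_mul_le).trans ?_
      rw [Polynomial.natDegree_natCast, zero_add]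
      refine (Polynomial.natDegree_mul_le).trans ?_
      have h1 := Polynomial.natDegree_derivative_le (φ k)
      have h2 := Polynomial.natDegree_X_le (R := K)
      have h3 := hφ k
      omega
    · refine (Polynomial.natDegree_mul_le).trans ?_
      rw [Polynomial.natDegree_natCast, zero_add]
      exact hφ k
  have hker : ∑ k, g k * w k = 0 := by
    have h1 := der_aeval (R := K) (A := Polynomial K)
      (Polynomial.derivative'.restrictScalars ℤ) (fun _ => (0 : K)) (fun r => by
        simp) φ F
    simp only [map_zero, zero_mul, Finset.sum_const_zero, zero_add] at h1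
    have h2 : ∑ k, g k * Polynomial.derivative (φ k) =
        Polynomial.derivative (Polynomial.C c * Polynomial.X ^ a) := by
      rw [← h]
      exact h1.symm
    have h3 : ∑ k, g k * w k = (d : Polynomial K) * (Polynomial.X *
        ∑ k, g k * Polynomial.derivative (φ k)) - (a : Polynomial K) * ∑ k, φ k * g k := by
      rw [Finset.mul_sum, Finset.mul_sum, Finset.mul_sum, ← Finset.sum_sub_distrib]
      refine Finset.sum_congr rfl fun k _ => ?_
      rw [hw]
      ring
    rw [h3, h2, heul, Polynomial.derivative_C_mul_X_pow]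
    rcases Nat.eq_zero_or_pos a with ha | ha
    · subst ha
      simp
    · obtain ⟨b, rfl⟩ : ∃ b, a = b + 1 := ⟨a - 1, by omega⟩
      rw [Nat.add_sub_cancel, map_mul, map_natCast, pow_succ]
      ring
  have hw0 : ∃ k, w k ≠ 0 := by
    by_contra hcon
    push Not at hcon
    let Λ : Polynomial K →ₗ[K] Polynomial K :=
      { toFun := fun q => (d : Polynomial K) * (Polynomial.X * Polynomial.derivative q) -
          (a : Polynomial K) * q
        map_add' := by intro q q'; rw [map_add]; ring
        map_smul' := by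
          intro y q
          rw [Polynomial.derivative_smul, RingHom.id_apply]
          simp only [Polynomial.smul_eq_C_mul]
          ring }
    have hΛ : ∀ q, Λ q = (d : Polynomial K) * (Polynomial.X * Polynomial.derivative q) -
          (a : Polynomial K) * q := fun _ => rfl
    have hle' : Submodule.span K (Set.range φ) ≤ LinearMap.ker Λ := by
      rw [Submodule.span_le]
      rintro _ ⟨k, rfl⟩
      exact hcon k
    have h0 := hle' (hspan 0 (by omega))
    have h1 := hle' (hspan 1 (by omega))
    rw [LinearMap.mem_ker, hΛ] at h0 h1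
    have ha : (a : Polynomial K) = 0 := by
      simpa using h0
    rw [ha] at h1
    have hd0 : (d : Polynomial K) * Polynomial.X = 0 := by
      simpa using h1
    rcases mul_eq_zero.mp hd0 with h2 | h2
    · have : (d : K) = 0 := by
        have h3 := congrArg (Polynomial.eval 0) h2
        simpa using h3
      exact absurd this (Nat.cast_ne_zero.mpr hd.ne')
    · exact Polynomial.X_ne_zero h2
  have hkerne : LinearMap.ker Γ ≠ ⊥ := by
    intro h0
    obtain ⟨k, hk⟩ := hw0
    have h1 : (fun k => (⟨w k, hmem3 _ (hwd k)⟩ : Polynomial.degreeLT K 3)) ∈ LinearMap.ker Γ := by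
      rw [LinearMap.mem_ker]
      exact hker
    rw [h0, Submodule.mem_bot] at h1
    have h2 := congrFun h1 k
    exact hk (congrArg Subtype.val h2)
  have hfin3 : FiniteDimensional K (Polynomial.degreeLT K 3) :=
    (Polynomial.degreeLTEquiv K 3).symm.finiteDimensional
  have hrk := LinearMap.finrank_range_add_finrank_ker Γ
  have hdim3 : Module.finrank K (Polynomial.degreeLT K 3) = 3 := by
    rw [(Polynomial.degreeLTEquiv K 3).finrank_eq]
    simp
  rw [Module.finrank_pi_fintype, Finset.sum_congr rfl fun _ _ => hdim3, Finset.sum_const,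
    Finset.card_univ, smul_eq_mul] at hrk
  have hkpos : 0 < Module.finrank K (LinearMap.ker Γ) := by
    rw [Nat.pos_iff_ne_zero]
    intro h0
    exact hkerne (Submodule.finrank_eq_zero.mp h0)
  have hmono := Submodule.finrank_mono hle
  rw [(Polynomial.degreeLTEquiv K (2 * d + 1)).finrank_eq, Module.finrank_fin_fun] at hmono
  omega

end HT

end Pool.Agent.Lib.MP_44a246_ntB
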