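import Mathlib
import Pool.Agent.Lib.MP_44a246_ntB.BackL
import Pool.Agent.Lib.MP_44a246_ntB.HT

/-!
The restrictions of the partial derivatives of a form to a plane, and the derivative of the value.
-/

set_option linter.unusedSectionVars false

namespace Pool.Agent.Lib.MP_44a246_ntB

open Pool.Agent.Lib.MP_e52354_nt Pool.Agent.Lib.MP_e52354_ntP
open MvPolynomial

section Restr

variable {Ω : Type*} [Field Ω] {σ : Type*} [Fintype σ] [DecidableEq σ]
  {K : Subfield Ω} {d : ℕ} {p : σ → Ω} {l a b : σ} {al be ga : σ → K}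
  {D : (σ →₀ ℕ) → Derivation ℤ Ω Ω}

/-- the restriction of a form to the plane -/
noncomputable def rs (al be ga : σ → K) : MvPolynomial σ K →ₐ[K] MvPolynomial (Fin 2) K :=
  aeval (lf al be ga)

theorem rs_mem {F : MvPolynomial σ K} {e : ℕ} (hF : F.totalDegree ≤ e) :
    rs al be ga F ∈ WW K e := by
  unfold rs
  rw [F.as_sum, map_sum]
  refine Submodule.sum_mem _ fun J hJ => ?_
  rw [aeval_monomial]
  have h1 : J.degree ≤ e := (le_totalDegree hJ).trans hF
  have h2 := mf_mem (al := al) (be := be) (ga := ga) J
  have h3 : J.prod (fun i k => lf al be ga i ^ k) = mf al be ga J := by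
    unfold mf
    rw [Finsupp.prod_fintype _ _ fun i => pow_zero _]
  rw [h3, MvPolynomial.algebraMap_eq, ← smul_eq_C_mul]
  exact (WW K e).smul_mem _ (WW_mono h1 h2)

theorem evp_rs (hp : ∀ k, p k = (al k : Ω) + be k * p a + ga k * p b) (F : MvPolynomial σ K) :
    evp K (p a) (p b) (rs al be ga F) = aeval p F := by
  unfold rs
  rw [comp_aeval_apply]
  congr 1
  congr 1
  funext k
  rw [evp_lf, ← hp]

theorem totalDegree_pderiv {F : MvPolynomial σ K} {e : ℕ} (hF : F.IsHomogeneous (e + 1)) (k : σ) :
    (pderiv k F).totalDegree ≤ e := by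
  have := hF.pderiv (i := k)
  rw [Nat.add_sub_cancel] at this
  exact this.totalDegree_le

/-- Euler -/
theorem euler {F : MvPolynomial σ K} (hF : F.IsHomogeneous d) :
    ∑ k, aeval p (pderiv k F) * p k = d * aeval p F := by
  have h1 := hF.sum_X_mul_pderiv
  have h2 := congrArg (aeval p) h1
  rw [map_sum, nsmul_eq_mul, map_mul, map_natCast] at h2
  rw [← h2]
  refine Finset.sum_congr rfl fun k _ => ?_
  rw [map_mul, aeval_X, mul_comm]

/-- the derivative of the value -/
theorem DG_value (h : Pln D d p l a b al be ga) {F : MvPolynomial σ K} (hF : F.IsHomogeneous d)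
    (hKD : ∀ I : σ →₀ ℕ, I.degree = d → ∀ y ∈ K, D I y ∈ K)
    (hDF : ∀ I : σ →₀ ℕ, I.degree = d → ∀ J : σ →₀ ℕ, J.degree = d →
      D I ((coeff J F : K) : Ω) = if I = J then 1 else 0)
    {G : MvPolynomial (Fin 2) K} (hG : G ∈ WW K d) :
    DG K D d l a b G (aeval p F) =
      evp K (p a) (p b) G + ∑ k, aeval p (pderiv k F) * EE K D d l a b p G k := by
  refine WW_induction (P := fun G => DG K D d l a b G (aeval p F) =
      evp K (p a) (p b) G + ∑ k, aeval p (pderiv k F) * EE K D d l a b p G k) ?_ ?_ ?_ hG
  · intro m hm0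
    rw [DG_monomial]
    set I := hm l a b d m with hI
    have hId : I.degree = d := degree_hm hm0
    have h1 := der_aeval (D I) (fun r : K => (⟨D I r, hKD I hId r r.2⟩ : K))
      (fun r => rfl) p F
    rw [h1]
    have h2 : ∑ J ∈ F.support, algebraMap K Ω (⟨D I (coeff J F : K), hKD I hId _ (coeff J F).2⟩ : K) *
        ∏ k, p k ^ J k = ∏ k, p k ^ I k := by
      rw [Finset.sum_eq_single I]
      · have e1 : algebraMap K Ω (⟨D I (coeff I F : K), hKD I hId _ (coeff I F).2⟩ : K) = 1 := by
          show D I (coeff I F : K) = 1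
          rw [hDF I hId I hId, if_pos rfl]
        rw [e1, one_mul]
      · intro J hJ hJI
        have hJd : J.degree = d := by
          by_contra hne
          exact (mem_support_iff.mp hJ) (hF.coeff_eq_zero hne)
        have e1 : algebraMap K Ω (⟨D I (coeff J F : K), hKD I hId _ (coeff J F).2⟩ : K) = 0 := by
          show D I (coeff J F : K) = 0
          rw [hDF I hId J hJd, if_neg (Ne.symm hJI)]
        rw [e1, zero_mul]
      · intro hIs
        rw [notMem_support_iff] at hIs
        have := hDF I hId I hId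
        rw [hIs, if_pos rfl] at this
        rw [ZeroMemClass.coe_zero, map_zero] at this
        exact absurd this zero_ne_one
    rw [h2]
    congr 1
    · rw [← h.mf_hm d m, evp_mf h.hp]
      rfl
    · refine Finset.sum_congr rfl fun k _ => ?_
      rw [EE_monomial]
  · intro Q R hQ hR
    rw [map_add, map_add, map_add, Derivation.add_apply, hQ, hR]
    simp only [Pi.add_apply, mul_add, Finset.sum_add_distrib]
    ring
  · intro y Q hQ
    rw [map_smul, map_smul, map_smul, Derivation.smul_apply, hQ]
    simp only [Pi.smul_apply, smul_eq', smul_add, Finset.mul_sum]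
    congr 1
    exact Finset.sum_congr rfl fun k _ => by ring

end Restr

end Pool.Agent.Lib.MP_44a246_ntB
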