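import Mathlib
import Pool.Agent.Lib.MP_44a246_ntB.Restr

/-!
The slot for the projective plane, I: bounded determinants.
-/

set_option linter.unusedSectionVars false

namespace Pool.Agent.Lib.MP_44a246_ntB

open Pool.Agent.Lib.MP_e52354_nt Pool.Agent.Lib.MP_e52354_ntP
open MvPolynomial

section Det

variable {Ω : Type*} [Field Ω] {σ : Type*}

/-- the determinant of the coordinates `l`, `a`, `b` -/
def det3 (l a b : σ) (u v w : σ → Ω) : Ω :=
  u l * (v a * w b - v b * w a) - u a * (v l * w b - v b * w l) + u b * (v l * w a - v a * w l)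

theorem cramer3 {l a b : σ} (huniv : ∀ k, k = l ∨ k = a ∨ k = b) (p w u v : σ → Ω) (k : σ) :
    w k * det3 l a b p u v = p k * det3 l a b w u v + u k * det3 l a b p w v +
      v k * det3 l a b p u w := by
  unfold det3
  rcases huniv k with rfl | rfl | rfl <;> ring

theorem det3_mod (l a b : σ) (p u v : σ → Ω) (r s x y : Ω) :
    det3 l a b p (fun k => x * u k - r * p k) (fun k => y * v k - s * p k) =
      x * y * det3 l a b p u v := by
  unfold det3
  ring

theorem det3_div (l a b : σ) (p u v : σ → Ω) (r : Ω) :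
    det3 l a b (fun k => p k / r) u v = det3 l a b p u v / r := by
  unfold det3
  ring

end Det

section V

variable {Ω : Type*} [Field Ω] [CharZero Ω] {P : Type*} {σ : Type*} [Fintype σ] [DecidableEq σ]
  {K : Subfield Ω} {B : Subring (P → Ω)} {𝒟 : Submodule K (Derivation ℤ Ω Ω)} {d : ℕ}
  {p : σ → Ω} {z : Ω} {c : P → σ} {D : (σ →₀ ℕ) → Derivation ℤ Ω Ω} {l a b : σ}
  {al be ga : σ → K}

theorem det3_mem (l a b : σ) {u v w : P → σ → Ω} (hu : ∀ k, (fun π => u π k) ∈ B)
    (hv : ∀ k, (fun π => v π k) ∈ B) (hw : ∀ k, (fun π => w π k) ∈ B) :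
    (fun π => det3 l a b (u π) (v π) (w π)) ∈ B := by
  have h1 : ∀ i j k : σ, (fun π => u π i * (v π j * w π k)) ∈ B := fun i j k =>
    B.mul_mem (hu i) (B.mul_mem (hv j) (hw k))
  refine mem_congr (B.add_mem (B.sub_mem (B.sub_mem (h1 l a b) (h1 l b a))
    (B.sub_mem (h1 a l b) (h1 a b l))) (B.sub_mem (h1 b l a) (h1 b a l))) fun π => ?_
  simp only [Pi.add_apply, Pi.sub_apply]
  unfold det3
  ring

/-- the basic identity for the logarithmic derivative of the value -/
theorem log_id (LL : LB K B 𝒟 d p z c) {e : ℕ} (he : e + 1 = d) {gr : σ → Ω}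
    (hzD : ∀ G ∈ WW K d, DG K D d l a b G z =
      evp K (p a) (p b) G + ∑ k, gr k * EE K D d l a b p G k)
    (heul : ∑ k, gr k * p k = d * z) {G : MvPolynomial (Fin 2) K} (hG : G ∈ WW K d) (π : P) :
    DG K D d l a b G (z / p (c π) ^ d) / (z / p (c π) ^ d) =
      (evp K (p a) (p b) G + p (c π) * ∑ k, gr k * DG K D d l a b G (p k / p (c π))) / z := by
  have hc := LL.hc π
  have hz := LL.hz
  set δ := DG K D d l a b G with hδ
  have h1 : ∀ k, δ (p k / p (c π)) = EE K D d l a b p G k / p (c π) -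
      p k * (δ (p (c π)) / p (c π) ^ 2) := by
    intro k
    rw [div_eq_mul_inv, Derivation.leibniz, Derivation.leibniz_inv]
    simp only [smul_eq_mul]
    have : EE K D d l a b p G k = δ (p k) := rfl
    rw [this]
    field_simp
    ring
  have h2 : δ (z / p (c π) ^ d) = δ z / p (c π) ^ d - d * z * δ (p (c π)) / p (c π) ^ (d + 1) := by
    rw [div_eq_mul_inv, Derivation.leibniz, Derivation.leibniz_inv, Derivation.leibniz_pow]
    simp only [smul_eq_mul, nsmul_eq_mul]
    rw [← he, Nat.add_sub_cancel]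
    field_simp
    ring
  have h3 : ∑ k, gr k * δ (p k / p (c π)) = (∑ k, gr k * EE K D d l a b p G k) / p (c π) -
      (d * z) * (δ (p (c π)) / p (c π) ^ 2) := by
    rw [← heul, Finset.sum_mul, Finset.sum_div, ← Finset.sum_sub_distrib]
    refine Finset.sum_congr rfl fun k _ => ?_
    rw [h1]
    ring
  rw [h3, h2, hzD G hG]
  have hcd : p (c π) ^ d ≠ 0 := pow_ne_zero _ hc
  rw [pow_succ]
  field_simp
  ring

/-- the vectors whose pairing with the gradient is small -/
def TB (B : Subring (P → Ω)) (p : σ → Ω) (z : Ω) (c : P → σ) (gr : σ → Ω) (T : P → σ → Ω) : Prop :=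
  (∀ k, (fun π => T π k) ∈ B) ∧ (fun π => (∑ k, gr k * T π k) * p (c π) / z) ∈ B

theorem det_mem (LL : LB K B 𝒟 d p z c) (h : Pln D d p l a b al be ga)
    (huniv : ∀ k, k = l ∨ k = a ∨ k = b)
    (hD𝒟 : ∀ I : σ →₀ ℕ, I.degree = d → D I ∈ 𝒟) {e : ℕ} (he : e + 1 = d) {gr : σ → Ω}
    (hzD : ∀ G ∈ WW K d, DG K D d l a b G z =
      evp K (p a) (p b) G + ∑ k, gr k * EE K D d l a b p G k)
    (heul : ∑ k, gr k * p k = d * z) {T₁ T₂ : P → σ → Ω} (h₁ : TB B p z c gr T₁)
    (h₂ : TB B p z c gr T₂) :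
    (fun π => det3 l a b p (T₁ π) (T₂ π) * p (c π) ^ e / z) ∈ B := by
  refine LL.glue d fun k => ?_
  set G : MvPolynomial (Fin 2) K := lf al be ga k ^ d with hG
  have hGm : G ∈ WW K d := by
    have := pow_mem_WW (lf_mem (al := al) (be := be) (ga := ga) k) d
    rwa [mul_one] at this
  have hGe : evp K (p a) (p b) G = p k ^ d := by
    rw [hG, map_pow, evp_lf, ← h.hp]
  have hδ𝒟 := DG_mem (l := l) (a := a) (b := b) hD𝒟 hGm
  set w : P → σ → Ω := fun π j => DG K D d l a b G (p j / p (c π)) with hw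
  have hwB : ∀ j, (fun π => w π j) ∈ B := fun j => LL.hD _ hδ𝒟 j
  have hpB : ∀ j, (fun π => p j / p (c π)) ∈ B := LL.hp
  have h3 := det3_mem l a b hpB h₁.1 h₂.1
  have h4 := det3_mem l a b hwB h₁.1 h₂.1
  have h5 := det3_mem l a b hpB hwB h₂.1
  have h6 := det3_mem l a b hpB h₁.1 hwB
  refine mem_congr (B.sub_mem (B.sub_mem (B.sub_mem (B.mul_mem (LL.hlog _ hδ𝒟) h3)
    (B.mul_mem (LL.K_mem (natCast_mem K d)) h4)) (B.mul_mem h₁.2 h5)) (B.mul_mem h₂.2 h6))
    fun π => ?_
  have hc := LL.hc π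
  have hz := LL.hz
  simp only [Pi.sub_apply, Pi.mul_apply]
  rw [log_id LL he hzD heul hGm, hGe]
  have h7 : (∑ j, gr j * w π j) * det3 l a b p (T₁ π) (T₂ π) =
      (d * z) * det3 l a b (w π) (T₁ π) (T₂ π) +
      (∑ j, gr j * T₁ π j) * det3 l a b p (w π) (T₂ π) +
      (∑ j, gr j * T₂ π j) * det3 l a b p (T₁ π) (w π) := by
    rw [← heul, Finset.sum_mul, Finset.sum_mul, Finset.sum_mul, Finset.sum_mul,
      ← Finset.sum_add_distrib, ← Finset.sum_add_distrib]
    refine Finset.sum_congr rfl fun j _ => ?_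
    have := cramer3 huniv p (w π) (T₁ π) (T₂ π) j
    linear_combination gr j * this
  have e1 : (∑ k, gr k * DG K D d l a b G (p k / p (c π))) = ∑ j, gr j * w π j := rfl
  rw [e1, det3_div, det3_div, det3_div, div_pow, ← he, pow_succ (p (c π))]
  rw [← he] at h7
  field_simp
  linear_combination p (c π) * h7

end V

end Pool.Agent.Lib.MP_44a246_ntB
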