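import Mathlib
import Pool.Agent.Lib.MP_44a246_ntB.Front2

/-!
The slot for the projective plane, II: equivariance and the quadratic form.
-/

set_option linter.unusedSectionVars false

namespace Pool.Agent.Lib.MP_44a246_ntB

open Pool.Agent.Lib.MP_e52354_nt Pool.Agent.Lib.MP_e52354_ntP
open MvPolynomial

section Front3

variable {Ω : Type*} [Field Ω] [CharZero Ω] {P : Type*} {σ : Type*} [Fintype σ] [DecidableEq σ]
  {K : Subfield Ω} {B : Subring (P → Ω)} {𝒟 : Submodule K (Derivation ℤ Ω Ω)} {d : ℕ}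
  {p : σ → Ω} {z : Ω} {c : P → σ} {D : (σ →₀ ℕ) → Derivation ℤ Ω Ω} {l a b : σ}
  {al be ga : σ → K}

theorem DG_div (LL : LB K B 𝒟 d p z c) (G : MvPolynomial (Fin 2) K) (π : P) (k : σ) :
    DG K D d l a b G (p k / p (c π)) = (p (c π))⁻¹ * EE K D d l a b p G k -
      (DG K D d l a b G (p (c π)) / p (c π) ^ 2) * p k := by
  have hc := LL.hc π
  rw [div_eq_mul_inv, Derivation.leibniz, Derivation.leibniz_inv]
  simp only [smul_eq_mul]
  have : EE K D d l a b p G k = DG K D d l a b G (p k) := rfl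
  rw [this]
  field_simp
  ring

/-- the pairing with the gradient -/
theorem pair_id (LL : LB K B 𝒟 d p z c) {e : ℕ} (he : e + 1 = d) {gr : σ → Ω}
    (hzD : ∀ G ∈ WW K d, DG K D d l a b G z =
      evp K (p a) (p b) G + ∑ k, gr k * EE K D d l a b p G k)
    (heul : ∑ k, gr k * p k = d * z) {G : MvPolynomial (Fin 2) K} (hG : G ∈ WW K d) (π : P) :
    (∑ k, gr k * DG K D d l a b G (p k / p (c π))) * p (c π) / z =
      DG K D d l a b G (z / p (c π) ^ d) / (z / p (c π) ^ d) - evp K (p a) (p b) G / z := by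
  rw [log_id LL he hzD heul hG]
  have hz := LL.hz
  field_simp
  ring

/-- the equivariance vector -/
noncomputable def Xi (K : Subfield Ω) (D : (σ →₀ ℕ) → Derivation ℤ Ω Ω) (d : ℕ) (l a b : σ)
    (p : σ → Ω) (al be ga : σ → K) (PP : σ → MvPolynomial (Fin 2) K) (u v : σ) : σ → Ω :=
  fun k => EE K D d l a b p (lf al be ga v * PP u) k + p v * (if k = u then 1 else 0)

/-- the tangent vector -/
noncomputable def Ua (K : Subfield Ω) (D : (σ →₀ ℕ) → Derivation ℤ Ω Ω) (d : ℕ) (l a b : σ)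
    (p : σ → Ω) (al be ga : σ → K) (u v : σ) (Q : MvPolynomial (Fin 2) K) : σ → Ω :=
  fun k => p u * EE K D d l a b p (lf al be ga v * Q) k -
    p v * EE K D d l a b p (lf al be ga u * Q) k

theorem TB_Xi (LL : LB K B 𝒟 d p z c) (h : Pln D d p l a b al be ga)
    (hD𝒟 : ∀ I : σ →₀ ℕ, I.degree = d → D I ∈ 𝒟) {e : ℕ} (he : e + 1 = d) {gr : σ → Ω}
    (hzD : ∀ G ∈ WW K d, DG K D d l a b G z =
      evp K (p a) (p b) G + ∑ k, gr k * EE K D d l a b p G k)
    (heul : ∑ k, gr k * p k = d * z) {PP : σ → MvPolynomial (Fin 2) K} (hPm : ∀ u, PP u ∈ WW K e)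
    (hPe : ∀ u, evp K (p a) (p b) (PP u) = gr u) (u v : σ) :
    TB B p z c gr (fun π k => (p (c π))⁻¹ * Xi K D d l a b p al be ga PP u v k -
      (DG K D d l a b (lf al be ga v * PP u) (p (c π)) / p (c π) ^ 2) * p k) := by
  have hGm : lf al be ga v * PP u ∈ WW K d := by
    have := mul_mem_WW (lf_mem (al := al) (be := be) (ga := ga) v) (hPm u)
    rwa [add_comm, he] at this
  have hδ𝒟 := DG_mem (l := l) (a := a) (b := b) hD𝒟 hGm
  have e1 : ∀ π k, (p (c π))⁻¹ * Xi K D d l a b p al be ga PP u v k -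
      (DG K D d l a b (lf al be ga v * PP u) (p (c π)) / p (c π) ^ 2) * p k =
      DG K D d l a b (lf al be ga v * PP u) (p k / p (c π)) +
        p v / p (c π) * (if k = u then 1 else 0) := by
    intro π k
    rw [DG_div LL]
    unfold Xi
    ring
  refine ⟨fun k => ?_, ?_⟩
  · have h1 : (fun _ : P => if k = u then (1 : Ω) else 0) ∈ B := by
      apply LL.K_mem
      split_ifs
      · exact K.one_mem
      · exact K.zero_mem
    refine mem_congr (B.add_mem (LL.hD _ hδ𝒟 k) (B.mul_mem (LL.hp v) h1)) fun π => ?_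
    exact (e1 π k).symm
  · refine mem_congr (LL.hlog _ hδ𝒟) fun π => ?_
    have hc := LL.hc π
    have hz := LL.hz
    have h1 := pair_id LL he hzD heul hGm π
    have h2 : ∑ k, gr k * (DG K D d l a b (lf al be ga v * PP u) (p k / p (c π)) +
        p v / p (c π) * (if k = u then 1 else 0)) =
        (∑ k, gr k * DG K D d l a b (lf al be ga v * PP u) (p k / p (c π))) +
        p v / p (c π) * gr u := by
      simp only [mul_add, Finset.sum_add_distrib]
      congr 1
      rw [Finset.sum_eq_single u]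
      · rw [if_pos rfl]; ring
      · intro k _ hk
        rw [if_neg hk]; ring
      · intro hu; exact absurd (Finset.mem_univ u) hu
    have h3 : evp K (p a) (p b) (lf al be ga v * PP u) = p v * gr u := by
      rw [map_mul, evp_lf, ← h.hp, hPe]
    rw [h3] at h1
    simp only [e1]
    rw [h2, add_mul, add_div, h1]
    field_simp
    ring

theorem TB_Ua (LL : LB K B 𝒟 d p z c) (h : Pln D d p l a b al be ga)
    (hD𝒟 : ∀ I : σ →₀ ℕ, I.degree = d → D I ∈ 𝒟) {e : ℕ} (he : e + 1 = d) {gr : σ → Ω}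
    (hzD : ∀ G ∈ WW K d, DG K D d l a b G z =
      evp K (p a) (p b) G + ∑ k, gr k * EE K D d l a b p G k)
    (heul : ∑ k, gr k * p k = d * z) (u v : σ) {Q : MvPolynomial (Fin 2) K} (hQ : Q ∈ WW K e) :
    TB B p z c gr (fun π k => (p (c π) ^ 2)⁻¹ * Ua K D d l a b p al be ga u v Q k -
      ((p u * DG K D d l a b (lf al be ga v * Q) (p (c π)) -
        p v * DG K D d l a b (lf al be ga u * Q) (p (c π))) / p (c π) ^ 3) * p k) := by
  have hGm : ∀ v, lf al be ga v * Q ∈ WW K d := by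
    intro v
    have := mul_mem_WW (lf_mem (al := al) (be := be) (ga := ga) v) hQ
    rwa [add_comm, he] at this
  have hδ𝒟 := fun v => DG_mem (l := l) (a := a) (b := b) hD𝒟 (hGm v)
  have e1 : ∀ π k, (p (c π) ^ 2)⁻¹ * Ua K D d l a b p al be ga u v Q k -
      ((p u * DG K D d l a b (lf al be ga v * Q) (p (c π)) -
        p v * DG K D d l a b (lf al be ga u * Q) (p (c π))) / p (c π) ^ 3) * p k =
      p u / p (c π) * DG K D d l a b (lf al be ga v * Q) (p k / p (c π)) -
        p v / p (c π) * DG K D d l a b (lf al be ga u * Q) (p k / p (c π)) := by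
    intro π k
    rw [DG_div LL, DG_div LL]
    unfold Ua
    have hc := LL.hc π
    field_simp
    ring
  refine ⟨fun k => ?_, ?_⟩
  · refine mem_congr (B.sub_mem (B.mul_mem (LL.hp u) (LL.hD _ (hδ𝒟 v) k))
      (B.mul_mem (LL.hp v) (LL.hD _ (hδ𝒟 u) k))) fun π => ?_
    exact (e1 π k).symm
  · refine mem_congr (B.sub_mem (B.mul_mem (LL.hp u) (LL.hlog _ (hδ𝒟 v)))
      (B.mul_mem (LL.hp v) (LL.hlog _ (hδ𝒟 u)))) fun π => ?_
    have hc := LL.hc π
    have hz := LL.hz
    have h1 := pair_id LL he hzD heul (hGm v) π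
    have h1' := pair_id LL he hzD heul (hGm u) π
    have h2 : ∑ k, gr k * (p u / p (c π) * DG K D d l a b (lf al be ga v * Q) (p k / p (c π)) -
        p v / p (c π) * DG K D d l a b (lf al be ga u * Q) (p k / p (c π))) =
        p u / p (c π) * (∑ k, gr k * DG K D d l a b (lf al be ga v * Q) (p k / p (c π))) -
        p v / p (c π) * ∑ k, gr k * DG K D d l a b (lf al be ga u * Q) (p k / p (c π)) := by
      rw [Finset.mul_sum, Finset.mul_sum, ← Finset.sum_sub_distrib]
      exact Finset.sum_congr rfl fun k _ => by ring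
    have hev : ∀ v, evp K (p a) (p b) (lf al be ga v * Q) = p v * evp K (p a) (p b) Q := by
      intro v
      rw [map_mul, evp_lf, ← h.hp]
    rw [hev] at h1 h1'
    simp only [e1]
    rw [h2]
    simp only [Pi.sub_apply, Pi.mul_apply]
    have h3 : (p u / p (c π) * (∑ k, gr k * DG K D d l a b (lf al be ga v * Q) (p k / p (c π))) -
        p v / p (c π) * ∑ k, gr k * DG K D d l a b (lf al be ga u * Q) (p k / p (c π))) *
        p (c π) / z = p u / p (c π) *
        ((∑ k, gr k * DG K D d l a b (lf al be ga v * Q) (p k / p (c π))) * p (c π) / z) -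
        p v / p (c π) *
        ((∑ k, gr k * DG K D d l a b (lf al be ga u * Q) (p k / p (c π))) * p (c π) / z) := by
      ring
    rw [h3, h1, h1']
    ring

end Front3

theorem det3_U0 {Ω : Type*} [Field Ω] {σ : Type*} (l a b : σ) (p u v : σ → Ω) (r s : Ω) :
    det3 l a b p u (fun k => r * v k - s * u k) = r * det3 l a b p u v := by
  unfold det3
  ring

theorem det3_U1 {Ω : Type*} [Field Ω] {σ : Type*} (l a b : σ) (p u v : σ → Ω) (r s : Ω) :
    det3 l a b p v (fun k => r * v k - s * u k) = s * det3 l a b p u v := by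
  unfold det3
  ring

section Plane

variable {Ω : Type*} [Field Ω] [CharZero Ω] {P : Type*} {σ : Type*} [Fintype σ] [DecidableEq σ]
  {K : Subfield Ω} {B : Subring (P → Ω)} {𝒟 : Submodule K (Derivation ℤ Ω Ω)}
  {p : σ → Ω} {z : Ω} {c : P → σ} {D : (σ →₀ ℕ) → Derivation ℤ Ω Ω} {l a b : σ}
  {al be ga : σ → K}

theorem Ua_la (h : Pln D 4 p l a b al be ga) (Q : MvPolynomial (Fin 2) K) :
    Ua K D 4 l a b p al be ga l a Q = UU K D 4 l a b p 0 Q := by
  funext k
  unfold Ua
  rw [UU_apply, h.hpl, h.lf_a, h.lf_l, one_mul, one_mul]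
  rfl

theorem Ua_lb (h : Pln D 4 p l a b al be ga) (Q : MvPolynomial (Fin 2) K) :
    Ua K D 4 l a b p al be ga l b Q = UU K D 4 l a b p 1 Q := by
  funext k
  unfold Ua
  rw [UU_apply, h.hpl, h.lf_b, h.lf_l, one_mul, one_mul]
  rfl

theorem Ua_ab (h : Pln D 4 p l a b al be ga) (Q : MvPolynomial (Fin 2) K) :
    Ua K D 4 l a b p al be ga a b Q = fun k => p a * UU K D 4 l a b p 1 Q k -
      p b * UU K D 4 l a b p 0 Q k := by
  funext k
  unfold Ua
  rw [UU_apply, UU_apply, h.lf_a, h.lf_b]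
  simp only [Pi.sub_apply, Pi.smul_apply, smul_eq_mul]
  have e0 : (![a, b] : Fin 2 → σ) 0 = a := rfl
  have e1 : (![a, b] : Fin 2 → σ) 1 = b := rfl
  rw [e0, e1]
  ring

/-- the standing assumptions for the projective plane and quartic forms -/
structure PlaneD (K : Subfield Ω) (B : Subring (P → Ω)) (𝒟 : Submodule K (Derivation ℤ Ω Ω))
    (p : σ → Ω) (z : Ω) (c : P → σ) (D : (σ →₀ ℕ) → Derivation ℤ Ω Ω) (l a b : σ)
    (al be ga : σ → K) (gr : σ → Ω) (PP : σ → MvPolynomial (Fin 2) K) : Prop where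
  LL : LB K B 𝒟 4 p z c
  h : Pln D 4 p l a b al be ga
  huniv : ∀ k, k = l ∨ k = a ∨ k = b
  hD𝒟 : ∀ I : σ →₀ ℕ, I.degree = 4 → D I ∈ 𝒟
  hzD : ∀ G ∈ WW K 4, DG K D 4 l a b G z =
      evp K (p a) (p b) G + ∑ k, gr k * EE K D 4 l a b p G k
  heul : ∑ k, gr k * p k = (4 : ℕ) * z
  hPm : ∀ u, PP u ∈ WW K 3
  hPe : ∀ u, evp K (p a) (p b) (PP u) = gr u

variable {gr : σ → Ω} {PP : σ → MvPolynomial (Fin 2) K}

namespace PlaneD

variable (X : PlaneD K B 𝒟 p z c D l a b al be ga gr PP)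
include X

theorem xi_xi (u v u' v' : σ) : det3 l a b p (Xi K D 4 l a b p al be ga PP u v)
    (Xi K D 4 l a b p al be ga PP u' v') = 0 := by
  have h1 := det_mem X.LL X.h X.huniv X.hD𝒟 (e := 3) rfl X.hzD X.heul
    (TB_Xi X.LL X.h X.hD𝒟 (e := 3) rfl X.hzD X.heul X.hPm X.hPe u v)
    (TB_Xi X.LL X.h X.hD𝒟 (e := 3) rfl X.hzD X.heul X.hPm X.hPe u' v')
  have h2 := X.LL.hneg (det3 l a b p (Xi K D 4 l a b p al be ga PP u v)
    (Xi K D 4 l a b p al be ga PP u' v') / z) 1 one_pos (mem_congr h1 fun π => by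
      rw [det3_mod]
      have hc := X.LL.hc π
      have hz := X.LL.hz
      field_simp)
  exact (div_eq_zero_iff.mp h2).resolve_right X.LL.hz

theorem xi_U (u v u' v' : σ) {Q : MvPolynomial (Fin 2) K} (hQ : Q ∈ WW K 3) :
    det3 l a b p (Xi K D 4 l a b p al be ga PP u v) (Ua K D 4 l a b p al be ga u' v' Q) / z ∈ K := by
  have h1 := det_mem X.LL X.h X.huniv X.hD𝒟 (e := 3) rfl X.hzD X.heul
    (TB_Xi X.LL X.h X.hD𝒟 (e := 3) rfl X.hzD X.heul X.hPm X.hPe u v)
    (TB_Ua X.LL X.h X.hD𝒟 (e := 3) rfl X.hzD X.heul u' v' hQ)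
  rw [← X.LL.hconst]
  refine mem_congr h1 fun π => ?_
  rw [det3_mod]
  have hc := X.LL.hc π
  have hz := X.LL.hz
  field_simp

theorem U_U (u v u' v' : σ) {Q : MvPolynomial (Fin 2) K} (hQ : Q ∈ WW K 3) :
    (fun π => det3 l a b p (Ua K D 4 l a b p al be ga u v Q)
      (Ua K D 4 l a b p al be ga u' v' Q) / z / p (c π)) ∈ B := by
  have h1 := det_mem X.LL X.h X.huniv X.hD𝒟 (e := 3) rfl X.hzD X.heul
    (TB_Ua X.LL X.h X.hD𝒟 (e := 3) rfl X.hzD X.heul u v hQ)
    (TB_Ua X.LL X.h X.hD𝒟 (e := 3) rfl X.hzD X.heul u' v' hQ)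
  refine mem_congr h1 fun π => ?_
  rw [det3_mod]
  have hc := X.LL.hc π
  have hz := X.LL.hz
  field_simp

/-- the quadratic form of the slot has values in the subfield -/
theorem kap {Q : MvPolynomial (Fin 2) K} (hQ : Q ∈ WW K 3) :
    det3 l a b p (UU K D 4 l a b p 0 Q) (UU K D 4 l a b p 1 Q) / z ∈ K := by
  rw [← X.LL.hconst]
  refine X.LL.glue 1 fun k => ?_
  rcases X.huniv k with rfl | rfl | rfl
  · have h1 := X.U_U k a k b hQ
    rw [Ua_la X.h, Ua_lb X.h] at h1
    refine mem_congr h1 fun π => ?_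
    rw [pow_one, X.h.hpl]
    ring
  · have h1 := X.U_U l k k b hQ
    rw [Ua_la X.h, Ua_ab X.h] at h1
    refine mem_congr h1 fun π => ?_
    rw [det3_U0 l k b]
    ring
  · have h1 := X.U_U l k a k hQ
    rw [Ua_lb X.h, Ua_ab X.h] at h1
    refine mem_congr h1 fun π => ?_
    rw [det3_U1 l a k]
    ring

end PlaneD

end Plane

end Pool.Agent.Lib.MP_44a246_ntB
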