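import Mathlib
import Pool.Agent.Lib.MP_44a246_ntB.Front3

/-!
The slot for the projective plane, III: the equivariance vectors are multiples of the point.
-/

set_option linter.unusedSectionVars false

namespace Pool.Agent.Lib.MP_44a246_ntB

open Pool.Agent.Lib.MP_e52354_nt Pool.Agent.Lib.MP_e52354_ntP
open MvPolynomial

section Rank

variable {Ω : Type*} [Field Ω]

/-- a matrix of rank at most one -/
theorem rank_one {x y u v : Ω} (h : x * v = y * u) :
    ∃ s t s' t' : Ω, x = s * s' ∧ y = s * t' ∧ u = t * s' ∧ v = t * t' := by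
  by_cases hx : x = 0
  · by_cases hy : y = 0
    · exact ⟨0, 1, u, v, by rw [hx, zero_mul], by rw [hy, zero_mul], by rw [one_mul],
        by rw [one_mul]⟩
    · have hu : u = 0 := by
        rw [hx, zero_mul] at h
        exact (mul_eq_zero.mp h.symm).resolve_left hy
      exact ⟨y, v, 0, 1, by rw [hx, mul_zero], by rw [mul_one], by rw [hu, mul_zero],
        by rw [mul_one]⟩
  · refine ⟨x, u, 1, y / x, by rw [mul_one], by field_simp, by rw [mul_one], ?_⟩
    field_simp
    linear_combination h

/-- a family of matrices of rank at most one -/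
theorem rank_family {ι : Type*} (x y u v : ι → Ω)
    (h : ∀ i j, x i * v j + x j * v i = y i * u j + y j * u i) (h2 : (2 : Ω) ≠ 0) :
    (∃ s t : Ω, (s ≠ 0 ∨ t ≠ 0) ∧ ∀ i, s * x i + t * u i = 0 ∧ s * y i + t * v i = 0) ∨
      (∃ s t : Ω, (s ≠ 0 ∨ t ≠ 0) ∧ ∀ i, s * x i + t * y i = 0 ∧ s * u i + t * v i = 0) := by
  have hdet : ∀ i, x i * v i = y i * u i := by
    intro i
    have h1 := h i i
    have h3 : (2 : Ω) * (x i * v i) = 2 * (y i * u i) := by linear_combination h1
    exact mul_left_cancel₀ h2 h3
  choose s t s' t' hx hy hu hv using fun i => rank_one (hdet i)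
  -- the polar form
  have hpol : ∀ i j, (s i * t j - s j * t i) * (s' i * t' j - s' j * t' i) = 0 := by
    intro i j
    have h1 := h i j
    rw [hx, hx, hy, hy, hu, hu, hv, hv] at h1
    linear_combination h1
  by_cases hcol : ∀ i j, (s i * t j - s j * t i = 0) ∨ ((s' i = 0 ∧ t' i = 0) ∨ (s' j = 0 ∧ t' j = 0))
  · -- common image
    left
    by_cases hne : ∃ i, (s i ≠ 0 ∨ t i ≠ 0) ∧ (s' i ≠ 0 ∨ t' i ≠ 0)
    · obtain ⟨i, hi, hi'⟩ := hne
      refine ⟨t i, - s i, ?_, fun j => ?_⟩
      · rcases hi with hi | hi
        · exact Or.inr (neg_ne_zero.mpr hi)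
        · exact Or.inl hi
      · rw [hx, hy, hu, hv]
        rcases hcol i j with h3 | h3 | h3
        · constructor
          · linear_combination - s' j * h3
          · linear_combination - t' j * h3
        · exfalso
          rcases hi' with h4 | h4
          · exact h4 h3.1
          · exact h4 h3.2
        · rw [h3.1, h3.2]
          constructor <;> ring
    · push Not at hne
      refine ⟨1, 0, Or.inl one_ne_zero, fun j => ?_⟩
      rw [hx, hy, hu, hv]
      by_cases h3 : s j = 0
      · rw [h3]; constructor <;> ring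
      · have h4 := hne j (Or.inl h3)
        rw [h4.1, h4.2]; constructor <;> ring
  · -- common kernel
    right
    push Not at hcol
    obtain ⟨i, j, hij, hi', hj'⟩ := hcol
    -- `s' j, t' j` is proportional to `s' i, t' i`
    have hprop : s' i * t' j - s' j * t' i = 0 := (mul_eq_zero.mp (hpol i j)).resolve_left hij
    refine ⟨t' i, - s' i, ?_, fun k => ?_⟩
    · by_cases h3 : s' i = 0
      · exact Or.inl (hi' h3)
      · exact Or.inr (neg_ne_zero.mpr h3)
    · rw [hx, hy, hu, hv]
      -- either `(s k, t k) = 0` or proportional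
      have hk : (s k = 0 ∧ t k = 0) ∨ (s' i * t' k - s' k * t' i = 0) := by
        by_contra hcon
        push Not at hcon
        obtain ⟨h4, h5⟩ := hcon
        have h6 : s i * t k - s k * t i = 0 := (mul_eq_zero.mp (hpol i k)).resolve_right h5
        -- `(s' k, t' k)` is not proportional to `(s' j, t' j)` either
        have h7 : s' j * t' k - s' k * t' j ≠ 0 := by
          intro h7
          by_cases h8 : s' j = 0
          · have h9 : t' j ≠ 0 := hj' h8
            rw [h8] at h7 hprop
            have h10 : s' i = 0 := by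
              have : s' i * t' j = 0 := by linear_combination hprop
              exact (mul_eq_zero.mp this).resolve_right h9
            have h11 : s' k = 0 := by
              have : s' k * t' j = 0 := by linear_combination - h7
              exact (mul_eq_zero.mp this).resolve_right h9
            apply h5
            rw [h10, h11]; ring
          · apply h5
            apply mul_left_cancel₀ h8
            linear_combination s' i * h7 + s' k * hprop
        have h8 : s j * t k - s k * t j = 0 := (mul_eq_zero.mp (hpol j k)).resolve_right h7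
        by_cases h9 : s k = 0
        · have h10 : t k ≠ 0 := h4 h9
          rw [h9] at h6 h8
          have h11 : s i = 0 := by
            have : s i * t k = 0 := by linear_combination h6
            exact (mul_eq_zero.mp this).resolve_right h10
          have h12 : s j = 0 := by
            have : s j * t k = 0 := by linear_combination h8
            exact (mul_eq_zero.mp this).resolve_right h10
          apply hij
          rw [h11, h12]; ring
        · apply hij
          apply mul_left_cancel₀ h9
          linear_combination s j * h6 - s i * h8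
      rcases hk with ⟨h3, h4⟩ | h3
      · rw [h3, h4]; constructor <;> ring
      · constructor
        · linear_combination - s k * h3
        · linear_combination - t k * h3

end Rank

section Front4

variable {Ω : Type*} [Field Ω] [CharZero Ω] {P : Type*} {σ : Type*} [Fintype σ] [DecidableEq σ]
  {K : Subfield Ω} {B : Subring (P → Ω)} {𝒟 : Submodule K (Derivation ℤ Ω Ω)}
  {p : σ → Ω} {z : Ω} {c : P → σ} {D : (σ →₀ ℕ) → Derivation ℤ Ω Ω} {l a b : σ}
  {al be ga : σ → K} {gr : σ → Ω} {PP : σ → MvPolynomial (Fin 2) K}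

namespace PlaneD

variable (X : PlaneD K B 𝒟 p z c D l a b al be ga gr PP)
include X

theorem sum3 (f : σ → Ω) : ∑ k, f k = f l + f a + f b := by
  have e1 : (Finset.univ : Finset σ) = {l, a, b} := by
    ext k
    simp only [Finset.mem_univ, Finset.mem_insert, Finset.mem_singleton, true_iff]
    exact X.huniv k
  rw [e1, Finset.sum_insert (by simp [X.h.la, X.h.lb]), Finset.sum_insert (by simp [X.h.ab]),
    Finset.sum_singleton]
  ring

/-- the functionals which kill the point, the tangent vectors and the equivariance vectors -/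
theorem functional_zero {om : σ → Ω} (h0 : ∑ k, om k * p k = 0)
    (hU : ∀ Q ∈ WW K 3, ∀ i, ∑ k, om k * UU K D 4 l a b p i Q k = 0)
    (hX : ∀ u, ∑ k, om k * Xi K D 4 l a b p al be ga PP u l k = 0) : om = 0 := by
  let Ψ : MvPolynomial (Fin 2) K →ₗ[K] Ω :=
    { toFun := fun Q => ∑ k, om k * EE K D 4 l a b p Q k
      map_add' := by
        intro Q Q'
        rw [← Finset.sum_add_distrib]
        refine Finset.sum_congr rfl fun k _ => ?_
        rw [map_add, Pi.add_apply, mul_add]
      map_smul' := by
        intro y Q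
        rw [RingHom.id_apply, Finset.smul_sum]
        refine Finset.sum_congr rfl fun k _ => ?_
        rw [map_smul, Pi.smul_apply, smul_eq', smul_eq']
        ring }
  have hΨ : ∀ Q, Ψ Q = ∑ k, om k * EE K D 4 l a b p Q k := fun _ => rfl
  have hmul : ∀ i : Fin 2, ∀ Q : MvPolynomial (Fin 2) K, Q.totalDegree ≤ 3 →
      Ψ (MvPolynomial.X i * Q) = p ((![a, b] : Fin 2 → σ) i) * Ψ Q := by
    intro i Q hQ
    have h1 := hU Q (mem_WW.mpr hQ) i
    rw [hΨ, hΨ, Finset.mul_sum]
    rw [← sub_eq_zero, ← Finset.sum_sub_distrib, ← h1]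
    refine Finset.sum_congr rfl fun k _ => ?_
    rw [UU_apply, Pi.sub_apply, Pi.smul_apply, smul_eq_mul]
    ring
  obtain ⟨θ, κ, hθ⟩ := almost_eval X.h.hxy Ψ (0 : MvPolynomial (Fin 2) K →ₗ[K] K)
    (n₁ := 1) (n₂ := 0) (Or.inl one_ne_zero) (fun Q hQ => by
      rw [hmul 0 Q hQ]
      simp) (fun Q hQ => by
      rw [hmul 1 Q hQ]
      simp)
  have hPP : ∀ u, om u = - κ * gr u := by
    intro u
    have h1 := hX u
    have h2 := hθ (PP u) (mem_WW.mp (X.hPm u))
    rw [LinearMap.zero_apply, ZeroMemClass.coe_zero, mul_zero, zero_add, X.hPe, hΨ] at h2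
    have h3 : ∑ k, om k * Xi K D 4 l a b p al be ga PP u l k =
        (∑ k, om k * EE K D 4 l a b p (PP u) k) + om u := by
      have e1 : ∀ k, om k * Xi K D 4 l a b p al be ga PP u l k =
          om k * EE K D 4 l a b p (PP u) k + (if k = u then om u else 0) := by
        intro k
        unfold Xi
        rw [X.h.lf_l, one_mul, X.h.hpl, one_mul]
        by_cases hk : k = u
        · rw [if_pos hk, if_pos hk, hk]; ring
        · rw [if_neg hk, if_neg hk]; ring
      rw [Finset.sum_congr rfl fun k _ => e1 k, Finset.sum_add_distrib, Finset.sum_ite_eq',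
        if_pos (Finset.mem_univ u)]
    rw [h3, h2] at h1
    linear_combination h1
  have hκ : κ = 0 := by
    have h1 : ∑ k, om k * p k = - κ * ((4 : ℕ) * z) := by
      rw [← X.heul, Finset.mul_sum]
      refine Finset.sum_congr rfl fun k _ => ?_
      rw [hPP]; ring
    rw [h0] at h1
    have h2 : (((4 : ℕ) : Ω) * z) ≠ 0 := mul_ne_zero (Nat.cast_ne_zero.mpr (by norm_num)) X.LL.hz
    rcases mul_eq_zero.mp h1.symm with h3 | h3
    · exact neg_eq_zero.mp h3
    · exact absurd h3 h2
  funext u
  rw [hPP, hκ, neg_zero, zero_mul]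
  rfl

/-- the equivariance vectors are multiples of the point -/
theorem xi_prop (u v : σ) : ∃ r : Ω, Xi K D 4 l a b p al be ga PP u v = r • p := by
  set ξ := Xi K D 4 l a b p al be ga PP u v with hξ
  -- the vector product
  set om : σ → Ω := fun k => det3 l a b p ξ (Pi.single k 1) with hom
  have hpair : ∀ w : σ → Ω, ∑ k, om k * w k = det3 l a b p ξ w := by
    intro w
    rw [X.sum3]
    simp only [hom]
    unfold det3
    have h1 := X.h.la
    have h2 := X.h.lb
    have h3 := X.h.ab
    simp [h1, h2, h3, h1.symm, h2.symm, h3.symm]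
    ring
  have hz := X.LL.hz
  have hom0 : om = 0 := by
    refine X.functional_zero ?_ ?_ ?_
    · rw [hpair]; unfold det3; ring
    · intro Q hQ i
      rw [hpair]
      have h0 := X.xi_U u v l a hQ
      have h1 := X.xi_U u v l b hQ
      have h2 := X.xi_U u v a b hQ
      rw [Ua_la X.h] at h0
      rw [Ua_lb X.h] at h1
      rw [Ua_ab X.h] at h2
      rw [← hξ] at h0 h1 h2
      have h3 : det3 l a b p ξ (fun k => p a * UU K D 4 l a b p 1 Q k -
          p b * UU K D 4 l a b p 0 Q k) = p a * det3 l a b p ξ (UU K D 4 l a b p 1 Q) -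
          p b * det3 l a b p ξ (UU K D 4 l a b p 0 Q) := by
        unfold det3; ring
      rw [h3] at h2
      have h4 := X.h.hxy (- ⟨_, h2⟩) ⟨_, h1⟩ (- ⟨_, h0⟩) (by
        push_cast
        ring)
      have h5 : det3 l a b p ξ (UU K D 4 l a b p 1 Q) / z = 0 := congrArg Subtype.val h4.2.1
      have h6 : det3 l a b p ξ (UU K D 4 l a b p 0 Q) / z = 0 :=
        congrArg Subtype.val (neg_eq_zero.mp h4.2.2)
      fin_cases i
      · exact (div_eq_zero_iff.mp h6).resolve_right hz
      · exact (div_eq_zero_iff.mp h5).resolve_right hz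
    · intro u'
      rw [hpair]
      exact X.xi_xi u v u' l
  refine ⟨ξ l, ?_⟩
  have hl := congrFun hom0 l
  have ha := congrFun hom0 a
  have hb := congrFun hom0 b
  simp only [hom, Pi.zero_apply] at hl ha hb
  unfold det3 at hl ha hb
  have h1 := X.h.la
  have h2 := X.h.lb
  have h3 := X.h.ab
  simp [h1, h2, h3, h1.symm, h2.symm, h3.symm, X.h.hpl] at hl ha hb
  funext k
  rw [Pi.smul_apply, smul_eq_mul]
  rcases X.huniv k with hk | hk | hk
  · rw [hk, X.h.hpl, mul_one]
  · rw [hk]
    linear_combination hb
  · rw [hk]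
    linear_combination - ha

/-- equivariance -/
theorem EE_PP (u v : σ) : EE K D 4 l a b p (lf al be ga v * PP u) =
    (if u = l then p v else 0) • p - p v • Pi.single u 1 := by
  obtain ⟨r, hr⟩ := X.xi_prop u v
  have h1 := congrFun hr l
  unfold Xi at h1
  rw [EE_l X.h.hpl, Pi.smul_apply, X.h.hpl, smul_eq_mul, mul_one, zero_add] at h1
  funext k
  have h2 := congrFun hr k
  unfold Xi at h2
  rw [Pi.smul_apply, smul_eq_mul, ← h1] at h2
  rw [Pi.sub_apply, Pi.smul_apply, Pi.smul_apply, smul_eq_mul, smul_eq_mul, Pi.single_apply]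
  have h3 : (if l = u then (1 : Ω) else 0) = if u = l then 1 else 0 := by
    by_cases hul : u = l
    · rw [if_pos hul, if_pos hul.symm]
    · rw [if_neg hul, if_neg (Ne.symm hul)]
  rw [h3] at h2
  have h4 : (if u = l then p v else 0) = p v * (if u = l then 1 else 0) := by
    split_ifs <;> ring
  rw [h4]
  linear_combination h2

theorem pdata : PData D 4 p l a b 3 PP := by
  refine ⟨X.hPm, fun u => ?_, fun u i => ?_, ?_⟩
  · have h1 := X.EE_PP u l
    rw [X.h.lf_l, one_mul, X.h.hpl, one_smul] at h1
    exact h1
  · have h1 := X.EE_PP u l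
    rw [X.h.lf_l, one_mul, X.h.hpl, one_smul] at h1
    rw [UU_apply, h1]
    fin_cases i
    · have h2 := X.EE_PP u a
      rw [X.h.lf_a] at h2
      show EE K D 4 l a b p (MvPolynomial.X 0 * PP u) - p a • _ = 0
      rw [h2]
      funext k
      simp only [Pi.sub_apply, Pi.smul_apply, smul_eq_mul, Pi.zero_apply]
      split_ifs <;> ring
    · have h2 := X.EE_PP u b
      rw [X.h.lf_b] at h2
      show EE K D 4 l a b p (MvPolynomial.X 1 * PP u) - p b • _ = 0
      rw [h2]
      funext k
      simp only [Pi.sub_apply, Pi.smul_apply, smul_eq_mul, Pi.zero_apply]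
      split_ifs <;> ring
  · have h1 : ∑ u, p u * evp K (p a) (p b) (PP u) = (4 : ℕ) * z := by
      rw [← X.heul]
      refine Finset.sum_congr rfl fun u _ => ?_
      rw [X.hPe, mul_comm]
    rw [h1]
    exact mul_ne_zero (Nat.cast_ne_zero.mpr (by norm_num)) X.LL.hz

end PlaneD

end Front4

end Pool.Agent.Lib.MP_44a246_ntB
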