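import Mathlib
import Pool.Agent.Lib.MP_44a246_ntB.LSys

/-!
The theorem of Mason and Stothers in the language of bounded functions.
-/

set_option linter.unusedSectionVars false

namespace Pool.Agent.Lib.MP_44a246_ntB

open Polynomial

section MS

variable {Ω : Type*} [Field Ω] [CharZero Ω] {P : Type*} {K : Subfield Ω} {B : Subring (P → Ω)}

/-- a parameter `θ` on a rational curve and a normalisation of quadratic forms in `θ` -/
structure MSD (K : Subfield Ω) (B : Subring (P → Ω)) (D : Derivation ℤ Ω Ω) (θ : Ω) (ψ : P → Ω) :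
    Prop where
  hconst : ∀ y : Ω, (fun _ : P => y) ∈ B ↔ y ∈ K
  hDK : ∀ y ∈ K, D y ∈ K
  hψ : ∀ π, ψ π ≠ 0
  h1 : ∀ i : ℕ, i ≤ 2 → (fun π => θ ^ i / ψ π) ∈ B
  h2 : ∀ i : ℕ, i ≤ 2 → (fun π => D (θ ^ i / ψ π)) ∈ B
  h4 : ∀ y : P → Ω, (∀ i : ℕ, i ≤ 2 → (fun π => y π * (θ ^ i / ψ π)) ∈ B) → y ∈ B

variable {D : Derivation ℤ Ω Ω} {θ : Ω} {ψ : P → Ω}

namespace MSD

variable (h : MSD K B D θ ψ)
include h

theorem powB (k i : ℕ) (hi : i ≤ 2 * k) : (fun π => θ ^ i / ψ π ^ k) ∈ B := by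
  induction k generalizing i with
  | zero =>
    have : i = 0 := by omega
    subst this
    exact mem_congr B.one_mem fun π => by simp
  | succ k ih =>
    obtain ⟨j, i', hj, hi', hij⟩ : ∃ j i', j ≤ 2 ∧ i' ≤ 2 * k ∧ i = i' + j := by
      by_cases h2 : i ≤ 2 * k
      · exact ⟨0, i, by omega, h2, rfl⟩
      · exact ⟨i - 2 * k, 2 * k, by omega, le_rfl, by omega⟩
    refine mem_congr (B.mul_mem (ih i' hi') (h.h1 j hj)) fun π => ?_
    have := h.hψ π
    rw [Pi.mul_apply, hij, pow_add, pow_succ]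
    field_simp

theorem polyB (k : ℕ) (H : K[X]) (hH : H.natDegree ≤ 2 * k) :
    (fun π => aeval θ H / ψ π ^ k) ∈ B := by
  have h1 : (∑ i ∈ Finset.range (2 * k + 1), (fun _ : P => ((H.coeff i : K) : Ω)) *
      (fun π => θ ^ i / ψ π ^ k)) ∈ B := by
    refine B.sum_mem fun i hi => B.mul_mem ((h.hconst _).mpr (H.coeff i).2) (h.powB k i ?_)
    rw [Finset.mem_range] at hi
    omega
  refine mem_congr h1 fun π => ?_
  rw [Finset.sum_apply, aeval_eq_sum_range' (n := 2 * k + 1) (by omega), Finset.sum_div]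
  refine Finset.sum_congr rfl fun i _ => ?_
  rw [Pi.mul_apply, mul_div_assoc']
  rfl

theorem glueP (k : ℕ) (y : P → Ω) (hy : ∀ i : ℕ, i ≤ 2 * k → (fun π => y π * (θ ^ i / ψ π ^ k)) ∈ B) :
    y ∈ B := by
  induction k with
  | zero =>
    refine mem_congr (hy 0 le_rfl) fun π => by simp
  | succ k ih =>
    apply ih
    intro i hi
    apply h.h4
    intro j hj
    refine mem_congr (hy (i + j) (by omega)) fun π => ?_
    have := h.hψ π
    rw [pow_add, pow_succ]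
    field_simp

theorem DψB : (fun π => D (ψ π) / ψ π ^ 2) ∈ B := by
  refine mem_congr (B.neg_mem (h.h2 0 (by omega))) fun π => ?_
  have := h.hψ π
  rw [Pi.neg_apply, pow_zero, one_div, Derivation.leibniz_inv]
  simp only [smul_eq_mul]
  field_simp

theorem DθB : (fun π => D θ / ψ π) ∈ B := by
  apply h.h4
  have hD0 : ∀ π, D (θ ^ 0 / ψ π) = - D (ψ π) / ψ π ^ 2 := by
    intro π
    have := h.hψ π
    rw [pow_zero, one_div, Derivation.leibniz_inv]
    simp only [smul_eq_mul]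
    field_simp
  have hD : ∀ (i : ℕ) π, D (θ ^ (i + 1) / ψ π) =
      ((i + 1 : ℕ) * θ ^ i * D θ * ψ π - θ ^ (i + 1) * D (ψ π)) / ψ π ^ 2 := by
    intro i π
    have := h.hψ π
    rw [div_eq_mul_inv, Derivation.leibniz, Derivation.leibniz_inv, Derivation.leibniz_pow]
    simp only [smul_eq_mul, nsmul_eq_mul, Nat.add_sub_cancel]
    field_simp
    ring
  intro i hi
  interval_cases i
  · refine mem_congr (B.sub_mem (B.mul_mem (h.h1 0 (by omega)) (h.h2 1 (by omega)))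
      (B.mul_mem (h.h1 1 (by omega)) (h.h2 0 (by omega)))) fun π => ?_
    have := h.hψ π
    simp only [Pi.sub_apply, Pi.mul_apply]
    rw [hD0, hD 0]
    push_cast
    field_simp
    ring
  · have h2 : ((2 : Ω)⁻¹) ∈ K := K.inv_mem (by
      have := natCast_mem K 2
      simpa using this)
    refine mem_congr (B.mul_mem ((h.hconst _).mpr h2)
      (B.sub_mem (B.mul_mem (h.h1 0 (by omega)) (h.h2 2 (by omega)))
      (B.mul_mem (h.h1 2 (by omega)) (h.h2 0 (by omega))))) fun π => ?_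
    have := h.hψ π
    simp only [Pi.sub_apply, Pi.mul_apply]
    rw [hD0, hD 1]
    push_cast
    field_simp
    ring
  · refine mem_congr (B.sub_mem (B.mul_mem (h.h1 1 (by omega)) (h.h2 2 (by omega)))
      (B.mul_mem (h.h1 2 (by omega)) (h.h2 1 (by omega)))) fun π => ?_
    have := h.hψ π
    simp only [Pi.sub_apply, Pi.mul_apply]
    rw [hD 0, hD 1]
    push_cast
    field_simp
    ring

theorem DθsubB (ρ : K) : (fun π => D (θ - (ρ : Ω)) / ψ π) ∈ B := by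
  refine mem_congr (B.sub_mem h.DθB (B.mul_mem ((h.hconst _).mpr (h.hDK ρ ρ.2))
    (h.h1 0 (by omega)))) fun π => ?_
  simp only [Pi.sub_apply, Pi.mul_apply]
  rw [map_sub, sub_div, pow_zero, mul_one_div]

/-- the logarithmic derivative at a root -/
theorem rootB {d : ℕ} {R : Finset K} {e : K → ℕ} (he : ∀ ρ ∈ R, 0 < e ρ) {cf : K} (hcf : cf ≠ 0)
    (hR : ∀ ρ ∈ R, θ - (ρ : Ω) ≠ 0)
    (hlog : (fun π => D (((cf : Ω) * ∏ ρ ∈ R, (θ - (ρ : Ω)) ^ e ρ) / ψ π ^ d) /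
      (((cf : Ω) * ∏ ρ ∈ R, (θ - (ρ : Ω)) ^ e ρ) / ψ π ^ d)) ∈ B) {ρ₀ : K} (hρ₀ : ρ₀ ∈ R)
    (j : ℕ) (hj : j ≤ 1) :
    (fun π => D (θ - (ρ₀ : Ω)) / (θ - (ρ₀ : Ω)) * (θ ^ j / ψ π)) ∈ B := by
  classical
  set m := (R.erase ρ₀).card with hm
  have hcf' : (cf : Ω) ≠ 0 := fun h0 => hcf (Subtype.ext h0)
  -- step 3
  have hprod : ∀ S : Finset K, S ⊆ R → D (∏ ρ ∈ S, (θ - (ρ : Ω)) ^ e ρ) =
      (∏ ρ ∈ S, (θ - (ρ : Ω)) ^ e ρ) *
        ∑ ρ ∈ S, (e ρ : Ω) * (D (θ - (ρ : Ω)) / (θ - (ρ : Ω))) := by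
    intro S
    induction S using Finset.induction_on with
    | empty => intro _; simp
    | insert ρ S hρ ih =>
      intro hS
      have hS' : S ⊆ R := fun x hx => hS (Finset.mem_insert_of_mem hx)
      have hρR := hR ρ (hS (Finset.mem_insert_self ρ S))
      rw [Finset.prod_insert hρ, Finset.sum_insert hρ, Derivation.leibniz, ih hS',
        Derivation.leibniz_pow]
      simp only [smul_eq_mul, nsmul_eq_mul]
      have hpos := he ρ (hS (Finset.mem_insert_self ρ S))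
      obtain ⟨k, hk⟩ : ∃ k, e ρ = k + 1 := ⟨e ρ - 1, by omega⟩
      rw [hk, Nat.add_sub_cancel, pow_succ]
      field_simp
      ring
  have hprod0 : (∏ ρ ∈ R, (θ - (ρ : Ω)) ^ e ρ) ≠ 0 :=
    Finset.prod_ne_zero_iff.mpr fun ρ hρ => pow_ne_zero _ (hR ρ hρ)
  have h3 : (fun π => (∑ ρ ∈ R, (e ρ : Ω) * (D (θ - (ρ : Ω)) / (θ - (ρ : Ω)))) / ψ π) ∈ B := by
    refine mem_congr (B.sub_mem (B.add_mem (B.mul_mem hlog (h.h1 0 (by omega)))
      (B.mul_mem ((h.hconst _).mpr (natCast_mem K d)) h.DψB))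
      (B.mul_mem ((h.hconst _).mpr (K.div_mem (h.hDK cf cf.2) cf.2)) (h.h1 0 (by omega))))
      fun π => ?_
    have hψ := h.hψ π
    simp only [Pi.sub_apply, Pi.mul_apply, Pi.add_apply]
    have e1 : D (((cf : Ω) * ∏ ρ ∈ R, (θ - (ρ : Ω)) ^ e ρ) / ψ π ^ d) /
        (((cf : Ω) * ∏ ρ ∈ R, (θ - (ρ : Ω)) ^ e ρ) / ψ π ^ d) = D (cf : Ω) / cf +
        (∑ ρ ∈ R, (e ρ : Ω) * (D (θ - (ρ : Ω)) / (θ - (ρ : Ω)))) - d * (D (ψ π) / ψ π) := by
      rw [div_eq_mul_inv _ (ψ π ^ d), Derivation.leibniz, Derivation.leibniz_inv,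
        Derivation.leibniz, hprod R (Finset.Subset.refl R), Derivation.leibniz_pow]
      simp only [smul_eq_mul, nsmul_eq_mul]
      have hψd : ψ π ^ d ≠ 0 := pow_ne_zero _ hψ
      rcases Nat.eq_zero_or_pos d with h0 | h0
      · subst h0
        simp only [pow_zero, Nat.cast_zero, zero_mul, mul_zero, inv_one, mul_one, sub_zero,
          zero_add, one_pow, one_mul]
        field_simp
        ring
      · have h2 : ψ π ^ d = ψ π ^ (d - 1) * ψ π := by
          rw [← pow_succ, Nat.sub_add_cancel h0]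
        have h3 : ψ π ^ (d - 1) ≠ 0 := pow_ne_zero _ hψ
        rw [h2]
        field_simp
        ring
    rw [e1]
    field_simp
    ring
  have hev : ∀ ρ : K, aeval θ (X - C ρ : K[X]) = θ - (ρ : Ω) := by
    intro ρ
    rw [map_sub, aeval_X, aeval_C]
    rfl
  -- step 4
  set g : K[X] := ∏ ρ ∈ R.erase ρ₀, (X - C ρ) with hg
  have hgd : g.natDegree = m := by
    rw [hg, natDegree_prod_of_monic _ _ fun ρ _ => monic_X_sub_C ρ]
    simp [hm]
  have hgev : aeval θ g = ∏ ρ ∈ R.erase ρ₀, (θ - (ρ : Ω)) := by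
    rw [hg, map_prod]
    exact Finset.prod_congr rfl fun ρ _ => hev ρ
  have hgρ : g.eval ρ₀ ≠ 0 := by
    rw [hg, eval_prod, Finset.prod_ne_zero_iff]
    intro ρ hρ
    rw [eval_sub, eval_X, eval_C, sub_ne_zero]
    exact (Finset.ne_of_mem_erase hρ).symm
  have hgB : (fun π => D (θ - (ρ₀ : Ω)) / (θ - (ρ₀ : Ω)) * (aeval θ g / ψ π ^ (m + 1))) ∈ B := by
    -- the other terms
    have h5 : ∀ ρ ∈ R.erase ρ₀, (fun π => D (θ - (ρ : Ω)) / (θ - (ρ : Ω)) *
        (aeval θ g / ψ π ^ (m + 1))) ∈ B := by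
      intro ρ hρ
      have hρR := hR ρ (Finset.mem_of_mem_erase hρ)
      set g' : K[X] := ∏ ρ' ∈ (R.erase ρ₀).erase ρ, (X - C ρ') with hg'
      have hgg : g = (X - C ρ) * g' := by
        rw [hg, hg']
        exact (Finset.mul_prod_erase _ (fun ρ => (X - C ρ : K[X])) hρ).symm
      have hg'd : g'.natDegree ≤ 2 * m := by
        rw [hg', natDegree_prod_of_monic _ _ fun ρ _ => monic_X_sub_C ρ]
        simp only [natDegree_X_sub_C, Finset.sum_const, smul_eq_mul, mul_one]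
        rw [Finset.card_erase_of_mem hρ, ← hm]
        omega
      refine mem_congr (B.mul_mem (h.DθsubB ρ) (h.polyB m g' hg'd)) fun π => ?_
      have hψ := h.hψ π
      rw [Pi.mul_apply, hgg, map_mul, hev, pow_succ]
      field_simp
    have h6 := B.mul_mem h3 (h.polyB m g (by omega))
    have h7 : (fun π => (e ρ₀ : Ω) * (D (θ - (ρ₀ : Ω)) / (θ - (ρ₀ : Ω)) *
        (aeval θ g / ψ π ^ (m + 1)))) ∈ B := by
      refine mem_congr (B.sub_mem h6 (B.sum_mem (t := R.erase ρ₀)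
        (f := fun ρ => (fun _ : P => (e ρ : Ω)) * (fun π => D (θ - (ρ : Ω)) / (θ - (ρ : Ω)) *
        (aeval θ g / ψ π ^ (m + 1)))) fun ρ hρ =>
          B.mul_mem ((h.hconst _).mpr (natCast_mem K _)) (h5 ρ hρ))) fun π => ?_
      have hψ := h.hψ π
      simp only [Pi.sub_apply, Pi.mul_apply, Finset.sum_apply]
      rw [← Finset.add_sum_erase R _ hρ₀]
      have e2 : ∑ ρ ∈ R.erase ρ₀, (e ρ : Ω) * (D (θ - (ρ : Ω)) / (θ - (ρ : Ω)) *
          (aeval θ g / ψ π ^ (m + 1))) =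
          (∑ ρ ∈ R.erase ρ₀, (e ρ : Ω) * (D (θ - (ρ : Ω)) / (θ - (ρ : Ω)))) *
          (aeval θ g / ψ π ^ (m + 1)) := by
        rw [Finset.sum_mul]
        exact Finset.sum_congr rfl fun ρ _ => by ring
      rw [e2, pow_succ]
      have hθρ := hR ρ₀ hρ₀
      field_simp
      ring
    have he0 : (e ρ₀ : Ω) ≠ 0 := Nat.cast_ne_zero.mpr (he ρ₀ hρ₀).ne'
    refine mem_congr (B.mul_mem ((h.hconst _).mpr (K.inv_mem (natCast_mem K (e ρ₀)))) h7)
      fun π => ?_
    rw [Pi.mul_apply]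
    field_simp
  have h4 : ∀ H : K[X], H.natDegree ≤ 2 * m + 1 →
      (fun π => D (θ - (ρ₀ : Ω)) / (θ - (ρ₀ : Ω)) * (aeval θ H / ψ π ^ (m + 1))) ∈ B := by
    intro H hH
    set H₁ := H - C (H.eval ρ₀ / g.eval ρ₀) * g with hH₁
    have hroot : H₁.IsRoot ρ₀ := by
      rw [IsRoot.def, hH₁, eval_sub, eval_mul, eval_C]
      field_simp
      ring
    obtain ⟨q, hq⟩ := dvd_iff_isRoot.mpr hroot
    have hH₁d : H₁.natDegree ≤ 2 * m + 1 := by
      rw [hH₁]
      refine (natDegree_sub_le _ _).trans (max_le hH ?_)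
      refine (natDegree_C_mul_le _ _).trans ?_
      omega
    have hqd : q.natDegree ≤ 2 * m := by
      by_cases hq0 : q = 0
      · rw [hq0, natDegree_zero]; exact Nat.zero_le _
      · have := natDegree_mul (X_sub_C_ne_zero ρ₀) hq0
        rw [← hq, natDegree_X_sub_C] at this
        omega
    have hHe : H = C (H.eval ρ₀ / g.eval ρ₀) * g + (X - C ρ₀) * q := by
      rw [← hq, hH₁]; ring
    have hρR := hR ρ₀ hρ₀
    refine mem_congr (B.add_mem (B.mul_mem ((h.hconst _).mpr (H.eval ρ₀ / g.eval ρ₀).2) hgB)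
      (B.mul_mem (h.DθsubB ρ₀) (h.polyB m q hqd))) fun π => ?_
    have hψ := h.hψ π
    simp only [Pi.add_apply, Pi.mul_apply]
    conv_rhs => rw [hHe]
    have e4 : (algebraMap K Ω) (H.eval ρ₀ / g.eval ρ₀) =
        ((H.eval ρ₀ / g.eval ρ₀ : K) : Ω) := rfl
    rw [map_add, map_mul, map_mul, hev, aeval_C, e4, pow_succ]
    field_simp
  -- step 5
  refine h.glueP m _ fun i hi => ?_
  refine mem_congr (h4 (X ^ (i + j)) (by rw [natDegree_X_pow]; omega)) fun π => ?_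
  have hψ := h.hψ π
  rw [map_pow, aeval_X, pow_add, pow_succ]
  field_simp

/-- Mason-Stothers: if `0`, `1`, `-1` are roots then `θ` is a constant. -/
theorem mason {d : ℕ} {R : Finset K} {e : K → ℕ} (he : ∀ ρ ∈ R, 0 < e ρ) {cf : K} (hcf : cf ≠ 0)
    (hθ : θ ∉ K)
    (hlog : (fun π => D (((cf : Ω) * ∏ ρ ∈ R, (θ - (ρ : Ω)) ^ e ρ) / ψ π ^ d) /
      (((cf : Ω) * ∏ ρ ∈ R, (θ - (ρ : Ω)) ^ e ρ) / ψ π ^ d)) ∈ B) (h0 : (0 : K) ∈ R)
    (h1 : (1 : K) ∈ R) (hm1 : (-1 : K) ∈ R) : D θ = 0 := by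
  have hne : ∀ ρ : K, θ - (ρ : Ω) ≠ 0 := by
    intro ρ h0
    apply hθ
    rw [sub_eq_zero.mp h0]
    exact ρ.2
  have hR : ∀ ρ ∈ R, θ - (ρ : Ω) ≠ 0 := fun ρ _ => hne ρ
  have a0 := h.rootB he hcf hR hlog h0
  have a1 := h.rootB he hcf hR hlog h1
  have a2 := h.rootB he hcf hR hlog hm1
  have n0 : θ ≠ 0 := by
    have := hne 0
    simpa using this
  have n1 : θ - 1 ≠ 0 := by
    have := hne 1
    simpa using this
  have n2 : θ + 1 ≠ 0 := by
    have := hne (-1)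
    simpa using this
  set J := D θ / (θ * (θ - 1) * (θ + 1)) with hJ
  have hDc : ∀ ρ : K, ((ρ : Ω) = 0 ∨ (ρ : Ω) = 1 ∨ (ρ : Ω) = -1) → D (θ - (ρ : Ω)) = D θ := by
    intro ρ hρ
    rw [map_sub]
    rcases hρ with h2 | h2 | h2 <;> rw [h2] <;> simp
  have b0 : ∀ j ≤ 1, (fun π => J * (θ ^ j / ψ π)) ∈ B := by
    intro j hj
    have h2 : ((2 : Ω)⁻¹) ∈ K := K.inv_mem (by
      have := natCast_mem K 2
      simpa using this)
    refine mem_congr (B.sub_mem (B.mul_mem ((h.hconst _).mpr h2) (B.add_mem (a1 j hj) (a2 j hj)))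
      (a0 j hj)) fun π => ?_
    have hψ := h.hψ π
    simp only [Pi.sub_apply, Pi.mul_apply, Pi.add_apply]
    rw [hDc 0 (Or.inl rfl), hDc 1 (Or.inr (Or.inl rfl)), hDc (-1) (Or.inr (Or.inr rfl)), hJ]
    push_cast
    rw [sub_neg_eq_add, sub_zero]
    field_simp
    ring
  have b2 : ∀ j ≤ 1, (fun π => J * (θ ^ (j + 2) / ψ π)) ∈ B := by
    intro j hj
    refine mem_congr (B.add_mem (a0 j hj) (b0 j hj)) fun π => ?_
    have hψ := h.hψ π
    simp only [Pi.add_apply]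
    rw [hDc 0 (Or.inl rfl), hJ, pow_add]
    push_cast
    rw [sub_zero]
    field_simp
    ring
  have hJK : J ∈ K := by
    rw [← h.hconst]
    apply h.h4
    intro i hi
    interval_cases i
    · exact b0 0 (by omega)
    · exact b0 1 (by omega)
    · exact b2 0 (by omega)
  have hJθ : J * θ ∈ K := by
    rw [← h.hconst]
    apply h.h4
    intro i hi
    have key : ∀ k : ℕ, (fun π => J * θ * (θ ^ k / ψ π)) = fun π => J * (θ ^ (k + 1) / ψ π) := by
      intro k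
      funext π
      rw [pow_succ]; ring
    rw [key]
    interval_cases i
    · exact b0 1 (by omega)
    · exact b2 0 (by omega)
    · exact b2 1 (by omega)
  have hJ0 : J = 0 := by
    by_contra hJ0
    apply hθ
    have : θ = J * θ / J := by field_simp
    rw [this]
    exact K.div_mem hJθ hJK
  rw [hJ, div_eq_zero_iff] at hJ0
  rcases hJ0 with h2 | h2
  · exact h2
  · exact absurd h2 (mul_ne_zero (mul_ne_zero n0 n1) n2)

end MSD

end MS

end Pool.Agent.Lib.MP_44a246_ntB
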