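import Mathlib
import Pool.Agent.Lib.MP_44a246_ntB.MS
import Pool.Agent.Lib.MP_44a246_ntB.HT
import Pool.Agent.Lib.MP_44a246_ntB.Seg

/-!
Changes of the parameter on a rational curve: either three roots are moved to `0`, `1`, `-1`, or
all roots are moved to `0` and infinity.
-/

set_option linter.unusedSectionVars false

namespace Pool.Agent.Lib.MP_44a246_ntB

open MvPolynomial

section Frame

variable {K : Type*} [Field K] [CharZero K]

/-- three points of the line go to `0`, `1`, `-1`, or all zeros go to `0` and infinity -/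
theorem frame_dich (Z : K → K → Prop) (hZ : ∀ r s t, Z s t → Z (r * s) (r * t)) :
    ∃ α β γ δ : K, α * δ - β * γ ≠ 0 ∧
      ((Z β δ ∧ Z (α + β) (γ + δ) ∧ Z (-α + β) (-γ + δ)) ∨
        ∀ s t, Z (α * s + β * t) (γ * s + δ * t) → s = 0 ∨ t = 0) := by
  classical
  by_cases h3 : ∃ x₀ y₀ x₁ y₁ x₂ y₂ : K, Z x₀ y₀ ∧ Z x₁ y₁ ∧ Z x₂ y₂ ∧
      x₀ * y₁ - y₀ * x₁ ≠ 0 ∧ x₀ * y₂ - y₀ * x₂ ≠ 0 ∧ x₁ * y₂ - y₁ * x₂ ≠ 0
  · obtain ⟨x₀, y₀, x₁, y₁, x₂, y₂, h0, h1, h2, h01, h02, h12⟩ := h3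
    refine ⟨(x₀ * y₂ - y₀ * x₂) * x₁ - (x₁ * y₀ - y₁ * x₀) * x₂, (x₁ * y₂ - y₁ * x₂) * x₀,
      (x₀ * y₂ - y₀ * x₂) * y₁ - (x₁ * y₀ - y₁ * x₀) * y₂, (x₁ * y₂ - y₁ * x₂) * y₀, ?_, ?_⟩
    · have : ((x₀ * y₂ - y₀ * x₂) * x₁ - (x₁ * y₀ - y₁ * x₀) * x₂) * ((x₁ * y₂ - y₁ * x₂) * y₀) -
          (x₁ * y₂ - y₁ * x₂) * x₀ * ((x₀ * y₂ - y₀ * x₂) * y₁ - (x₁ * y₀ - y₁ * x₀) * y₂) =
          -2 * (x₀ * y₁ - y₀ * x₁) * (x₀ * y₂ - y₀ * x₂) * (x₁ * y₂ - y₁ * x₂) := by ring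
      rw [this]
      exact mul_ne_zero (mul_ne_zero (mul_ne_zero (neg_ne_zero.mpr two_ne_zero) h01) h02) h12
    · refine Or.inl ⟨hZ _ _ _ h0, ?_, ?_⟩
      · have := hZ (2 * (x₀ * y₂ - y₀ * x₂)) _ _ h1
        convert! this using 1 <;> ring
      · have := hZ (2 * (x₁ * y₀ - y₁ * x₀)) _ _ h2
        convert! this using 1 <;> ring
  · push Not at h3
    by_cases h2 : ∃ x₀ y₀ x₁ y₁ : K, Z x₀ y₀ ∧ Z x₁ y₁ ∧ x₀ * y₁ - y₀ * x₁ ≠ 0
    · obtain ⟨x₀, y₀, x₁, y₁, h0, h1, h01⟩ := h2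
      refine ⟨x₀, x₁, y₀, y₁, by rwa [mul_comm x₁], Or.inr fun s t hst => ?_⟩
      by_contra hcon
      push Not at hcon
      have h4 := h3 x₀ y₀ x₁ y₁ _ _ h0 h1 hst h01
      have e1 : x₀ * (y₀ * s + y₁ * t) - y₀ * (x₀ * s + x₁ * t) = t * (x₀ * y₁ - y₀ * x₁) := by
        ring
      have e2 : x₁ * (y₀ * s + y₁ * t) - y₁ * (x₀ * s + x₁ * t) = -(s * (x₀ * y₁ - y₀ * x₁)) := by
        ring
      rw [e1, e2] at h4
      exact neg_ne_zero.mpr (mul_ne_zero hcon.1 h01) (h4 (mul_ne_zero hcon.2 h01))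
    · push Not at h2
      by_cases h1 : ∃ x₀ y₀ : K, Z x₀ y₀ ∧ (x₀ ≠ 0 ∨ y₀ ≠ 0)
      · obtain ⟨x₀, y₀, h0, hne⟩ := h1
        rcases hne with hne | hne
        · refine ⟨x₀, 0, y₀, 1, by rwa [mul_one, zero_mul, sub_zero], Or.inr fun s t hst => ?_⟩
          have h4 := h2 _ _ _ _ h0 hst
          have e1 : x₀ * (y₀ * s + 1 * t) - y₀ * (x₀ * s + 0 * t) = x₀ * t := by ring
          rw [e1] at h4
          exact Or.inr ((mul_eq_zero.mp h4).resolve_left hne)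
        · refine ⟨x₀, 1, y₀, 0, by rw [mul_zero, one_mul, zero_sub]; exact neg_ne_zero.mpr hne,
            Or.inr fun s t hst => ?_⟩
          have h4 := h2 _ _ _ _ h0 hst
          have e1 : x₀ * (y₀ * s + 0 * t) - y₀ * (x₀ * s + 1 * t) = -(y₀ * t) := by ring
          rw [e1, neg_eq_zero] at h4
          exact Or.inr ((mul_eq_zero.mp h4).resolve_left hne)
      · push Not at h1
        refine ⟨1, 0, 0, 1, by simp, Or.inr fun s t hst => ?_⟩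
        have h4 := (h1 _ _ hst).1
        rw [one_mul, zero_mul, add_zero] at h4
        exact Or.inl h4

variable {Ω σ : Type*} [Field Ω] [Algebra K Ω] [Fintype σ] [DecidableEq σ]

theorem aeval_smul_hom {F : MvPolynomial σ K} {d : ℕ} (hF : F.IsHomogeneous d) (r : Ω)
    (v : σ → Ω) : aeval (fun u => r * v u) F = r ^ d * aeval v F := by
  rw [aeval_def, aeval_def, eval₂_eq', eval₂_eq', Finset.mul_sum]
  refine Finset.sum_congr rfl fun J hJ => ?_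
  have hJd : J.degree = d := by
    by_contra hne
    exact (mem_support_iff.mp hJ) (hF.coeff_eq_zero hne)
  simp only [mul_pow, Finset.prod_mul_distrib]
  rw [Finset.prod_pow_eq_pow_sum, ← Finsupp.degree_eq_sum, hJd]
  ring

/-- a polynomial over an algebraically closed field as a product -/
theorem prod_form [IsAlgClosed K] (G : Polynomial K) (hG : G ≠ 0) :
    ∃ (R : Finset K) (e : K → ℕ) (c : K), c ≠ 0 ∧ (∀ ρ ∈ R, 0 < e ρ) ∧
      (∀ ρ, G.eval ρ = 0 ↔ ρ ∈ R) ∧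
      G = Polynomial.C c * ∏ ρ ∈ R, (Polynomial.X - Polynomial.C ρ) ^ e ρ := by
  classical
  have hs := IsAlgClosed.splits G
  refine ⟨G.roots.toFinset, fun ρ => G.roots.count ρ, G.leadingCoeff,
    Polynomial.leadingCoeff_ne_zero.mpr hG, ?_, ?_, ?_⟩
  · intro ρ hρ
    exact Multiset.count_pos.mpr (Multiset.mem_toFinset.mp hρ)
  · intro ρ
    rw [Multiset.mem_toFinset, Polynomial.mem_roots hG]
    rfl
  · conv_lhs => rw [hs.eq_prod_roots]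
    rw [Finset.prod_multiset_map_count]

end Frame

end Pool.Agent.Lib.MP_44a246_ntB
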