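import Mathlib
import Pool.Agent.Lib.MP_44a246_ntB.Frame
import Pool.Agent.Lib.MP_44a246_ntB.BackL

/-!
The point does not lie on a conic parametrised over the subfield.
-/

set_option linter.unusedSectionVars false

namespace Pool.Agent.Lib.MP_44a246_ntB

open Pool.Agent.Lib.MP_e52354_nt Pool.Agent.Lib.MP_e52354_ntP
open MvPolynomial

section MasonG

variable {Ω : Type*} [Field Ω] [CharZero Ω] {P : Type*} {K : Subfield Ω} {B : Subring (P → Ω)}
  {D : Derivation ℤ Ω Ω} {θ : Ω} {ψ : P → Ω}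

/-- Mason-Stothers for a polynomial with roots `0`, `1`, `-1` -/
theorem MSD.mason_poly (h : MSD K B D θ ψ) [IsAlgClosed K] {m : ℕ} {G : Polynomial K} (hG : G ≠ 0)
    (hθ : θ ∉ K) (hlog : (fun π => D (Polynomial.aeval θ G / ψ π ^ m) /
      (Polynomial.aeval θ G / ψ π ^ m)) ∈ B)
    (h0 : G.eval 0 = 0) (h1 : G.eval 1 = 0) (hm1 : G.eval (-1) = 0) : D θ = 0 := by
  obtain ⟨R, e, c, hc, he, hR, hGe⟩ := prod_form G hG
  refine h.mason he hc hθ (d := m) ?_ ((hR 0).mp h0) ((hR 1).mp h1) ((hR (-1)).mp hm1)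
  have hev : Polynomial.aeval θ G = (c : Ω) * ∏ ρ ∈ R, (θ - (ρ : Ω)) ^ e ρ := by
    conv_lhs => rw [hGe]
    rw [map_mul, map_prod, Polynomial.aeval_C]
    congr 1
    refine Finset.prod_congr rfl fun ρ _ => ?_
    rw [map_pow, map_sub, Polynomial.aeval_X, Polynomial.aeval_C]
    rfl
  rw [← hev]
  exact hlog

end MasonG

section Conic

variable {Ω : Type*} [Field Ω] [CharZero Ω] {P : Type*} {σ : Type*} [Fintype σ] [DecidableEq σ]
  {K : Subfield Ω} {B : Subring (P → Ω)} {𝒟 : Submodule K (Derivation ℤ Ω Ω)} {d : ℕ}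
  {p : σ → Ω} {z : Ω} {c : P → σ} {l a b : σ}

/-- quadratic polynomials with given coefficients -/
noncomputable def qp (A B' C : σ → K) (u : σ) : Polynomial K :=
  Polynomial.C (A u) * Polynomial.X ^ 2 + Polynomial.C (B' u) * Polynomial.X + Polynomial.C (C u)

theorem natDegree_qp (A B' C : σ → K) (u : σ) : (qp A B' C u).natDegree ≤ 2 :=
  Polynomial.natDegree_quadratic_le

theorem aeval_qp (A B' C : σ → K) (u : σ) (θ : Ω) :
    Polynomial.aeval θ (qp A B' C u) = (A u : Ω) * θ ^ 2 + B' u * θ + C u := by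
  unfold qp
  rw [map_add, map_add, map_mul, map_mul, map_pow, Polynomial.aeval_X, Polynomial.aeval_C,
    Polynomial.aeval_C, Polynomial.aeval_C]
  rfl

theorem eval_qp (A B' C : σ → K) (u : σ) (ρ : K) :
    (qp A B' C u).eval ρ = A u * ρ ^ 2 + B' u * ρ + C u := by
  unfold qp
  simp

/-- the three polynomials span -/
theorem span_qp (hli : ∀ u v w : K, (u : Ω) * p l + v * p a + w * p b = 0 → u = 0 ∧ v = 0 ∧ w = 0)
    {A B' C : σ → K} {ω θ : Ω} (hω : ω ≠ 0)
    (hp : ∀ u, ω * p u = (A u : Ω) * θ ^ 2 + B' u * θ + C u) :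
    ∀ i : ℕ, i ≤ 2 → (Polynomial.X ^ i : Polynomial K) ∈
      Submodule.span K (Set.range (qp A B' C)) := by
  classical
  have hmem3 : ∀ q : Polynomial K, q.natDegree ≤ 2 → q ∈ Polynomial.degreeLT K 3 := by
    intro q hq
    rw [Polynomial.mem_degreeLT]
    refine lt_of_le_of_lt Polynomial.degree_le_natDegree ?_
    exact_mod_cast Nat.lt_succ_of_le hq
  let b' : Fin 3 → Polynomial.degreeLT K 3 := fun i =>
    ⟨qp A B' C (![l, a, b] i), hmem3 _ (natDegree_qp _ _ _ _)⟩
  have hb' : LinearIndependent K b' := by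
    rw [Fintype.linearIndependent_iff]
    intro g hg
    have h1 := congrArg (fun q : Polynomial.degreeLT K 3 =>
      Polynomial.aeval θ (q : Polynomial K)) hg
    simp only [Fin.sum_univ_three, Submodule.coe_add, Submodule.coe_smul, map_add, map_smul,
      ZeroMemClass.coe_zero, map_zero, b'] at h1
    have e0 : (![l, a, b] : Fin 3 → σ) 0 = l := rfl
    have e1 : (![l, a, b] : Fin 3 → σ) 1 = a := rfl
    have e2 : (![l, a, b] : Fin 3 → σ) 2 = b := rfl
    rw [e0, e1, e2, aeval_qp, aeval_qp, aeval_qp, ← hp, ← hp, ← hp] at h1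
    have e3 : ∀ (y : K) (x : Ω), y • x = (y : Ω) * x := fun _ _ => rfl
    rw [e3, e3, e3] at h1
    obtain ⟨h2, h3, h4⟩ := hli (g 0) (g 1) (g 2) (by
      have : ω * ((g 0 : Ω) * p l + g 1 * p a + g 2 * p b) = 0 := by
        rw [← h1]; ring
      exact (mul_eq_zero.mp this).resolve_left hω)
    intro i
    fin_cases i
    · exact h2
    · exact h3
    · exact h4
  have hfin : FiniteDimensional K (Polynomial.degreeLT K 3) :=
    (Polynomial.degreeLTEquiv K 3).symm.finiteDimensional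
  have htop := hb'.span_eq_top_of_card_eq_finrank (by
    rw [Fintype.card_fin, (Polynomial.degreeLTEquiv K 3).finrank_eq]
    simp)
  intro i hi
  have h1 : (⟨Polynomial.X ^ i, hmem3 _ (by rw [Polynomial.natDegree_X_pow]; exact hi)⟩ :
      Polynomial.degreeLT K 3) ∈ Submodule.span K (Set.range b') := by
    rw [htop]; exact Submodule.mem_top
  have h2 := Submodule.mem_map_of_mem (f := (Polynomial.degreeLT K 3).subtype) h1
  rw [Submodule.map_span] at h2
  refine (Submodule.span_mono ?_) h2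
  rintro _ ⟨_, ⟨i, rfl⟩, rfl⟩
  exact ⟨_, rfl⟩

theorem conic_false [IsAlgClosed Ω] (hKa : ∀ y : Ω, IsAlgebraic K y → y ∈ K)
    (LL : LB K B 𝒟 d p z c) (hd : 0 < d) (hcard : 3 * Fintype.card σ ≤ 2 * d + 1)
    (hKD : ∀ D ∈ 𝒟, ∀ y ∈ K, D y ∈ K) (hf : ∀ y : Ω, (∀ D ∈ 𝒟, D y = 0) → y ∈ K)
    {F : MvPolynomial σ K} (hF : F.IsHomogeneous d) (hFz : aeval p F = z)
    (δ : (σ →₀ ℕ) → Derivation ℤ K K)
    (hδ : ∀ I : σ →₀ ℕ, I.degree = d → ∀ J : σ →₀ ℕ, J.degree = d →
      δ I (coeff J F) = if I = J then 1 else 0)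
    (hli : ∀ u v w : K, (u : Ω) * p l + v * p a + w * p b = 0 → u = 0 ∧ v = 0 ∧ w = 0)
    {A B' C : σ → K} {ω θ₁ θ₂ : Ω} (hω : ω ≠ 0)
    (hp : ∀ u, ω * p u = θ₁ ^ 2 * A u + θ₁ * θ₂ * B' u + θ₂ ^ 2 * C u) : False := by
  classical
  have hac : IsAlgClosed K := isAlgClosed_sub hKa
  -- the zeros
  set Q2 : K → K → σ → K := fun s t u => A u * s ^ 2 + B' u * s * t + C u * t ^ 2 with hQ2
  obtain ⟨α, β, γ, δ', hdet, hdich⟩ := frame_dich (fun s t : K => aeval (Q2 s t) F = 0) (by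
    intro r s t hst
    have h1 : Q2 (r * s) (r * t) = fun u => r ^ 2 * Q2 s t u := by
      funext u
      simp only [hQ2]
      ring
    simp only [h1]
    rw [aeval_smul_hom hF, hst, mul_zero])
  -- the new frame
  set A₁ : σ → K := fun u => A u * α ^ 2 + B' u * α * γ + C u * γ ^ 2 with hA₁
  set B₁ : σ → K := fun u => (A u * α * β + A u * α * β) + B' u * (α * δ' + β * γ) +
    (C u * γ * δ' + C u * γ * δ') with hB₁
  set C₁ : σ → K := fun u => A u * β ^ 2 + B' u * β * δ' + C u * δ' ^ 2 with hC₁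
  have hQ2' : ∀ s t u, Q2 (α * s + β * t) (γ * s + δ' * t) u =
      A₁ u * s ^ 2 + B₁ u * s * t + C₁ u * t ^ 2 := by
    intro s t u
    simp only [hQ2, hA₁, hB₁, hC₁]
    ring
  set t₁ : Ω := δ' * θ₁ - β * θ₂ with ht₁
  set t₂ : Ω := α * θ₂ - γ * θ₁ with ht₂
  have hdet' : (α : Ω) * δ' - β * γ ≠ 0 := by
    intro h0
    apply hdet
    apply Subtype.ext
    push_cast
    exact h0
  have hp₁ : ∀ u, (ω * ((α : Ω) * δ' - β * γ) ^ 2) * p u =
      t₁ ^ 2 * A₁ u + t₁ * t₂ * B₁ u + t₂ ^ 2 * C₁ u := by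
    intro u
    have h1 := hp u
    simp only [hA₁, hB₁, hC₁, ht₁, ht₂]
    push_cast
    linear_combination ((α : Ω) * δ' - β * γ) ^ 2 * h1
  have hnotK : ∀ (ω' ω'' : Ω) (k : σ → K), ω' ≠ 0 → (∀ u, ω' * p u = ω'' * k u) → False := by
    intro ω' ω'' k hω' h1
    have h2 := hli (k a) (- k l) 0 (by
      apply mul_left_cancel₀ hω'
      push_cast
      linear_combination (k a : Ω) * h1 l - (k l : Ω) * h1 a)
    have h3 : k l = 0 := neg_eq_zero.mp h2.2.1
    have h4 := h1 l
    rw [h3, ZeroMemClass.coe_zero, mul_zero] at h4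
    have h5 := (mul_eq_zero.mp h4).resolve_left hω'
    have h6 := hli 1 0 0 (by rw [h5]; simp)
    exact one_ne_zero h6.1
  have ht₂0 : t₂ ≠ 0 := by
    intro h0
    refine hnotK (ω * ((α : Ω) * δ' - β * γ) ^ 2) (t₁ ^ 2) A₁
      (mul_ne_zero hω (pow_ne_zero _ hdet')) fun u => ?_
    rw [hp₁, h0]; ring
  set θ : Ω := t₁ / t₂ with hθ
  set ω₁ : Ω := ω * ((α : Ω) * δ' - β * γ) ^ 2 / t₂ ^ 2 with hω₁
  have hω₁0 : ω₁ ≠ 0 :=
    div_ne_zero (mul_ne_zero hω (pow_ne_zero _ hdet')) (pow_ne_zero _ ht₂0)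
  have hp₂ : ∀ u, ω₁ * p u = (A₁ u : Ω) * θ ^ 2 + B₁ u * θ + C₁ u := by
    intro u
    have h1 := hp₁ u
    rw [hω₁, hθ]
    field_simp
    linear_combination h1
  have hspan := span_qp (p := p) hli hω₁0 hp₂
  set G : Polynomial K := aeval (qp A₁ B₁ C₁) F with hG
  have hGθ : Polynomial.aeval θ G = ω₁ ^ d * z := by
    rw [hG, comp_aeval_apply, ← hFz, ← aeval_smul_hom hF]
    congr 1
    congr 1
    funext u
    rw [aeval_qp, hp₂]
  have hG0 : G ≠ 0 := by
    intro h0
    rw [h0, map_zero] at hGθ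
    exact mul_ne_zero (pow_ne_zero _ hω₁0) LL.hz hGθ.symm
  have hGev : ∀ ρ : K, G.eval ρ = aeval (Q2 (α * ρ + β * 1) (γ * ρ + δ' * 1)) F := by
    intro ρ
    rw [← Polynomial.coe_aeval_eq_eval, hG, comp_aeval_apply]
    congr 1
    congr 1
    funext u
    rw [Polynomial.coe_aeval_eq_eval, eval_qp, hQ2']
    ring
  rcases hdich with ⟨z0, z1, z2⟩ | hz
  · -- three roots
    have hθK : θ ∉ K := by
      intro hθK
      refine hnotK ω₁ 1 (fun u => A₁ u * ⟨θ, hθK⟩ ^ 2 + B₁ u * ⟨θ, hθK⟩ + C₁ u) hω₁0 fun u => ?_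
      rw [hp₂]
      push_cast
      ring
    apply hθK
    apply hf
    intro D hD
    have hlam : ∀ i : ℕ, i ≤ 2 → ∃ lam : σ → K, θ ^ i = ω₁ * ∑ u, (lam u : Ω) * p u := by
      intro i hi
      obtain ⟨lam, hlam⟩ := (Submodule.mem_span_range_iff_exists_fun K).mp (hspan i hi)
      refine ⟨lam, ?_⟩
      have h1 := congrArg (Polynomial.aeval θ) hlam
      rw [map_sum, map_pow, Polynomial.aeval_X] at h1
      rw [← h1, Finset.mul_sum]
      refine Finset.sum_congr rfl fun u _ => ?_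
      rw [map_smul, aeval_qp, ← hp₂]
      show (lam u : Ω) * _ = _
      ring
    have hms : MSD K B D θ (fun π => ω₁ * p (c π)) := by
      refine ⟨LL.hconst, hKD D hD, fun π => mul_ne_zero hω₁0 (LL.hc π), ?_, ?_, ?_⟩
      · intro i hi
        obtain ⟨lam, hlam⟩ := hlam i hi
        refine mem_congr (B.sum_mem (t := Finset.univ)
          (f := fun u => (fun _ : P => (lam u : Ω)) * (fun π => p u / p (c π)))
          fun u _ => B.mul_mem ((LL.hconst _).mpr (lam u).2) (LL.hp u)) fun π => ?_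
        rw [Finset.sum_apply]
        simp only [Pi.mul_apply]
        rw [hlam, mul_div_mul_left _ _ hω₁0, Finset.sum_div]
        exact Finset.sum_congr rfl fun u _ => by ring
      · intro i hi
        obtain ⟨lam, hlam⟩ := hlam i hi
        refine mem_congr (B.sum_mem (t := Finset.univ)
          (f := fun u => (fun _ : P => D (lam u : Ω)) * (fun π => p u / p (c π)) +
            (fun _ : P => (lam u : Ω)) * (fun π => D (p u / p (c π))))
          fun u _ => B.add_mem (B.mul_mem ((LL.hconst _).mpr (hKD D hD _ (lam u).2)) (LL.hp u))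
            (B.mul_mem ((LL.hconst _).mpr (lam u).2) (LL.hD D hD u))) fun π => ?_
        rw [Finset.sum_apply]
        simp only [Pi.mul_apply, Pi.add_apply]
        have e1 : θ ^ i / (ω₁ * p (c π)) = ∑ u, (lam u : Ω) * (p u / p (c π)) := by
          rw [hlam, mul_div_mul_left _ _ hω₁0, Finset.sum_div]
          exact Finset.sum_congr rfl fun u _ => by ring
        rw [e1, map_sum]
        refine Finset.sum_congr rfl fun u _ => ?_
        rw [Derivation.leibniz]
        simp only [smul_eq_mul]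
        ring
      · intro y hy
        refine LL.glue 1 fun k => ?_
        have hy0 := hy 0 (by omega)
        have hy1 := hy 1 (by omega)
        have hy2 := hy 2 (by omega)
        refine mem_congr (B.add_mem (B.add_mem (LL.smul_mem (A₁ k).2 hy2)
          (LL.smul_mem (B₁ k).2 hy1)) (LL.smul_mem (C₁ k).2 hy0)) fun π => ?_
        have hcπ := LL.hc π
        have h1 := hp₂ k
        simp only [Pi.add_apply]
        have e1 : p k / p (c π) = ((A₁ k : Ω) * θ ^ 2 + B₁ k * θ + C₁ k) / (ω₁ * p (c π)) := by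
          rw [← h1, mul_div_mul_left _ _ hω₁0]
        rw [pow_one, e1]
        ring
    refine hms.mason_poly (m := d) hG0 hθK ?_ ?_ ?_ ?_
    · refine mem_congr (LL.hlog D hD) fun π => ?_
      have e1 : Polynomial.aeval θ G / (ω₁ * p (c π)) ^ d = z / p (c π) ^ d := by
        rw [hGθ, mul_pow, mul_div_mul_left _ _ (pow_ne_zero _ hω₁0)]
      rw [e1]
    · have e1 : α * 0 + β * 1 = β := by ring
      have e2 : γ * 0 + δ' * 1 = δ' := by ring
      rw [hGev, e1, e2]
      exact z0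
    · have e1 : α * 1 + β * 1 = α + β := by ring
      have e2 : γ * 1 + δ' * 1 = γ + δ' := by ring
      rw [hGev, e1, e2]
      exact z1
    · have e1 : α * -1 + β * 1 = -α + β := by ring
      have e2 : γ * -1 + δ' * 1 = -γ + δ' := by ring
      rw [hGev, e1, e2]
      exact z2
  · -- at most two roots
    obtain ⟨R, e, cf, hcf, he, hR, hGe⟩ := prod_form G hG0
    have hR0 : ∀ ρ ∈ R, ρ = 0 := by
      intro ρ hρ
      have h1 := (hR ρ).mpr hρ
      rw [hGev] at h1
      rcases hz ρ 1 h1 with h2 | h2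
      · exact h2
      · exact absurd h2 one_ne_zero
    refine no_hypertangent hd hcard hF δ hδ (natDegree_qp A₁ B₁ C₁) hspan hcf
      (a := ∑ ρ ∈ R, e ρ) ?_
    rw [← hG]
    conv_lhs => rw [hGe]
    rw [← Finset.prod_pow_eq_pow_sum]
    congr 1
    refine Finset.prod_congr rfl fun ρ hρ => ?_
    rw [hR0 ρ hρ, map_zero, sub_zero]

end Conic

end Pool.Agent.Lib.MP_44a246_ntB
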