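import Mathlib
import Pool.Agent.Lib.MP_44a246_ntB.ConicL

/-!
A point on a line over the subfield: the line meets the divisor in at most two points.
-/

set_option linter.unusedSectionVars false

namespace Pool.Agent.Lib.MP_44a246_ntB

open Pool.Agent.Lib.MP_e52354_nt Pool.Agent.Lib.MP_e52354_ntP
open MvPolynomial

section Line

variable {Ω : Type*} [Field Ω] [CharZero Ω] {P : Type*} {σ : Type*} [Fintype σ] [DecidableEq σ]
  {K : Subfield Ω} {B : Subring (P → Ω)} {𝒟 : Submodule K (Derivation ℤ Ω Ω)} {d : ℕ}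
  {p : σ → Ω} {z : Ω} {c : P → σ}

/-- the point `p` lies on a line which meets the divisor in at most two points -/
def Exc (F : MvPolynomial σ K) (p : σ → Ω) (d : ℕ) : Prop :=
  ∃ (y : σ → Ω) (r : Ω) (m : ℕ), m < d ∧ (¬ ∃ s : Ω, y = s • p) ∧
    ∀ T : Ω, aeval (fun u => p u + T * y u) F = aeval p F * (1 + r * T) ^ m

/-- `p` is not proportional to a point over the subfield. -/
theorem LB.not_prop (LL : LB K B 𝒟 d p z c) {ω' ω'' : Ω} {k : σ → K} (hω' : ω' ≠ 0)
    (h : ∀ u, ω' * p u = ω'' * k u) : False := by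
  obtain ⟨π₀⟩ := LL.nonempty
  have hω'' : ω'' ≠ 0 := by
    rintro rfl
    have := h (c π₀)
    rw [zero_mul] at this
    exact mul_ne_zero hω' (LL.hc π₀) this
  have h1 := LL.hneg (ω' / ω'') 1 one_pos (LL.glue_ind (fun u _ => (k u : Ω))
    (fun u => LL.K_mem (k u).2) fun π => by
      rw [pow_one, div_mul_eq_mul_div, div_eq_iff hω'', h, mul_comm])
  exact div_ne_zero hω' hω'' h1

theorem natDegree_lin (A B' : σ → K) (u : σ) :
    (Polynomial.C (A u) * Polynomial.X + Polynomial.C (B' u)).natDegree ≤ 1 :=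
  Polynomial.natDegree_linear_le

/-- a root polynomial supported at `0` -/
theorem only_zero [IsAlgClosed K] {G : Polynomial K} (hG : G ≠ 0)
    (h : ∀ ρ, G.eval ρ = 0 → ρ = 0) :
    ∃ (c : K) (m : ℕ), c ≠ 0 ∧ G = Polynomial.C c * Polynomial.X ^ m := by
  obtain ⟨R, e, cf, hcf, he, hR, hGe⟩ := prod_form G hG
  refine ⟨cf, ∑ ρ ∈ R, e ρ, hcf, ?_⟩
  conv_lhs => rw [hGe]
  rw [← Finset.prod_pow_eq_pow_sum]
  congr 1
  refine Finset.prod_congr rfl fun ρ hρ => ?_
  rw [h ρ ((hR ρ).mpr hρ), map_zero, sub_zero]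

theorem line_exc [IsAlgClosed Ω] (hKa : ∀ y : Ω, IsAlgebraic K y → y ∈ K)
    (LL : LB K B 𝒟 d p z c) (hd : 0 < d)
    (hKD : ∀ D ∈ 𝒟, ∀ y ∈ K, D y ∈ K) (hf : ∀ y : Ω, (∀ D ∈ 𝒟, D y = 0) → y ∈ K)
    {F : MvPolynomial σ K} (hF : F.IsHomogeneous d) (hFz : aeval p F = z)
    {A B' : σ → K} {θ₁ θ₂ : Ω} (hp : ∀ u, p u = θ₁ * A u + θ₂ * B' u) : Exc F p d := by
  classical
  have hac : IsAlgClosed K := isAlgClosed_sub hKa
  obtain ⟨α, β, γ, δ', hdet, hdich⟩ := frame_dich (fun s t : K =>
      aeval (fun u => A u * s + B' u * t) F = 0) (by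
    intro r s t hst
    have h1 : (fun u => A u * (r * s) + B' u * (r * t)) = fun u => r * (A u * s + B' u * t) := by
      funext u
      ring
    rw [h1, aeval_smul_hom hF, hst, mul_zero])
  set A₁ : σ → K := fun u => A u * α + B' u * γ with hA₁
  set B₁ : σ → K := fun u => A u * β + B' u * δ' with hB₁
  have hQ2' : ∀ s t u, A u * (α * s + β * t) + B' u * (γ * s + δ' * t) =
      A₁ u * s + B₁ u * t := by
    intro s t u
    simp only [hA₁, hB₁]
    ring
  set t₁ : Ω := δ' * θ₁ - β * θ₂ with ht₁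
  set t₂ : Ω := α * θ₂ - γ * θ₁ with ht₂
  have hdet' : (α : Ω) * δ' - β * γ ≠ 0 := by
    intro h0
    apply hdet
    apply Subtype.ext
    push_cast
    exact h0
  have hp₁ : ∀ u, ((α : Ω) * δ' - β * γ) * p u = t₁ * A₁ u + t₂ * B₁ u := by
    intro u
    have h1 := hp u
    simp only [hA₁, hB₁, ht₁, ht₂]
    push_cast
    linear_combination ((α : Ω) * δ' - β * γ) * h1
  have ht₂0 : t₂ ≠ 0 := by
    intro h0
    refine LL.not_prop hdet' (ω'' := t₁) (k := A₁) fun u => ?_
    rw [hp₁, h0]; ring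
  have ht₁0 : t₁ ≠ 0 := by
    intro h0
    refine LL.not_prop hdet' (ω'' := t₂) (k := B₁) fun u => ?_
    rw [hp₁, h0]; ring
  set θ : Ω := t₁ / t₂ with hθ
  have hθ0 : θ ≠ 0 := div_ne_zero ht₁0 ht₂0
  set ω₁ : Ω := ((α : Ω) * δ' - β * γ) / t₂ with hω₁
  have hω₁0 : ω₁ ≠ 0 := div_ne_zero hdet' ht₂0
  have hp₂ : ∀ u, ω₁ * p u = (A₁ u : Ω) * θ + B₁ u := by
    intro u
    have h1 := hp₁ u
    rw [hω₁, hθ]
    field_simp
    linear_combination h1
  clear_value θ ω₁
  have hz0 : aeval p F ≠ 0 := by rw [hFz]; exact LL.hz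
  have hindep : ∃ u v, A₁ u * B₁ v - A₁ v * B₁ u ≠ 0 := by
    by_contra hcon
    push Not at hcon
    by_cases hA0 : ∃ u, A₁ u ≠ 0
    · obtain ⟨u₀, hu₀⟩ := hA0
      have hu₀' : (A₁ u₀ : Ω) ≠ 0 := fun h0 => hu₀ (Subtype.ext h0)
      refine LL.not_prop (mul_ne_zero hω₁0 hu₀') (ω'' := A₁ u₀ * θ + B₁ u₀) (k := A₁) fun u => ?_
      have h1 := congrArg (fun y : K => (y : Ω)) (hcon u₀ u)
      push_cast at h1
      linear_combination (A₁ u₀ : Ω) * hp₂ u + h1
    · push Not at hA0
      refine LL.not_prop hω₁0 (ω'' := 1) (k := B₁) fun u => ?_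
      rw [hp₂, hA0]
      simp
  set G : Polynomial K := aeval (fun u => Polynomial.C (A₁ u) * Polynomial.X +
    Polynomial.C (B₁ u)) F with hG
  have hGx : ∀ x : Ω, Polynomial.aeval x G = aeval (fun u => (A₁ u : Ω) * x + B₁ u) F := by
    intro x
    rw [hG, comp_aeval_apply]
    congr 1
    congr 1
    funext u
    rw [map_add, map_mul, Polynomial.aeval_X, Polynomial.aeval_C, Polynomial.aeval_C]
    rfl
  have hGθ : Polynomial.aeval θ G = ω₁ ^ d * aeval p F := by
    rw [hGx, ← aeval_smul_hom hF]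
    congr 1
    congr 1
    funext u
    rw [hp₂]
  have hG0 : G ≠ 0 := by
    intro h0
    rw [h0, map_zero] at hGθ
    exact mul_ne_zero (pow_ne_zero _ hω₁0) hz0 hGθ.symm
  have hGev : ∀ ρ : K, G.eval ρ = aeval (fun u => A u * (α * ρ + β * 1) +
      B' u * (γ * ρ + δ' * 1)) F := by
    intro ρ
    rw [← Polynomial.coe_aeval_eq_eval, hG, comp_aeval_apply]
    congr 1
    congr 1
    funext u
    rw [Polynomial.coe_aeval_eq_eval, hQ2']
    simp
  have hnotprop : ∀ y : σ → K, y ≠ 0 → ¬ ∃ s : Ω, (fun u => (y u : Ω)) = s • p := by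
    rintro y hy ⟨s, hs⟩
    have hs0 : s ≠ 0 := by
      rintro rfl
      apply hy
      funext u
      apply Subtype.ext
      have := congrFun hs u
      simpa using this
    refine LL.not_prop hs0 (ω'' := 1) (k := y) fun u => ?_
    have := congrFun hs u
    rw [Pi.smul_apply, smul_eq_mul] at this
    rw [one_mul, this]
  rcases hdich with ⟨z0, z1, z2⟩ | hz
  · -- three roots
    exfalso
    have hθK : θ ∉ K := by
      intro hθK
      refine LL.not_prop hω₁0 (ω'' := 1) (k := fun u => A₁ u * ⟨θ, hθK⟩ + B₁ u) fun u => ?_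
      rw [hp₂]
      push_cast
      ring
    apply hθK
    apply hf
    intro D hD
    obtain ⟨u, v, huv⟩ := hindep
    have huv' : (A₁ u : Ω) * B₁ v - A₁ v * B₁ u ≠ 0 := by
      intro h0
      apply huv
      apply Subtype.ext
      push_cast
      exact h0
    -- `1` and `θ` as combinations
    have hlam : ∀ i : ℕ, i ≤ 1 → ∃ a₁ b₁ : K, θ ^ i = ω₁ * ((a₁ : Ω) * p u + b₁ * p v) := by
      intro i hi
      interval_cases i
      · refine ⟨- A₁ v / (A₁ u * B₁ v - A₁ v * B₁ u), A₁ u / (A₁ u * B₁ v - A₁ v * B₁ u), ?_⟩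
        push_cast
        have h1 := hp₂ u
        have h2 := hp₂ v
        field_simp
        linear_combination (A₁ v : Ω) * h1 - (A₁ u : Ω) * h2
      · refine ⟨B₁ v / (A₁ u * B₁ v - A₁ v * B₁ u), - B₁ u / (A₁ u * B₁ v - A₁ v * B₁ u), ?_⟩
        push_cast
        have h1 := hp₂ u
        have h2 := hp₂ v
        have h3 : ω₁ * ((B₁ v : Ω) / ((A₁ u : Ω) * B₁ v - A₁ v * B₁ u) * p u +
            - (B₁ u : Ω) / ((A₁ u : Ω) * B₁ v - A₁ v * B₁ u) * p v) =
            ((B₁ v : Ω) * (ω₁ * p u) - (B₁ u : Ω) * (ω₁ * p v)) /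
              ((A₁ u : Ω) * B₁ v - A₁ v * B₁ u) := by ring
        rw [h3, eq_div_iff huv', h1, h2]
        ring
    have hB1 : ∀ i : ℕ, i ≤ 1 → (fun π => θ ^ i / (ω₁ * p (c π))) ∈ B ∧
        (fun π => D (θ ^ i / (ω₁ * p (c π)))) ∈ B := by
      intro i hi
      obtain ⟨a₁, b₁, h1⟩ := hlam i hi
      have e1 : ∀ π, θ ^ i / (ω₁ * p (c π)) = (a₁ : Ω) * (p u / p (c π)) +
          b₁ * (p v / p (c π)) := by
        intro π
        rw [h1, mul_div_mul_left _ _ hω₁0]
        ring
      constructor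
      · refine mem_congr (B.add_mem (LL.smul_mem a₁.2 (LL.hp u)) (LL.smul_mem b₁.2 (LL.hp v)))
          fun π => ?_
        rw [e1]
        rfl
      · refine mem_congr (B.add_mem (B.add_mem (LL.smul_mem (hKD D hD _ a₁.2) (LL.hp u))
          (LL.smul_mem a₁.2 (LL.hD D hD u))) (B.add_mem (LL.smul_mem (hKD D hD _ b₁.2) (LL.hp v))
          (LL.smul_mem b₁.2 (LL.hD D hD v)))) fun π => ?_
        rw [e1, map_add, Derivation.leibniz, Derivation.leibniz]
        simp only [Pi.add_apply, smul_eq_mul]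
        ring
    have hsplit : ∀ i : ℕ, i ≤ 2 → ∃ j k : ℕ, j ≤ 1 ∧ k ≤ 1 ∧ ∀ π,
        θ ^ i / (ω₁ * p (c π)) ^ 2 = θ ^ j / (ω₁ * p (c π)) * (θ ^ k / (ω₁ * p (c π))) := by
      intro i hi
      obtain ⟨j, k, hj, hk, hjk⟩ : ∃ j k, j ≤ 1 ∧ k ≤ 1 ∧ i = j + k := by
        interval_cases i
        · exact ⟨0, 0, by omega, by omega, rfl⟩
        · exact ⟨0, 1, by omega, by omega, rfl⟩
        · exact ⟨1, 1, by omega, by omega, rfl⟩
      refine ⟨j, k, hj, hk, fun π => ?_⟩
      rw [hjk, pow_add, div_mul_div_comm, ← pow_two]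
    have hms : MSD K B D θ (fun π => (ω₁ * p (c π)) ^ 2) := by
      refine ⟨LL.hconst, hKD D hD, fun π => pow_ne_zero _ (mul_ne_zero hω₁0 (LL.hc π)),
        ?_, ?_, ?_⟩
      · intro i hi
        obtain ⟨j, k, hj, hk, hjk⟩ := hsplit i hi
        refine mem_congr (B.mul_mem (hB1 j hj).1 (hB1 k hk).1) fun π => ?_
        exact (hjk π).symm
      · intro i hi
        obtain ⟨j, k, hj, hk, hjk⟩ := hsplit i hi
        refine mem_congr (B.add_mem (B.mul_mem (hB1 j hj).1 (hB1 k hk).2)
          (B.mul_mem (hB1 k hk).1 (hB1 j hj).2)) fun π => ?_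
        rw [hjk π, Derivation.leibniz]
        simp only [Pi.add_apply, Pi.mul_apply, smul_eq_mul]
      · intro y hy
        refine LL.glue 2 fun k => ?_
        have hy0 := hy 0 (by omega)
        have hy1 := hy 1 (by omega)
        have hy2 := hy 2 (by omega)
        refine mem_congr (B.add_mem (B.add_mem (LL.smul_mem (K.mul_mem (A₁ k).2 (A₁ k).2) hy2)
          (LL.smul_mem (K.add_mem (K.mul_mem (A₁ k).2 (B₁ k).2) (K.mul_mem (A₁ k).2 (B₁ k).2))
          hy1)) (LL.smul_mem (K.mul_mem (B₁ k).2 (B₁ k).2) hy0)) fun π => ?_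
        simp only [Pi.add_apply]
        have e1 : p k / p (c π) = ((A₁ k : Ω) * θ + B₁ k) / (ω₁ * p (c π)) := by
          rw [← hp₂ k, mul_div_mul_left _ _ hω₁0]
        rw [e1, div_pow]
        ring
    refine hms.mason_poly (m := d) (G := G ^ 2) (pow_ne_zero _ hG0) hθK ?_ ?_ ?_ ?_
    · refine mem_congr (B.add_mem (LL.hlog D hD) (LL.hlog D hD)) fun π => ?_
      have e1 : Polynomial.aeval θ (G ^ 2) / ((ω₁ * p (c π)) ^ 2) ^ d =
          (z / p (c π) ^ d) * (z / p (c π) ^ d) := by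
        rw [map_pow, hGθ, hFz, ← pow_mul, mul_comm 2 d, pow_mul, ← div_pow, mul_pow,
          mul_div_mul_left _ _ (pow_ne_zero _ hω₁0), pow_two]
      have hzc : z / p (c π) ^ d ≠ 0 := div_ne_zero LL.hz (pow_ne_zero _ (LL.hc π))
      rw [e1, Derivation.leibniz]
      simp only [Pi.add_apply, smul_eq_mul]
      field_simp
    · have e1 : α * 0 + β * 1 = β := by ring
      have e2 : γ * 0 + δ' * 1 = δ' := by ring
      rw [Polynomial.eval_pow, hGev, e1, e2, z0, zero_pow two_ne_zero]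
    · have e1 : α * 1 + β * 1 = α + β := by ring
      have e2 : γ * 1 + δ' * 1 = γ + δ' := by ring
      rw [Polynomial.eval_pow, hGev, e1, e2, z1, zero_pow two_ne_zero]
    · have e1 : α * -1 + β * 1 = -α + β := by ring
      have e2 : γ * -1 + δ' * 1 = -γ + δ' := by ring
      rw [Polynomial.eval_pow, hGev, e1, e2, z2, zero_pow two_ne_zero]
  · -- at most two roots
    obtain ⟨cf, m, hcf, hGm⟩ := only_zero hG0 (by
      intro ρ hρ
      rw [hGev] at hρ
      exact (hz ρ 1 hρ).resolve_right one_ne_zero)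
    set G' : Polynomial K := aeval (fun u => Polynomial.C (B₁ u) * Polynomial.X +
      Polynomial.C (A₁ u)) F with hG'
    have hGx' : ∀ x : Ω, Polynomial.aeval x G' = aeval (fun u => (B₁ u : Ω) * x + A₁ u) F := by
      intro x
      rw [hG', comp_aeval_apply]
      congr 1
      congr 1
      funext u
      rw [map_add, map_mul, Polynomial.aeval_X, Polynomial.aeval_C, Polynomial.aeval_C]
      rfl
    have hrel : ∀ x : Ω, x ≠ 0 → Polynomial.aeval x G = x ^ d * Polynomial.aeval x⁻¹ G' := by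
      intro x hx
      rw [hGx, hGx', ← aeval_smul_hom hF]
      congr 1
      congr 1
      funext u
      field_simp
      ring
    have hG0' : G' ≠ 0 := by
      intro h0
      have := hrel θ hθ0
      rw [h0, map_zero, mul_zero, hGθ] at this
      exact mul_ne_zero (pow_ne_zero _ hω₁0) hz0 this
    obtain ⟨cf', m', hcf', hGm'⟩ := only_zero hG0' (by
      intro ρ hρ
      rw [← Polynomial.coe_aeval_eq_eval, hG', comp_aeval_apply] at hρ
      refine (hz 1 ρ ?_).resolve_left one_ne_zero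
      rw [← hρ]
      congr 1
      congr 1
      funext u
      rw [Polynomial.coe_aeval_eq_eval, hQ2']
      simp
      ring)
    have hmd : m ≤ d := by
      have h1 := MvPolynomial.aeval_natDegree_le F hF.totalDegree_le
        (fun u => Polynomial.C (A₁ u) * Polynomial.X + Polynomial.C (B₁ u)) (n := 1)
        (fun u => natDegree_lin A₁ B₁ u)
      rw [← hG, hGm, Polynomial.natDegree_C_mul_X_pow _ _ hcf, mul_one] at h1
      exact h1
    have hmd' : m' ≤ d := by
      have h1 := MvPolynomial.aeval_natDegree_le F hF.totalDegree_le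
        (fun u => Polynomial.C (B₁ u) * Polynomial.X + Polynomial.C (A₁ u)) (n := 1)
        (fun u => natDegree_lin B₁ A₁ u)
      rw [← hG', hGm', Polynomial.natDegree_C_mul_X_pow _ _ hcf', mul_one] at h1
      exact h1
    have hev : ∀ x : Ω, Polynomial.aeval x G = (cf : Ω) * x ^ m := by
      intro x
      rw [hGm, map_mul, map_pow, Polynomial.aeval_X, Polynomial.aeval_C]
      rfl
    have hev' : ∀ x : Ω, Polynomial.aeval x G' = (cf' : Ω) * x ^ m' := by
      intro x
      rw [hGm', map_mul, map_pow, Polynomial.aeval_X, Polynomial.aeval_C]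
      rfl
    by_cases hm : m < d
    · refine ⟨fun u => (A₁ u : Ω), ω₁ / θ, m, hm, hnotprop A₁ ?_, fun T => ?_⟩
      · intro h0
        obtain ⟨u, v, huv⟩ := hindep
        apply huv
        rw [h0]
        simp
      · have h1 := hev (θ + ω₁ * T)
        rw [hGx] at h1
        have h2 : (fun u => (A₁ u : Ω) * (θ + ω₁ * T) + B₁ u) =
            fun u => ω₁ * (p u + T * A₁ u) := by
          funext u
          have := hp₂ u
          linear_combination -this
        rw [h2, aeval_smul_hom hF] at h1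
        have h3 := hGθ
        rw [hev] at h3
        have h4 : ω₁ ^ d ≠ 0 := pow_ne_zero _ hω₁0
        apply mul_left_cancel₀ h4
        rw [h1, ← mul_assoc, ← h3]
        have h5 : 1 + ω₁ / θ * T = (θ + ω₁ * T) / θ := by field_simp
        rw [h5, div_pow]
        have : θ ^ m ≠ 0 := pow_ne_zero _ hθ0
        field_simp
    · by_cases hm' : m' < d
      · refine ⟨fun u => (B₁ u : Ω), ω₁, m', hm', hnotprop B₁ ?_, fun T => ?_⟩
        · intro h0
          obtain ⟨u, v, huv⟩ := hindep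
          apply huv
          rw [h0]
          simp
        · have h1 := hev' ((1 + ω₁ * T) / θ)
          rw [hGx'] at h1
          have h2 : (fun u => (B₁ u : Ω) * ((1 + ω₁ * T) / θ) + A₁ u) =
              fun u => (ω₁ / θ) * (p u + T * B₁ u) := by
            funext u
            have := hp₂ u
            field_simp
            linear_combination - this
          rw [h2, aeval_smul_hom hF] at h1
          have h3 := hGθ
          rw [hrel θ hθ0, hev'] at h3
          have h4 : (ω₁ / θ) ^ d ≠ 0 := pow_ne_zero _ (div_ne_zero hω₁0 hθ0)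
          apply mul_left_cancel₀ h4
          rw [h1, div_pow, div_pow, ← mul_assoc, div_mul_eq_mul_div, ← h3]
          have h5 : θ ^ m' ≠ 0 := pow_ne_zero _ hθ0
          have h6 : θ ^ d ≠ 0 := pow_ne_zero _ hθ0
          rw [inv_pow]
          field_simp
      · exfalso
        have hm1 : m = d := by omega
        have hm2 : m' = d := by omega
        have h1 := hrel 1 one_ne_zero
        have h2 := hrel 2 two_ne_zero
        rw [hev, hev', hm1, hm2] at h1 h2
        simp only [one_pow, inv_one, mul_one, one_mul, inv_pow] at h1 h2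
        have h3 : (2 : Ω) ^ d ≠ 0 := pow_ne_zero _ two_ne_zero
        rw [← h1] at h2
        have hcf0 : (cf : Ω) ≠ 0 := fun h0 => hcf (Subtype.ext h0)
        have h4 : (cf : Ω) * 2 ^ d = cf := by
          rw [h2]; field_simp
        have h5 : (2 : Ω) ^ d = 1 := mul_left_cancel₀ hcf0 (by rw [h4, mul_one])
        have h6 : (2 : ℕ) ^ d = 1 := by exact_mod_cast h5
        rw [Nat.pow_eq_one] at h6
        omega

end Line

end Pool.Agent.Lib.MP_44a246_ntB
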