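import Mathlib
import Pool.Agent.Lib.MP_44a246_ntB.Front4
import Pool.Agent.Lib.MP_44a246_ntB.LineL
import Pool.Agent.Lib.MP_e52354_ntP.Hilb

/-!
The slot for the projective plane, IV: the quadratic form is not zero; the main theorem for the
projective plane.
-/

set_option linter.unusedSectionVars false

namespace Pool.Agent.Lib.MP_44a246_ntB

open Pool.Agent.Lib.MP_e52354_nt Pool.Agent.Lib.MP_e52354_ntP
open MvPolynomial

section Front5

variable {Ω : Type*} [Field Ω] [CharZero Ω] {P : Type*} {σ : Type*} [Fintype σ] [DecidableEq σ]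
  {K : Subfield Ω} {B : Subring (P → Ω)} {𝒟 : Submodule K (Derivation ℤ Ω Ω)}
  {p : σ → Ω} {z : Ω} {c : P → σ} {D : (σ →₀ ℕ) → Derivation ℤ Ω Ω} {l a b : σ}
  {al be ga : σ → K} {gr : σ → Ω} {PP : σ → MvPolynomial (Fin 2) K}

/-- the extension of the vector of derivatives to polynomials over the large field -/
noncomputable def EO (K : Subfield Ω) (D : (σ →₀ ℕ) → Derivation ℤ Ω Ω) (l a b : σ) (p : σ → Ω) :
    MvPolynomial (Fin 2) Ω →ₗ[Ω] (σ → Ω) :=
  (basisMonomials (Fin 2) Ω).constr Ω fun m => EE K D 4 l a b p (monomial m 1)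

theorem EO_monomial (m : Fin 2 →₀ ℕ) :
    EO K D l a b p (monomial m 1) = EE K D 4 l a b p (monomial m 1) := by
  have := (basisMonomials (Fin 2) Ω).constr_basis Ω
    (fun m => EE K D 4 l a b p (monomial m 1)) m
  rwa [coe_basisMonomials] at this

theorem EO_map (G : MvPolynomial (Fin 2) K) :
    EO K D l a b p (map (algebraMap K Ω) G) = EE K D 4 l a b p G := by
  rw [G.as_sum, map_sum, map_sum, map_sum]
  refine Finset.sum_congr rfl fun m _ => ?_
  rw [map_monomial]
  have e1 : (monomial m (algebraMap K Ω (coeff m G)) : MvPolynomial (Fin 2) Ω) =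
      (algebraMap K Ω (coeff m G)) • monomial m 1 := by
    rw [smul_monomial, smul_eq_mul, mul_one]
  have e2 : (monomial m (coeff m G) : MvPolynomial (Fin 2) K) = (coeff m G) • monomial m 1 := by
    rw [smul_monomial, smul_eq_mul, mul_one]
  rw [e1, e2, map_smul, map_smul, EO_monomial]
  rfl

theorem map_mem_WW {G : MvPolynomial (Fin 2) K} {e : ℕ} (hG : G ∈ WW K e) :
    map (algebraMap K Ω) G ∈ WW Ω e := by
  rw [mem_WW] at hG ⊢
  exact (Finset.sup_mono (support_map_subset _ _)).trans hG

namespace PlaneD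

variable (X : PlaneD K B 𝒟 p z c D l a b al be ga gr PP)
include X

/-- no common kernel -/
theorem no_kernel {s t : Ω} (hst : s ≠ 0 ∨ t ≠ 0)
    (hker : ∀ Q ∈ WW K 3, s • UU K D 4 l a b p 0 Q + t • UU K D 4 l a b p 1 Q = 0)
    (hspan : ∀ om : σ → Ω, ∑ k, om k * p k = 0 →
      (∀ Q ∈ WW K 3, ∀ i, ∑ k, om k * UU K D 4 l a b p i Q k = 0) → om = 0) : False := by
  classical
  -- the tangent vectors over the large field
  set E := EO K D l a b p with hE
  let U : Fin 2 → MvPolynomial (Fin 2) Ω →ₗ[Ω] (σ → Ω) := fun i =>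
    { toFun := fun R => E (MvPolynomial.X i * R) - p ((![a, b] : Fin 2 → σ) i) • E R
      map_add' := by
        intro R R'
        rw [mul_add, map_add, map_add, smul_add]
        abel
      map_smul' := by
        intro y R
        rw [mul_smul_comm, map_smul, map_smul, RingHom.id_apply, smul_sub, smul_comm] }
  have hU : ∀ i R, U i R = E (MvPolynomial.X i * R) - p ((![a, b] : Fin 2 → σ) i) • E R :=
    fun _ _ => rfl
  have hUmap : ∀ i (Q : MvPolynomial (Fin 2) K), U i (map (algebraMap K Ω) Q) =
      UU K D 4 l a b p i Q := by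
    intro i Q
    have e1 : (MvPolynomial.X i : MvPolynomial (Fin 2) Ω) * map (algebraMap K Ω) Q =
        map (algebraMap K Ω) (MvPolynomial.X i * Q) := by
      rw [map_mul, map_X]
    rw [hU, e1, hE, EO_map, EO_map, UU_apply]
  -- the kernel relation
  have hker' : ∀ R ∈ WW Ω 3, s • U 0 R + t • U 1 R = 0 := by
    intro R hR
    refine WW_induction (P := fun R => s • U 0 R + t • U 1 R = 0) ?_ ?_ ?_ hR
    · intro m hm0
      have e1 : (monomial m 1 : MvPolynomial (Fin 2) Ω) =
          map (algebraMap K Ω) (monomial m 1) := by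
        rw [map_monomial, (algebraMap K Ω).map_one]
      rw [e1, hUmap, hUmap]
      exact hker _ (monomial_mem_WW hm0 1)
    · intro R R' h1 h2
      rw [map_add, map_add, smul_add, smul_add]
      have := congrArg₂ (· + ·) h1 h2
      simp only [add_zero] at this
      rw [← this]
      abel
    · intro y R h1
      rw [map_smul, map_smul, smul_comm s y, smul_comm t y, ← smul_add, h1, smul_zero]
  -- the linear form
  set L : MvPolynomial (Fin 2) Ω := C s * (MvPolynomial.X 0 - C (p a)) +
    C t * (MvPolynomial.X 1 - C (p b)) with hL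
  have hEL : ∀ R ∈ WW Ω 3, E (L * R) = 0 := by
    intro R hR
    have h1 := hker' R hR
    rw [hU, hU] at h1
    have e1 : L * R = s • (MvPolynomial.X 0 * R) + t • (MvPolynomial.X 1 * R) -
        (s * p a) • R - (t * p b) • R := by
      rw [hL]
      simp only [smul_eq_C_mul, map_mul]
      ring
    rw [e1, map_sub, map_sub, map_add, map_smul, map_smul, map_smul, map_smul, ← h1]
    funext k
    simp only [Pi.add_apply, Pi.sub_apply, Pi.smul_apply, smul_eq_mul]
    have e2 : (![a, b] : Fin 2 → σ) 0 = a := rfl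
    have e3 : (![a, b] : Fin 2 → σ) 1 = b := rfl
    rw [e2, e3]
    ring
  have hL0 : L ≠ 0 := by
    intro h0
    rcases hst with hs | ht
    · apply hs
      have h1 := congrArg (eval ![p a + 1, p b]) h0
      rw [hL] at h1
      simpa using h1
    · apply ht
      have h1 := congrArg (eval ![p a, p b + 1]) h0
      rw [hL] at h1
      simpa using h1
  have hL1 : L ∈ WW Ω 1 := by
    rw [hL]
    have h1 : ∀ i (y : Ω), (MvPolynomial.X i - C y : MvPolynomial (Fin 2) Ω) ∈ WW Ω 1 :=
      fun i y => Submodule.sub_mem _ (X_mem_WW le_rfl i) (C_mem_WW 1 y)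
    refine Submodule.add_mem _ ?_ ?_
    · rw [← smul_eq_C_mul]; exact Submodule.smul_mem _ _ (h1 _ _)
    · rw [← smul_eq_C_mul]; exact Submodule.smul_mem _ _ (h1 _ _)
  -- dual coefficients
  obtain ⟨s', t', hst'⟩ : ∃ s' t' : Ω, s' * t - t' * s = 1 := by
    rcases hst with hs | ht
    · exact ⟨0, - s⁻¹, by field_simp; ring⟩
    · exact ⟨t⁻¹, 0, by field_simp; ring⟩
  -- the map `V`, with `U 0 = t V` and `U 1 = - s V`
  let V : WW Ω 3 →ₗ[Ω] (Fin 2 → Ω) :=
    { toFun := fun R => fun j => s' * U 0 R (![a, b] j) + t' * U 1 R (![a, b] j)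
      map_add' := by
        intro R R'
        funext j
        simp only [Submodule.coe_add, map_add, Pi.add_apply]
        ring
      map_smul' := by
        intro y R
        funext j
        simp only [Submodule.coe_smul, map_smul, Pi.smul_apply, RingHom.id_apply, smul_eq_mul]
        ring }
  have hV : ∀ (R : WW Ω 3) j, V R j = s' * U 0 R (![a, b] j) + t' * U 1 R (![a, b] j) :=
    fun _ _ => rfl
  have hV0 : ∀ (R : WW Ω 3) j, U 0 R (![a, b] j) = t * V R j := by
    intro R j
    have h1 := congrFun (hker' R R.2) (![a, b] j)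
    simp only [Pi.add_apply, Pi.smul_apply, smul_eq_mul, Pi.zero_apply] at h1
    rw [hV]
    linear_combination - U 0 R (![a, b] j) * hst' - t' * h1
  have hV1 : ∀ (R : WW Ω 3) j, U 1 R (![a, b] j) = - s * V R j := by
    intro R j
    have h1 := congrFun (hker' R R.2) (![a, b] j)
    simp only [Pi.add_apply, Pi.smul_apply, smul_eq_mul, Pi.zero_apply] at h1
    rw [hV]
    linear_combination - U 1 R (![a, b] j) * hst' + s' * h1
  -- `V` is surjective
  have hVs : LinearMap.range V = ⊤ := by
    by_contra hne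
    obtain ⟨f, hf0, hf⟩ := Submodule.exists_le_ker_of_lt_top _ (lt_top_iff_ne_top.mpr hne)
    set f0 := f (Pi.single 0 1) with hf0'
    set f1 := f (Pi.single 1 1) with hf1'
    have hfv : ∀ v : Fin 2 → Ω, f v = v 0 * f0 + v 1 * f1 := by
      intro v
      have e1 : v = v 0 • Pi.single 0 1 + v 1 • Pi.single 1 1 := by
        funext j
        fin_cases j <;> simp
      conv_lhs => rw [e1]
      rw [map_add, map_smul, map_smul, smul_eq_mul, smul_eq_mul]
    have hfV : ∀ R : WW Ω 3, V R 0 * f0 + V R 1 * f1 = 0 := by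
      intro R
      rw [← hfv]
      exact hf ⟨R, rfl⟩
    let om : σ → Ω := fun k => if k = a then f0 else if k = b then f1 else
      - (f0 * p a + f1 * p b)
    have homa : om a = f0 := by simp [om]
    have homb : om b = f1 := by simp [om, X.h.ab.symm]
    have homl : om l = - (f0 * p a + f1 * p b) := by simp [om, X.h.la, X.h.lb]
    have hom0 := hspan om (by
      rw [X.sum3, homa, homb, homl, X.h.hpl]; ring) (by
      intro Q hQ i
      rw [X.sum3, homa, homb, homl, UU_l X.h.hpl, mul_zero, zero_add]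
      have h1 := hfV ⟨map (algebraMap K Ω) Q, map_mem_WW hQ⟩
      have h2 : ∀ j, UU K D 4 l a b p 0 Q (![a, b] j) =
          t * V ⟨map (algebraMap K Ω) Q, map_mem_WW hQ⟩ j := by
        intro j
        rw [← hV0, ← hUmap]
      have h3 : ∀ j, UU K D 4 l a b p 1 Q (![a, b] j) =
          - s * V ⟨map (algebraMap K Ω) Q, map_mem_WW hQ⟩ j := by
        intro j
        rw [← hV1, ← hUmap]
      have e2 : (![a, b] : Fin 2 → σ) 0 = a := rfl
      have e3 : (![a, b] : Fin 2 → σ) 1 = b := rfl
      have h20 := h2 0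
      have h21 := h2 1
      have h30 := h3 0
      have h31 := h3 1
      rw [e2] at h20 h30
      rw [e3] at h21 h31
      fin_cases i
      · show f0 * UU K D 4 l a b p 0 Q a + f1 * UU K D 4 l a b p 0 Q b = 0
        rw [h20, h21]
        linear_combination t * h1
      · show f0 * UU K D 4 l a b p 1 Q a + f1 * UU K D 4 l a b p 1 Q b = 0
        rw [h30, h31]
        linear_combination - s * h1)
    apply hf0
    ext v
    have h1 : f0 = 0 := by rw [← homa, hom0]; rfl
    have h2 : f1 = 0 := by rw [← homb, hom0]; rfl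
    fin_cases v
    · simpa using h1
    · simpa using h2
  -- dimensions
  have hfin : ∀ k, FiniteDimensional Ω (WW Ω k) := fun k => inferInstance
  have hdim3 := finrank_WW (K := Ω) 3
  have hdim2 := finrank_WW (K := Ω) 2
  have hrk := LinearMap.finrank_range_add_finrank_ker V
  rw [hVs, finrank_top, Module.finrank_fin_fun] at hrk
  -- elements of the kernel
  have hLmem : ∀ R ∈ WW Ω 2, L * R ∈ WW Ω 3 := by
    intro R hR
    have := mul_mem_WW hL1 hR
    rwa [show 1 + 2 = 3 from rfl] at this
  have hPmem : ∀ u, map (algebraMap K Ω) (PP u) ∈ WW Ω 3 := fun u =>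
    map_mem_WW (X.hPm u)
  have hPU := X.pdata.hU
  let Θ : (Fin 3 → Ω) × WW Ω 2 →ₗ[Ω] WW Ω 3 :=
    { toFun := fun y => ⟨∑ u, y.1 u • map (algebraMap K Ω) (PP (![l, a, b] u)) +
        L * (y.2 : MvPolynomial (Fin 2) Ω), Submodule.add_mem _ (Submodule.sum_mem _ fun u _ =>
          Submodule.smul_mem _ _ (hPmem _)) (hLmem _ y.2.2)⟩
      map_add' := by
        intro y y'
        apply Subtype.ext
        simp only [Prod.fst_add, Prod.snd_add, Pi.add_apply, add_smul, Finset.sum_add_distrib,
          Submodule.coe_add, mul_add]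
        abel
      map_smul' := by
        intro r y
        apply Subtype.ext
        simp only [Prod.smul_fst, Prod.smul_snd, Pi.smul_apply, Submodule.coe_smul,
          RingHom.id_apply, smul_add, Finset.smul_sum, mul_smul_comm, smul_smul, smul_eq_mul] }
  have hΘ : ∀ y, (Θ y : MvPolynomial (Fin 2) Ω) =
      ∑ u, y.1 u • map (algebraMap K Ω) (PP (![l, a, b] u)) +
        L * (y.2 : MvPolynomial (Fin 2) Ω) := fun _ => rfl
  have hΘker : ∀ y, Θ y ∈ LinearMap.ker V := by
    intro y
    rw [LinearMap.mem_ker]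
    have h1 : ∀ i, U i (Θ y : MvPolynomial (Fin 2) Ω) = 0 := by
      intro i
      rw [hΘ, map_add, map_sum]
      have h2 : ∀ u, U i (y.1 u • map (algebraMap K Ω) (PP (![l, a, b] u))) = 0 := by
        intro u
        rw [map_smul, hUmap, hPU, smul_zero]
      rw [Finset.sum_congr rfl fun u _ => h2 u, Finset.sum_const_zero, zero_add, hU]
      have e1 : MvPolynomial.X i * (L * (y.2 : MvPolynomial (Fin 2) Ω)) =
          L * (MvPolynomial.X i * (y.2 : MvPolynomial (Fin 2) Ω)) := by ring
      rw [e1, hEL _ (X_mul_mem i y.2.2), hEL _ (WW_mono (by norm_num) y.2.2), smul_zero,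
        sub_zero]
    funext j
    rw [hV, h1, h1]
    simp
  have hne : LinearMap.ker Θ ≠ ⊥ := by
    intro h0
    have h1 := LinearMap.finrank_range_add_finrank_ker Θ
    rw [h0, finrank_bot, add_zero, Module.finrank_prod, Module.finrank_fin_fun] at h1
    have h2 : LinearMap.range Θ ≤ LinearMap.ker V := by
      rintro _ ⟨y, rfl⟩
      exact hΘker y
    have h3 := Submodule.finrank_mono h2
    omega
  obtain ⟨y, hy, hy0⟩ := (Submodule.ne_bot_iff _).mp hne
  have hy' : (Θ y : MvPolynomial (Fin 2) Ω) = 0 := by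
    have h1 : Θ y = 0 := hy
    rw [h1]
    rfl
  rw [hΘ] at hy'
  set κ := y.1 with hκ
  have hκ0 : κ ≠ 0 := by
    intro h0
    apply hy0
    rw [h0] at hy'
    simp only [Pi.zero_apply, zero_smul, Finset.sum_const_zero, zero_add] at hy'
    have h1 := (mul_eq_zero.mp hy').resolve_left hL0
    exact Prod.ext h0 (Subtype.ext h1)
  -- apply the derivatives
  have h1 := congrArg E hy'
  rw [map_add, map_sum, map_zero, hEL _ (WW_mono (by norm_num) y.2.2), add_zero] at h1
  have h2 : ∀ u, E (κ u • map (algebraMap K Ω) (PP (![l, a, b] u))) =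
      κ u • ((if ![l, a, b] u = l then (1 : Ω) else 0) • p - Pi.single (![l, a, b] u) 1) := by
    intro u
    rw [map_smul, hE, EO_map, X.pdata.hE]
  rw [Finset.sum_congr rfl fun u _ => h2 u, Fin.sum_univ_three] at h1
  have e0 : (![l, a, b] : Fin 3 → σ) 0 = l := rfl
  have e1 : (![l, a, b] : Fin 3 → σ) 1 = a := rfl
  have e2 : (![l, a, b] : Fin 3 → σ) 2 = b := rfl
  rw [e0, e1, e2, if_pos rfl, if_neg X.h.la.symm, if_neg X.h.lb.symm] at h1
  have ha := congrFun h1 a
  have hb := congrFun h1 b
  simp [X.h.ab, X.h.la.symm, X.h.lb.symm, X.h.ab.symm] at ha hb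
  -- evaluate at the point
  have h3 := congrArg (eval (![p a, p b])) hy'
  rw [map_add, map_mul, map_sum, map_zero] at h3
  have hL0' : eval (![p a, p b]) L = 0 := by
    rw [hL]; simp
  rw [hL0', zero_mul, add_zero, Fin.sum_univ_three, e0, e1, e2] at h3
  have h4 : ∀ u, eval (![p a, p b]) (map (algebraMap K Ω) (PP u)) = gr u := by
    intro u
    rw [← X.hPe u, eval_map]
    rfl
  rw [smul_eval, smul_eval, smul_eval, h4, h4, h4] at h3
  have h5 := X.heul
  rw [X.sum3, X.h.hpl] at h5
  have hκ0' : κ 0 = 0 := by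
    have h6 : κ 0 * ((4 : ℕ) * z) = 0 := by
      rw [← h5]
      linear_combination h3 + gr a * ha + gr b * hb
    exact (mul_eq_zero.mp h6).resolve_right
      (mul_ne_zero (Nat.cast_ne_zero.mpr (by norm_num)) X.LL.hz)
  apply hκ0
  funext u
  fin_cases u
  · exact hκ0'
  · show κ 1 = 0
    rw [hκ0'] at ha
    linear_combination - ha
  · show κ 2 = 0
    rw [hκ0'] at hb
    linear_combination - hb

end PlaneD

end Front5

end Pool.Agent.Lib.MP_44a246_ntB
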