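import Mathlib
import Pool.Agent.Lib.MP_44a246_ntB.Front5

/-!
The main theorem for the projective plane and quartic forms, in the language of bounded functions.
-/

set_option linter.unusedSectionVars false

namespace Pool.Agent.Lib.MP_44a246_ntB

open Pool.Agent.Lib.MP_e52354_nt Pool.Agent.Lib.MP_e52354_ntP
open MvPolynomial

/-- the restriction of a derivation to a stable subfield -/
def resD {Ω : Type*} [Field Ω] {K : Subfield Ω} (D : Derivation ℤ Ω Ω) (h : ∀ y ∈ K, D y ∈ K) :
    Derivation ℤ K K :=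
  Derivation.mk' (AddMonoidHom.toIntLinearMap
    { toFun := fun y => (⟨D y, h y y.2⟩ : K)
      map_zero' := by
        apply Subtype.ext
        show D ((0 : K) : Ω) = 0
        rw [ZeroMemClass.coe_zero, map_zero]
      map_add' := by
        intro x y
        apply Subtype.ext
        show D ((x + y : K) : Ω) = D x + D y
        rw [AddMemClass.coe_add, map_add] }) (by
    intro x y
    apply Subtype.ext
    show D ((x * y : K) : Ω) = _
    rw [MulMemClass.coe_mul, Derivation.leibniz]
    rfl)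

theorem resD_coe {Ω : Type*} [Field Ω] {K : Subfield Ω} (D : Derivation ℤ Ω Ω)
    (h : ∀ y ∈ K, D y ∈ K) (y : K) : ((resD D h y : K) : Ω) = D y := rfl

section Slot1

variable {Ω : Type*} [Field Ω] [CharZero Ω] {P : Type*} {σ : Type*} [Fintype σ] [DecidableEq σ]
  {K : Subfield Ω} {B : Subring (P → Ω)} {𝒟 : Submodule K (Derivation ℤ Ω Ω)}
  {p : σ → Ω} {z : Ω} {c : P → σ} {D : (σ →₀ ℕ) → Derivation ℤ Ω Ω} {l a b : σ}
  {al be ga : σ → K} {gr : σ → Ω} {PP : σ → MvPolynomial (Fin 2) K}

namespace PlaneD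

variable (X : PlaneD K B 𝒟 p z c D l a b al be ga gr PP)
include X

theorem det3_UU (Q Q' : MvPolynomial (Fin 2) K) :
    det3 l a b p (UU K D 4 l a b p 0 Q) (UU K D 4 l a b p 1 Q') =
      UU K D 4 l a b p 0 Q a * UU K D 4 l a b p 1 Q' b -
      UU K D 4 l a b p 1 Q' a * UU K D 4 l a b p 0 Q b := by
  unfold det3
  rw [UU_l X.h.hpl, UU_l X.h.hpl, X.h.hpl]
  ring

/-- the quadratic form is not zero -/
theorem exists_c₀ : ∃ c₀ ∈ WW K 3,
    det3 l a b p (UU K D 4 l a b p 0 c₀) (UU K D 4 l a b p 1 c₀) ≠ 0 := by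
  classical
  by_contra hcon
  push Not at hcon
  have hspan : ∀ om : σ → Ω, ∑ k, om k * p k = 0 →
      (∀ Q ∈ WW K 3, ∀ i, ∑ k, om k * UU K D 4 l a b p i Q k = 0) → om = 0 := by
    intro om h0 h1
    refine X.functional_zero h0 h1 fun u => ?_
    obtain ⟨r, hr⟩ := X.xi_prop u l
    rw [hr]
    have : ∑ k, om k * (r • p) k = r * ∑ k, om k * p k := by
      rw [Finset.mul_sum]
      refine Finset.sum_congr rfl fun k _ => ?_
      rw [Pi.smul_apply, smul_eq_mul]; ring
    rw [this, h0, mul_zero]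
  rcases rank_family (ι := WW K 3) (fun Q => UU K D 4 l a b p 0 (Q : MvPolynomial (Fin 2) K) a)
    (fun Q => UU K D 4 l a b p 1 (Q : MvPolynomial (Fin 2) K) a)
    (fun Q => UU K D 4 l a b p 0 (Q : MvPolynomial (Fin 2) K) b)
    (fun Q => UU K D 4 l a b p 1 (Q : MvPolynomial (Fin 2) K) b) (by
      intro Q Q'
      have h1 := hcon _ Q.2
      have h2 := hcon _ Q'.2
      have h3 := hcon _ (Submodule.add_mem _ Q.2 Q'.2)
      rw [X.det3_UU] at h1 h2 h3
      simp only [map_add, Pi.add_apply] at h3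
      linear_combination h3 - h1 - h2) two_ne_zero with ⟨s, t, hst, h1⟩ | ⟨s, t, hst, h1⟩
  · let om : σ → Ω := fun k => if k = a then s else if k = b then t else
      - (s * p a + t * p b)
    have homa : om a = s := by simp [om]
    have homb : om b = t := by simp [om, X.h.ab.symm]
    have homl : om l = - (s * p a + t * p b) := by simp [om, X.h.la, X.h.lb]
    have hom0 := hspan om (by rw [X.sum3, homa, homb, homl, X.h.hpl]; ring) (by
      intro Q hQ i
      rw [X.sum3, homa, homb, homl, UU_l X.h.hpl, mul_zero, zero_add]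
      have h2 := h1 ⟨Q, hQ⟩
      fin_cases i
      · exact h2.1
      · exact h2.2)
    rcases hst with hs | ht
    · apply hs; rw [← homa, hom0]; rfl
    · apply ht; rw [← homb, hom0]; rfl
  · refine X.no_kernel hst (fun Q hQ => ?_) hspan
    have h2 := h1 ⟨Q, hQ⟩
    funext k
    rw [Pi.add_apply, Pi.smul_apply, Pi.smul_apply, smul_eq_mul, smul_eq_mul, Pi.zero_apply]
    rcases X.huniv k with hk | hk | hk
    · rw [hk, UU_l X.h.hpl, UU_l X.h.hpl]; ring
    · rw [hk]; exact h2.1
    · rw [hk]; exact h2.2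

/-- the point lies on a conic parametrised over the subfield -/
theorem on_conic [IsAlgClosed Ω] (hKa : ∀ y : Ω, IsAlgebraic K y → y ∈ K) :
    OnConic K (p a) (p b) := by
  obtain ⟨c₀, hc₀, hne⟩ := X.exists_c₀
  set U0 := UU K D 4 l a b p 0 c₀ with hU0
  set U1 := UU K D 4 l a b p 1 c₀ with hU1
  set δ := det3 l a b p U0 U1 with hδ
  let L : Fin 2 → (σ → Ω) →ₗ[Ω] Ω := ![
    { toFun := fun v => det3 l a b p v U1 / δ
      map_add' := by
        intro v w
        unfold det3
        simp only [Pi.add_apply]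
        ring
      map_smul' := by
        intro y v
        unfold det3
        simp only [Pi.smul_apply, smul_eq_mul, RingHom.id_apply]
        ring },
    { toFun := fun v => det3 l a b p U0 v / δ
      map_add' := by
        intro v w
        unfold det3
        simp only [Pi.add_apply]
        ring
      map_smul' := by
        intro y v
        unfold det3
        simp only [Pi.smul_apply, smul_eq_mul, RingHom.id_apply]
        ring }]
  have hL0 : ∀ v, L 0 v = det3 l a b p v U1 / δ := fun _ => rfl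
  have hL1 : ∀ v, L 1 v = det3 l a b p U0 v / δ := fun _ => rfl
  refine back_conic hKa X.LL X.h X.hD𝒟 gr X.hzD (e := 3) rfl X.pdata (S := 1) (by norm_num)
    (fun _ => L) (fun _ => c₀) (fun _ => ⟨fun j => ?_, hc₀, fun j j' => ?_, fun Q hQ => ?_⟩)
    fun v hv => ?_
  · fin_cases j
    · show L 0 p = 0
      rw [hL0]; unfold det3; ring
    · show L 1 p = 0
      rw [hL1]; unfold det3; ring
  · fin_cases j <;> fin_cases j'
    · show L 0 U0 = 1
      rw [hL0, div_self hne]
    · show L 0 U1 = 0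
      rw [hL0]; unfold det3; ring
    · show L 1 U0 = 0
      rw [hL1]; unfold det3; ring
    · show L 1 U1 = 1
      rw [hL1, div_self hne]
  · have h1 := X.kap hQ
    have h2 := X.kap hc₀
    have h3 : L 0 (UU K D 4 l a b p 0 Q) * L 1 (UU K D 4 l a b p 1 Q) -
        L 1 (UU K D 4 l a b p 0 Q) * L 0 (UU K D 4 l a b p 1 Q) =
        (det3 l a b p (UU K D 4 l a b p 0 Q) (UU K D 4 l a b p 1 Q) / z) / (δ / z) := by
      rw [hL0, hL0, hL1, hL1]
      have hz := X.LL.hz
      field_simp
      rw [hδ]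
      unfold det3
      ring
    rw [h3]
    exact K.div_mem h1 h2
  · have h0 := hv 0 0
    have h1 := hv 0 1
    have h0' : det3 l a b p v U1 = 0 := (div_eq_zero_iff.mp h0).resolve_right hne
    have h1' : det3 l a b p U0 v = 0 := (div_eq_zero_iff.mp h1).resolve_right hne
    refine ⟨det3 l a b v U0 U1 / δ, ?_⟩
    funext k
    have h2 := cramer3 X.huniv p v U0 U1 k
    rw [h0', h1', mul_zero, mul_zero, add_zero, add_zero] at h2
    rw [Pi.smul_apply, smul_eq_mul, div_mul_eq_mul_div, eq_div_iff hne, h2]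
    ring

end PlaneD

/-- The main theorem for the projective plane. -/
theorem plane_main [IsAlgClosed Ω] (hKa : ∀ y : Ω, IsAlgebraic K y → y ∈ K)
    (hcard : Fintype.card σ = 3) (LL : LB K B 𝒟 4 p z c)
    (hD𝒟 : ∀ I : σ →₀ ℕ, I.degree = 4 → D I ∈ 𝒟)
    (hKD : ∀ D ∈ 𝒟, ∀ y ∈ K, D y ∈ K) (hf : ∀ y : Ω, (∀ D ∈ 𝒟, D y = 0) → y ∈ K)
    {F : MvPolynomial σ K} (hF : F.IsHomogeneous 4) (hFz : aeval p F = z)
    (hDF : ∀ I : σ →₀ ℕ, I.degree = 4 → ∀ J : σ →₀ ℕ, J.degree = 4 →
      D I ((coeff J F : K) : Ω) = if I = J then 1 else 0)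
    (hpl : p l = 1) : Exc F p 4 := by
  classical
  by_cases hline : ∃ w : Ω, ∀ k, ∃ u ∈ K, ∃ v ∈ K, p k = u + v * w
  · obtain ⟨w, hw⟩ := hline
    choose u hu v hv huv using hw
    refine line_exc hKa LL (by norm_num) hKD hf hF hFz (A := fun k => ⟨u k, hu k⟩)
      (B' := fun k => ⟨v k, hv k⟩) (θ₁ := 1) (θ₂ := w) fun k => ?_
    rw [huv]
    ring
  · push Not at hline
    obtain ⟨a, b, hla, hlb, hab, huniv⟩ : ∃ a b : σ, l ≠ a ∧ l ≠ b ∧ a ≠ b ∧
        ∀ k, k = l ∨ k = a ∨ k = b := by
      have h1 : (Finset.univ : Finset σ).card = 3 := by rw [Finset.card_univ, hcard]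
      obtain ⟨x, y, w, hxy, hxw, hyw, h2⟩ := Finset.card_eq_three.mp h1
      have h3 : ∀ k : σ, k = x ∨ k = y ∨ k = w := by
        intro k
        have : k ∈ (Finset.univ : Finset σ) := Finset.mem_univ k
        rw [h2] at this
        simpa using this
      rcases h3 l with hl | hl | hl
      · subst hl
        exact ⟨y, w, hxy, hxw, hyw, h3⟩
      · subst hl
        refine ⟨x, w, hxy.symm, hyw, hxw, fun k => ?_⟩
        rcases h3 k with h4 | h4 | h4
        · exact Or.inr (Or.inl h4)
        · exact Or.inl h4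
        · exact Or.inr (Or.inr h4)
      · subst hl
        refine ⟨x, y, hxw.symm, hyw.symm, hxy, fun k => ?_⟩
        rcases h3 k with h4 | h4 | h4
        · exact Or.inr (Or.inl h4)
        · exact Or.inr (Or.inr h4)
        · exact Or.inl h4
    let al : σ → K := fun k => if k = l then 1 else 0
    let be : σ → K := fun k => if k = a then 1 else 0
    let ga : σ → K := fun k => if k = b then 1 else 0
    have hall : al l = 1 ∧ be l = 0 ∧ ga l = 0 := by simp [al, be, ga, hla, hlb]
    have hala : al a = 0 ∧ be a = 1 ∧ ga a = 0 := by simp [al, be, ga, hla.symm, hab]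
    have halb : al b = 0 ∧ be b = 0 ∧ ga b = 1 := by simp [al, be, ga, hlb.symm, hab.symm]
    have hpln : Pln D 4 p l a b al be ga := by
      refine ⟨hpl, fun k => ?_, fun m _ k t => ?_, fun w hw => ?_⟩
      · rcases huniv k with hk | hk | hk
        · rw [hk, hall.1, hall.2.1, hall.2.2, hpl]; simp
        · rw [hk, hala.1, hala.2.1, hala.2.2]; simp
        · rw [hk, halb.1, halb.2.1, halb.2.2]; simp
      · rcases huniv k with hk | hk | hk
        · rw [hk, hall.1, hall.2.1, hall.2.2]; simp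
        · rw [hk, hala.1, hala.2.1, hala.2.2]; simp
        · rw [hk, halb.1, halb.2.1, halb.2.2]; simp
      · obtain ⟨k, hk⟩ := hline w
        obtain ⟨u, hu, v, hv, huv⟩ := hw k
        exact hk u hu v hv huv
    have X : PlaneD K B 𝒟 p z c D l a b al be ga (fun u => aeval p (pderiv u F))
        (fun u => rs al be ga (pderiv u F)) := by
      refine ⟨LL, hpln, huniv, hD𝒟, fun G hG => ?_, ?_, fun u => ?_, fun u => ?_⟩
      · rw [← hFz]
        exact DG_value hpln hF (fun I hI y hy => hKD _ (hD𝒟 I hI) y hy) hDF hG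
      · rw [← hFz]
        exact euler hF
      · exact rs_mem (totalDegree_pderiv hF u)
      · exact evp_rs hpln.hp _
    obtain ⟨ω, θ₁, θ₂, A, B', C', hω, hcon⟩ := X.on_conic hKa
    exfalso
    refine conic_false hKa LL (by norm_num) (by rw [hcard]) hKD hf hF hFz
      (fun I => if hI : I.degree = 4 then resD (D I) (fun y hy => hKD _ (hD𝒟 I hI) y hy) else 0)
      (fun I hI J hJ => ?_) (l := l) (a := a) (b := b) (fun u v w huvw => ?_)
      (A := fun u => al u * A 0 + be u * A 1 + ga u * A 2)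
      (B' := fun u => al u * B' 0 + be u * B' 1 + ga u * B' 2)
      (C := fun u => al u * C' 0 + be u * C' 1 + ga u * C' 2) (θ₁ := θ₁) (θ₂ := θ₂) hω fun u => ?_
    · rw [dif_pos hI]
      apply Subtype.ext
      rw [resD_coe, hDF I hI J hJ]
      split_ifs <;> simp
    · rw [hpl, mul_one] at huvw
      exact hpln.hxy u v w huvw
    · have h0 := hcon 0
      have h1 := hcon 1
      have h2 := hcon 2
      have e0 : (![1, p a, p b] : Fin 3 → Ω) 0 = 1 := rfl
      have e1 : (![1, p a, p b] : Fin 3 → Ω) 1 = p a := rfl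
      have e2 : (![1, p a, p b] : Fin 3 → Ω) 2 = p b := rfl
      rw [e0] at h0
      rw [e1] at h1
      rw [e2] at h2
      rw [hpln.hp u]
      push_cast
      linear_combination (al u : Ω) * h0 + (be u : Ω) * h1 + (ga u : Ω) * h2

end Slot1

end Pool.Agent.Lib.MP_44a246_ntB
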