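import Mathlib
import Pool.Agent.Lib.MP_44a246_ntB.Base3
import Pool.Agent.Lib.MP_44a246_ntB.PlaneL

/-!
Quartic forms in three variables: without a local bound, the point lies on an exceptional line.
-/

set_option linter.unusedSectionVars false

namespace Pool.Agent.Lib.MP_44a246_ntB

open Pool.Agent.Lib.MP_e52354_nt Pool.Agent.Lib.MP_e52354_ntP
open MvPolynomial

section Form

variable {Ω : Type*} [Field Ω] {K : Subfield Ω} {σ : Type*} [Fintype σ] [DecidableEq σ] {d : ℕ}

/-- the form with given coefficients -/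
noncomputable def formP (d : ℕ) (a : (σ →₀ ℕ) → K) : MvPolynomial σ K :=
  ∑ I ∈ expo σ d, monomial I (a I)

theorem formP_hom (a : (σ →₀ ℕ) → K) : (formP d a).IsHomogeneous d := by
  unfold formP
  refine IsHomogeneous.sum _ _ _ fun I hI => ?_
  exact isHomogeneous_monomial _ (mem_expo.mp hI)

theorem coeff_formP (a : (σ →₀ ℕ) → K) {J : σ →₀ ℕ} (hJ : J.degree = d) :
    coeff J (formP d a) = a J := by
  unfold formP
  rw [coeff_sum, Finset.sum_eq_single J]
  · rw [coeff_monomial, if_pos rfl]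
  · intro I _ hIJ
    rw [coeff_monomial, if_neg hIJ]
  · intro h
    exact absurd (mem_expo.mpr hJ) h

theorem aeval_formP (a : (σ →₀ ℕ) → K) (p : σ → Ω) :
    aeval p (formP d a) = Fval d (fun I => (a I : Ω)) p := by
  unfold formP Fval mon
  rw [map_sum]
  refine Finset.sum_congr rfl fun I _ => ?_
  rw [aeval_monomial, Finsupp.prod_fintype _ _ fun i => pow_zero _]
  rfl

end Form

section Abs

variable {M Ω : Type*} [Field M] [CharZero M] [Field Ω] [CharZero Ω] [IsAlgClosed Ω] [Algebra M Ω]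
  {P : Type*} {O : P → Subring M} {δ : P → M} {h : VData O δ} {σ ι : Type*} [Fintype σ]
  [DecidableEq σ] {p : σ → M} {c : P → σ} {DM : ι → Derivation ℤ M M}
  {DO : ι → Derivation ℤ Ω Ω}

theorem border_abs (hcard : Fintype.card σ = 3) (a : (σ →₀ ℕ) → M)
    (ha : ∀ J ∈ expo σ 4, ∀ π, δ π * a J ∈ O π)
    (X : Inp h 4 p (Fval 4 a p) c DM DO)
    (idx : ∀ I ∈ expo σ 4, ι) (hidx : ∀ I (hI : I ∈ expo σ 4), ∀ J ∈ expo σ 4,
      DM (idx I hI) (a J) = if I = J then 1 else 0) {l : σ} (hpl : p l = 1) :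
    ∃ (y : σ → Ω) (r : Ω) (m : ℕ), m < 4 ∧ (¬ ∃ s : Ω, y = s • fun k => algebraMap M Ω (p k)) ∧
      ∀ T : Ω, Fval 4 (fun I => algebraMap M Ω (a I)) (fun k => algebraMap M Ω (p k) + T * y k) =
        Fval 4 (fun I => algebraMap M Ω (a I)) (fun k => algebraMap M Ω (p k)) *
          (1 + r * T) ^ m := by
  classical
  -- the coefficients
  have haK : ∀ J ∈ expo σ 4, algebraMap M Ω (a J) ∈ KO h Ω := by
    intro J hJ
    rw [mem_KO]
    exact isAlgebraic_algebraMap (⟨a J, Bdd_le_K0 ⟨1, fun π => by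
      rw [pow_one]; exact ha J hJ π⟩⟩ : K0 O δ h)
  let aK : (σ →₀ ℕ) → KO h Ω := fun J => if hJ : J ∈ expo σ 4 then ⟨_, haK J hJ⟩ else 0
  have haKe : ∀ J ∈ expo σ 4, (aK J : Ω) = algebraMap M Ω (a J) := by
    intro J hJ
    simp only [aK, dif_pos hJ]
  have hFv : ∀ q : σ → Ω, aeval q (formP 4 aK) = Fval 4 (fun I => algebraMap M Ω (a I)) q := by
    intro q
    rw [aeval_formP]
    unfold Fval
    refine Finset.sum_congr rfl fun J hJ => ?_
    show (aK J : Ω) * _ = _
    rw [haKe J hJ]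
  have hmap : Fval 4 (fun I => algebraMap M Ω (a I)) (fun k => algebraMap M Ω (p k)) =
      algebraMap M Ω (Fval 4 a p) := by
    unfold Fval mon
    rw [map_sum]
    refine Finset.sum_congr rfl fun J _ => ?_
    rw [map_mul, map_prod]
    simp only [map_pow]
  let D : (σ →₀ ℕ) → Derivation ℤ Ω Ω := fun I =>
    if hI : I ∈ expo σ 4 then DO (idx I hI) else 0
  obtain ⟨y, r, m, hm, hy, hT⟩ := plane_main (K := KO h Ω) (B := BO h Ω) (𝒟 := DDO h DO)
    (D := D) (fun y hy => KO_algebraic hy) hcard X.lb (fun I hI => by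
      simp only [D, dif_pos (mem_expo.mpr hI)]
      exact Submodule.subset_span ⟨_, rfl⟩) X.hKD X.hf (F := formP 4 aK) (formP_hom aK)
    (by rw [hFv, hmap]) (fun I hI J hJ => by
      simp only [D, dif_pos (mem_expo.mpr hI)]
      rw [coeff_formP aK hJ, haKe J (mem_expo.mpr hJ), X.hDM, hidx I _ J (mem_expo.mpr hJ)]
      split_ifs <;> simp) (l := l) (by rw [hpl, map_one])
  refine ⟨y, r, m, hm, hy, fun T => ?_⟩
  have := hT T
  rwa [hFv, hFv] at this

end Abs

end Pool.Agent.Lib.MP_44a246_ntB
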