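import Mathlib
import Pool.Agent.Lib.MP_44a246_ntB.Base4
import Pool.Agent.Lib.MP_e52354_ntB.UPAlg

/-!
The ultraproduct of a sequence of subfields, and the transfer of local bounds.
-/

set_option linter.unusedSectionVars false

namespace Pool.Agent.Lib.MP_44a246_ntB

open Pool.Agent.Lib.MP_e52354_nt Pool.Agent.Lib.MP_e52354_ntP

/-- admissible triples in a field with derivations -/
structure AdmF {N : Type*} [Field N] {ι θ σ : Type*} (D : ι → Derivation ℤ N N) (e₀ : ι)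
    (a : θ → N) (d : ℕ) (p : σ → N) (z : N) (O : Subring N) (δ : N) (l : σ) : Prop where
  hval : ∀ y, y ∈ O ∨ y⁻¹ ∈ O
  hδ : δ ∈ O
  hDO : ∀ i, ∀ y ∈ O, δ * D i y ∈ O
  ha : ∀ t, δ * a t ∈ O
  hl : p l ≠ 0
  hp : ∀ k, p k / p l ∈ O
  hlog : ∀ i, δ * (D i (z / p l ^ d) / (z / p l ^ d)) ∈ O
  hk : ∀ y, D e₀ y = 0 → y ∈ O

/-- the local bound -/
def LBF {N : Type*} [Field N] {ι θ σ : Type*} (D : ι → Derivation ℤ N N) (e₀ : ι)
    (a : θ → N) (d : ℕ) (p : σ → N) (z : N) (c e : ℕ) (J : N) : Prop :=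
  ∀ O δ l, AdmF D e₀ a d p z O δ l → δ ^ c * (J * p l ^ e) ∈ O

section Ultra

theorem ultra_exists {α : Type*} [Finite α] {Q : ℕ → α → Prop}
    (h : ∀ᶠ k in (Filter.hyperfilter ℕ : Filter ℕ), ∃ l, Q k l) :
    ∃ l, ∀ᶠ k in (Filter.hyperfilter ℕ : Filter ℕ), Q k l := by
  by_contra hcon
  have h1 : ∀ l, ∀ᶠ k in (Filter.hyperfilter ℕ : Filter ℕ), ¬ Q k l := fun l =>
    Ultrafilter.eventually_not.mpr (fun h => hcon ⟨l, h⟩)
  have h2 := Filter.eventually_all.mpr h1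
  obtain ⟨k, hk1, l, hk2⟩ := (h2.and h).exists
  exact hk1 l hk2

variable {Λ : Type*} [Field Λ] {L : ℕ → Type*} [∀ j, Field (L j)] (φ : ∀ j, L j →+* Λ)

/-- the class of a sequence -/
noncomputable def mk0 : (∀ j, L j) →+* UP Λ :=
  germHom.comp (RingHom.pi fun j => (φ j).comp (Pi.evalRingHom L j))

theorem mk0_apply (g : ∀ j, L j) : mk0 φ g = germHom (fun j => φ j (g j)) := rfl

theorem mk0_eq_zero (g : ∀ j, L j) :
    mk0 φ g = 0 ↔ ∀ᶠ j in (Filter.hyperfilter ℕ : Filter ℕ), g j = 0 := by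
  rw [mk0_apply, germHom_eq_zero_iff]
  simp only [_root_.map_eq_zero]

theorem mk0_eq_iff (g g' : ∀ j, L j) :
    mk0 φ g = mk0 φ g' ↔ ∀ᶠ j in (Filter.hyperfilter ℕ : Filter ℕ), g j = g' j := by
  rw [← sub_eq_zero, ← map_sub, mk0_eq_zero]
  simp only [Pi.sub_apply, sub_eq_zero]

theorem mk0_inv (g : ∀ j, L j) : mk0 φ g⁻¹ = (mk0 φ g)⁻¹ := by
  by_cases h0 : mk0 φ g = 0
  · rw [h0, inv_zero, mk0_eq_zero]
    rw [mk0_eq_zero] at h0
    filter_upwards [h0] with j hj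
    rw [Pi.inv_apply, hj, inv_zero]
  · apply eq_inv_of_mul_eq_one_left
    rw [← map_mul, ← map_one (mk0 φ), mk0_eq_iff]
    have h1 : ∀ᶠ j in (Filter.hyperfilter ℕ : Filter ℕ), ¬ g j = 0 :=
      Ultrafilter.eventually_not.mpr fun h => h0 ((mk0_eq_zero φ g).mpr h)
    filter_upwards [h1] with j hj
    rw [Pi.mul_apply, Pi.inv_apply, inv_mul_cancel₀ hj, Pi.one_apply]

/-- the ultraproduct -/
noncomputable def MU : Subfield (UP Λ) where
  __ := (mk0 φ).range
  inv_mem' := by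
    rintro _ ⟨g, rfl⟩
    exact ⟨g⁻¹, mk0_inv φ g⟩

/-- the class of a sequence, as an element of the ultraproduct -/
noncomputable def mkU : (∀ j, L j) →+* MU φ where
  toFun g := ⟨mk0 φ g, ⟨g, rfl⟩⟩
  map_one' := Subtype.ext (map_one _)
  map_mul' x y := Subtype.ext (map_mul _ x y)
  map_zero' := Subtype.ext (map_zero _)
  map_add' x y := Subtype.ext (map_add _ x y)

theorem mkU_coe (g : ∀ j, L j) : ((mkU φ g : MU φ) : UP Λ) = mk0 φ g := rfl

theorem mkU_surjective (y : MU φ) : ∃ g, mkU φ g = y := by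
  obtain ⟨g, hg⟩ := y.2
  exact ⟨g, Subtype.ext hg⟩

theorem mkU_eq_zero (g : ∀ j, L j) :
    mkU φ g = 0 ↔ ∀ᶠ j in (Filter.hyperfilter ℕ : Filter ℕ), g j = 0 := by
  rw [← mk0_eq_zero φ]
  constructor
  · intro h
    exact congrArg Subtype.val h
  · intro h
    exact Subtype.ext h

theorem mkU_inv (g : ∀ j, L j) : mkU φ g⁻¹ = (mkU φ g)⁻¹ := Subtype.ext (mk0_inv φ g)

theorem mkU_div (g g' : ∀ j, L j) : mkU φ (g / g') = mkU φ g / mkU φ g' := by
  rw [div_eq_mul_inv, div_eq_mul_inv, map_mul, mkU_inv]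

variable {ι θ σ : Type*} (DL : ∀ j, ι → Derivation ℤ (L j) (L j)) (DΛ : ι → Derivation ℤ Λ Λ)
  (hcomp : ∀ j i y, φ j (DL j i y) = DΛ i (φ j y))

include hcomp in
theorem MU_stable (i : ι) : ∀ y ∈ MU φ, derUP (DΛ i) y ∈ MU φ := by
  rintro _ ⟨g, rfl⟩
  refine ⟨fun j => DL j i (g j), ?_⟩
  rw [mk0_apply, mk0_apply, derUP_germ]
  congr 1
  funext j
  exact hcomp j i (g j)

/-- the derivations of the ultraproduct -/
noncomputable def DMU (i : ι) : Derivation ℤ (MU φ) (MU φ) :=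
  resD (derUP (DΛ i)) (MU_stable φ DL DΛ hcomp i)

theorem DMU_coe (i : ι) (y : MU φ) :
    ((DMU φ DL DΛ hcomp i y : MU φ) : UP Λ) = derUP (DΛ i) y := rfl

theorem DMU_mkU (i : ι) (g : ∀ j, L j) :
    DMU φ DL DΛ hcomp i (mkU φ g) = mkU φ (fun j => DL j i (g j)) := by
  apply Subtype.ext
  rw [DMU_coe, mkU_coe, mkU_coe, mk0_apply, mk0_apply, derUP_germ]
  congr 1
  funext j
  exact (hcomp j i (g j)).symm

/-- transfer of the local bound -/
theorem LBF_of_ultra [Finite σ] {e₀ : ι} {a : θ → ∀ j, L j} {d : ℕ} {p : σ → ∀ j, L j}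
    {z : ∀ j, L j} {c e : ℕ} {J : ∀ j, L j}
    (h : LBF (DMU φ DL DΛ hcomp) e₀ (fun t => mkU φ (a t)) d (fun k => mkU φ (p k)) (mkU φ z) c e
      (mkU φ J)) :
    ∀ᶠ j in (Filter.hyperfilter ℕ : Filter ℕ),
      LBF (DL j) e₀ (fun t => a t j) d (fun k => p k j) (z j) c e (J j) := by
  classical
  by_contra hcon
  have hcon' : ∀ᶠ j in (Filter.hyperfilter ℕ : Filter ℕ),
      ¬ LBF (DL j) e₀ (fun t => a t j) d (fun k => p k j) (z j) c e (J j) :=
    Ultrafilter.eventually_not.mpr hcon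
  have hσ : ∀ᶠ j in (Filter.hyperfilter ℕ : Filter ℕ), ∃ l : σ, ∃ (O : Subring (L j)) (δ : L j),
      AdmF (DL j) e₀ (fun t => a t j) d (fun k => p k j) (z j) O δ l ∧
      ¬ δ ^ c * (J j * p l j ^ e) ∈ O := by
    filter_upwards [hcon'] with j hj
    unfold LBF at hj
    push Not at hj
    obtain ⟨O, δ, l, h1, h2⟩ := hj
    exact ⟨l, O, δ, h1, h2⟩
  obtain ⟨l, hl⟩ := ultra_exists hσ
  have h1 : ∀ j, ∃ (O : Subring (L j)) (δ : L j),
      (∃ (O : Subring (L j)) (δ : L j),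
        AdmF (DL j) e₀ (fun t => a t j) d (fun k => p k j) (z j) O δ l ∧
        ¬ δ ^ c * (J j * p l j ^ e) ∈ O) →
      AdmF (DL j) e₀ (fun t => a t j) d (fun k => p k j) (z j) O δ l ∧
        ¬ δ ^ c * (J j * p l j ^ e) ∈ O := by
    intro j
    by_cases hj : ∃ (O : Subring (L j)) (δ : L j),
        AdmF (DL j) e₀ (fun t => a t j) d (fun k => p k j) (z j) O δ l ∧
        ¬ δ ^ c * (J j * p l j ^ e) ∈ O
    · obtain ⟨O, δ, h2⟩ := hj
      exact ⟨O, δ, fun _ => h2⟩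
    · exact ⟨⊤, 0, fun h => absurd h hj⟩
  choose O δ hO using h1
  have hall : ∀ᶠ j in (Filter.hyperfilter ℕ : Filter ℕ),
      AdmF (DL j) e₀ (fun t => a t j) d (fun k => p k j) (z j) (O j) (δ j) l ∧
        ¬ δ j ^ c * (J j * p l j ^ e) ∈ O j := by
    filter_upwards [hl] with j hj using hO j hj
  -- the ultraproduct of the rings
  let O' : Subring (MU φ) :=
    { carrier := {y | ∃ f, mkU φ f = y ∧ ∀ᶠ n in (Filter.hyperfilter ℕ : Filter ℕ), f n ∈ O n}
      mul_mem' := by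
        rintro _ _ ⟨f, rfl, hf⟩ ⟨g, rfl, hg⟩
        refine ⟨f * g, map_mul _ _ _, ?_⟩
        filter_upwards [hf, hg] with n h1 h2 using (O n).mul_mem h1 h2
      one_mem' := ⟨1, map_one _, Filter.Eventually.of_forall fun n => (O n).one_mem⟩
      add_mem' := by
        rintro _ _ ⟨f, rfl, hf⟩ ⟨g, rfl, hg⟩
        refine ⟨f + g, map_add _ _ _, ?_⟩
        filter_upwards [hf, hg] with n h1 h2 using (O n).add_mem h1 h2
      zero_mem' := ⟨0, map_zero _, Filter.Eventually.of_forall fun n => (O n).zero_mem⟩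
      neg_mem' := by
        rintro _ ⟨f, rfl, hf⟩
        refine ⟨-f, map_neg _ _, ?_⟩
        filter_upwards [hf] with n h1 using (O n).neg_mem h1 }
  have hmem : ∀ f : ∀ j, L j, mkU φ f ∈ O' ↔
      ∀ᶠ n in (Filter.hyperfilter ℕ : Filter ℕ), f n ∈ O n := by
    intro f
    constructor
    · rintro ⟨g, hfg, hg⟩
      have h2 := congrArg (fun y : MU φ => (y : UP Λ)) hfg
      simp only [mkU_coe] at h2
      rw [mk0_eq_iff] at h2
      filter_upwards [h2, hg] with n h1 h2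
      rw [← h1]; exact h2
    · intro hf
      exact ⟨f, rfl, hf⟩
  have hfin := h O' (mkU φ δ) l ?_
  · have h2 : (mkU φ δ) ^ c * (mkU φ J * (mkU φ (p l)) ^ e) =
        mkU φ (fun n => δ n ^ c * (J n * p l n ^ e)) := by
      rw [← map_pow, ← map_pow, ← map_mul, ← map_mul]
      rfl
    rw [h2, hmem] at hfin
    obtain ⟨n, hn1, hn2⟩ := (hfin.and hall).exists
    exact hn2.2 hn1
  · refine ⟨fun y => ?_, ?_, fun i y hy => ?_, fun t => ?_, ?_, fun k => ?_, fun i => ?_,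
      fun y hy => ?_⟩
    · obtain ⟨f, rfl⟩ := mkU_surjective φ y
      rw [← mkU_inv, hmem, hmem, ← Ultrafilter.eventually_or]
      filter_upwards [hall] with n hn using hn.1.hval (f n)
    · rw [hmem]
      filter_upwards [hall] with n hn using hn.1.hδ
    · obtain ⟨f, rfl⟩ := mkU_surjective φ y
      rw [hmem] at hy
      rw [DMU_mkU, ← map_mul, hmem]
      filter_upwards [hall, hy] with n hn h1 using hn.1.hDO i _ h1
    · rw [← map_mul, hmem]
      filter_upwards [hall] with n hn using hn.1.ha t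
    · rw [Ne, mkU_eq_zero]
      refine Ultrafilter.eventually_not.mp ?_
      filter_upwards [hall] with n hn using hn.1.hl
    · rw [← mkU_div, hmem]
      filter_upwards [hall] with n hn using hn.1.hp k
    · rw [← map_pow, ← mkU_div, DMU_mkU, ← mkU_div, ← map_mul, hmem]
      filter_upwards [hall] with n hn using hn.1.hlog i
    · obtain ⟨f, rfl⟩ := mkU_surjective φ y
      rw [DMU_mkU, mkU_eq_zero] at hy
      rw [hmem]
      filter_upwards [hall, hy] with n hn h1 using hn.1.hk _ h1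

end Ultra

end Pool.Agent.Lib.MP_44a246_ntB
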