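import Mathlib
import Pool.Agent.Lib.MP_44a246_ntB.Base5

/-!
Sequences of points: a local bound or exceptional lines.
-/

set_option linter.unusedSectionVars false

namespace Pool.Agent.Lib.MP_44a246_ntB

open Pool.Agent.Lib.MP_e52354_nt Pool.Agent.Lib.MP_e52354_ntP

theorem map_Fval {R S : Type*} [Field R] [Field S] {σ : Type*} [Fintype σ] [DecidableEq σ]
    (f : R →+* S) (d : ℕ) (a : (σ →₀ ℕ) → R) (p : σ → R) :
    f (Fval d a p) = Fval d (fun I => f (a I)) (fun k => f (p k)) := by
  unfold Fval mon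
  rw [map_sum]
  refine Finset.sum_congr rfl fun J _ => ?_
  rw [map_mul, map_prod]
  simp only [map_pow]

theorem map_Fval_pi {L : ℕ → Type*} [∀ j, Field (L j)] {S : Type*} [Field S] {σ : Type*}
    [Fintype σ] [DecidableEq σ] (f : (∀ j, L j) →+* S) (d : ℕ) (a : (σ →₀ ℕ) → ∀ j, L j)
    (p : σ → ∀ j, L j) :
    f (fun j => Fval d (fun I => a I j) (fun k => p k j)) =
      Fval d (fun I => f (a I)) (fun k => f (p k)) := by
  have h1 : (fun j => Fval d (fun I => a I j) (fun k => p k j)) =
      ∑ I ∈ expo σ d, a I * ∏ k, p k ^ I k := by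
    funext j
    unfold Fval mon
    rw [Finset.sum_apply]
    refine Finset.sum_congr rfl fun J _ => ?_
    rw [Pi.mul_apply, Finset.prod_apply]
    rfl
  rw [h1, map_sum]
  unfold Fval mon
  refine Finset.sum_congr rfl fun J _ => ?_
  rw [map_mul, map_prod]
  simp only [map_pow]

section Seq

variable {Λ : Type*} [Field Λ] [CharZero Λ] [IsAlgClosed Λ] {L : ℕ → Type*} [∀ j, Field (L j)]
  (φ : ∀ j, L j →+* Λ) {σ ι : Type*} [Fintype σ] [DecidableEq σ]
  (DL : ∀ j, ι → Derivation ℤ (L j) (L j)) (DΛ : ι → Derivation ℤ Λ Λ)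
  (hcomp : ∀ j i y, φ j (DL j i y) = DΛ i (φ j y)) {e₀ : ι}

/-- the exceptional condition for a point of a field -/
def ExcF (d : ℕ) (a : (σ →₀ ℕ) → Λ) (p : σ → Λ) : Prop :=
  ∃ (y : σ → Λ) (r : Λ) (m : ℕ), m < d ∧ (¬ ∃ s : Λ, y = s • p) ∧
    ∀ T : Λ, Fval d a (fun k => p k + T * y k) = Fval d a p * (1 + r * T) ^ m

include hcomp in
theorem border_ultra (hcst : ∀ u : Λ, DΛ e₀ u = 0 → ∀ j, ∃ u' : L j, φ j u' = u)
    (hcard : Fintype.card σ = 3) (a : (σ →₀ ℕ) → ∀ j, L j)
    (idx : ∀ I ∈ expo σ 4, ι) (hidx : ∀ I (hI : I ∈ expo σ 4), ∀ J ∈ expo σ 4, ∀ j,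
      DL j (idx I hI) (a J j) = if I = J then 1 else 0)
    (p : σ → ∀ j, L j) {l : σ}
    (hpl : ∀ᶠ j in (Filter.hyperfilter ℕ : Filter ℕ), p l j = 1)
    (hz : ∀ᶠ j in (Filter.hyperfilter ℕ : Filter ℕ),
      Fval 4 (fun I => a I j) (fun k => p k j) ≠ 0) :
    (∃ (c e : ℕ) (J : ∀ j, L j), 0 < e ∧ ∀ᶠ j in (Filter.hyperfilter ℕ : Filter ℕ), J j ≠ 0 ∧
      LBF (DL j) e₀ (fun t : {I // I ∈ expo σ 4} => a t j) 4 (fun k => p k j)
        (Fval 4 (fun I => a I j) (fun k => p k j)) c e (J j)) ∨
    ∀ᶠ j in (Filter.hyperfilter ℕ : Filter ℕ),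
      ExcF 4 (fun I => φ j (a I j)) (fun k => φ j (p k j)) := by
  classical
  have hcU : CharZero (UP Λ) := charZero_of_injective_ringHom (constHom (L := Λ)).injective
  have hcM : CharZero (MU φ) := inferInstance
  have hac : IsAlgClosed (UP Λ) := Pool.Agent.Lib.MP_e52354_ntB.isAlgClosed_UP
  set DM := DMU φ DL DΛ hcomp with hDM
  set pM : σ → MU φ := fun k => mkU φ (p k) with hpM
  set aM : (σ →₀ ℕ) → MU φ := fun I => mkU φ (a I) with haM
  set zs : ∀ j, L j := fun j => Fval 4 (fun I => a I j) (fun k => p k j) with hzs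
  have hzM : mkU φ zs = Fval 4 aM pM := map_Fval_pi (mkU φ) 4 a p
  let P := {π : Subring (MU φ) × MU φ × σ // AdmF DM e₀ (fun t : {I // I ∈ expo σ 4} => aM t) 4 pM
    (Fval 4 aM pM) π.1 π.2.1 π.2.2}
  let O : P → Subring (MU φ) := fun π => π.1.1
  let δ : P → MU φ := fun π => π.1.2.1
  let c : P → σ := fun π => π.1.2.2
  have h : VData O δ := ⟨fun π => π.2.hval, fun π => π.2.hδ⟩
  by_cases hNB : ∀ (J : MU φ) (a e : ℕ), 0 < e → (∀ π, δ π ^ a * (J * pM (c π) ^ e) ∈ O π) → J = 0
  · right
    have X : Inp h 4 pM (Fval 4 aM pM) c DM (fun i => derUP (DΛ i)) := by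
      refine ⟨fun π => π.2.hl, fun π => π.2.hp, fun i y => rfl, fun i π => π.2.hDO i,
        fun i π => π.2.hlog i, hNB, ?_, fun y hy => ?_⟩
      · rw [← hzM, Ne, mkU_eq_zero]
        exact Ultrafilter.eventually_not.mp hz
      · obtain ⟨f, rfl⟩ := germHom_surjective y
        have h1 := hy e₀
        rw [derUP_germ, germHom_eq_zero_iff] at h1
        have h2 : ∀ j, ∃ u' : L j, DΛ e₀ (f j) = 0 → φ j u' = f j := by
          intro j
          by_cases hj : DΛ e₀ (f j) = 0
          · obtain ⟨u', hu'⟩ := hcst _ hj j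
            exact ⟨u', fun _ => hu'⟩
          · exact ⟨0, fun h => absurd h hj⟩
        choose u' hu' using h2
        have h3 : ((mkU φ u' : MU φ) : UP Λ) = germHom f := by
          rw [mkU_coe, mk0_apply, germHom_eq_iff]
          filter_upwards [h1] with j hj using hu' j hj
        refine ⟨mkU φ u', h3, fun π => π.2.hk _ ?_⟩
        apply Subtype.ext
        rw [hDM, DMU_coe, h3, hy e₀]
        rfl
    obtain ⟨y, r, m, hm, hy, hT⟩ := border_abs (Ω := UP Λ) hcard aM (fun J hJ π => π.2.ha ⟨J, hJ⟩)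
      X idx (fun I hI J hJ => by
        rw [haM, hDM]
        simp only
        rw [DMU_mkU]
        have h1 : (fun j => DL j (idx I hI) (a J j)) = fun _ => if I = J then 1 else 0 := by
          funext j
          exact hidx I hI J hJ j
        rw [h1]
        by_cases hIJ : I = J
        · simp only [if_pos hIJ]
          exact map_one _
        · simp only [if_neg hIJ]
          exact map_zero _) (l := l) (by
        rw [hpM]
        simp only
        rw [← sub_eq_zero, ← map_one (mkU φ), ← map_sub, mkU_eq_zero]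
        filter_upwards [hpl] with j hj
        rw [Pi.sub_apply, Pi.one_apply, hj, sub_self])
    choose Y hY using fun k => germHom_surjective (y k)
    obtain ⟨R, hR⟩ := germHom_surjective r
    have h1 : ∀ᶠ j in (Filter.hyperfilter ℕ : Filter ℕ),
        ¬ ∃ s : Λ, (fun k => Y k j) = s • (fun k => φ j (p k j)) := by
      refine Ultrafilter.eventually_not.mpr fun hcon => hy ?_
      have h2 : ∀ j, ∃ s : Λ, (∃ s : Λ, (fun k => Y k j) = s • (fun k => φ j (p k j))) →
          (fun k => Y k j) = s • (fun k => φ j (p k j)) := by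
        intro j
        by_cases hj : ∃ s : Λ, (fun k => Y k j) = s • (fun k => φ j (p k j))
        · obtain ⟨s, hs⟩ := hj
          exact ⟨s, fun _ => hs⟩
        · exact ⟨0, fun h => absurd h hj⟩
      choose s hs using h2
      refine ⟨germHom s, ?_⟩
      funext k
      rw [← hY k, Pi.smul_apply, smul_eq_mul]
      show germHom (Y k) = germHom s * mk0 φ (p k)
      rw [mk0_apply, ← map_mul, germHom_eq_iff]
      filter_upwards [hcon] with j hj
      exact congrFun (hs j hj) k
    have h2 : ∀ᶠ j in (Filter.hyperfilter ℕ : Filter ℕ), ∀ T : Λ,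
        Fval 4 (fun I => φ j (a I j)) (fun k => φ j (p k j) + T * Y k j) =
          Fval 4 (fun I => φ j (a I j)) (fun k => φ j (p k j)) * (1 + R j * T) ^ m := by
      by_contra hcon
      have hcon' := Ultrafilter.eventually_not.mpr hcon
      have h3 : ∀ j, ∃ T : Λ, (¬ ∀ T : Λ,
        Fval 4 (fun I => φ j (a I j)) (fun k => φ j (p k j) + T * Y k j) =
          Fval 4 (fun I => φ j (a I j)) (fun k => φ j (p k j)) * (1 + R j * T) ^ m) →
          Fval 4 (fun I => φ j (a I j)) (fun k => φ j (p k j) + T * Y k j) ≠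
          Fval 4 (fun I => φ j (a I j)) (fun k => φ j (p k j)) * (1 + R j * T) ^ m := by
        intro j
        by_cases hj : ∀ T : Λ,
          Fval 4 (fun I => φ j (a I j)) (fun k => φ j (p k j) + T * Y k j) =
            Fval 4 (fun I => φ j (a I j)) (fun k => φ j (p k j)) * (1 + R j * T) ^ m
        · exact ⟨0, fun h => absurd hj h⟩
        · push Not at hj
          obtain ⟨T, hT⟩ := hj
          exact ⟨T, fun _ => hT⟩
      choose T hTj using h3
      have h4 := hT (germHom T)
      have e1 : Fval 4 (fun I => algebraMap (MU φ) (UP Λ) (aM I))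
          (fun k => algebraMap (MU φ) (UP Λ) (pM k) + germHom T * y k) =
          germHom (fun j => Fval 4 (fun I => φ j (a I j))
            (fun k => φ j (p k j) + T j * Y k j)) := by
        rw [map_Fval_pi (L := fun _ => Λ) germHom 4 (fun I j => φ j (a I j))
          (fun k j => φ j (p k j) + T j * Y k j)]
        congr 1
        funext k
        rw [← hY k]
        show germHom (fun j => φ j (p k j)) + germHom T * germHom (Y k) = _
        rw [← map_mul, ← map_add]
        rfl
      have e2 : Fval 4 (fun I => algebraMap (MU φ) (UP Λ) (aM I))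
          (fun k => algebraMap (MU φ) (UP Λ) (pM k)) =
          germHom (fun j => Fval 4 (fun I => φ j (a I j)) (fun k => φ j (p k j))) := by
        rw [map_Fval_pi (L := fun _ => Λ) germHom 4 (fun I j => φ j (a I j))
          (fun k j => φ j (p k j))]
        rfl
      rw [e1, e2, ← hR] at h4
      have e3 : germHom (fun j => Fval 4 (fun I => φ j (a I j)) (fun k => φ j (p k j))) *
          (1 + germHom R * germHom T) ^ m =
          germHom (fun j => Fval 4 (fun I => φ j (a I j)) (fun k => φ j (p k j)) *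
            (1 + R j * T j) ^ m) := by
        rw [← map_mul, ← map_one germHom, ← map_add, ← map_pow, ← map_mul]
        rfl
      rw [e3, germHom_eq_iff] at h4
      obtain ⟨j, h5, h6⟩ := (h4.and hcon').exists
      exact hTj j h6 h5
    filter_upwards [h1, h2] with j h3 h4
    exact ⟨fun k => Y k j, R j, m, hm, h3, h4⟩
  · left
    push Not at hNB
    obtain ⟨J, c', e, he, hJ, hJ0⟩ := hNB
    obtain ⟨J', rfl⟩ := mkU_surjective φ J
    refine ⟨c', e, J', he, Filter.Eventually.and ?_ ?_⟩
    · rw [Ne, mkU_eq_zero] at hJ0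
      exact Ultrafilter.eventually_not.mpr hJ0
    · refine LBF_of_ultra φ DL DΛ hcomp (a := fun t : {I // I ∈ expo σ 4} => a t) (z := zs) ?_
      intro O' δ' l' hA
      rw [hzM] at hA
      exact hJ ⟨(O', δ', l'), hA⟩

end Seq

end Pool.Agent.Lib.MP_44a246_ntB
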