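import Mathlib
import Pool.Agent.Lib.MP_44a246_nt.Trdeg

/-!
The derivation with respect to a separating element and its constants; compatibility of the
extensions of a derivation.
-/

namespace Pool.Agent.Lib.MP_44a246_ntB

open Pool.Agent.Lib.MP_e52354_nt
open Pool.Agent.Lib.MP_44a246_nt

section Ddt

variable {κ K : Type*} [Field κ] [CharZero κ] [Field K] [Algebra κ K]

theorem unit_basis {t : K} (ht : Transcendental κ t)
    (halg : Algebra.IsAlgebraic (IntermediateField.adjoin κ {t}) K) :
    IsTranscendenceBasis κ (fun _ : Unit => t) := by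
  have h1 : AlgebraicIndependent κ (fun _ : Unit => t) :=
    algebraicIndependent_unique_type_iff.mpr ht
  rw [h1.isTranscendenceBasis_iff_isAlgebraic, ← IntermediateField.isAlgebraic_adjoin_iff_top,
    Set.range_const]
  exact halg

/-- the derivation with respect to a separating element -/
theorem exists_ddt {t : K} (ht : Transcendental κ t)
    (halg : Algebra.IsAlgebraic (IntermediateField.adjoin κ {t}) K) :
    ∃ E : Derivation ℤ K K, (∀ c : κ, E (algebraMap κ K c) = 0) ∧ E t = 1 := by
  have hb := unit_basis ht halg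
  have h1 : Algebra.IsAlgebraic (Algebra.adjoin κ (Set.range fun _ : Unit => t)) K :=
    hb.isAlgebraic
  obtain ⟨D, hD⟩ := exists_derivation hb.1 (fun _ => (1 : K))
  refine ⟨D.restrictScalars ℤ, fun c => ?_, hD ()⟩
  exact D.map_algebraMap c

end Ddt

section Const

variable {κ K Λ : Type*} [Field κ] [CharZero κ] [IsAlgClosed κ] [Field K] [Algebra κ K]
  [Field Λ] [Algebra κ Λ] [Algebra K Λ] [IsScalarTower κ K Λ] [Algebra.IsAlgebraic K Λ]

/-- the constants of an extension of the derivation with respect to a separating element -/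
theorem const_of_ddt {t : K} (ht : Transcendental κ t)
    (halg : Algebra.IsAlgebraic (IntermediateField.adjoin κ {t}) K) {E : Derivation ℤ K K}
    (hE : ∀ c : κ, E (algebraMap κ K c) = 0) (hEt : E t = 1) {E' : Derivation ℤ Λ Λ}
    (hE' : ∀ y, E' (algebraMap K Λ y) = algebraMap K Λ (E y)) {y : Λ} (hy : E' y = 0) :
    ∃ c : κ, algebraMap κ Λ c = y := by
  by_cases hyt : IsAlgebraic κ y
  · have hi := hyt.isIntegral
    have hq : (minpoly κ y).leadingCoeff = 1 := minpoly.monic hi
    have h : (minpoly κ y).degree = 1 :=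
      IsAlgClosed.degree_eq_one_of_irreducible κ (minpoly.irreducible hi)
    have h1 : Polynomial.aeval y (minpoly κ y) = 0 := minpoly.aeval κ y
    rw [Polynomial.eq_X_add_C_of_degree_eq_one h, hq, Polynomial.C_1, one_mul, map_add,
      Polynomial.aeval_X, Polynomial.aeval_C, add_eq_zero_iff_eq_neg] at h1
    exact ⟨-(minpoly κ y).coeff 0, by rw [map_neg]; exact h1.symm⟩
  · exfalso
    have hbK := (unit_basis ht halg).algebraMap_comp (A := Λ)
    have hy1 : AlgebraicIndependent κ (fun _ : Unit => y) :=
      algebraicIndependent_unique_type_iff.mpr hyt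
    have hyb : IsTranscendenceBasis κ (fun _ : Unit => y) := by
      refine hy1.isTranscendenceBasis_of_lift_trdeg_le_of_finite ?_
      rw [← hbK.lift_cardinalMk_eq_trdeg]
    have h2 := hyb.isAlgebraic_field.isAlgebraic (algebraMap K Λ t)
    have hcΛ : ∀ c : κ, E' (algebraMap κ Λ c) = 0 := by
      intro c
      rw [IsScalarTower.algebraMap_apply κ K Λ, hE', hE, map_zero]
    have h3 := der_eq_zero (toLinearDer E' hcΛ) (Set.range fun _ : Unit => y)
      (by rintro _ ⟨_, rfl⟩; exact hy) h2
    have h4 : E' (algebraMap K Λ t) = 0 := h3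
    rw [hE', hEt, map_one] at h4
    exact one_ne_zero h4

end Const

section Compat

variable {K L Λ : Type*} [Field K] [CharZero K] [Field L] [Algebra K L] [Algebra.IsAlgebraic K L]
  [Field Λ] [Algebra K Λ]

/-- the extensions of a derivation are compatible with embeddings -/
theorem ext_compat {D : Derivation ℤ K K} {D' : Derivation ℤ L L} {D'' : Derivation ℤ Λ Λ}
    (h' : ∀ y, D' (algebraMap K L y) = algebraMap K L (D y))
    (h'' : ∀ y, D'' (algebraMap K Λ y) = algebraMap K Λ (D y)) (φ : L →ₐ[K] Λ) (y : L) :
    φ (D' y) = D'' (φ y) := by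
  let iL : Module L Λ := Module.compHom Λ (φ : L →+* Λ)
  have hsm : ∀ (a : L) (b : Λ), a • b = φ a * b := fun a b => rfl
  have hT : IsScalarTower K L Λ := ⟨fun c a v => by
    rw [hsm, hsm, Algebra.smul_def, map_mul, AlgHom.commutes, mul_assoc, Algebra.smul_def]⟩
  let E : Derivation K L Λ := Derivation.mk'
    { toFun := fun y => φ (D' y) - D'' (φ y)
      map_add' := fun a b => by
        simp only [map_add]
        ring
      map_smul' := fun c a => by
        rw [RingHom.id_apply, Algebra.smul_def c a, Algebra.smul_def c (φ (D' a) - D'' (φ a)),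
          map_mul φ, AlgHom.commutes, Derivation.leibniz, Derivation.leibniz, h', h'', map_add]
        simp only [smul_eq_mul, map_mul, AlgHom.commutes]
        ring }
    (fun a b => by
      show φ (D' (a * b)) - D'' (φ (a * b)) = a • (φ (D' b) - D'' (φ b)) + b • (φ (D' a) - D'' (φ a))
      simp only [hsm, map_mul, Derivation.leibniz, map_add, smul_eq_mul]
      ring)
  have h3 := der_eq_zero E ∅ (by simp) (x := y) (by
    have : IsAlgebraic K y := Algebra.IsAlgebraic.isAlgebraic y
    exact this.tower_top _)
  have h4 : φ (D' y) - D'' (φ y) = 0 := h3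
  exact sub_eq_zero.mp h4

end Compat

end Pool.Agent.Lib.MP_44a246_ntB
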