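import Mathlib
import Pool.Agent.Lib.MP_44a246_ntB.Base5
import Pool.Agent.Lib.MP_44a246_ntL.LHeight

/-!
From local bounds at the places of a function field to heights.
-/

set_option linter.unusedSectionVars false

namespace Pool.Agent.Lib.MP_44a246_ntB

open Pool.Agent.Lib.MP_e52354_nt
open Pool.Agent.Lib.MP_44a246_nt
open Pool.Agent.Lib.MP_44a246_ntL
open WithZero

section Pow

variable {κ L : Type*} [Field κ] [Field L] [Algebra κ L]

theorem vmax_pow (v : Valuation L ℤᵐ⁰) {σ : Type*} [Fintype σ] {x : σ → L} (hx : x ≠ 0) (e : ℕ) :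
    (vmax v fun i => x i ^ e) = vmax v x ^ e := by
  obtain ⟨l, hl, hmax, hle⟩ := exists_vmax v hx
  apply le_antisymm
  · refine vmax_le _ fun i => ?_
    rw [map_pow]
    exact pow_le_pow_left' (le_vmax _ _ _) _
  · rw [hmax, ← map_pow]
    exact le_vmax v (fun i => x i ^ e) l

theorem height_pow {σ : Type*} [Fintype σ] {x : σ → L} (hx : x ≠ 0) (e : ℕ) :
    height κ (fun i => x i ^ e) = e * height κ x := by
  unfold height
  rw [← smul_eq_mul, smul_finsum]
  refine finsum_congr fun v => ?_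
  rw [vmax_pow v.1 hx, log_pow]
  simp

end Pow

/-- derivations of `L` coming from `K`, with bounds for the poles, and constants -/
structure HS {κ K L ι θ : Type*} [Field κ] [Field K] [Algebra κ K] [Field L] [Algebra κ L]
    [Algebra K L] (aK : θ → K) (DK : ι → Derivation ℤ K K) (DL : ι → Derivation ℤ L L) (e₀ : ι)
    (B A : Place κ K → ℕ) : Prop where
  hD : ∀ i y, DL i (algebraMap K L y) = algebraMap K L (DK i y)
  hB : ∀ i, PoleBound κ (DK i) B
  hA : ∀ t v, v.1 (aK t) ≤ exp (A v : ℤ)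
  hk : ∀ y : L, DL e₀ y = 0 → ∃ c : κ, algebraMap κ L c = y

section Place

variable {κ K L : Type*} [Field κ] [IsAlgClosed κ] [CharZero κ] [Field K] [Algebra κ K]
  [Field L] [Algebra κ L] [Algebra K L] [IsScalarTower κ K L] [FiniteDimensional K L]
  {ι θ σ : Type*} [Fintype σ] {aK : θ → K} {DK : ι → Derivation ℤ K K}
  {DL : ι → Derivation ℤ L L} {e₀ : ι} {B A : Place κ K → ℕ}

/-- the places at which the point meets the form -/
def meetF (d : ℕ) (p : σ → L) (z : L) (S : Set (Place κ K)) : Set (Place κ L) :=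
  {w | below K w ∉ S ∧ w.1 z < vmax w.1 p ^ d}

theorem exists_admF (h : IsFF κ L) (hX : HS aK DK DL e₀ B A) {p : σ → L} (hp : p ≠ 0)
    {z : L} (hz : z ≠ 0) {d : ℕ}
    (hzv : ∀ w : Place κ L, w.1 z ≤ exp (((ramIdx K w.1 * A (below K w) : ℕ)) : ℤ) *
      vmax w.1 p ^ d) (S : Set (Place κ K)) (w : Place κ L) :
    ∃ (N : ℕ) (δ : L) (l : σ), AdmF DL e₀ (fun t => algebraMap K L (aK t)) d p z w.1.integer δ l ∧
      w.1 δ = exp (-(N : ℤ)) ∧
      vmax w.1 p = w.1 (p l) ∧ (N : ℤ) ≤ ((ramIdx K w.1 * totB B A S (below K w) +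
        (ramIdx K w.1 - 1) : ℕ) : ℤ) +
        (open Classical in if w ∈ meetF d p z S then (1 : ℤ) else 0) := by
  classical
  obtain ⟨l, hl, hmax, hle⟩ := exists_vmax w.1 hp
  obtain ⟨π, hπ0, hπ⟩ := exists_pi w
  set e := ramIdx K w.1 with he
  have he1 : 1 ≤ e := one_le_ramIdx w.1 w.2.1
  set v := below K w with hv
  have hvl : w.1 (p l) ≠ 0 := (w.1.ne_zero_iff).mpr hl
  have hU0 : z / p l ^ d ≠ 0 := div_ne_zero hz (pow_ne_zero _ hl)
  have hUv : w.1 (z / p l ^ d) = 1 ↔ w.1 z = vmax w.1 p ^ d := by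
    rw [map_div₀, map_pow, hmax, div_eq_one_iff_eq (pow_ne_zero _ hvl)]
  set ε : ℕ := if w.1 (z / p l ^ d) = 1 then 0 else 1 with hε
  have hD : ∀ I, ∀ y, w.1 y ≤ 1 → w.1 (DL I y) ≤ exp (((e * B v + (e - 1) : ℕ)) : ℤ) :=
    fun I y hy => polar_over h (hX.hD I) (hX.hB I) w hy
  let N : ℕ := (e * B v + (e - 1)) + e * A v + ε
  have hvπ : ∀ k : ℕ, w.1 (π ^ k) = exp (-(k : ℤ)) := by
    intro k
    rw [map_pow, hπ, exp_pow_int]
    congr 1
    ring
  refine ⟨N, π ^ N, l, ?_, hvπ N, hmax, ?_⟩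
  · have hmul : ∀ (y : L) (k : ℕ), w.1 y ≤ exp (k : ℤ) → k ≤ N → π ^ N * y ∈ w.1.integer := by
      intro y k hy hk
      show w.1 (π ^ N * y) ≤ 1
      rw [map_mul, hvπ]
      calc exp (-(N : ℤ)) * w.1 y ≤ exp (-(N : ℤ)) * exp (k : ℤ) := mul_le_mul' le_rfl hy
        _ = exp (-(N : ℤ) + k) := (exp_add _ _).symm
        _ ≤ 1 := by
          rw [← exp_zero, exp_le_exp]
          have : (k : ℤ) ≤ N := by exact_mod_cast hk
          linarith
    refine ⟨fun y => ?_, ?_, fun I y hy => ?_, fun I => ?_, hl, fun i => ?_, fun I => ?_,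
      fun y hy => ?_⟩
    · by_cases hy : w.1 y ≤ 1
      · exact Or.inl hy
      · right
        show w.1 y⁻¹ ≤ 1
        rw [map_inv₀]
        exact inv_le_one_of_one_le₀ (le_of_lt (not_le.mp hy))
    · have := hmul 1 0 (by rw [map_one, Nat.cast_zero, exp_zero]) (Nat.zero_le _)
      rwa [mul_one] at this
    · exact hmul _ _ (hD I y hy) (by omega)
    · refine hmul _ (e * A v) ?_ (by omega)
      rw [below_pow (K := K)]
      refine (pow_le_pow_left' (hX.hA _ (below K w)) _).trans ?_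
      rw [exp_pow_int]
      push_cast
      exact le_rfl
    · show w.1 (p i / p l) ≤ 1
      rw [map_div₀]
      exact div_le_one_of_le₀ (hle i) zero_le
    · obtain ⟨h1, h2⟩ := log_der_bound w (DL I) (hD I) hU0
      by_cases hall : w.1 (z / p l ^ d) = 1
      · exact hmul _ _ (h2 hall) (by omega)
      · have hε1 : ε = 1 := by rw [hε, if_neg hall]
        refine hmul _ ((e * B v + (e - 1)) + 1) ?_ (by omega)
        refine h1.trans (le_of_eq ?_)
        push_cast
        rfl
    · obtain ⟨c, rfl⟩ := hX.hk y hy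
      show w.1 (algebraMap κ L c) ≤ 1
      by_cases hc : c = 0
      · rw [hc, map_zero, map_zero]
        exact zero_le
      · rw [w.2.2 c hc]
  · have h1 : (ε : ℤ) ≤ (e : ℤ) * (if v ∈ S ∪ Function.support A then 1 else 0) +
        (if w ∈ meetF d p z S then (1 : ℤ) else 0) := by
      by_cases hall : w.1 (z / p l ^ d) = 1
      · rw [hε, if_pos hall]
        have : (0 : ℤ) ≤ e := Int.natCast_nonneg _
        split_ifs <;> simp
        omega
      · rw [hε, if_neg hall]
        by_cases hS : v ∈ S ∪ Function.support A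
        · rw [if_pos hS]
          have : (1 : ℤ) ≤ e := by exact_mod_cast he1
          split_ifs <;> (push_cast; linarith)
        · rw [if_neg hS]
          have hA0 : A v = 0 := by
            by_contra hcon
            exact hS (Or.inr hcon)
          have h2 := hzv w
          rw [← hv, hA0, mul_zero, Nat.cast_zero, exp_zero, one_mul] at h2
          rw [if_pos]
          · simp
          · refine ⟨fun hc => hS (Or.inl hc), lt_of_le_of_ne h2 fun hc => hall ?_⟩
            exact hUv.mpr hc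
    have h2 : (N : ℤ) = ((e * B v + (e - 1) : ℕ) : ℤ) + ((e * A v : ℕ) : ℤ) + (ε : ℤ) := by
      simp only [N]
      push_cast
      ring
    rw [h2]
    have h3 : (((e * totB B A S v + (e - 1) : ℕ)) : ℤ) = ((e * B v + (e - 1) : ℕ) : ℤ) +
        ((e * A v : ℕ) : ℤ) + (e : ℤ) * (if v ∈ S ∪ Function.support A then 1 else 0) := by
      unfold totB
      push_cast
      split_ifs <;> ring
    rw [h3]
    linarith

theorem meetF_finite (h : IsFF κ L) {p : σ → L} (hp : p ≠ 0) {z : L} (hz : z ≠ 0) (d : ℕ)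
    (S : Set (Place κ K)) : (meetF (κ := κ) d p z S).Finite := by
  have h1 : (meetF (κ := κ) d p z S) ⊆ {w : Place κ L | vmax w.1 p ≠ 1} ∪
      {w : Place κ L | w.1 z ≠ 1} := by
    rintro w ⟨-, hb⟩
    by_contra hcon
    simp only [Set.mem_union, Set.mem_ofPred_eq, not_or, not_not] at hcon
    rw [hcon.1, hcon.2, one_pow] at hb
    exact lt_irrefl _ hb
  exact ((h.vmax_finite hp).union (h.place_finite hz)).subset h1

/-- heights from local bounds -/
theorem height_of_LBF (h : IsFF κ L) (hX : HS aK DK DL e₀ B A)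
    (hB : (Function.support B).Finite) (hA : (Function.support A).Finite)
    {p : σ → L} (hp : p ≠ 0) {z : L} (hz : z ≠ 0) {d : ℕ}
    (hzv : ∀ w : Place κ L, w.1 z ≤ exp (((ramIdx K w.1 * A (below K w) : ℕ)) : ℤ) *
      vmax w.1 p ^ d) {S : Set (Place κ K)} (hS : S.Finite)
    {J : L} (hJ : J ≠ 0) {c e : ℕ} (he : 0 < e)
    (hL : LBF DL e₀ (fun t => algebraMap K L (aK t)) d p z c e J) :
    height κ p ≤ (c : ℤ) * ((∑ᶠ v, (totB B A S v : ℤ)) * Module.finrank K L +
      (ramDeg κ L K : ℤ) + ((meetF (κ := κ) d p z S).ncard : ℤ)) := by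
  classical
  have hpe : (fun i => p i ^ e) ≠ 0 := by
    intro h0
    apply hp
    funext i
    have := congrFun h0 i
    simp only [Pi.zero_apply] at this
    exact eq_zero_of_pow_eq_zero this
  have hy : (fun i => J * p i ^ e) ≠ 0 := by
    intro h0
    apply hpe
    funext i
    have := congrFun h0 i
    simp only [Pi.zero_apply, mul_eq_zero] at this
    exact this.resolve_left hJ
  have h1 : height κ (fun i => J * p i ^ e) = e * height κ p := by
    rw [h.height_smul (x := fun i => p i ^ e) hJ, height_pow hp]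
  have h2 : height κ (fun i => J * p i ^ e) ≤ (c : ℤ) * ((∑ᶠ v, (totB B A S v : ℤ)) *
      Module.finrank K L + (ramDeg κ L K : ℤ) + ((meetF (κ := κ) d p z S).ncard : ℤ)) := by
    refine height_le_of_local h hy c (totB_support hB hA hS) (meetF_finite h hp hz d S)
      fun w => ?_
    obtain ⟨N, δ, l, h1, h2, h3, h4⟩ := exists_admF h hX hp hz hzv S w
    have h6 : w.1 (δ ^ c * (J * p l ^ e)) ≤ 1 := hL _ δ l h1
    have h5 : (vmax w.1 fun i => J * p i ^ e) ≤ exp ((c : ℤ) * N) := by
      have h7 : exp ((c : ℤ) * N) * (exp ((c : ℤ) * -(N : ℤ)) * w.1 (J * p l ^ e)) ≤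
          exp ((c : ℤ) * N) * 1 := by
        rw [map_mul, map_pow, h2, exp_pow_int] at h6
        exact mul_le_mul' le_rfl h6
      rw [← mul_assoc, ← exp_add, mul_one] at h7
      have h8 : (c : ℤ) * N + (c : ℤ) * -(N : ℤ) = 0 := by ring
      rw [h8, exp_zero, one_mul] at h7
      refine (vmax_le _ fun i => ?_).trans h7
      rw [map_mul, map_mul, map_pow, map_pow]
      refine mul_le_mul' le_rfl (pow_le_pow_left' ?_ _)
      rw [← h3]
      exact le_vmax _ _ _
    have h6 : (vmax w.1 fun i => J * p i ^ e) ≠ 0 := by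
      rw [Ne, vmax_eq_zero_iff]; exact hy
    have h7 : log (vmax w.1 fun i => J * p i ^ e) ≤ (c : ℤ) * N := by
      rw [log_le_iff_le_exp h6]
      exact h5
    refine h7.trans (mul_le_mul_of_nonneg_left ?_ (Int.natCast_nonneg _))
    exact h4
  rw [h1] at h2
  have h3 : height κ p ≤ e * height κ p := by
    have h4 := h.height_nonneg hp
    have h5 : (1 : ℤ) ≤ e := by exact_mod_cast he
    nlinarith
  exact h3.trans h2

end Place

end Pool.Agent.Lib.MP_44a246_ntB
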