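import Mathlib
import Pool.Agent.Lib.MP_44a246_ntB.Base6
import Pool.Agent.Lib.MP_44a246_ntB.Base7
import Pool.Agent.Lib.MP_44a246_ntB.Base8
import Pool.Agent.Lib.MP_44a246_ntL.LMain

/-!
The complement of a generic quartic curve over a function field: coefficients.
-/

namespace Pool.Agent.Lib.MP_44a246_ntB

open Pool.Agent.Lib.MP_e52354_nt
open Pool.Agent.Lib.MP_44a246_nt
open Pool.Agent.Lib.MP_44a246_ntL
open WithZero

universe w u₁ u₂

/-- a point over a finite extension -/
structure PtL (κ : Type u₁) (K : Type u₂) [Field κ] [Field K] [Algebra κ K] (σ : Type) where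
  L : Type w
  [iF : Field L]
  [iA : Algebra κ L]
  [iK : Algebra K L]
  [iT : IsScalarTower κ K L]
  [iD : FiniteDimensional K L]
  x : σ → L

attribute [instance] PtL.iF PtL.iA PtL.iK PtL.iT PtL.iD

section Scale

variable {Λ : Type*} [Field Λ] {σ : Type*} [Fintype σ] [DecidableEq σ]

theorem Fval_smul' (d : ℕ) (a : (σ →₀ ℕ) → Λ) (p : σ → Λ) (c : Λ) :
    Fval d a (fun k => c * p k) = c ^ d * Fval d a p := by
  unfold Fval mon
  rw [Finset.mul_sum]
  refine Finset.sum_congr rfl fun I hI => ?_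
  rw [mem_expo, Finsupp.degree_eq_sum] at hI
  simp only [mul_pow]
  rw [Finset.prod_mul_distrib, Finset.prod_pow_eq_pow_sum, hI]
  ring

theorem ExcF.of_smul {d : ℕ} {a : (σ →₀ ℕ) → Λ} {p : σ → Λ} {c : Λ} (hc : c ≠ 0)
    (h : ExcF d a (fun k => c * p k)) : ExcF d a p := by
  obtain ⟨y, r, m, hm, hy, hT⟩ := h
  refine ⟨fun k => c⁻¹ * y k, r, m, hm, ?_, fun T => ?_⟩
  · rintro ⟨s, hs⟩
    apply hy
    refine ⟨s, ?_⟩
    funext k
    have h1 := congrFun hs k
    simp only [Pi.smul_apply, smul_eq_mul] at h1 ⊢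
    have h2 : y k = c * (c⁻¹ * y k) := by field_simp
    rw [h2, h1]
    ring
  · have h1 := hT T
    have h2 : (fun k => c * p k + T * y k) = fun k => c * (p k + T * (c⁻¹ * y k)) := by
      funext k
      field_simp
    rw [h2, Fval_smul', Fval_smul', mul_assoc] at h1
    exact mul_left_cancel₀ (pow_ne_zero _ hc) h1

theorem ExcF.map {Λ' : Type*} [Field Λ'] (ψ : Λ ≃+* Λ') {d : ℕ} {a : (σ →₀ ℕ) → Λ} {p : σ → Λ}
    (h : ExcF d a p) : ExcF d (fun I => ψ (a I)) (fun k => ψ (p k)) := by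
  obtain ⟨y, r, m, hm, hy, hT⟩ := h
  refine ⟨fun k => ψ (y k), ψ r, m, hm, ?_, fun T => ?_⟩
  · rintro ⟨s, hs⟩
    apply hy
    refine ⟨ψ.symm s, ?_⟩
    funext k
    have h1 := congrFun hs k
    simp only [Pi.smul_apply, smul_eq_mul] at h1 ⊢
    apply ψ.injective
    rw [h1, map_mul, RingEquiv.apply_symm_apply]
  · have h1 := congrArg ψ (hT (ψ.symm T))
    have e1 := map_Fval (ψ : Λ →+* Λ') d a (fun k => p k + ψ.symm T * y k)
    have e2 := map_Fval (ψ : Λ →+* Λ') d a p
    simp only [RingEquiv.coe_toRingHom, map_add, map_mul, RingEquiv.apply_symm_apply] at e1 e2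
    rw [e1, map_mul, map_pow, map_add, map_mul, map_one, RingEquiv.apply_symm_apply, e2] at h1
    exact h1

end Scale

section Main

variable {k₀ : Type*} {κ : Type u₁} {K : Type u₂} [Field k₀] [CharZero k₀] [Field κ]
  [IsAlgClosed κ] [CharZero κ] [Field K]
  [Algebra k₀ κ] [Algebra κ K] [Algebra k₀ K] [IsScalarTower k₀ κ K]

theorem border_seq {t : K} (ht : Transcendental κ t)
    (hfin : FiniteDimensional (IntermediateField.adjoin κ {t}) K)
    (a : (Fin 3 →₀ ℕ) → K)
    (hc : AlgebraicIndependent k₀ (fun θ : {I // I ∈ expo (Fin 3) 4} => a θ.1))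
    {S : Set (Place κ K)} (hS : S.Finite) :
    ∃ C : ℕ, ∀ (P : PtL.{w} κ K (Fin 3)) (φ : P.L →ₐ[K] AlgebraicClosure K), P.x ≠ 0 →
      Fval 4 (fun I => algebraMap K P.L (a I)) P.x ≠ 0 →
      height κ P.x ≤ (C : ℤ) * (((meetF (κ := κ) 4 P.x
        (Fval 4 (fun I => algebraMap K P.L (a I)) P.x) S).ncard : ℤ) + (ramDeg κ P.L K : ℤ) +
          (Module.finrank K P.L : ℤ)) ∨
        ExcF 4 (fun I => algebraMap K (AlgebraicClosure K) (a I)) (fun k => φ (P.x k)) := by
  classical
  have hcK : CharZero K := charZero_of_injective_algebraMap (algebraMap κ K).injective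
  have halg : Algebra.IsAlgebraic (IntermediateField.adjoin κ {t}) K :=
    Algebra.IsAlgebraic.of_finite _ _
  have hK : IsFF κ K := ⟨t, ht, hfin⟩
  -- the derivations
  obtain ⟨DI, B₁, A, hB₁, hA, hPB, hPA, hD, -⟩ := exists_setup ht hfin hc
  obtain ⟨E, hE, hEt⟩ := exists_ddt ht halg
  let ι := Option {I // I ∈ expo (Fin 3) 4}
  let DK : ι → Derivation ℤ K K := fun i => i.elim E DI
  obtain ⟨B, hB, hPB'⟩ : ∃ B : Place κ K → ℕ, (Function.support B).Finite ∧
      ∀ i, PoleBound κ (DK i) B := by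
    refine poleBound_family DK fun i => ?_
    rcases i with _ | I
    · exact exists_poleBound ht hfin E (fun c => ⟨0, by rw [hE, map_zero]⟩)
        ⟨1, by rw [hEt, map_one]⟩
    · exact ⟨B₁, hB₁, hPB I⟩
  set Λ := AlgebraicClosure K with hΛ
  choose DΛ hDΛ using fun i => exists_extension (K := K) (L := Λ) (DK i)
  by_contra hcon
  push Not at hcon
  choose P φ hx0 hz0 hh hE' using hcon
  choose DL hDL using fun j => fun i => exists_extension (K := K) (L := (P j).L) (DK i)
  have hL : ∀ j, IsFF κ (P j).L := fun j => hK.of_finite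
  have hl : ∀ j, ∃ l, (P j).x l ≠ 0 := by
    intro j
    by_contra hcon
    push Not at hcon
    exact hx0 j (funext hcon)
  have hl' : ∀ᶠ j in (Filter.hyperfilter ℕ : Filter ℕ), ∃ l, (P j).x l ≠ 0 :=
    Filter.Eventually.of_forall hl
  obtain ⟨l, hl⟩ := ultra_exists hl'
  -- normalised points
  let p : Fin 3 → ∀ j, (P j).L := fun k j => ((P j).x l)⁻¹ * (P j).x k
  let aL : (Fin 3 →₀ ℕ) → ∀ j, (P j).L := fun I j => algebraMap K (P j).L (a I)
  have hFp : ∀ j, Fval 4 (fun I => aL I j) (fun k => p k j) =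
      ((P j).x l)⁻¹ ^ 4 * Fval 4 (fun I => algebraMap K (P j).L (a I)) (P j).x :=
    fun j => Fval_smul' _ _ _ _
  have hX : ∀ j, HS (κ := κ) (fun θ : {I // I ∈ expo (Fin 3) 4} => a θ.1) DK (DL j) none B A :=
    fun j => ⟨hDL j, hPB', fun θ v => hPA θ v, fun y hy =>
      const_of_ddt (Λ := (P j).L) ht halg hE hEt (hDL j none) hy⟩
  have key := border_ultra (fun j => ((φ j : (P j).L →ₐ[K] Λ) : (P j).L →+* Λ)) DL DΛ
    (fun j i y => ext_compat (hDL j i) (hDΛ i) (φ j) y) (e₀ := none)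
    (fun u hu j => by
      obtain ⟨c, hc⟩ := const_of_ddt (Λ := Λ) ht halg hE hEt (hDΛ none) hu
      refine ⟨algebraMap κ (P j).L c, ?_⟩
      rw [← hc, IsScalarTower.algebraMap_apply κ K (P j).L, IsScalarTower.algebraMap_apply κ K Λ]
      exact (φ j).commutes _)
    (by simp) aL (fun I hI => some ⟨I, hI⟩)
    (fun I hI J hJ j => by
      rw [hDL]
      have h1 : DK (some ⟨I, hI⟩) (a J) = if I = J then 1 else 0 := by
        have h2 := hD ⟨I, hI⟩ ⟨J, hJ⟩
        simp only [Subtype.mk.injEq] at h2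
        exact h2
      rw [h1]
      split_ifs <;> simp)
    p (l := l) (by
      filter_upwards [hl] with j hj
      exact inv_mul_cancel₀ hj)
    (by
      filter_upwards [hl] with j hj
      rw [hFp]
      exact mul_ne_zero (pow_ne_zero _ (inv_ne_zero hj)) (hz0 j))
  rcases key with ⟨c, e, J, he, hJ⟩ | hexc
  · -- the local bound
    set D₀ := (∑ᶠ v, (totB B A S v : ℤ)).toNat with hD₀
    have hD₀' : (∑ᶠ v, (totB B A S v : ℤ)) ≤ (D₀ : ℤ) := Int.self_le_toNat _
    have hge : ∀ᶠ j in (Filter.hyperfilter ℕ : Filter ℕ), c * (D₀ + 1) ≤ j := by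
      have h1 : ∀ᶠ j in (Filter.atTop : Filter ℕ), c * (D₀ + 1) ≤ j :=
        Filter.eventually_ge_atTop _
      rw [← Nat.cofinite_eq_atTop] at h1
      exact Filter.hyperfilter_le_cofinite h1
    obtain ⟨j, ⟨hJ0, hLB⟩, hj, hlj⟩ := (hJ.and (hge.and hl)).exists
    have hp0 : (fun k => p k j) ≠ 0 := by
      intro h0
      have h1 := congrFun h0 l
      have h2 : p l j = 1 := inv_mul_cancel₀ hlj
      simp only [h2, Pi.zero_apply] at h1
      exact one_ne_zero h1
    have hz : Fval 4 (fun I => aL I j) (fun k => p k j) ≠ 0 := by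
      rw [hFp]
      exact mul_ne_zero (pow_ne_zero _ (inv_ne_zero hlj)) (hz0 j)
    have h1 := height_of_LBF (S := S) (hL j) (hX j) hB hA hp0 hz (fun w => by
      unfold Fval
      refine Valuation.map_sum_le _ fun I hI => ?_
      rw [map_mul]
      refine mul_le_mul' ?_ ?_
      · show w.1 (algebraMap K (P j).L (a I)) ≤ _
        rw [below_pow (K := K)]
        refine (pow_le_pow_left' (hPA ⟨I, hI⟩ (below K w)) _).trans ?_
        rw [exp_pow_int]
        push_cast
        exact le_rfl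
      · rw [mem_expo, Finsupp.degree_eq_sum] at hI
        unfold mon
        rw [map_prod]
        calc ∏ k, w.1 (p k j ^ I k) ≤ ∏ k, vmax w.1 (fun k => p k j) ^ I k := by
              refine Finset.prod_le_prod' fun k _ => ?_
              rw [map_pow]
              exact pow_le_pow_left' (le_vmax w.1 (fun k => p k j) k) _
          _ = vmax w.1 (fun k => p k j) ^ 4 := by rw [Finset.prod_pow_eq_pow_sum, hI]) hS hJ0 he hLB
    have hh' : height κ (fun k => p k j) = height κ (P j).x :=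
      (hL j).height_smul (inv_ne_zero hlj)
    rw [hh'] at h1
    have hmeet : meetF (κ := κ) 4 (fun k => p k j) (Fval 4 (fun I => aL I j) (fun k => p k j)) S =
        meetF (κ := κ) 4 (P j).x (Fval 4 (fun I => algebraMap K (P j).L (a I)) (P j).x) S := by
      ext w
      unfold meetF
      rw [Set.mem_ofPred_eq, Set.mem_ofPred_eq, hFp]
      have h4 : vmax w.1 (fun k => p k j) = w.1 ((P j).x l)⁻¹ * vmax w.1 (P j).x :=
        vmax_smul w.1 ((P j).x l)⁻¹ (P j).x
      rw [h4, map_mul, mul_pow, map_pow]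
      have h5 : w.1 ((P j).x l)⁻¹ ^ 4 ≠ 0 :=
        pow_ne_zero _ ((w.1.ne_zero_iff).mpr (inv_ne_zero hlj))
      rw [mul_lt_mul_iff_right₀ (zero_lt_iff.mpr h5)]
    rw [hmeet] at h1
    have h2 := hh j
    set N : ℤ := ((meetF (κ := κ) 4 (P j).x
      (Fval 4 (fun I => algebraMap K (P j).L (a I)) (P j).x) S).ncard : ℤ) with hN
    have hN0 : 0 ≤ N := Int.natCast_nonneg _
    set R : ℤ := (ramDeg κ (P j).L K : ℤ) with hR
    have hR0 : 0 ≤ R := Int.natCast_nonneg _
    set n : ℤ := (Module.finrank K (P j).L : ℤ) with hn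
    have hn0 : 0 ≤ n := Int.natCast_nonneg _
    have hbase : (∑ᶠ v, (totB B A S v : ℤ)) * n + R + N ≤ (D₀ + 1 : ℤ) * (N + R + n) := by
      have h1 : (∑ᶠ v, (totB B A S v : ℤ)) * n ≤ (D₀ : ℤ) * n :=
        mul_le_mul_of_nonneg_right hD₀' hn0
      have h2 : (0 : ℤ) ≤ D₀ := Int.natCast_nonneg _
      nlinarith [mul_nonneg h2 hN0, mul_nonneg h2 hR0]
    have hc0 : (0 : ℤ) ≤ c := Int.natCast_nonneg _
    have hNRn : 0 ≤ N + R + n := by linarith
    have hj' : (c : ℤ) * (D₀ + 1) ≤ j := by exact_mod_cast hj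
    have h3 : height κ (P j).x ≤ (j : ℤ) * (N + R + n) :=
      calc height κ (P j).x ≤ (c : ℤ) * ((D₀ + 1 : ℤ) * (N + R + n)) :=
            h1.trans (mul_le_mul_of_nonneg_left hbase hc0)
        _ = ((c : ℤ) * (D₀ + 1)) * (N + R + n) := by ring
        _ ≤ (j : ℤ) * (N + R + n) := mul_le_mul_of_nonneg_right hj' hNRn
    exact absurd h3 (not_le.mpr h2)
  · obtain ⟨j, hj, hlj⟩ := (hexc.and hl).exists
    apply hE' j
    refine ExcF.of_smul (c := φ j (((P j).x l)⁻¹)) ?_ ?_
    · rw [Ne, _root_.map_eq_zero]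
      exact inv_ne_zero hlj
    · have e1 : (fun I => ((φ j : (P j).L →ₐ[K] Λ) : (P j).L →+* Λ) (aL I j)) =
          fun I => algebraMap K Λ (a I) := by
        funext I
        exact (φ j).commutes _
      have e2 : (fun k => ((φ j : (P j).L →ₐ[K] Λ) : (P j).L →+* Λ) (p k j)) =
          fun k => φ j (((P j).x l)⁻¹) * φ j ((P j).x k) := by
        funext k
        exact map_mul (φ j) _ _
      rw [e1, e2] at hj
      exact hj

end Main

end Pool.Agent.Lib.MP_44a246_ntB
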