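import Mathlib
import Pool.Agent.Lib.MP_44a246_ntB.Base9
import Pool.Agent.Lib.MP_44a246_ntL.LPoly

/-!
The complement of a generic quartic curve over a function field: polynomials.
-/

namespace Pool.Agent.Lib.MP_44a246_ntB

open Pool.Agent.Lib.MP_e52354_nt
open Pool.Agent.Lib.MP_44a246_nt
open Pool.Agent.Lib.MP_44a246_ntL
open WithZero

universe w

section Zeros

variable {Λ : Type*} [Field Λ] [IsAlgClosed Λ] {σ : Type*} [Fintype σ] [DecidableEq σ]

/-- on an exceptional line the form has at most two zeros -/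
theorem ExcF.zeros {d : ℕ} {a : (σ →₀ ℕ) → Λ} {p : σ → Λ} (h : ExcF d a p)
    (hp : Fval d a p ≠ 0) : ∃ y : σ → Λ, (¬ ∃ s : Λ, y = s • p) ∧
      {z : Λ | Fval d a (fun k => z * p k + y k) = 0}.encard ≤ 2 := by
  obtain ⟨y, r, m, hm, hy, hT⟩ := h
  refine ⟨y, hy, ?_⟩
  have hsub : {z : Λ | Fval d a (fun k => z * p k + y k) = 0} ⊆ {0, -r} := by
    intro z hz
    rw [Set.mem_insert_iff, Set.mem_singleton_iff]
    by_cases h0 : z = 0
    · exact Or.inl h0
    · right
      have h1 : (fun k => z * p k + y k) = fun k => z * (p k + z⁻¹ * y k) := by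
        funext k
        field_simp
      have h2 : Fval d a (fun k => z * p k + y k) = 0 := hz
      rw [h1, Fval_smul', hT] at h2
      have h3 := (mul_eq_zero.mp h2).resolve_left (pow_ne_zero _ h0)
      have h4 := (mul_eq_zero.mp h3).resolve_left hp
      have h5 := eq_zero_of_pow_eq_zero h4
      field_simp at h5
      linear_combination h5
  refine (Set.encard_le_encard hsub).trans ?_
  refine (Set.encard_insert_le _ _).trans ?_
  rw [Set.encard_singleton]
  exact le_of_eq one_add_one_eq_two

end Zeros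

theorem poly_border {κ K : Type*} [Field κ] [IsAlgClosed κ] [CharZero κ] [Field K] [CharZero K]
    [Algebra κ K] {t : K} (ht : Transcendental κ t)
    [FiniteDimensional (IntermediateField.adjoin κ {t}) K]
    (F : MvPolynomial (Fin 3) K) (hF : F.IsHomogeneous 4)
    (hgen : AlgebraicIndependent ℚ (fun θ : {I : Fin 3 →₀ ℕ // I.degree = 4} => F.coeff θ.1))
    (S : Set (Place κ K)) (hS : S.Finite) :
    ∃ C : ℕ, ∀ (L : Type w) [Field L] [Algebra K L] [FiniteDimensional K L] [Algebra κ L]
      [IsScalarTower κ K L] (x : Fin 3 → L), MvPolynomial.aeval x F ≠ 0 →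
      height κ x ≤ C * ((truncCount κ (fun _ : Unit => F) (fun _ => 4) S x : ℤ) + ramDeg κ L K +
          Module.finrank K L) ∨
        ∃ y : Fin 3 → AlgebraicClosure L,
          LinearIndependent (AlgebraicClosure L) ![fun j => algebraMap L _ (x j), y] ∧
          {z : AlgebraicClosure L |
            MvPolynomial.aeval (fun j => z * algebraMap L (AlgebraicClosure L) (x j) + y j) F =
              0}.encard ≤ 2 := by
  classical
  have hQ : IsScalarTower ℚ κ K := inferInstance
  let a : (Fin 3 →₀ ℕ) → K := fun I => F.coeff I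
  have hc : AlgebraicIndependent ℚ (fun θ : {I // I ∈ expo (Fin 3) 4} => a θ.1) := by
    have h1 : (fun θ : {I // I ∈ expo (Fin 3) 4} => a θ.1) =
        (fun θ : {I : Fin 3 →₀ ℕ // I.degree = 4} => F.coeff θ.1) ∘
        (fun θ : {I // I ∈ expo (Fin 3) 4} => ⟨θ.1, mem_expo.mp θ.2⟩) := rfl
    rw [h1]
    apply hgen.comp
    rintro ⟨I, h⟩ ⟨I', h'⟩ heq
    simp only [Subtype.mk.injEq] at heq
    subst heq
    rfl
  obtain ⟨C, hC⟩ := border_seq.{w} (k₀ := ℚ) ht inferInstance a hc hS
  refine ⟨C, ?_⟩
  intro L _ _ _ _ _ x hz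
  have hev : MvPolynomial.aeval x F = Fval 4 (fun I => algebraMap K L (a I)) x :=
    aeval_eq_Fval F hF x
  have hx : x ≠ 0 := by
    rintro rfl
    apply hz
    rw [hev]
    have h1 := Fval_smul' 4 (fun I => algebraMap K L (a I)) (0 : Fin 3 → L) 0
    have h2 : (fun k => (0 : L) * (0 : Fin 3 → L) k) = 0 := by
      funext k
      simp
    rw [h2] at h1
    rw [h1]
    ring
  -- the embedding
  obtain ⟨ψ⟩ : Nonempty (AlgebraicClosure L ≃ₐ[K] AlgebraicClosure K) := by
    have : Algebra.IsAlgebraic K (AlgebraicClosure L) :=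
      Algebra.IsAlgebraic.trans K L (AlgebraicClosure L)
    have : IsAlgClosure K (AlgebraicClosure L) := ⟨inferInstance, inferInstance⟩
    exact ⟨IsAlgClosure.equiv K (AlgebraicClosure L) (AlgebraicClosure K)⟩
  let φ : L →ₐ[K] AlgebraicClosure K :=
    (ψ : AlgebraicClosure L →ₐ[K] AlgebraicClosure K).comp
      (IsScalarTower.toAlgHom K L (AlgebraicClosure L))
  rcases hC ⟨L, x⟩ φ hx (by rw [← hev]; exact hz) with h | h
  · left
    have hmeet : meetF (κ := κ) 4 x (Fval 4 (fun I => algebraMap K L (a I)) x) S =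
        {w : Place κ L | (∀ v ∈ S, ¬ (w.1.comap (algebraMap K L)).IsEquiv v.1) ∧
          ∃ _i : Unit, MvPolynomial.aeval x F ≠ 0 ∧
          w.1 (MvPolynomial.aeval x F) < vmax w.1 x ^ 4} := by
      ext w
      simp only [meetF, Set.mem_ofPred_eq, ← hev]
      constructor
      · rintro ⟨h1, h2⟩
        refine ⟨fun v hv hvw => ?_, (), hz, h2⟩
        rw [below_equiv] at hvw
        rw [hvw] at h1
        exact h1 hv
      · rintro ⟨h1, -, -, h2⟩
        exact ⟨fun hb => h1 _ hb ((below_equiv w _).mpr rfl), h2⟩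
    rw [hmeet] at h
    exact h
  · right
    have h1 := ExcF.map (ψ.symm : AlgebraicClosure K ≃+* AlgebraicClosure L) h
    have e1 : (fun I => (ψ.symm : AlgebraicClosure K ≃+* AlgebraicClosure L)
        (algebraMap K (AlgebraicClosure K) (a I))) =
        fun I => algebraMap K (AlgebraicClosure L) (a I) := by
      funext I
      exact ψ.symm.commutes _
    have e2 : (fun k => (ψ.symm : AlgebraicClosure K ≃+* AlgebraicClosure L) (φ (x k))) =
        fun k => algebraMap L (AlgebraicClosure L) (x k) := by
      funext k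
      exact ψ.symm_apply_apply _
    rw [e1, e2] at h1
    have hz' : Fval 4 (fun I => algebraMap K (AlgebraicClosure L) (a I))
        (fun k => algebraMap L (AlgebraicClosure L) (x k)) ≠ 0 := by
      have e3 := map_Fval (algebraMap L (AlgebraicClosure L)) 4 (fun I => algebraMap K L (a I)) x
      have e4 : (fun I => algebraMap L (AlgebraicClosure L) (algebraMap K L (a I))) =
          fun I => algebraMap K (AlgebraicClosure L) (a I) := by
        funext I
        exact (IsScalarTower.algebraMap_apply K L (AlgebraicClosure L) _).symm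
      rw [e4] at e3
      rw [← e3, Ne, _root_.map_eq_zero, ← hev]
      exact hz
    obtain ⟨y, hy, hzero⟩ := h1.zeros hz'
    refine ⟨y, ?_, ?_⟩
    · rw [LinearIndependent.pair_iff' (by
        intro h0
        apply hx
        funext k
        have := congrFun h0 k
        simpa using this)]
      intro s hs
      exact hy ⟨s, hs.symm⟩
    · refine le_trans (le_of_eq ?_) hzero
      congr 1
      ext z
      simp only [Set.mem_ofPred_eq]
      rw [aeval_eq_Fval F hF]

end Pool.Agent.Lib.MP_44a246_ntB
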