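import Mathlib
import Pool.Agent.Lib.MP_44a246_ntB.Base6
import Pool.Agent.Lib.MP_e52354_ntI.IBFinal

/-!
Sequences of points of complete intersections: a local bound or lines of zeros.
-/

set_option linter.unusedSectionVars false

namespace Pool.Agent.Lib.MP_44a246_ntB

open Pool.Agent.Lib.MP_e52354_nt Pool.Agent.Lib.MP_e52354_ntP Pool.Agent.Lib.MP_e52354_ntG
open Pool.Agent.Lib.MP_e52354_ntI

section CUltra

variable {Λ : Type*} [Field Λ] [CharZero Λ] {L : ℕ → Type*} [∀ j, Field (L j)]
  (φ : ∀ j, L j →+* Λ) {s q : ℕ} {d : Fin q → ℕ}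
  (DL : ∀ j, Option (MIdx s q d) → Derivation ℤ (L j) (L j))
  (DΛ : Option (MIdx s q d) → Derivation ℤ Λ Λ)
  (hcomp : ∀ j i y, φ j (DL j i y) = DΛ i (φ j y))

/-- the data in the ultraproduct -/
noncomputable def XU (a : MIdx s q d → ∀ j, L j)
    (hD : ∀ j I J, DL j (some I) (a J j) = if I = J then 1 else 0)
    (hcomm : ∀ j I J y, DL j (some I) (DL j (some J) y) = DL j (some J) (DL j (some I) y)) :
    DData (MIdx s q d) Empty (MU φ) where
  a I := mkU φ (a I)
  b g := g.elim
  D I := DMU φ DL DΛ hcomp (some I)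
  hD I J := by
    rw [DMU_mkU]
    have h1 : (fun j => DL j (some I) (a J j)) = fun _ => if I = J then 1 else 0 := by
      funext j
      exact hD j I J
    rw [h1]
    by_cases hIJ : I = J
    · simp only [if_pos hIJ]
      exact map_one _
    · simp only [if_neg hIJ]
      exact map_zero _
  hb _ g := g.elim
  hcomm I J y := by
    obtain ⟨g, rfl⟩ := mkU_surjective φ y
    rw [DMU_mkU, DMU_mkU, DMU_mkU, DMU_mkU]
    congr 1
    funext j
    exact hcomm j I J _

/-- the coefficients of the forms at the place `j` -/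
noncomputable def aj (a : MIdx s q d → ∀ j, L j) (f : Fin q) (j : ℕ) : (Fin s →₀ ℕ) → L j :=
  fun I => if h : I ∈ expo (Fin s) (d f) then a ⟨f, I, h⟩ j else 0

include hcomp in
theorem compact_ultra {r : ℕ} (hs : q + r + 1 = s) (hq : 1 ≤ q) (hr : 1 ≤ r)
    (hd2 : ∀ j, 2 ≤ d j) (h : 3 * r + 2 * q + 2 ≤ 2 * ∑ j, d j)
    (a : MIdx s q d → ∀ j, L j)
    (hD : ∀ j I J, DL j (some I) (a J j) = if I = J then 1 else 0)
    (hcomm : ∀ j I J y, DL j (some I) (DL j (some J) y) = DL j (some J) (DL j (some I) y))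
    (p : Fin s → ∀ j, L j) {l : Fin s} (hpl : ∀ j, p l j = 1)
    (hF : ∀ j f, Fval (d f) (aj a f j) (fun k => p k j) = 0) :
    (∃ (c e : ℕ) (J : ∀ j, L j), 0 < e ∧ ∀ᶠ j in (Filter.hyperfilter ℕ : Filter ℕ), J j ≠ 0 ∧
      LBF (DL j) none (fun t => a t j) 0 (fun k => p k j) 1 c e (J j)) ∨
    (∑ j, d j + 2 ≤ 2 * r + q ∧ ∀ᶠ j in (Filter.hyperfilter ℕ : Filter ℕ),
      ∃ y : Fin s → L j, (∃ i k, p i j * y k - p k j * y i ≠ 0) ∧
        ∀ f, ∀ u v : L j, Fval (d f) (aj a f j) (fun k => p k j * u + y k * v) = 0) := by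
  classical
  have hcU : CharZero (UP Λ) := charZero_of_injective_ringHom (constHom (L := Λ)).injective
  have hcM : CharZero (MU φ) := inferInstance
  set X := XU φ DL DΛ hcomp a hD hcomm with hX
  set pM : Fin s → MU φ := fun k => mkU φ (p k) with hpM
  have hmA : ∀ f, mA X f = fun I => mkU φ (fun j => aj a f j I) := by
    intro f
    funext I
    unfold mA aj
    split_ifs with h1
    · rfl
    · exact (map_zero (mkU φ)).symm
  have hFv : ∀ f (x : Fin s → ∀ j, L j), Fval (d f) (mA X f) (fun k => mkU φ (x k)) =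
      mkU φ (fun j => Fval (d f) (aj a f j) (fun k => x k j)) := by
    intro f x
    rw [hmA, ← map_Fval_pi (mkU φ) (d f) (fun I j => aj a f j I) x]
  have hFM : ∀ f, Fval (d f) (mA X f) pM = 0 := by
    intro f
    rw [hpM, hFv, mkU_eq_zero]
    exact Filter.Eventually.of_forall fun j => hF j f
  have hplM : pM l = 1 := by
    have h1 : p l = 1 := funext hpl
    rw [hpM]
    simp only [h1, map_one]
  by_cases hline : ∑ j, d j + 2 ≤ 2 * r + q ∧ MOnLine d (mA X) pM
  · right
    refine ⟨hline.1, ?_⟩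
    obtain ⟨z, ⟨i, k, hik⟩, hz⟩ := hline.2
    choose y hy using fun k => mkU_surjective φ (z k)
    have h1 : ∀ᶠ j in (Filter.hyperfilter ℕ : Filter ℕ), p i j * y k j - p k j * y i j ≠ 0 := by
      have h2 : mkU φ (fun j => p i j * y k j - p k j * y i j) ≠ 0 := by
        have e1 : mkU φ (fun j => p i j * y k j - p k j * y i j) = pM i * z k - pM k * z i := by
          rw [← hy k, ← hy i, hpM, ← map_mul, ← map_mul, ← map_sub]
          rfl
        rw [e1]
        exact hik
      rw [Ne, mkU_eq_zero] at h2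
      exact Ultrafilter.eventually_not.mpr h2
    have h2 : ∀ᶠ j in (Filter.hyperfilter ℕ : Filter ℕ), ∀ f, ∀ u v : L j,
        Fval (d f) (aj a f j) (fun k => p k j * u + y k j * v) = 0 := by
      by_contra hcon
      have hcon' : ∀ᶠ j in (Filter.hyperfilter ℕ : Filter ℕ), ∃ f, ¬ ∀ u v : L j,
          Fval (d f) (aj a f j) (fun k => p k j * u + y k j * v) = 0 := by
        filter_upwards [Ultrafilter.eventually_not.mpr hcon] with j hj
        push Not at hj ⊢
        exact hj
      obtain ⟨f, hf⟩ := ultra_exists hcon'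
      have h3 : ∀ j, ∃ u v : L j, (¬ ∀ u v : L j,
          Fval (d f) (aj a f j) (fun k => p k j * u + y k j * v) = 0) →
          Fval (d f) (aj a f j) (fun k => p k j * u + y k j * v) ≠ 0 := by
        intro j
        by_cases hj : ∀ u v : L j, Fval (d f) (aj a f j) (fun k => p k j * u + y k j * v) = 0
        · exact ⟨0, 0, fun h => absurd hj h⟩
        · push Not at hj
          obtain ⟨u, v, huv⟩ := hj
          exact ⟨u, v, fun _ => huv⟩
      choose u v huv using h3
      have h4 := hz f (mkU φ u) (mkU φ v)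
      have e1 : (fun k => pM k * mkU φ u + z k * mkU φ v) =
          fun k => mkU φ (fun j => p k j * u j + y k j * v j) := by
        funext k
        rw [← hy k, hpM, ← map_mul, ← map_mul, ← map_add]
        rfl
      rw [e1, hFv f (fun k j => p k j * u j + y k j * v j), mkU_eq_zero] at h4
      obtain ⟨j, h5, h6⟩ := (h4.and hf).exists
      exact huv j h6 h5
    filter_upwards [h1, h2] with j h3 h4
    exact ⟨fun k => y k j, ⟨i, k, h3⟩, h4⟩
  · left
    push Not at hline
    obtain ⟨c, e, he, J, hJ0, hJ⟩ := mlocal_border (X := X) (p := pM) (l := l) hs hq hr hd2 h hFM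
      hplM hline
    obtain ⟨J', rfl⟩ := mkU_surjective φ J
    refine ⟨c, e, J', he, Filter.Eventually.and ?_ ?_⟩
    · rw [Ne, mkU_eq_zero] at hJ0
      exact Ultrafilter.eventually_not.mpr hJ0
    · refine LBF_of_ultra φ DL DΛ hcomp (a := a) (z := 1) ?_
      intro O' δ' l' hA
      exact hJ O' δ' hA.hval hA.hδ (fun I => hA.hDO (some I)) hA.ha (fun g => g.elim) l' hA.hl hA.hp

end CUltra

end Pool.Agent.Lib.MP_44a246_ntB
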