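import Mathlib
import Pool.Agent.Lib.MP_44a246_ntB.Base9

/-!
The passage from sequences of points to uniform bounds.
-/

namespace Pool.Agent.Lib.MP_44a246_ntB

open Pool.Agent.Lib.MP_e52354_nt
open Pool.Agent.Lib.MP_44a246_nt
open Pool.Agent.Lib.MP_44a246_ntL
open WithZero

universe w u₁ u₂

section Seq

variable {κ : Type u₁} {K : Type u₂} [Field κ] [IsAlgClosed κ] [CharZero κ] [Field K]
  [Algebra κ K] {σ : Type} [Fintype σ] {ι θ : Type*}

/-- uniform bounds from sequences of points, one of whose coordinates is one -/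
theorem seq_bound (hK : IsFF κ K) {aK : θ → K} {DK : ι → Derivation ℤ K K} {e₀ : ι}
    {B A : Place κ K → ℕ} (hB : (Function.support B).Finite) (hA : (Function.support A).Finite)
    (DL : ∀ P : PtL.{w} κ K σ, ι → Derivation ℤ P.L P.L)
    (hX : ∀ P : PtL.{w} κ K σ, HS (κ := κ) aK DK (DL P) e₀ B A)
    {S : Set (Place κ K)} (hS : S.Finite) (l : σ) (d : ℕ)
    (Good Exc : PtL.{w} κ K σ → Prop) (z : ∀ P : PtL.{w} κ K σ, P.L)
    (hz0 : ∀ P, Good P → z P ≠ 0)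
    (hzv : ∀ P, Good P → ∀ w : Place κ P.L, w.1 (z P) ≤
      exp (((ramIdx K w.1 * A (below K w) : ℕ)) : ℤ) * vmax w.1 P.x ^ d)
    (key : ∀ P : ℕ → PtL.{w} κ K σ, (∀ j, Good (P j)) → (∀ j, (P j).x l = 1) →
      (∃ (c e : ℕ) (J : ∀ j, (P j).L), 0 < e ∧
        ∀ᶠ j in (Filter.hyperfilter ℕ : Filter ℕ), J j ≠ 0 ∧
          LBF (DL (P j)) e₀ (fun t => algebraMap K (P j).L (aK t)) d (P j).x (z (P j)) c e (J j)) ∨
      ∀ᶠ j in (Filter.hyperfilter ℕ : Filter ℕ), Exc (P j)) :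
    ∃ C : ℕ, ∀ P : PtL.{w} κ K σ, Good P → P.x l = 1 →
      height κ P.x ≤ (C : ℤ) * (((meetF (κ := κ) d P.x (z P) S).ncard : ℤ) +
        (ramDeg κ P.L K : ℤ) + (Module.finrank K P.L : ℤ)) ∨ Exc P := by
  classical
  by_contra hcon
  push Not at hcon
  choose P hG hl hh hE using hcon
  rcases key P hG hl with ⟨c, e, J, he, hJ⟩ | hexc
  · set D₀ := (∑ᶠ v, (totB B A S v : ℤ)).toNat with hD₀
    have hD₀' : (∑ᶠ v, (totB B A S v : ℤ)) ≤ (D₀ : ℤ) := Int.self_le_toNat _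
    have hge : ∀ᶠ j in (Filter.hyperfilter ℕ : Filter ℕ), c * (D₀ + 1) ≤ j := by
      have h1 : ∀ᶠ j in (Filter.atTop : Filter ℕ), c * (D₀ + 1) ≤ j :=
        Filter.eventually_ge_atTop _
      rw [← Nat.cofinite_eq_atTop] at h1
      exact Filter.hyperfilter_le_cofinite h1
    obtain ⟨j, ⟨hJ0, hLB⟩, hj⟩ := (hJ.and hge).exists
    have hp0 : (P j).x ≠ 0 := by
      intro h0
      have h1 := congrFun h0 l
      rw [hl j] at h1
      exact one_ne_zero h1
    have hL : IsFF κ (P j).L := hK.of_finite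
    have h1 := height_of_LBF (S := S) hL (hX (P j)) hB hA hp0 (hz0 _ (hG j)) (hzv _ (hG j)) hS hJ0
      he hLB
    have h2 := hh j
    set N : ℤ := ((meetF (κ := κ) d (P j).x (z (P j)) S).ncard : ℤ) with hN
    have hN0 : 0 ≤ N := Int.natCast_nonneg _
    set R : ℤ := (ramDeg κ (P j).L K : ℤ) with hR
    have hR0 : 0 ≤ R := Int.natCast_nonneg _
    set n : ℤ := (Module.finrank K (P j).L : ℤ) with hn
    have hn0 : 0 ≤ n := Int.natCast_nonneg _
    have hbase : (∑ᶠ v, (totB B A S v : ℤ)) * n + R + N ≤ (D₀ + 1 : ℤ) * (N + R + n) := by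
      have h1 : (∑ᶠ v, (totB B A S v : ℤ)) * n ≤ (D₀ : ℤ) * n :=
        mul_le_mul_of_nonneg_right hD₀' hn0
      have h2 : (0 : ℤ) ≤ D₀ := Int.natCast_nonneg _
      nlinarith [mul_nonneg h2 hN0, mul_nonneg h2 hR0]
    have hc0 : (0 : ℤ) ≤ c := Int.natCast_nonneg _
    have hNRn : 0 ≤ N + R + n := by linarith
    have hj' : (c : ℤ) * (D₀ + 1) ≤ j := by exact_mod_cast hj
    have h3 : height κ (P j).x ≤ (j : ℤ) * (N + R + n) :=
      calc height κ (P j).x ≤ (c : ℤ) * ((D₀ + 1 : ℤ) * (N + R + n)) :=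
            h1.trans (mul_le_mul_of_nonneg_left hbase hc0)
        _ = ((c : ℤ) * (D₀ + 1)) * (N + R + n) := by ring
        _ ≤ (j : ℤ) * (N + R + n) := mul_le_mul_of_nonneg_right hj' hNRn
    exact absurd h3 (not_le.mpr h2)
  · obtain ⟨j, hj⟩ := hexc.exists
    exact hE j hj

end Seq

end Pool.Agent.Lib.MP_44a246_ntB
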