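import Mathlib
import Pool.Agent.Lib.MP_44a246_ntB.SeqB
import Pool.Agent.Lib.MP_44a246_ntB.CUltra

/-!
Algebraic points of generic complete intersections over a function field, including the borderline
case: coefficients.
-/

namespace Pool.Agent.Lib.MP_44a246_ntB

open Pool.Agent.Lib.MP_e52354_nt
open Pool.Agent.Lib.MP_e52354_ntG
open Pool.Agent.Lib.MP_44a246_nt
open Pool.Agent.Lib.MP_44a246_ntL
open WithZero

universe w u₁ u₂

section Main

variable {k₀ : Type*} {κ : Type u₁} {K : Type u₂} [Field k₀] [CharZero k₀] [Field κ]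
  [IsAlgClosed κ] [CharZero κ] [Field K]
  [Algebra k₀ κ] [Algebra κ K] [Algebra k₀ K] [IsScalarTower k₀ κ K]

/-- the exceptional condition: the point is on a line of zeros -/
def ExcC {s q : ℕ} (d : Fin q → ℕ) (r : ℕ) (a : Fin q → (Fin s →₀ ℕ) → K)
    (P : PtL.{w} κ K (Fin s)) : Prop :=
  ∑ j, d j + 2 ≤ 2 * r + q ∧ ∃ y : Fin s → P.L, (∃ i k, P.x i * y k - P.x k * y i ≠ 0) ∧
    ∀ f, ∀ u v : P.L, Fval (d f) (fun I => algebraMap K P.L (a f I))
      (fun k => P.x k * u + y k * v) = 0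

theorem compact_border_l {t : K} (ht : Transcendental κ t)
    (hfin : FiniteDimensional (IntermediateField.adjoin κ {t}) K) {s q r : ℕ} {d : Fin q → ℕ}
    (hs : q + r + 1 = s) (hq : 1 ≤ q) (hr : 1 ≤ r)
    (hd2 : ∀ j, 2 ≤ d j) (h : 3 * r + 2 * q + 2 ≤ 2 * ∑ j, d j)
    (a : Fin q → (Fin s →₀ ℕ) → K)
    (hc : AlgebraicIndependent k₀ (fun θ : MIdx s q d => a θ.1 θ.2.1)) (l : Fin s) :
    ∃ C : ℕ, ∀ P : PtL.{w} κ K (Fin s),
      (∀ f, Fval (d f) (fun I => algebraMap K P.L (a f I)) P.x = 0) → P.x l = 1 →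
      height κ P.x ≤ (C : ℤ) * ((ramDeg κ P.L K : ℤ) + (Module.finrank K P.L : ℤ)) ∨
        ExcC d r a P := by
  classical
  have hcK : CharZero K := charZero_of_injective_algebraMap (algebraMap κ K).injective
  have halg : Algebra.IsAlgebraic (IntermediateField.adjoin κ {t}) K :=
    Algebra.IsAlgebraic.of_finite _ _
  have hK : IsFF κ K := ⟨t, ht, hfin⟩
  -- the derivations
  obtain ⟨DI, B₁, A, hB₁, hA, hPB, hPA, hD, hcomm⟩ := exists_setup ht hfin hc
  obtain ⟨E, hE, hEt⟩ := exists_ddt ht halg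
  let DK : Option (MIdx s q d) → Derivation ℤ K K := fun i => i.elim E DI
  obtain ⟨B, hB, hPB'⟩ : ∃ B : Place κ K → ℕ, (Function.support B).Finite ∧
      ∀ i, PoleBound κ (DK i) B := by
    refine poleBound_family DK fun i => ?_
    rcases i with _ | I
    · exact exists_poleBound ht hfin E (fun c => ⟨0, by rw [hE, map_zero]⟩)
        ⟨1, by rw [hEt, map_one]⟩
    · exact ⟨B₁, hB₁, hPB I⟩
  choose DΛ hDΛ using fun i => exists_extension (K := K) (L := AlgebraicClosure K) (DK i)
  choose DL hDL using fun (P : PtL.{w} κ K (Fin s)) =>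
    fun i => exists_extension (K := K) (L := P.L) (DK i)
  have hX : ∀ P : PtL.{w} κ K (Fin s),
      HS (κ := κ) (fun θ : MIdx s q d => a θ.1 θ.2.1) DK (DL P) none B A :=
    fun P => ⟨hDL P, hPB', fun θ v => hPA θ v, fun y hy =>
      const_of_ddt (Λ := P.L) ht halg hE hEt (hDL P none) hy⟩
  obtain ⟨C, hC⟩ := seq_bound hK hB hA DL hX (S := ∅) Set.finite_empty l 0
    (fun P => ∀ f, Fval (d f) (fun I => algebraMap K P.L (a f I)) P.x = 0) (ExcC d r a)
    (fun _ => 1) (fun _ _ => one_ne_zero) (fun P _ w => by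
      rw [map_one, pow_zero, mul_one]
      have h0 : exp (0 : ℤ) ≤ exp (((ramIdx K w.1 * A (below K w) : ℕ)) : ℤ) :=
        exp_le_exp.mpr (Int.natCast_nonneg _)
      exact h0) (by
      intro P hG hl
      have hFc : ∀ j (f : Fin q) (x : Fin s → (P j).L),
          Fval (d f) (aj (fun (t : MIdx s q d) j => algebraMap K (P j).L (a t.1 t.2.1)) f j) x =
          Fval (d f) (fun I => algebraMap K (P j).L (a f I)) x := by
        intro j f x
        unfold Fval
        refine Finset.sum_congr rfl fun I hI => ?_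
        unfold aj
        rw [dif_pos hI]
      have hφ : ∀ j, Nonempty ((P j).L →ₐ[K] AlgebraicClosure K) := fun j =>
        ⟨IsAlgClosed.lift⟩
      rcases compact_ultra (φ := fun j => (((hφ j).some : (P j).L →ₐ[K] AlgebraicClosure K) :
          (P j).L →+* AlgebraicClosure K)) (DL := fun j => DL (P j)) (DΛ := DΛ)
          (fun j i y => ext_compat (hDL (P j) i) (hDΛ i) ((hφ j).some) y)
          hs hq hr hd2 h (fun t j => algebraMap K (P j).L (a t.1 t.2.1))
          (fun j I J => by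
            rw [hDL]
            have h1 : DK (some I) (a J.1 J.2.1) = if I = J then 1 else 0 := hD I J
            rw [h1]
            split_ifs <;> simp)
          (fun j I J y => ext_comm (hcomm I J) (hDL (P j) (some I)) (hDL (P j) (some J)) y)
          (fun k j => (P j).x k) (l := l) hl (fun j f => by
            rw [hFc]
            exact hG j f) with ⟨c, e, J, he, hJ⟩ | ⟨hsm, hexc⟩
      · exact Or.inl ⟨c, e, J, he, hJ⟩
      · right
        filter_upwards [hexc] with j hj
        obtain ⟨y, hy, hz⟩ := hj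
        refine ⟨hsm, y, hy, fun f u v => ?_⟩
        rw [← hFc]
        exact hz f u v)
  refine ⟨C, fun P hP hl => ?_⟩
  rcases hC P hP hl with h1 | h1
  · left
    have h2 : (meetF (κ := κ) 0 P.x (1 : P.L) (∅ : Set (Place κ K))) = ∅ := by
      ext w
      unfold meetF
      rw [Set.mem_ofPred_eq, pow_zero, map_one]
      simp
    rw [h2, Set.ncard_empty] at h1
    simpa using h1
  · exact Or.inr h1

theorem compact_border {t : K} (ht : Transcendental κ t)
    (hfin : FiniteDimensional (IntermediateField.adjoin κ {t}) K) {s q r : ℕ} {d : Fin q → ℕ}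
    (hs : q + r + 1 = s) (hq : 1 ≤ q) (hr : 1 ≤ r)
    (hd2 : ∀ j, 2 ≤ d j) (h : 3 * r + 2 * q + 2 ≤ 2 * ∑ j, d j)
    (a : Fin q → (Fin s →₀ ℕ) → K)
    (hc : AlgebraicIndependent k₀ (fun θ : MIdx s q d => a θ.1 θ.2.1)) :
    ∃ C : ℕ, ∀ P : PtL.{w} κ K (Fin s), P.x ≠ 0 →
      (∀ f, Fval (d f) (fun I => algebraMap K P.L (a f I)) P.x = 0) →
      height κ P.x ≤ (C : ℤ) * ((ramDeg κ P.L K : ℤ) + (Module.finrank K P.L : ℤ)) ∨
        ExcC d r a P := by
  classical
  have hK : IsFF κ K := ⟨t, ht, hfin⟩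
  choose C hC using fun l => compact_border_l.{w} ht hfin hs hq hr hd2 h a hc l
  refine ⟨∑ l, C l, ?_⟩
  intro P hx hF
  obtain ⟨l, hl⟩ : ∃ l, P.x l ≠ 0 := by
    by_contra hcon
    push Not at hcon
    exact hx (funext hcon)
  let P' : PtL.{w} κ K (Fin s) := ⟨P.L, fun k => (P.x l)⁻¹ * P.x k⟩
  have hF' : ∀ f, Fval (d f) (fun I => algebraMap K P'.L (a f I)) P'.x = 0 := by
    intro f
    have h1 : Fval (d f) (fun I => algebraMap K P.L (a f I)) (fun k => (P.x l)⁻¹ * P.x k) = 0 := by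
      rw [Fval_smul', hF, mul_zero]
    exact h1
  have hL : IsFF κ P.L := hK.of_finite
  rcases hC l P' hF' (inv_mul_cancel₀ hl) with h1 | ⟨h0, y, ⟨i, k, hik⟩, hz⟩
  · left
    have hh : height κ P'.x = height κ P.x := hL.height_smul (inv_ne_zero hl)
    rw [hh] at h1
    refine h1.trans (mul_le_mul_of_nonneg_right ?_ (by positivity))
    have h2 : C l ≤ ∑ l, C l := Finset.single_le_sum (fun _ _ => Nat.zero_le _) (Finset.mem_univ l)
    exact_mod_cast h2
  · right
    have hik' : (P.x l)⁻¹ * P.x i * y k - (P.x l)⁻¹ * P.x k * y i ≠ 0 := hik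
    refine ⟨h0, y, ⟨i, k, ?_⟩, fun f u v => ?_⟩
    · intro h2
      apply hik'
      have h3 : (P.x l)⁻¹ * P.x i * y k - (P.x l)⁻¹ * P.x k * y i =
          (P.x l)⁻¹ * (P.x i * y k - P.x k * y i) := by ring
      rw [h3, h2, mul_zero]
    · have h3 : Fval (d f) (fun I => algebraMap K P.L (a f I))
          (fun k => (P.x l)⁻¹ * P.x k * (P.x l * u) + y k * v) = 0 := hz f (P.x l * u) v
      rw [← h3]
      congr 1
      funext k
      field_simp

end Main

end Pool.Agent.Lib.MP_44a246_ntB
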