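import Mathlib

/-!
Lines which meet a smooth plane quartic in at most two points are rigid.
-/

namespace Pool.Agent.Lib.MP_44a246_ntB

open MvPolynomial

section Der

variable {K A σ : Type*} [CommRing K] [CommRing A] [Algebra K A] [Fintype σ]

/-- chain rule for the value of a polynomial with constant coefficients -/
theorem der_aevalK (D : Derivation K A A) (F : MvPolynomial σ K) (x : σ → A) :
    D (aeval x F) = ∑ j, aeval x (pderiv j F) * D (x j) := by
  classical
  induction F using MvPolynomial.induction_on with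
  | C c => simp
  | add p q hp hq =>
    simp only [map_add, hp, hq, add_mul, Finset.sum_add_distrib]
  | mul_X p i hp =>
    have h1 : ∀ j, pderiv j (p * X i) = p * (if j = i then 1 else 0) + X i * pderiv j p := by
      intro j
      rw [Derivation.leibniz, pderiv_X, smul_eq_mul, smul_eq_mul]
      congr 2
      by_cases hij : j = i
      · subst hij; simp
      · simp [hij]
    simp only [h1, map_add, map_mul, aeval_X, Derivation.leibniz, hp, smul_eq_mul, add_mul,
      Finset.sum_add_distrib, Finset.mul_sum]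
    congr 1
    · rw [Finset.sum_eq_single i]
      · simp
      · intro j _ hj
        simp [hj]
      · simp
    · exact Finset.sum_congr rfl fun j _ => by ring

end Der

section Contact

variable {K M : Type*} [Field K] [Field M] [Algebra K M]

/-- the gradient of a form -/
noncomputable def gr (F : MvPolynomial (Fin 3) K) (v : Fin 3 → M) (j : Fin 3) : M :=
  aeval v (pderiv j F)

theorem euler_gr {F : MvPolynomial (Fin 3) K} (hF : F.IsHomogeneous 4) (v : Fin 3 → M) :
    ∑ j, gr F v j * v j = 4 * aeval v F := by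
  have h := hF.sum_X_mul_pderiv
  have h1 := congrArg (aeval v) h
  simp only [map_sum, map_mul, aeval_X, map_nsmul] at h1
  unfold gr
  simp only [mul_comm (aeval v _) (v _)]
  rw [h1, nsmul_eq_mul]
  norm_num

theorem euler_gr2 {F : MvPolynomial (Fin 3) K} (hF : F.IsHomogeneous 4) (v : Fin 3 → M)
    (i : Fin 3) : ∑ j, aeval v (pderiv j (pderiv i F)) * v j = 3 * gr F v i := by
  have h := (hF.pderiv (i := i)).sum_X_mul_pderiv
  have h1 := congrArg (aeval v) h
  simp only [map_sum, map_mul, aeval_X, map_nsmul] at h1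
  unfold gr
  simp only [mul_comm (aeval v _) (v _)]
  rw [h1, nsmul_eq_mul]
  norm_num

/-- the cross product -/
def cr {M : Type*} [Field M] (u v : Fin 3 → M) : Fin 3 → M :=
  ![u 1 * v 2 - u 2 * v 1, u 2 * v 0 - u 0 * v 2, u 0 * v 1 - u 1 * v 0]

theorem cr_perp {M : Type*} [Field M] {n u v : Fin 3 → M} (hu : ∑ j, n j * u j = 0)
    (hv : ∑ j, n j * v j = 0) (i j : Fin 3) : n i * cr u v j = n j * cr u v i := by
  rw [Fin.sum_univ_three] at hu hv
  fin_cases i <;> fin_cases j <;> simp only [cr, Fin.zero_eta, Fin.mk_one, Fin.reduceFinMk,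
    Matrix.cons_val_zero, Matrix.cons_val_one, Matrix.cons_val]
  · linear_combination (-(v 2)) * hu + (u 2) * hv
  · linear_combination (v 1) * hu - (u 1) * hv
  · linear_combination (v 2) * hu - (u 2) * hv
  · linear_combination (-(v 0)) * hu + (u 0) * hv
  · linear_combination (-(v 1)) * hu + (u 1) * hv
  · linear_combination (v 0) * hu - (u 0) * hv

theorem prop_of_perp {M : Type*} [Field M] {n n' u v : Fin 3 → M} (h0 : cr u v ≠ 0)
    (hu : ∑ j, n j * u j = 0) (hv : ∑ j, n j * v j = 0) (hu' : ∑ j, n' j * u j = 0)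
    (hv' : ∑ j, n' j * v j = 0) (i k : Fin 3) : n i * n' k = n k * n' i := by
  obtain ⟨j, hj⟩ : ∃ j, cr u v j ≠ 0 := by
    by_contra hcon
    push Not at hcon
    exact h0 (funext hcon)
  have h1 := cr_perp hu hv
  have h2 := cr_perp hu' hv'
  have h3 : (n i * n' k - n k * n' i) * (cr u v j * cr u v j) = 0 := by
    linear_combination (n' k * cr u v j) * h1 i j + (n j * cr u v i) * h2 k j -
      (n' i * cr u v j) * h1 k j - (n j * cr u v k) * h2 i j
  have h4 := (mul_eq_zero.mp h3).resolve_right (mul_ne_zero hj hj)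
  linear_combination h4

/-- the contact conditions -/
structure Trip (F : MvPolynomial (Fin 3) K) (v p : Fin 3 → M) : Prop where
  h0 : aeval v F = 0
  h1 : ∑ j, gr F v j * p j = 0
  h2 : ∑ j, (∑ k, aeval v (pderiv k (pderiv j F)) * p k) * p j = 0

theorem der_gr (D : Derivation K M M) (F : MvPolynomial (Fin 3) K) (v : Fin 3 → M) (i : Fin 3) :
    D (gr F v i) = ∑ j, aeval v (pderiv j (pderiv i F)) * D (v j) := der_aevalK D _ _

/-- a vector orthogonal to `n` is a combination -/
theorem comb_of_perp {M : Type*} [Field M] {n u v w : Fin 3 → M} (hn : n ≠ 0) (h0 : cr u v ≠ 0)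
    (hu : ∑ j, n j * u j = 0) (hv : ∑ j, n j * v j = 0) (hw : ∑ j, n j * w j = 0) :
    ∃ α β : M, ∀ k, w k = α * u k + β * v k := by
  obtain ⟨j, hj⟩ : ∃ j, cr u v j ≠ 0 := by
    by_contra hcon
    push Not at hcon
    exact h0 (funext hcon)
  obtain ⟨i, hi⟩ : ∃ i, n i ≠ 0 := by
    by_contra hcon
    push Not at hcon
    exact hn (funext hcon)
  have h1 := cr_perp hu hv
  -- the scalar
  have hnj : n j ≠ 0 := by
    intro h2
    have h3 := h1 i j
    rw [h2, zero_mul] at h3
    exact (mul_ne_zero hi hj) h3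
  have huw := cr_perp hu hw
  have hwv := cr_perp hw hv
  have e' : w 0 * cr u v 0 + w 1 * cr u v 1 + w 2 * cr u v 2 = 0 := by
    have h5 : n j * (w 0 * cr u v 0 + w 1 * cr u v 1 + w 2 * cr u v 2) = 0 := by
      rw [Fin.sum_univ_three] at hw
      linear_combination (cr u v j) * hw - (w 0) * h1 0 j - (w 1) * h1 1 j - (w 2) * h1 2 j
    exact (mul_eq_zero.mp h5).resolve_left hnj
  refine ⟨cr w v j / cr u v j, cr u w j / cr u v j, fun k => ?_⟩
  rw [div_mul_eq_mul_div, div_mul_eq_mul_div, ← add_div, eq_div_iff hj]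
  fin_cases j <;> fin_cases k <;> simp only [cr, Fin.zero_eta, Fin.mk_one, Fin.reduceFinMk,
    Matrix.cons_val_zero, Matrix.cons_val_one, Matrix.cons_val] at e' ⊢ <;>
    first
    | ring1
    | linear_combination e'
    | linear_combination (-1 : M) * e'

theorem perp_der {n u : Fin 3 → M} (D : Derivation K M M) (hu : ∑ j, n j * u j = 0)
    (hDu : ∑ j, n j * D (u j) = 0) : ∑ j, D (n j) * u j = 0 := by
  have h := congrArg D hu
  simp only [map_sum, Derivation.leibniz, smul_eq_mul, Finset.sum_add_distrib, map_zero] at h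
  rw [hDu, zero_add] at h
  rw [← h]
  exact Finset.sum_congr rfl fun j _ => mul_comm _ _

/-- the exceptional condition for the line spanned by `v` and `p` -/
inductive ELine (F : MvPolynomial (Fin 3) K) (v p : Fin 3 → M) : Prop
  | triple (h : Trip F v p)
  | double (v' : Fin 3 → M) (h0 : aeval v F = 0) (h1 : ∑ j, gr F v j * p j = 0)
      (h0' : aeval v' F = 0) (h1' : ∑ j, gr F v' j * p j = 0) (hc : cr v v' ≠ 0)
      (hp : ∃ s : M, ∀ k, v' k = v k + s * p k)

theorem ELine.rigid {F : MvPolynomial (Fin 3) K} (hF : F.IsHomogeneous 4) {v p : Fin 3 → M}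
    (h : ELine F v p) (hvp : cr v p ≠ 0)
    (hsm : ∀ w : Fin 3 → M, w ≠ 0 → aeval w F = 0 → gr F w ≠ 0) (D : Derivation K M M)
    (i k : Fin 3) : gr F v i * D (gr F v k) = gr F v k * D (gr F v i) := by
  have hv0 : v ≠ 0 := by
    rintro rfl
    apply hvp
    funext j
    fin_cases j <;> simp [cr]
  set n := gr F v with hn
  have main : aeval v F = 0 → ∑ j, n j * p j = 0 → ∀ u : Fin 3 → M, cr v u ≠ 0 →
      ∑ j, n j * u j = 0 → ∑ j, n j * D (u j) = 0 →
      n i * D (n k) = n k * D (n i) := by
    intro h0 h1 u hc hu hDu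
    have hnv : ∑ j, n j * v j = 0 := by
      rw [hn, euler_gr hF, h0, mul_zero]
    have hDv : ∑ j, n j * D (v j) = 0 := by
      rw [hn]
      unfold gr
      rw [← der_aevalK D F v, h0, map_zero]
    exact prop_of_perp (n' := fun j => D (n j)) hc hnv hu (perp_der D hnv hDv) (perp_der D hu hDu)
      i k
  rcases h with ⟨h0, h1, h2⟩ | ⟨v', h0, h1, h0', h1', hc, s, hs⟩
  · refine main h0 h1 p hvp h1 ?_
    have hn0 : n ≠ 0 := hsm v hv0 h0
    have hnv : ∑ j, n j * v j = 0 := by
      rw [hn, euler_gr hF, h0, mul_zero]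
    have hDv : ∑ j, n j * D (v j) = 0 := by
      rw [hn]
      unfold gr
      rw [← der_aevalK D F v, h0, map_zero]
    obtain ⟨α, β, hαβ⟩ := comb_of_perp hn0 hvp hnv h1 (w := fun j => D (v j)) hDv
    have h3 := congrArg D h1
    simp only [map_sum, Derivation.leibniz, smul_eq_mul, Finset.sum_add_distrib, map_zero] at h3
    have h4 : ∑ j, p j * D (gr F v j) = 0 := by
      have h5 : ∀ j, D (gr F v j) = α * (3 * gr F v j) +
          β * ∑ k, aeval v (pderiv k (pderiv j F)) * p k := by
        intro j
        rw [der_gr, ← euler_gr2 hF, Finset.mul_sum, Finset.mul_sum, ← Finset.sum_add_distrib]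
        refine Finset.sum_congr rfl fun l _ => ?_
        have h6 : D (v l) = α * v l + β * p l := hαβ l
        rw [h6]
        ring
      have h7 : ∑ j, p j * D (gr F v j) = 3 * α * (∑ j, gr F v j * p j) +
          β * ∑ j, (∑ k, aeval v (pderiv k (pderiv j F)) * p k) * p j := by
        rw [Finset.mul_sum, Finset.mul_sum, ← Finset.sum_add_distrib]
        refine Finset.sum_congr rfl fun j _ => ?_
        rw [h5]
        ring
      rw [h7, h1, h2]
      ring
    rw [h4, add_zero] at h3
    exact h3
  · -- two double points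
    have hv'0 : v' ≠ 0 := by
      rintro rfl
      apply hc
      funext j
      fin_cases j <;> simp [cr]
    have hn'0 : gr F v' ≠ 0 := hsm v' hv'0 h0'
    have hnv : ∑ j, n j * v j = 0 := by
      rw [hn, euler_gr hF, h0, mul_zero]
    have hnv' : ∑ j, n j * v' j = 0 := by
      simp only [hs, mul_add, Finset.sum_add_distrib, hnv, zero_add]
      have h3 : ∑ j, n j * (s * p j) = s * ∑ j, n j * p j := by
        rw [Finset.mul_sum]
        exact Finset.sum_congr rfl fun j _ => by ring
      rw [h3, h1, mul_zero]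
    have hnv'' : ∑ j, gr F v' j * v' j = 0 := by
      rw [euler_gr hF, h0', mul_zero]
    have hnv3 : ∑ j, gr F v' j * v j = 0 := by
      have h3 : ∑ j, gr F v' j * v j = ∑ j, gr F v' j * v' j - s * ∑ j, gr F v' j * p j := by
        rw [Finset.mul_sum, ← Finset.sum_sub_distrib]
        refine Finset.sum_congr rfl fun j _ => ?_
        rw [hs j]
        ring
      rw [h3, hnv'', h1']
      ring
    -- the gradients are proportional
    obtain ⟨l, hl⟩ : ∃ l, gr F v' l ≠ 0 := by
      by_contra hcon
      push Not at hcon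
      exact hn'0 (funext hcon)
    have hprop := prop_of_perp hc hnv hnv' hnv3 hnv''
    have hDv' : ∑ j, gr F v' j * D (v' j) = 0 := by
      unfold gr
      rw [← der_aevalK D F v', h0', map_zero]
    refine main h0 h1 v' hc hnv' ?_
    have h5 : gr F v' l * ∑ j, n j * D (v' j) = n l * ∑ j, gr F v' j * D (v' j) := by
      rw [Finset.mul_sum, Finset.mul_sum]
      refine Finset.sum_congr rfl fun j _ => ?_
      linear_combination (D (v' j)) * hprop j l
    rw [hDv', mul_zero] at h5
    exact (mul_eq_zero.mp h5).resolve_left hl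

end Contact

end Pool.Agent.Lib.MP_44a246_ntB
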