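import Mathlib
import Pool.Agent.Lib.MP_44a246_ntB.Rig1
import Pool.Agent.Lib.MP_44a246_ntB.Base10

/-!
From the restriction of the form to the line to the contact conditions.
-/

namespace Pool.Agent.Lib.MP_44a246_ntB

open MvPolynomial

theorem ringHom_aeval {K A B σ : Type*} [CommRing K] [CommRing A] [CommRing B] [Algebra K A]
    [Algebra K B] (φ : A →+* B) (hφ : ∀ c : K, φ (algebraMap K A c) = algebraMap K B c)
    (F : MvPolynomial σ K) (x : σ → A) : φ (aeval x F) = aeval (fun k => φ (x k)) F := by
  induction F using MvPolynomial.induction_on with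
  | C c => simp [hφ]
  | add p q hp hq => simp only [map_add, hp, hq]
  | mul_X p i hp => simp only [map_mul, aeval_X, hp]

section Poly

variable {K M : Type*} [Field K] [Field M] [Algebra K M]

/-- the restriction to a line -/
noncomputable def resP (F : MvPolynomial (Fin 3) K) (y p : Fin 3 → M) : Polynomial M :=
  aeval (fun k => Polynomial.C (y k) + Polynomial.X * Polynomial.C (p k)) F

theorem eval_resP (F : MvPolynomial (Fin 3) K) (y p : Fin 3 → M) (s : M) :
    (resP F y p).eval s = aeval (fun k => y k + s * p k) F := by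
  have h := ringHom_aeval (K := K) (Polynomial.evalRingHom s) (fun c => by
    rw [Polynomial.algebraMap_apply, Polynomial.coe_evalRingHom, Polynomial.eval_C]) F
    (fun k => Polynomial.C (y k) + Polynomial.X * Polynomial.C (p k))
  rw [Polynomial.coe_evalRingHom] at h
  unfold resP
  rw [h]
  congr 1
  congr 1
  funext k
  simp only [Polynomial.eval_add, Polynomial.eval_mul, Polynomial.eval_C, Polynomial.eval_X]

/-- the derivative as a derivation over the small field -/
noncomputable def dX (K M : Type*) [Field K] [Field M] [Algebra K M] :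
    Derivation K (Polynomial M) (Polynomial M) :=
  (Polynomial.derivative' : Derivation M (Polynomial M) (Polynomial M)).restrictScalars K

theorem dX_apply (P : Polynomial M) : dX K M P = Polynomial.derivative P := rfl

theorem derivative_resP (F : MvPolynomial (Fin 3) K) (y p : Fin 3 → M) :
    Polynomial.derivative (resP F y p) = ∑ j, resP (pderiv j F) y p * Polynomial.C (p j) := by
  rw [← dX_apply (K := K)]
  unfold resP
  rw [der_aevalK]
  refine Finset.sum_congr rfl fun j _ => ?_
  congr 1
  rw [dX_apply]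
  simp

theorem resP_d0 (F : MvPolynomial (Fin 3) K) (y p : Fin 3 → M) (s : M) :
    (Polynomial.derivative (resP F y p)).eval s =
      ∑ j, gr F (fun k => y k + s * p k) j * p j := by
  rw [derivative_resP, Polynomial.eval_finsetSum]
  refine Finset.sum_congr rfl fun j _ => ?_
  rw [Polynomial.eval_mul, Polynomial.eval_C, eval_resP]
  rfl

theorem resP_d1 (F : MvPolynomial (Fin 3) K) (y p : Fin 3 → M) (s : M) :
    (Polynomial.derivative (Polynomial.derivative (resP F y p))).eval s =
      ∑ j, (∑ k, aeval (fun k => y k + s * p k) (pderiv k (pderiv j F)) * p k) * p j := by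
  rw [derivative_resP, Polynomial.derivative_sum, Polynomial.eval_finsetSum]
  refine Finset.sum_congr rfl fun j _ => ?_
  rw [Polynomial.derivative_mul, Polynomial.derivative_C, mul_zero, add_zero, Polynomial.eval_mul,
    Polynomial.eval_C, resP_d0]
  rfl

theorem eval_of_cube {P : Polynomial M} {s : M} (h : (Polynomial.X - Polynomial.C s) ^ 3 ∣ P) :
    P.eval s = 0 ∧ (Polynomial.derivative P).eval s = 0 ∧
      (Polynomial.derivative (Polynomial.derivative P)).eval s = 0 := by
  obtain ⟨Q, rfl⟩ := h
  refine ⟨by simp, by simp [Polynomial.derivative_X_sub_C_pow],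
    by simp [Polynomial.derivative_X_sub_C_pow]⟩

theorem eval_of_sq {P : Polynomial M} {s : M} (h : (Polynomial.X - Polynomial.C s) ^ 2 ∣ P) :
    P.eval s = 0 ∧ (Polynomial.derivative P).eval s = 0 := by
  obtain ⟨Q, rfl⟩ := h
  refine ⟨by simp, by simp [Polynomial.derivative_X_sub_C_pow]⟩

theorem cr_add (v p : Fin 3 → M) (s : M) :
    cr v (fun k => v k + s * p k) = fun k => s * cr v p k := by
  funext k
  fin_cases k <;> simp only [cr, Fin.zero_eta, Fin.mk_one, Fin.reduceFinMk,
    Matrix.cons_val_zero, Matrix.cons_val_one, Matrix.cons_val] <;> ring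

theorem cr_add_left (v p : Fin 3 → M) (s : M) :
    cr (fun k => v k + s * p k) p = cr v p := by
  funext k
  fin_cases k <;> simp only [cr, Fin.zero_eta, Fin.mk_one, Fin.reduceFinMk,
    Matrix.cons_val_zero, Matrix.cons_val_one, Matrix.cons_val] <;> ring

/-- scaling for homogeneous polynomials -/
theorem aeval_smul_homK {F : MvPolynomial (Fin 3) K} {d : ℕ} (hF : F.IsHomogeneous d)
    (x : Fin 3 → M) (c : M) : aeval (fun k => c * x k) F = c ^ d * aeval x F := by
  classical
  rw [Pool.Agent.Lib.MP_44a246_nt.aeval_eq_Fval F hF,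
    Pool.Agent.Lib.MP_44a246_nt.aeval_eq_Fval F hF, Fval_smul']

theorem eline_of_exc [CharZero M] {F : MvPolynomial (Fin 3) K} (hF : F.IsHomogeneous 4)
    {p y : Fin 3 → M} {r c : M} {m : ℕ} (hm : m ≤ 4) (hyp : cr y p ≠ 0)
    (hT : ∀ T : M, aeval (fun k => p k + T * y k) F = c * (1 + T * r) ^ m) :
    ∃ s : M, ELine F (fun k => y k + s * p k) p := by
  have hP : resP F y p = Polynomial.C c * (Polynomial.X ^ (4 - m) *
      (Polynomial.X - Polynomial.C (-r)) ^ m) := by
    refine Polynomial.eq_of_infinite_eval_eq _ _ ?_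
    refine (Set.infinite_univ (α := M)).sdiff (Set.finite_singleton (0 : M)) |>.mono ?_
    rintro S ⟨-, hS⟩
    have hS0 : S ≠ 0 := hS
    simp only [Set.mem_ofPred_eq]
    rw [eval_resP]
    have h1 : (fun k => y k + S * p k) = fun k => S * (p k + S⁻¹ * y k) := by
      funext k
      field_simp
      ring
    rw [h1, aeval_smul_homK hF, hT]
    simp only [Polynomial.eval_mul, Polynomial.eval_C, Polynomial.eval_pow, Polynomial.eval_X,
      Polynomial.eval_sub]
    have h2 : S ^ 4 = S ^ (4 - m) * S ^ m := by
      rw [← pow_add]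
      congr 1
      omega
    have h3 : S ^ m * (1 + S⁻¹ * r) ^ m = (S - -r) ^ m := by
      rw [← mul_pow]
      congr 1
      field_simp
      ring
    rw [h2]
    linear_combination (c * S ^ (4 - m)) * h3
  have trip : ∀ s : M, (Polynomial.X - Polynomial.C s) ^ 3 ∣ resP F y p →
      ∃ s : M, ELine F (fun k => y k + s * p k) p := by
    intro s h
    obtain ⟨h0, h1, h2⟩ := eval_of_cube h
    refine ⟨s, .triple ⟨?_, ?_, ?_⟩⟩
    · rw [← eval_resP]; exact h0
    · rw [← resP_d0]; exact h1
    · rw [← resP_d1]; exact h2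
  have hX : (Polynomial.X : Polynomial M) = Polynomial.X - Polynomial.C 0 := by simp
  by_cases hr : r = 0
  · apply trip 0
    rw [hP, hr, neg_zero, ← hX, ← pow_add]
    have h4 : 4 - m + m = 3 + 1 := by omega
    rw [h4, pow_add]
    exact Dvd.dvd.mul_left (Dvd.intro _ rfl) _
  rcases lt_trichotomy m 2 with h | h | h
  · apply trip 0
    rw [hP, ← hX]
    refine Dvd.dvd.mul_left (Dvd.dvd.mul_right ?_ _) _
    exact pow_dvd_pow _ (by omega)
  · subst h
    have e1 : (Polynomial.X - Polynomial.C (0 : M)) ^ 2 ∣ resP F y p := by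
      rw [hP, ← hX]
      exact Dvd.dvd.mul_left (Dvd.dvd.mul_right (pow_dvd_pow _ (by omega)) _) _
    have e2 : (Polynomial.X - Polynomial.C (-r : M)) ^ 2 ∣ resP F y p := by
      rw [hP]
      exact Dvd.dvd.mul_left (Dvd.dvd.mul_left dvd_rfl _) _
    obtain ⟨h0, h1⟩ := eval_of_sq e1
    obtain ⟨h0', h1'⟩ := eval_of_sq e2
    refine ⟨0, .double (fun k => y k + (-r) * p k) ?_ ?_ ?_ ?_ ?_ ?_⟩
    · rw [← eval_resP]; exact h0
    · rw [← resP_d0]; exact h1
    · rw [← eval_resP]; exact h0'
    · rw [← resP_d0]; exact h1'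
    · have h2 : (fun k => y k + 0 * p k) = y := by funext k; ring
      rw [h2, cr_add]
      intro h3
      apply hyp
      funext k
      have h4 := congrFun h3 k
      simp only [Pi.zero_apply] at h4 ⊢
      exact (mul_eq_zero.mp h4).resolve_left (neg_ne_zero.mpr hr)
    · exact ⟨-r, fun k => by ring⟩
  · apply trip (-r)
    rw [hP]
    exact Dvd.dvd.mul_left (Dvd.dvd.mul_left (pow_dvd_pow _ (by omega)) _) _

end Poly

end Pool.Agent.Lib.MP_44a246_ntB
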