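import Mathlib
import Pool.Agent.Lib.MP_44a246_ntB.Rig2

/-!
The exceptional lines of a generic quartic are finite in number.
-/

namespace Pool.Agent.Lib.MP_44a246_ntB

open MvPolynomial Pool.Agent.Lib.MP_e52354_nt

/-- a derivation which does not kill a given non-constant element -/
theorem exists_der_ne {Λ M : Type*} [Field Λ] [IsAlgClosed Λ] [CharZero Λ] [Field M] [Algebra Λ M]
    {z : M} (hz : ∀ c : Λ, algebraMap Λ M c ≠ z) : ∃ D : Derivation Λ M M, D z ≠ 0 := by
  have htr : Transcendental Λ z := by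
    intro halg
    have h1 : IsIntegral Λ z := halg.isIntegral
    have h2 := IsAlgClosed.degree_eq_one_of_irreducible Λ (minpoly.irreducible h1)
    obtain ⟨c, hc⟩ := minpoly.mem_range_of_degree_eq_one Λ z h2
    exact hz c hc
  have hs : AlgebraicIndepOn Λ id ({z} : Set M) := by
    have h1 : AlgebraicIndependent Λ (fun _ : Unit => z) :=
      (algebraicIndependent_unique_type_iff (ι := Unit)).mpr htr
    have h2 := h1.to_subtype_range
    have h3 : Set.range (fun _ : Unit => z) = {z} := Set.range_const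
    rw [h3] at h2
    exact h2
  obtain ⟨b, hb, hbasis⟩ := exists_isTranscendenceBasis_superset hs
  have halg : Algebra.IsAlgebraic (Algebra.adjoin Λ (Set.range ((↑) : b → M))) M :=
    hbasis.isAlgebraic
  obtain ⟨D, hD⟩ := exists_derivation (z := ((↑) : b → M)) hbasis.1 (fun _ => 1)
  refine ⟨D, ?_⟩
  have h1 := hD ⟨z, hb rfl⟩
  simp only at h1
  rw [h1]
  exact one_ne_zero

set_option linter.unusedSectionVars false

section Fin

variable {K Λ : Type*} [Field K] [Field Λ] [IsAlgClosed Λ] [CharZero Λ] [Algebra K Λ]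

/-- normalised equations of the exceptional lines -/
def EN (F : MvPolynomial (Fin 3) K) (k : Fin 3) (ν : Fin 3 → Λ) : Prop :=
  ν k = 1 ∧ ∃ v p : Fin 3 → Λ, cr v p ≠ 0 ∧ ELine F v p ∧ ∀ i, gr F v i = gr F v k * ν i

/-- the value in the ultrapower -/
theorem aeval_germ [Algebra K (UP Λ)]
    (hK : ∀ c : K, algebraMap K (UP Λ) c = constHom (algebraMap K Λ c))
    (F : MvPolynomial (Fin 3) K) (v : Fin 3 → ℕ → Λ) :
    aeval (fun k => germHom (v k)) F = germHom (fun j => aeval (fun k => v k j) F) := by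
  have h1 := ringHom_aeval (K := K) (A := ℕ → Λ) (germHom (L := Λ)) (fun c => by
    rw [hK, constHom_apply]
    rfl) F v
  rw [← h1]
  congr 1
  funext j
  have h2 := ringHom_aeval (K := K) (A := ℕ → Λ) (Pi.evalRingHom (fun _ : ℕ => Λ) j) (fun c => rfl)
    F v
  exact h2

theorem gr_germ [Algebra K (UP Λ)]
    (hK : ∀ c : K, algebraMap K (UP Λ) c = constHom (algebraMap K Λ c))
    (F : MvPolynomial (Fin 3) K) (v : Fin 3 → ℕ → Λ) (i : Fin 3) :
    gr F (fun k => germHom (v k)) i = germHom (fun j => gr F (fun k => v k j) i) :=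
  aeval_germ hK _ _

theorem germ_sum (f : Fin 3 → ℕ → Λ) :
    ∑ i, germHom (f i) = germHom (fun j => ∑ i, f i j) := by
  have h1 : (fun j => ∑ i, f i j) = ∑ i, f i := by
    funext j
    rw [Finset.sum_apply]
  rw [h1, map_sum]

theorem germ_mul (f g : ℕ → Λ) : germHom f * germHom g = germHom (fun j => f j * g j) := by
  rw [← map_mul]
  rfl

theorem cr_germ (u v : Fin 3 → ℕ → Λ) (i : Fin 3) :
    cr (fun k => germHom (u k)) (fun k => germHom (v k)) i =
      germHom (fun j => cr (fun k => u k j) (fun k => v k j) i) := by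
  fin_cases i <;> simp only [cr, Fin.zero_eta, Fin.mk_one, Fin.reduceFinMk,
    Matrix.cons_val_zero, Matrix.cons_val_one, Matrix.cons_val] <;>
    (simp only [← map_mul, ← map_sub]; rfl)

theorem cr_germ_ne {u v : Fin 3 → ℕ → Λ}
    (h : ∀ᶠ j in (Filter.hyperfilter ℕ : Filter ℕ), cr (fun k => u k j) (fun k => v k j) ≠ 0) :
    cr (fun k => germHom (u k)) (fun k => germHom (v k)) ≠ 0 := by
  have h1 : ∀ᶠ j in (Filter.hyperfilter ℕ : Filter ℕ), ∃ i,
      cr (fun k => u k j) (fun k => v k j) i ≠ 0 := by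
    filter_upwards [h] with j hj
    by_contra hcon
    push Not at hcon
    exact hj (funext hcon)
  obtain ⟨i, hi⟩ := ultra_exists h1
  intro h2
  have h3 := congrFun h2 i
  rw [cr_germ, Pi.zero_apply, germHom_eq_zero_iff] at h3
  obtain ⟨j, hj1, hj2⟩ := (hi.and h3).exists
  exact hj1 hj2

theorem Trip.germ [Algebra K (UP Λ)]
    (hK : ∀ c : K, algebraMap K (UP Λ) c = constHom (algebraMap K Λ c))
    {F : MvPolynomial (Fin 3) K} {v p : Fin 3 → ℕ → Λ}
    (h : ∀ᶠ j in (Filter.hyperfilter ℕ : Filter ℕ), Trip F (fun k => v k j) (fun k => p k j)) :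
    Trip F (fun k => germHom (v k)) (fun k => germHom (p k)) := by
  refine ⟨?_, ?_, ?_⟩
  · rw [aeval_germ hK, germHom_eq_zero_iff]
    filter_upwards [h] with j hj
    exact hj.h0
  · simp only [gr_germ hK, germ_mul, germ_sum]
    rw [germHom_eq_zero_iff]
    filter_upwards [h] with j hj
    exact hj.h1
  · simp only [aeval_germ hK, germ_mul, germ_sum]
    rw [germHom_eq_zero_iff]
    filter_upwards [h] with j hj
    exact hj.h2

theorem const_of_eline {M : Type*} [Field M] [CharZero M] [Algebra Λ M] [Algebra K M]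
    [IsScalarTower K Λ M] {F : MvPolynomial (Fin 3) K} (hF : F.IsHomogeneous 4) {V P : Fin 3 → M}
    (hE : ELine F V P) (hc : cr V P ≠ 0)
    (hsm : ∀ w : Fin 3 → M, w ≠ 0 → aeval w F = 0 → gr F w ≠ 0) {k : Fin 3} {ν : Fin 3 → M}
    (hgr : ∀ i, gr F V i = gr F V k * ν i) (i : Fin 3) : ∃ c : Λ, algebraMap Λ M c = ν i := by
  have hV0 : V ≠ 0 := by
    intro h0
    apply hc
    rw [h0]
    funext j
    fin_cases j <;> simp [cr]
  have hVF : aeval V F = 0 := by
    rcases hE with ⟨h0, -, -⟩ | ⟨-, h0, -⟩ <;> exact h0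
  have hgV : gr F V ≠ 0 := hsm V hV0 hVF
  have hgVk : gr F V k ≠ 0 := by
    intro h0
    apply hgV
    funext i
    rw [hgr, h0, zero_mul, Pi.zero_apply]
  by_contra hcon
  push Not at hcon
  obtain ⟨D, hD⟩ := exists_der_ne hcon
  have h1 := hE.rigid hF hc hsm (D.restrictScalars K) k i
  have h2 : (D.restrictScalars K) (gr F V i) = D (gr F V i) := rfl
  have h3 : (D.restrictScalars K) (gr F V k) = D (gr F V k) := rfl
  rw [h2, h3, hgr i, D.leibniz, smul_eq_mul, smul_eq_mul] at h1
  have h4 : gr F V k * gr F V k * D (ν i) = 0 := by linear_combination h1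
  exact (mul_ne_zero (mul_ne_zero hgVk hgVk) hD) h4

theorem EN_finite {F : MvPolynomial (Fin 3) K} (hF : F.IsHomogeneous 4)
    (hsm : ∀ w : Fin 3 → Λ, w ≠ 0 → aeval w F = 0 → gr F w ≠ 0) (k : Fin 3) :
    {ν : Fin 3 → Λ | EN F k ν}.Finite := by
  classical
  by_contra hinf
  have hinf' : {ν : Fin 3 → Λ | EN F k ν}.Infinite := hinf
  let f : ℕ → Fin 3 → Λ := fun j => (hinf'.natEmbedding _ j).1
  have hf : Function.Injective f := fun i j hij =>
    (hinf'.natEmbedding _).injective (Subtype.ext hij)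
  have hfE : ∀ j, EN F k (f j) := fun j => (hinf'.natEmbedding _ j).2
  choose hf1 v p hvp hE hgr using hfE
  let iΛ : Algebra Λ (UP Λ) := (constHom (L := Λ)).toAlgebra
  let iK : Algebra K (UP Λ) := ((constHom (L := Λ)).comp (algebraMap K Λ)).toAlgebra
  have hK : ∀ c : K, algebraMap K (UP Λ) c = constHom (algebraMap K Λ c) := fun c => rfl
  have hcU : CharZero (UP Λ) := charZero_of_injective_ringHom (constHom (L := Λ)).injective
  set V : Fin 3 → UP Λ := fun k => germHom (fun j => v j k) with hV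
  set P : Fin 3 → UP Λ := fun k => germHom (fun j => p j k) with hP
  have hcV : cr V P ≠ 0 := cr_germ_ne (u := fun k j => v j k) (v := fun k j => p j k)
    (Filter.Eventually.of_forall hvp)
  have hEU : ELine F V P := by
    by_cases htr : ∀ᶠ j in (Filter.hyperfilter ℕ : Filter ℕ), Trip F (v j) (p j)
    · exact .triple (Trip.germ hK htr)
    · have h1 : ∀ᶠ j in (Filter.hyperfilter ℕ : Filter ℕ), ¬ Trip F (v j) (p j) :=
        Ultrafilter.eventually_not.mpr htr
      have h2 : ∀ j, ∃ v' : Fin 3 → Λ, ¬ Trip F (v j) (p j) → (aeval (v j) F = 0 ∧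
          ∑ i, gr F (v j) i * p j i = 0 ∧ aeval v' F = 0 ∧ ∑ i, gr F v' i * p j i = 0 ∧
          cr (v j) v' ≠ 0 ∧ ∃ s : Λ, ∀ k, v' k = v j k + s * p j k) := by
        intro j
        rcases hE j with h | ⟨v', h0, h1, h0', h1', hc, hp⟩
        · exact ⟨0, fun h3 => absurd h h3⟩
        · exact ⟨v', fun _ => ⟨h0, h1, h0', h1', hc, hp⟩⟩
      choose v' hv' using h2
      have h3 : ∀ j, ∃ s : Λ, ¬ Trip F (v j) (p j) → ∀ k, v' j k = v j k + s * p j k := by
        intro j
        by_cases h : Trip F (v j) (p j)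
        · exact ⟨0, fun h4 => absurd h h4⟩
        · obtain ⟨s, hs⟩ := (hv' j h).2.2.2.2.2
          exact ⟨s, fun _ => hs⟩
      choose s hs using h3
      refine .double (fun k => germHom (fun j => v' j k)) ?_ ?_ ?_ ?_ ?_ ?_
      · rw [hV, aeval_germ hK, germHom_eq_zero_iff]
        filter_upwards [h1] with j hj
        exact (hv' j hj).1
      · simp only [hV, hP, gr_germ hK, germ_mul, germ_sum]
        rw [germHom_eq_zero_iff]
        filter_upwards [h1] with j hj
        exact (hv' j hj).2.1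
      · rw [aeval_germ hK, germHom_eq_zero_iff]
        filter_upwards [h1] with j hj
        exact (hv' j hj).2.2.1
      · simp only [hP, gr_germ hK, germ_mul, germ_sum]
        rw [germHom_eq_zero_iff]
        filter_upwards [h1] with j hj
        exact (hv' j hj).2.2.2.1
      · refine cr_germ_ne (u := fun k j => v j k) (v := fun k j => v' j k) ?_
        filter_upwards [h1] with j hj
        exact (hv' j hj).2.2.2.2.1
      · refine ⟨germHom s, fun k => ?_⟩
        simp only [hV, hP]
        rw [germ_mul, ← map_add, germHom_eq_iff]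
        filter_upwards [h1] with j hj
        exact hs j hj k
  -- smoothness in the ultrapower
  have hsmU : ∀ w : Fin 3 → UP Λ, w ≠ 0 → aeval w F = 0 → gr F w ≠ 0 := by
    intro w hw h0 h1
    choose w' hw' using fun k => germHom_surjective (w k)
    have hww : w = fun k => germHom (w' k) := funext fun k => (hw' k).symm
    have h2 : ∀ᶠ j in (Filter.hyperfilter ℕ : Filter ℕ), (fun k => w' k j) ≠ 0 := by
      rw [Ultrafilter.eventually_not]
      intro h3
      apply hw
      rw [hww]
      funext k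
      rw [Pi.zero_apply, germHom_eq_zero_iff]
      filter_upwards [h3] with j hj
      exact congrFun hj k
    rw [hww, aeval_germ hK, germHom_eq_zero_iff] at h0
    have h3 : ∀ᶠ j in (Filter.hyperfilter ℕ : Filter ℕ), ∀ i, gr F (fun k => w' k j) i = 0 := by
      rw [Filter.eventually_all]
      intro i
      have h4 := congrFun h1 i
      rw [hww, gr_germ hK, Pi.zero_apply, germHom_eq_zero_iff] at h4
      exact h4
    obtain ⟨j, hj1, hj2, hj3⟩ := (h2.and (h0.and h3)).exists
    exact hsm _ hj1 hj2 (funext hj3)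
  have hgrU : ∀ i, gr F V i = gr F V k * germHom (fun j => f j i) := by
    intro i
    simp only [hV, gr_germ hK, germ_mul]
    congr 1
    funext j
    exact hgr j i
  have hconst : ∀ i, ∃ c : Λ, (constHom (L := Λ)) c = germHom (fun j => f j i) :=
    @const_of_eline K Λ _ _ _ _ _ (UP Λ) _ hcU iΛ iK
      (@IsScalarTower.of_algebraMap_eq K Λ (UP Λ) _ _ _ _ iΛ iK (fun c => rfl)) F hF V P hEU hcV
      hsmU k (fun i => germHom (fun j => f j i)) hgrU
  choose c hc using hconst
  have hev : ∀ᶠ j in (Filter.hyperfilter ℕ : Filter ℕ), ∀ i, f j i = c i := by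
    rw [Filter.eventually_all]
    intro i
    have h1 : germHom (fun j => f j i) = germHom (fun _ => c i) := (hc i).symm
    rw [germHom_eq_iff] at h1
    exact h1
  have hset : {j | ∀ i, f j i = c i}.Finite := by
    refine Set.Subsingleton.finite ?_
    intro j hj j' hj'
    apply hf
    funext i
    rw [hj i, hj' i]
  exact Filter.notMem_hyperfilter_of_finite hset hev

end Fin

end Pool.Agent.Lib.MP_44a246_ntB
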