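import Mathlib
import Pool.Agent.Lib.MP_44a246_ntB.Rig3
import Pool.Agent.Lib.MP_44a246_ntL.LRoot

/-!
Points on two exceptional lines, and the field of definition of the exceptional lines.
-/

set_option linter.unusedSectionVars false

namespace Pool.Agent.Lib.MP_44a246_ntB

open MvPolynomial Pool.Agent.Lib.MP_e52354_nt Pool.Agent.Lib.MP_44a246_nt
open Pool.Agent.Lib.MP_44a246_ntL WithZero

universe w u₁ u₂

section Gen

variable {K Λ : Type*} [Field K] [Field Λ] [IsAlgClosed Λ] [CharZero Λ] [Algebra K Λ]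

theorem gr_eq_grad {F : MvPolynomial (Fin 3) K} (hF : F.IsHomogeneous 4) (w : Fin 3 → Λ)
    (j : Fin 3) : gr F w j = grad 4 (fun I => algebraMap K Λ (F.coeff I)) w j := by
  classical
  have h1 : F = ∑ I ∈ expo (Fin 3) 4, monomial I (F.coeff I) := by
    conv_lhs => rw [F.as_sum]
    apply Finset.sum_subset
    · intro I hI
      rw [mem_expo]
      have h2 := hF (mem_support_iff.mp hI)
      rw [Finsupp.degree_eq_weight_one]
      exact h2
    · intro I _ hI
      rw [notMem_support_iff.mp hI, map_zero]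
  unfold gr grad
  conv_lhs => rw [h1]
  rw [map_sum, map_sum]
  refine Finset.sum_congr rfl fun I _ => ?_
  rw [pderiv_monomial, aeval_monomial, map_mul, map_natCast]
  congr 1
  unfold mon
  rw [Finsupp.prod_fintype]
  intro i
  exact pow_zero _

/-- a generic quartic is smooth -/
theorem smooth_of_ders {F : MvPolynomial (Fin 3) K} (hF : F.IsHomogeneous 4)
    (D : (Fin 3 →₀ ℕ) → Derivation ℤ Λ Λ)
    (hD : ∀ I ∈ expo (Fin 3) 4, ∀ J ∈ expo (Fin 3) 4,
      D I (algebraMap K Λ (F.coeff J)) = if I = J then 1 else 0)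
    (w : Fin 3 → Λ) (hw : w ≠ 0) (h0 : aeval w F = 0) : gr F w ≠ 0 := by
  classical
  intro h1
  apply hw
  rw [aeval_eq_Fval F hF] at h0
  funext j
  have hI : Finsupp.single j 4 ∈ expo (Fin 3) 4 := by
    rw [mem_expo]
    simp
  have h2 := grad_D hD h0 hI
  have h3 : ∀ k, grad 4 (fun I => algebraMap K Λ (F.coeff I)) w k = 0 := by
    intro k
    rw [← gr_eq_grad hF, h1, Pi.zero_apply]
  simp only [h3, zero_mul, Finset.sum_const_zero] at h2
  rw [mon_single] at h2
  exact eq_zero_of_pow_eq_zero (n := 4) (by linear_combination h2)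

theorem cr_eq_zero_iff_left {M : Type*} [Field M] {y p : Fin 3 → M} (hp : p ≠ 0)
    (hy : ¬ ∃ s : M, y = s • p) : cr y p ≠ 0 := by
  intro h0
  apply hy
  obtain ⟨l, hl⟩ : ∃ l, p l ≠ 0 := by
    by_contra hcon
    push Not at hcon
    exact hp (funext hcon)
  have e0 := congrFun h0 0
  have e1 := congrFun h0 1
  have e2 := congrFun h0 2
  simp only [cr, Matrix.cons_val_zero, Matrix.cons_val_one, Matrix.cons_val, Pi.zero_apply] at e0 e1 e2
  refine ⟨y l / p l, ?_⟩
  funext k
  rw [Pi.smul_apply, smul_eq_mul, div_mul_eq_mul_div, eq_div_iff hl]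
  fin_cases l <;> fin_cases k <;> simp only [Fin.zero_eta, Fin.mk_one, Fin.reduceFinMk] <;>
    first
    | ring1
    | linear_combination e0
    | linear_combination e1
    | linear_combination e2
    | linear_combination (-1 : M) * e0
    | linear_combination (-1 : M) * e1
    | linear_combination (-1 : M) * e2

/-- the normalised equation of an exceptional line -/
theorem EN_of_exc {F : MvPolynomial (Fin 3) K} (hF : F.IsHomogeneous 4)
    (hsm : ∀ w : Fin 3 → Λ, w ≠ 0 → aeval w F = 0 → gr F w ≠ 0)
    {p y : Fin 3 → Λ} {r c : Λ} {m : ℕ} (hm : m ≤ 4) (hyp : cr y p ≠ 0)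
    (hT : ∀ T : Λ, aeval (fun k => p k + T * y k) F = c * (1 + T * r) ^ m) :
    ∃ k ν, EN F k ν ∧ ∑ i, ν i * p i = 0 ∧ ∑ i, ν i * y i = 0 := by
  obtain ⟨s, hs⟩ := eline_of_exc hF hm hyp hT
  set v : Fin 3 → Λ := fun k => y k + s * p k with hv
  have hvp : cr v p ≠ 0 := by
    rw [hv, cr_add_left]
    exact hyp
  have hv0 : v ≠ 0 := by
    intro h0
    apply hvp
    rw [h0]
    funext j
    fin_cases j <;> simp [cr]
  have h01 : aeval v F = 0 ∧ ∑ j, gr F v j * p j = 0 := by
    rcases hs with ⟨h0, h1, -⟩ | ⟨-, h0, h1, -⟩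
    · exact ⟨h0, h1⟩
    · exact ⟨h0, h1⟩
  have hg := hsm v hv0 h01.1
  obtain ⟨k, hk⟩ : ∃ k, gr F v k ≠ 0 := by
    by_contra hcon
    push Not at hcon
    exact hg (funext hcon)
  have hpv : ∑ j, gr F v j * v j = 0 := by
    rw [euler_gr hF, h01.1, mul_zero]
  have hy : ∑ j, gr F v j * y j = 0 := by
    have h1 : ∑ j, gr F v j * y j = ∑ j, gr F v j * v j - s * ∑ j, gr F v j * p j := by
      rw [Finset.mul_sum, ← Finset.sum_sub_distrib]
      refine Finset.sum_congr rfl fun j _ => ?_
      simp only [hv]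
      ring
    rw [h1, hpv, h01.2]
    ring
  refine ⟨k, fun i => gr F v i / gr F v k, ⟨div_self hk, v, p, hvp, hs, fun i => ?_⟩, ?_, ?_⟩
  · field_simp
  · have h1 : ∑ i, gr F v i / gr F v k * p i = (∑ i, gr F v i * p i) / gr F v k := by
      rw [Finset.sum_div]
      exact Finset.sum_congr rfl fun i _ => by ring
    rw [h1, h01.2, zero_div]
  · have h1 : ∑ i, gr F v i / gr F v k * y i = (∑ i, gr F v i * y i) / gr F v k := by
      rw [Finset.sum_div]
      exact Finset.sum_congr rfl fun i _ => by ring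
    rw [h1, hy, zero_div]

theorem cr_map {M M' : Type*} [Field M] [Field M'] (σ : M →+* M') (u v : Fin 3 → M) (i : Fin 3) :
    cr (fun k => σ (u k)) (fun k => σ (v k)) i = σ (cr u v i) := by
  fin_cases i <;> simp only [cr, Fin.zero_eta, Fin.mk_one, Fin.reduceFinMk,
    Matrix.cons_val_zero, Matrix.cons_val_one, Matrix.cons_val, map_sub, map_mul]

theorem cr_map_ne {M M' : Type*} [Field M] [Field M'] (σ : M →+* M') {u v : Fin 3 → M}
    (h : cr u v ≠ 0) : cr (fun k => σ (u k)) (fun k => σ (v k)) ≠ 0 := by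
  intro h0
  apply h
  funext i
  have h1 := congrFun h0 i
  rw [cr_map, Pi.zero_apply, _root_.map_eq_zero] at h1
  exact h1

/-- the exceptional lines are permuted by the automorphisms -/
theorem EN.map {F : MvPolynomial (Fin 3) K} {k : Fin 3} {ν : Fin 3 → Λ} (h : EN F k ν)
    (σ : Λ →ₐ[K] Λ) : EN F k (fun i => σ (ν i)) := by
  obtain ⟨h1, v, p, hc, hE, hg⟩ := h
  have hσ : ∀ (G : MvPolynomial (Fin 3) K) (x : Fin 3 → Λ),
      aeval (fun i => σ (x i)) G = σ (aeval x G) := fun G x =>
    (ringHom_aeval (σ : Λ →+* Λ) (fun c => σ.commutes c) G x).symm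
  have hgσ : ∀ (x : Fin 3 → Λ) (i : Fin 3), gr F (fun i => σ (x i)) i = σ (gr F x i) :=
    fun x i => hσ _ _
  refine ⟨by simp only [h1, map_one], fun i => σ (v i), fun i => σ (p i),
    cr_map_ne (σ : Λ →+* Λ) hc, ?_, fun i => ?_⟩
  · rcases hE with ⟨h0, h1, h2⟩ | ⟨v', h0, h1, h0', h1', hc', s, hp⟩
    · refine .triple ⟨?_, ?_, ?_⟩
      · rw [hσ, h0, map_zero]
      · simp only [hgσ, ← map_mul, ← map_sum, h1, map_zero]
      · simp only [hσ, ← map_mul, ← map_sum, h2, map_zero]
    · refine .double (fun i => σ (v' i)) ?_ ?_ ?_ ?_ (cr_map_ne (σ : Λ →+* Λ) hc')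
        ⟨σ s, fun i => ?_⟩
      · rw [hσ, h0, map_zero]
      · simp only [hgσ, ← map_mul, ← map_sum, h1, map_zero]
      · rw [hσ, h0', map_zero]
      · simp only [hgσ, ← map_mul, ← map_sum, h1', map_zero]
      · rw [hp, map_add, map_mul]
  · rw [hgσ, hgσ, hg, map_mul]

end Gen

section Plane

variable {L : Type*} [Field L]

/-- a second point of a line -/
theorem exists_second {η x : Fin 3 → L} {k : Fin 3} (hk : η k = 1) (hx : x ≠ 0)
    (h : ∑ i, η i * x i = 0) : ∃ y : Fin 3 → L, ∑ i, η i * y i = 0 ∧ cr x y ≠ 0 := by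
  by_contra hcon
  push Not at hcon
  apply hx
  have h0 := hcon (cr η ![1, 0, 0]) (by rw [Fin.sum_univ_three]; simp [cr]; ring)
  have h1 := hcon (cr η ![0, 1, 0]) (by rw [Fin.sum_univ_three]; simp [cr]; ring)
  have h2 := hcon (cr η ![0, 0, 1]) (by rw [Fin.sum_univ_three]; simp [cr]; ring)
  -- the double cross products
  have e : ∀ i j : Fin 3, x j * η i = 0 := by
    intro i j
    have a0 := congrFun h0 0
    have a1 := congrFun h0 1
    have a2 := congrFun h0 2
    have b0 := congrFun h1 0
    have b1 := congrFun h1 1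
    have b2 := congrFun h1 2
    have c0 := congrFun h2 0
    have c1 := congrFun h2 1
    have c2 := congrFun h2 2
    rw [Fin.sum_univ_three] at h
    simp only [cr, Matrix.cons_val_zero, Matrix.cons_val_one, Matrix.cons_val, Pi.zero_apply,
      mul_one, mul_zero, sub_zero, zero_sub] at a0 a1 a2 b0 b1 b2 c0 c1 c2
    fin_cases i <;> fin_cases j <;> simp only [Fin.zero_eta, Fin.mk_one, Fin.reduceFinMk] <;>
      first
      | linear_combination a0
      | linear_combination a1
      | linear_combination a2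
      | linear_combination b0
      | linear_combination b1
      | linear_combination b2
      | linear_combination c0
      | linear_combination c1
      | linear_combination c2
      | linear_combination (-1 : L) * a0
      | linear_combination (-1 : L) * a1
      | linear_combination (-1 : L) * a2
      | linear_combination (-1 : L) * b0
      | linear_combination (-1 : L) * b1
      | linear_combination (-1 : L) * b2
      | linear_combination (-1 : L) * c0
      | linear_combination (-1 : L) * c1
      | linear_combination (-1 : L) * c2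
      | linear_combination h + (-1 : L) * a0
      | linear_combination h + a0
      | linear_combination h + b1
      | linear_combination h - b1
      | linear_combination h + c2
      | linear_combination h - c2
  funext j
  have h3 := e k j
  rw [hk, mul_one] at h3
  exact h3

end Plane

end Pool.Agent.Lib.MP_44a246_ntB
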