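import Mathlib
import Pool.Agent.Lib.MP_44a246_ntB.Rig4

/-!
The complement of a generic quartic curve over a function field: the exceptional lines through a
point of large height are defined over the field of the point.
-/

namespace Pool.Agent.Lib.MP_44a246_ntB

open MvPolynomial Pool.Agent.Lib.MP_e52354_nt Pool.Agent.Lib.MP_44a246_nt
open Pool.Agent.Lib.MP_44a246_ntL WithZero

universe w u₁ u₂

section Heights

variable {κ : Type u₁} {K : Type u₂} [Field κ] [IsAlgClosed κ] [CharZero κ] [Field K]
  [Algebra κ K]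

theorem alg_height (hK : IsFF κ K) (z : AlgebraicClosure K) :
    ∃ H : ℕ, ∀ (L : Type w) [Field L] [Algebra κ L] [Algebra K L] [IsScalarTower κ K L]
      [FiniteDimensional K L] (φ : L →ₐ[K] AlgebraicClosure K) (y : L), φ y = z →
      height κ ![1, y] ≤ (H : ℤ) * (Module.finrank K L : ℤ) := by
  have hz : IsIntegral K z := (Algebra.IsAlgebraic.isAlgebraic z).isIntegral
  set m := (minpoly K z).natDegree with hm
  set c : Fin (m + 1) → K := fun i => (minpoly K z).coeff i with hc
  have hc0 : c ≠ 0 := by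
    intro h0
    have h1 := congrFun h0 (Fin.last m)
    simp only [hc, Fin.val_last, Pi.zero_apply] at h1
    have h2 := (minpoly.monic hz).coeff_natDegree
    rw [← hm, h1] at h2
    exact zero_ne_one h2
  refine ⟨(height κ c).toNat, ?_⟩
  intro L _ _ _ _ _ φ y hy
  have hL : IsFF κ L := hK.of_finite
  have hmap : (fun i => algebraMap K L (c i)) ≠ 0 := by
    intro h0
    apply hc0
    funext i
    have h1 := congrFun h0 i
    simpa using h1
  have hroot : ∑ i : Fin (m + 1), algebraMap K L (c i) * y ^ (i : ℕ) = 0 := by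
    apply φ.toRingHom.injective
    show φ _ = φ 0
    rw [map_sum, map_zero]
    have h1 := minpoly.aeval K z
    rw [Polynomial.aeval_eq_sum_range, ← hm, Finset.sum_range] at h1
    rw [← h1]
    refine Finset.sum_congr rfl fun i _ => ?_
    rw [map_mul, map_pow, AlgHom.commutes, hy, Algebra.smul_def]
  have h1 := root_height hL hmap hroot
  have h2 : height κ (fun i => algebraMap K L (c i)) = Module.finrank K L * height κ c :=
    hL.height_ext hc0
  rw [h2] at h1
  have h3 : height κ c ≤ ((height κ c).toNat : ℤ) := Int.self_le_toNat _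
  have h4 : (0 : ℤ) ≤ (Module.finrank K L : ℤ) := Int.natCast_nonneg _
  nlinarith

theorem height_le_sum_pair {L : Type*} [Field L] [Algebra κ L] (hL : IsFF κ L) {x : Fin 3 → L}
    {l : Fin 3} (hl : x l = 1) : height κ x ≤ ∑ i, height κ ![1, x i] := by
  have hx : x ≠ 0 := by
    intro h0
    have h1 := congrFun h0 l
    rw [hl] at h1
    exact one_ne_zero h1
  have h1 : ∑ i, height κ ![1, x i] = ∑ᶠ v : Place κ L, ∑ i, log (vmax v.1 ![1, x i]) := by
    unfold height
    rw [finsum_sum_comm]
    intro i _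
    exact hL.vmax_support (pair_ne_zero _)
  rw [h1]
  unfold height
  refine finsum_mono (hL.vmax_support hx) ?_ fun v => ?_
  · have h2 : (Function.support fun v : Place κ L => ∑ i, log (vmax v.1 ![1, x i])) ⊆
        ⋃ i : Fin 3, Function.support fun v : Place κ L => log (vmax v.1 ![1, x i]) := by
      intro v hv
      rw [Set.mem_iUnion]
      by_contra hcon
      push Not at hcon
      apply hv
      refine Finset.sum_eq_zero fun i _ => ?_
      have := hcon i
      rw [Function.notMem_support] at this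
      exact this
    exact (Set.finite_iUnion fun i => hL.vmax_support (pair_ne_zero _)).subset h2
  · obtain ⟨i, -, hi, -⟩ := exists_vmax v.1 hx
    have h3 : ∀ j, 0 ≤ log (vmax v.1 ![1, x j]) := by
      intro j
      have h4 : 1 ≤ vmax v.1 ![1, x j] := by
        have := le_vmax v.1 ![1, x j] 0
        simpa using this
      have h5 := (log_le_log one_ne_zero (zero_lt_one.trans_le h4).ne').mpr h4
      rwa [log_one] at h5
    refine le_trans ?_ (Finset.single_le_sum (fun j _ => h3 j) (Finset.mem_univ i))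
    have h6 : vmax v.1 x ≤ vmax v.1 ![1, x i] := by
      rw [hi]
      have := le_vmax v.1 ![1, x i] 1
      simpa using this
    exact (log_le_log (vmax_ne_zero v.1 hx) (vmax_ne_zero v.1 (pair_ne_zero _))).mpr h6

/-- points on two exceptional lines -/
theorem height_inter (hK : IsFF κ K) {F : MvPolynomial (Fin 3) K}
    (hfin : ∀ k, {ν : Fin 3 → AlgebraicClosure K | EN F k ν}.Finite) :
    ∃ H : ℕ, ∀ (P : PtL.{w} κ K (Fin 3)) (φ : P.L →ₐ[K] AlgebraicClosure K), P.x ≠ 0 →
      ∀ k k' (ν ν' : Fin 3 → AlgebraicClosure K), EN F k ν → EN F k' ν' → cr ν ν' ≠ 0 →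
      ∑ i, ν i * φ (P.x i) = 0 → ∑ i, ν' i * φ (P.x i) = 0 →
      height κ P.x ≤ (H : ℤ) * (Module.finrank K P.L : ℤ) := by
  classical
  choose Hz hHz using fun z : AlgebraicClosure K => alg_height.{w} hK z
  set E : Finset (Fin 3 → AlgebraicClosure K) :=
    Finset.univ.biUnion fun k => (hfin k).toFinset with hE
  set Hc : (Fin 3 → AlgebraicClosure K) → ℕ := fun c => ∑ i, Hz (c i) with hHc
  refine ⟨∑ e ∈ (E ×ˢ E) ×ˢ (Finset.univ : Finset (Fin 3)),
    Hc (fun i => cr e.1.1 e.1.2 i / cr e.1.1 e.1.2 e.2), ?_⟩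
  intro P φ hx k k' ν ν' hν hν' hc h1 h2
  obtain ⟨l, hl⟩ : ∃ l, P.x l ≠ 0 := by
    by_contra hcon
    push Not at hcon
    exact hx (funext hcon)
  have hL : IsFF κ P.L := hK.of_finite
  have hφl : φ (P.x l) ≠ 0 := by
    intro h0
    exact hl (φ.toRingHom.injective (by simpa using h0))
  -- the point is the cross product
  have hprop : ∀ i j, φ (P.x i) * cr ν ν' j = φ (P.x j) * cr ν ν' i := by
    apply cr_perp
    · rw [← h1]
      exact Finset.sum_congr rfl fun j _ => mul_comm _ _
    · rw [← h2]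
      exact Finset.sum_congr rfl fun j _ => mul_comm _ _
  have hcl : cr ν ν' l ≠ 0 := by
    intro h0
    apply hc
    funext j
    have h3 := hprop l j
    rw [h0, mul_zero] at h3
    exact (mul_eq_zero.mp h3).resolve_left hφl
  have hmem : ∀ {k ν}, EN F k ν → ν ∈ E := by
    intro k ν h
    rw [hE, Finset.mem_biUnion]
    exact ⟨k, Finset.mem_univ _, (hfin k).mem_toFinset.mpr h⟩
  have hcoord : ∀ i, φ ((P.x l)⁻¹ * P.x i) = cr ν ν' i / cr ν ν' l := by
    intro i
    rw [map_mul, map_inv₀, eq_div_iff hcl]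
    field_simp
    linear_combination hprop i l
  have h3 : height κ (fun i => (P.x l)⁻¹ * P.x i) = height κ P.x :=
    hL.height_smul (inv_ne_zero hl)
  rw [← h3]
  refine (height_le_sum_pair hL (l := l) (inv_mul_cancel₀ hl)).trans ?_
  have h4 : ∑ i, height κ ![1, (P.x l)⁻¹ * P.x i] ≤
      ((Hc (fun i => cr ν ν' i / cr ν ν' l) : ℕ) : ℤ) * (Module.finrank K P.L : ℤ) := by
    rw [hHc]
    push_cast
    rw [Finset.sum_mul]
    exact Finset.sum_le_sum fun i _ => hHz _ P.L φ _ (hcoord i)
  refine h4.trans (mul_le_mul_of_nonneg_right ?_ (Int.natCast_nonneg _))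
  have h5 := Finset.single_le_sum (s := (E ×ˢ E) ×ˢ (Finset.univ : Finset (Fin 3)))
    (f := fun e => Hc (fun i => cr e.1.1 e.1.2 i / cr e.1.1 e.1.2 e.2))
    (fun _ _ => Nat.zero_le _) (a := ((ν, ν'), l)) (by
      rw [Finset.mem_product, Finset.mem_product]
      exact ⟨⟨hmem hν, hmem hν'⟩, Finset.mem_univ _⟩)
  exact_mod_cast h5

end Heights

end Pool.Agent.Lib.MP_44a246_ntB
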