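import Mathlib
import Pool.Agent.Lib.MP_44a246_ntB.Rig5

/-!
The complement of a generic quartic curve over a function field: final form.
-/

namespace Pool.Agent.Lib.MP_44a246_ntB

open MvPolynomial Pool.Agent.Lib.MP_e52354_nt Pool.Agent.Lib.MP_44a246_nt
open Pool.Agent.Lib.MP_44a246_ntL WithZero

universe w u₁ u₂

section Galois

/-- an element of an algebraic closure which is not in the field has a conjugate -/
theorem exists_conj {K L Λ : Type*} [Field K] [CharZero K] [Field L] [Field Λ] [Algebra K L]
    [Algebra K Λ] [IsAlgClosure K Λ] (φ : L →ₐ[K] Λ) {z : Λ} (hz : ∀ y : L, φ y ≠ z) :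
    ∃ σ : Λ →ₐ[K] Λ, (∀ y : L, σ (φ y) = φ y) ∧ σ z ≠ z := by
  let iL : Algebra L Λ := (φ : L →+* Λ).toAlgebra
  have hmap : ∀ y : L, algebraMap L Λ y = φ y := fun y => rfl
  have hT : IsScalarTower K L Λ := IsScalarTower.of_algebraMap_eq fun c => (φ.commutes c).symm
  have : IsAlgClosed Λ := IsAlgClosure.isAlgClosed K
  have : Algebra.IsAlgebraic K Λ := IsAlgClosure.isAlgebraic
  have : Algebra.IsAlgebraic L Λ := Algebra.IsAlgebraic.tower_top (K := K) L
  have : IsAlgClosure L Λ := ⟨inferInstance, inferInstance⟩
  have : CharZero L := charZero_of_injective_algebraMap (algebraMap K L).injective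
  have : IsGalois L Λ := IsAlgClosure.isGalois L Λ
  have h1 : ¬ ∀ f : Λ ≃ₐ[L] Λ, f z = z := by
    intro h2
    obtain ⟨y, hy⟩ := (InfiniteGalois.mem_range_algebraMap_iff_fixed (k := L) z).mpr h2
    exact hz y hy
  push Not at h1
  obtain ⟨f, hf⟩ := h1
  refine ⟨(f : Λ →ₐ[L] Λ).restrictScalars K, fun y => ?_, hf⟩
  exact f.commutes y

end Galois

section Main

variable {κ K : Type*} [Field κ] [IsAlgClosed κ] [CharZero κ] [Field K] [CharZero K]
    [Algebra κ K]

theorem quartic_border {t : K} (ht : Transcendental κ t)
    [FiniteDimensional (IntermediateField.adjoin κ {t}) K]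
    (F : MvPolynomial (Fin 3) K) (hF : F.IsHomogeneous 4)
    (hgen : AlgebraicIndependent ℚ (fun θ : {I : Fin 3 →₀ ℕ // I.degree = 4} => F.coeff θ.1))
    (S : Set (Place κ K)) (hS : S.Finite) :
    ∃ C : ℕ, ∀ (L : Type w) [Field L] [Algebra K L] [FiniteDimensional K L] [Algebra κ L]
      [IsScalarTower κ K L] (x : Fin 3 → L), aeval x F ≠ 0 →
      height κ x ≤ C * ((truncCount κ (fun _ : Unit => F) (fun _ => 4) S x : ℤ) + ramDeg κ L K +
          Module.finrank K L) ∨
        ∃ y : Fin 3 → L, LinearIndependent L ![x, y] ∧
          {z : AlgebraicClosure L |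
            aeval (fun j => z * algebraMap L (AlgebraicClosure L) (x j) +
              algebraMap L (AlgebraicClosure L) (y j)) F = 0}.encard ≤ 2 := by
  classical
  have hQ : IsScalarTower ℚ κ K := inferInstance
  have hK : IsFF κ K := ⟨t, ht, inferInstance⟩
  let a : (Fin 3 →₀ ℕ) → K := fun I => F.coeff I
  have hc : AlgebraicIndependent ℚ (fun θ : {I // I ∈ expo (Fin 3) 4} => a θ.1) := by
    have h1 : (fun θ : {I // I ∈ expo (Fin 3) 4} => a θ.1) =
        (fun θ : {I : Fin 3 →₀ ℕ // I.degree = 4} => F.coeff θ.1) ∘
        (fun θ : {I // I ∈ expo (Fin 3) 4} => ⟨θ.1, mem_expo.mp θ.2⟩) := rfl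
    rw [h1]
    apply hgen.comp
    rintro ⟨I, h⟩ ⟨I', h'⟩ heq
    simp only [Subtype.mk.injEq] at heq
    subst heq
    rfl
  -- smoothness
  have hsm : ∀ w : Fin 3 → AlgebraicClosure K, w ≠ 0 → aeval w F = 0 → gr F w ≠ 0 := by
    obtain ⟨DI, B₁, A, hB₁, hA, hPB, hPA, hD, -⟩ := exists_setup (κ := κ) ht inferInstance hc
    choose DΛ hDΛ using fun i => exists_extension (K := K) (L := AlgebraicClosure K) (DI i)
    refine smooth_of_ders hF (fun I => if h : I ∈ expo (Fin 3) 4 then DΛ ⟨I, h⟩ else 0) ?_
    intro I hI J hJ
    rw [dif_pos hI, hDΛ]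
    have h2 := hD ⟨I, hI⟩ ⟨J, hJ⟩
    simp only [Subtype.mk.injEq] at h2
    rw [h2]
    split_ifs <;> simp
  have hfinE := fun k => EN_finite (Λ := AlgebraicClosure K) hF hsm k
  obtain ⟨C, hC⟩ := border_seq.{w} (k₀ := ℚ) ht inferInstance a hc hS
  obtain ⟨H, hH⟩ := height_inter.{w} hK hfinE
  refine ⟨C + H, ?_⟩
  intro L _ _ _ _ _ x hz
  have hev : aeval x F = Fval 4 (fun I => algebraMap K L (a I)) x :=
    aeval_eq_Fval F hF x
  have hx : x ≠ 0 := by
    rintro rfl
    apply hz
    rw [hev]
    have h1 := Fval_smul' 4 (fun I => algebraMap K L (a I)) (0 : Fin 3 → L) 0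
    have h2 : (fun k => (0 : L) * (0 : Fin 3 → L) k) = 0 := by
      funext k
      simp
    rw [h2] at h1
    rw [h1]
    ring
  -- the embedding
  obtain ⟨ψ⟩ : Nonempty (AlgebraicClosure L ≃ₐ[K] AlgebraicClosure K) := by
    have : Algebra.IsAlgebraic K (AlgebraicClosure L) :=
      Algebra.IsAlgebraic.trans K L (AlgebraicClosure L)
    have : IsAlgClosure K (AlgebraicClosure L) := ⟨inferInstance, inferInstance⟩
    exact ⟨IsAlgClosure.equiv K (AlgebraicClosure L) (AlgebraicClosure K)⟩
  let φ : L →ₐ[K] AlgebraicClosure K :=
    (ψ : AlgebraicClosure L →ₐ[K] AlgebraicClosure K).comp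
      (IsScalarTower.toAlgHom K L (AlgebraicClosure L))
  have hφinj : Function.Injective φ := φ.toRingHom.injective
  have hpos : (0 : ℤ) ≤ (truncCount κ (fun _ : Unit => F) (fun _ => 4) S x : ℤ) :=
    Int.natCast_nonneg _
  have hposR : (0 : ℤ) ≤ (ramDeg κ L K : ℤ) := Int.natCast_nonneg _
  have hposn : (0 : ℤ) ≤ (Module.finrank K L : ℤ) := Int.natCast_nonneg _
  rcases hC ⟨L, x⟩ φ hx (by rw [← hev]; exact hz) with h | h
  · left
    have hmeet : meetF (κ := κ) 4 x (Fval 4 (fun I => algebraMap K L (a I)) x) S =
        {w : Place κ L | (∀ v ∈ S, ¬ (w.1.comap (algebraMap K L)).IsEquiv v.1) ∧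
          ∃ _i : Unit, aeval x F ≠ 0 ∧
          w.1 (aeval x F) < vmax w.1 x ^ 4} := by
      ext w
      simp only [meetF, Set.mem_ofPred_eq, ← hev]
      constructor
      · rintro ⟨h1, h2⟩
        refine ⟨fun v hv hvw => ?_, (), hz, h2⟩
        rw [below_equiv] at hvw
        rw [hvw] at h1
        exact h1 hv
      · rintro ⟨h1, -, -, h2⟩
        exact ⟨fun hb => h1 _ hb ((below_equiv w _).mpr rfl), h2⟩
    rw [hmeet] at h
    have h1 : height κ x ≤ (C : ℤ) * ((truncCount κ (fun _ : Unit => F) (fun _ => 4) S x : ℤ) +
      ramDeg κ L K + Module.finrank K L) := h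
    refine h1.trans ?_
    push_cast
    have hH0 : (0 : ℤ) ≤ (H : ℤ) := Int.natCast_nonneg _
    nlinarith
  · -- the exceptional line
    obtain ⟨y, r, m, hm, hy, hT⟩ := h
    set p : Fin 3 → AlgebraicClosure K := fun k => φ (x k) with hp
    have hp0 : p ≠ 0 := by
      intro h0
      apply hx
      funext k
      have h1 := congrFun h0 k
      exact hφinj (by rw [Pi.zero_apply, map_zero]; exact h1)
    have hcyp : cr y p ≠ 0 := cr_eq_zero_iff_left hp0 hy
    have hev' : ∀ q : Fin 3 → AlgebraicClosure K, aeval q F =
        Fval 4 (fun I => algebraMap K (AlgebraicClosure K) (a I)) q := fun q => aeval_eq_Fval F hF q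
    have hT' : ∀ T : AlgebraicClosure K, aeval (fun k => p k + T * y k) F =
        aeval p F * (1 + T * r) ^ m := by
      intro T
      rw [hev', hev']
      have h1 := hT T
      rw [mul_comm r T] at h1
      exact h1
    have hFp : aeval p F ≠ 0 := by
      have h1 : aeval p F = φ (aeval x F) :=
        (ringHom_aeval (φ : L →+* AlgebraicClosure K) (fun c => φ.commutes c) F x).symm
      rw [h1]
      intro h0
      exact hz (hφinj (by rw [map_zero]; exact h0))
    obtain ⟨k, ν, hν, hνp, hνy⟩ := EN_of_exc hF hsm (by omega) hcyp hT'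
    by_cases hdef : ∃ η : Fin 3 → L, ∀ i, φ (η i) = ν i
    · right
      obtain ⟨η, hη⟩ := hdef
      have hηk : η k = 1 := hφinj (by rw [hη, map_one]; exact hν.1)
      have hηx : ∑ i, η i * x i = 0 := by
        apply hφinj
        rw [map_sum, map_zero, ← hνp]
        exact Finset.sum_congr rfl fun i _ => by rw [map_mul, hη]
      obtain ⟨y', hηy', hcxy⟩ := exists_second hηk hx hηx
      have hν0 : ν ≠ 0 := by
        intro h0
        have h1 := hν.1
        rw [h0] at h1
        exact zero_ne_one h1
      have hνy' : ∑ j, ν j * φ (y' j) = 0 := by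
        have h1 := congrArg φ hηy'
        rw [map_sum, map_zero] at h1
        rw [← h1]
        exact Finset.sum_congr rfl fun i _ => by rw [map_mul, hη]
      obtain ⟨β, α, hαβ⟩ := comb_of_perp hν0 hcyp hνy hνp (w := fun j => φ (y' j)) hνy'
      have hβ : β ≠ 0 := by
        intro h0
        apply hcxy
        have h1 : cr p (fun j => φ (y' j)) = 0 := by
          have h2 : (fun j => φ (y' j)) = fun k => α * p k := by
            funext j
            rw [hαβ, h0]
            ring
          rw [h2]
          funext j
          fin_cases j <;> simp only [cr, Fin.zero_eta, Fin.mk_one, Fin.reduceFinMk,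
            Matrix.cons_val_zero, Matrix.cons_val_one, Matrix.cons_val, Pi.zero_apply] <;> ring
        funext j
        have h2 := congrFun h1 j
        rw [hp] at h2
        have h3 := cr_map (φ : L →+* AlgebraicClosure K) x y' j
        have h4 : φ (cr x y' j) = 0 := h3.symm.trans h2
        exact hφinj (by rw [h4, Pi.zero_apply, map_zero])
      refine ⟨y', ?_, ?_⟩
      · obtain ⟨j, hj⟩ : ∃ j, cr x y' j ≠ 0 := by
          by_contra hcon
          push Not at hcon
          exact hcxy (funext hcon)
        apply linInd_of_plu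
        fin_cases j <;> simp only [cr, Fin.zero_eta, Fin.mk_one, Fin.reduceFinMk,
            Matrix.cons_val_zero, Matrix.cons_val_one, Matrix.cons_val] at hj
        · exact ⟨1, 2, hj⟩
        · exact ⟨2, 0, hj⟩
        · exact ⟨0, 1, hj⟩
      · have hsub : {z : AlgebraicClosure L |
            aeval (fun j => z * algebraMap L (AlgebraicClosure L) (x j) +
              algebraMap L (AlgebraicClosure L) (y' j)) F = 0} ⊆
            {ψ.symm (-α), ψ.symm (-α - β * r)} := by
          intro z hzz
          rw [Set.mem_ofPred_eq] at hzz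
          have h1 : aeval (fun j => (ψ z + α) * p j + β * y j) F = 0 := by
            have h2 := congrArg ψ hzz
            rw [map_zero] at h2
            have h3 := ringHom_aeval ((ψ : AlgebraicClosure L →ₐ[K] AlgebraicClosure K) :
              AlgebraicClosure L →+* AlgebraicClosure K) (fun c => ψ.commutes c) F
              (fun j => z * algebraMap L (AlgebraicClosure L) (x j) +
                algebraMap L (AlgebraicClosure L) (y' j))
            have h4 := h3.symm.trans h2
            rw [← h4]
            congr 1
            congr 1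
            funext j
            have h5 : φ (y' j) = β * y j + α * p j := hαβ j
            have h6 : ((ψ : AlgebraicClosure L →ₐ[K] AlgebraicClosure K) :
              AlgebraicClosure L →+* AlgebraicClosure K) (z * algebraMap L (AlgebraicClosure L) (x j) +
                algebraMap L (AlgebraicClosure L) (y' j)) = ψ z * φ (x j) + φ (y' j) := by
              rw [map_add, map_mul]
              rfl
            rw [h6, h5, hp]
            ring
          rw [Set.mem_insert_iff, Set.mem_singleton_iff]
          by_cases h0 : ψ z + α = 0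
          · left
            apply ψ.injective
            rw [ψ.apply_symm_apply]
            linear_combination h0
          · right
            have h2 : (fun j => (ψ z + α) * p j + β * y j) =
                fun j => (ψ z + α) * (p j + (β / (ψ z + α)) * y j) := by
              funext j
              field_simp
            rw [h2, aeval_smul_homK hF, hT'] at h1
            have h3 := (mul_eq_zero.mp h1).resolve_left (pow_ne_zero _ h0)
            have h4 := (mul_eq_zero.mp h3).resolve_left hFp
            have h5 := eq_zero_of_pow_eq_zero h4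
            apply ψ.injective
            rw [ψ.apply_symm_apply]
            field_simp at h5
            linear_combination h5
        refine (Set.encard_le_encard hsub).trans ?_
        refine (Set.encard_insert_le _ _).trans ?_
        rw [Set.encard_singleton]
        exact le_of_eq one_add_one_eq_two
    · -- a conjugate line
      left
      have hdef' : ∃ i, ∀ y : L, φ y ≠ ν i := by
        by_contra hcon
        push Not at hcon
        choose η hη using hcon
        exact hdef ⟨η, hη⟩
      obtain ⟨i, hi⟩ := hdef'
      obtain ⟨σ, hσ, hσi⟩ := exists_conj φ hi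
      have hν' := hν.map σ
      have hcc : cr ν (fun i => σ (ν i)) ≠ 0 := by
        intro h0
        apply hσi
        have hk1 : ν k = 1 := hν.1
        have hk2 : σ (ν k) = 1 := by rw [hk1, map_one]
        have e0 := congrFun h0 0
        have e1 := congrFun h0 1
        have e2 := congrFun h0 2
        simp only [cr, Matrix.cons_val_zero, Matrix.cons_val_one, Matrix.cons_val,
          Pi.zero_apply] at e0 e1 e2
        have h5 : ν k * σ (ν i) = ν i * σ (ν k) := by
          clear hi hσi
          fin_cases k <;> fin_cases i <;>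
            simp only [Fin.zero_eta, Fin.mk_one, Fin.reduceFinMk] <;>
            first
            | ring1
            | linear_combination e0
            | linear_combination e1
            | linear_combination e2
            | linear_combination (-1 : AlgebraicClosure K) * e0
            | linear_combination (-1 : AlgebraicClosure K) * e1
            | linear_combination (-1 : AlgebraicClosure K) * e2
        rw [hk2, hk1] at h5
        linear_combination h5
      have h1 := hH ⟨L, x⟩ φ hx k k ν (fun i => σ (ν i)) hν hν' hcc hνp (by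
        have h2 := congrArg σ hνp
        rw [map_sum, map_zero] at h2
        rw [← h2]
        refine Finset.sum_congr rfl fun j _ => ?_
        rw [map_mul, hp]
        simp only [hσ])
      have h1' : height κ x ≤ (H : ℤ) * (Module.finrank K L : ℤ) := h1
      refine h1'.trans ?_
      push_cast
      have hH0 : (0 : ℤ) ≤ (H : ℤ) := Int.natCast_nonneg _
      have hC0 : (0 : ℤ) ≤ (C : ℤ) := Int.natCast_nonneg _
      nlinarith [mul_nonneg hH0 hpos, mul_nonneg hH0 hposR, mul_nonneg hC0 hpos,
        mul_nonneg hC0 hposR, mul_nonneg hC0 hposn]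

end Main

end Pool.Agent.Lib.MP_44a246_ntB
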