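import Mathlib
import Pool.Agent.Lib.MP_44a246_ntB.Rig6
import Pool.Agent.Lib.MP_44a246_ntB.CMain

/-!
All algebraic points off the exceptional lines, with two borderline cases.
-/

namespace Pool.Agent.Lib.MP_44a246_ntB

open Pool.Agent.Lib.MP_e52354_nt
open Pool.Agent.Lib.MP_e52354_ntG
open Pool.Agent.Lib.MP_44a246_nt
open Pool.Agent.Lib.MP_44a246_ntL
open WithZero

universe w

/-- compact borderline case -/
theorem poly_compact {κ K : Type*} [Field κ] [IsAlgClosed κ] [CharZero κ] [Field K] [CharZero K]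
    [Algebra κ K] {t : K} (ht : Transcendental κ t)
    [FiniteDimensional (IntermediateField.adjoin κ {t}) K] {n q : ℕ} (d : Fin q → ℕ)
    (hd : ∀ i, 2 ≤ d i) (F : Fin q → MvPolynomial (Fin (n + 1)) K)
    (hF : ∀ i, (F i).IsHomogeneous (d i))
    (hgen : AlgebraicIndependent ℚ
      (fun θ : Σ i, {I : Fin (n + 1) →₀ ℕ // I.degree = d i} => (F θ.1).coeff θ.2.1))
    (hpos : (n : ℤ) + 1 < ∑ i, (d i : ℤ))
    (hk : (n : ℤ) - q = 2 * (∑ i, (d i : ℤ) - (n + 1))) :
    ∃ C : ℕ, ∀ (L : Type w) [Field L] [Algebra K L] [FiniteDimensional K L] [Algebra κ L]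
      [IsScalarTower κ K L] (x : Fin (n + 1) → L), x ≠ 0 →
      (∀ i, MvPolynomial.aeval x (F i) = 0) →
      height κ x ≤ C * ((ramDeg κ L K : ℤ) + Module.finrank K L) ∨
      (∑ i, d i + q ≤ 2 * n + 1 ∧
        ∃ y : Fin (n + 1) → L, LinearIndependent L ![x, y] ∧
          (∀ i, ∀ u v : L, MvPolynomial.aeval (fun j => u * x j + v * y j) (F i) = 0)) := by
  classical
  have hQ : IsScalarTower ℚ κ K := inferInstance
  let a : Fin q → (Fin (n + 1) →₀ ℕ) → K := fun i I => (F i).coeff I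
  have hc : AlgebraicIndependent ℚ (fun θ : MIdx (n + 1) q d => a θ.1 θ.2.1) := by
    have h1 : (fun θ : MIdx (n + 1) q d => a θ.1 θ.2.1) =
        (fun θ : Σ i, {I : Fin (n + 1) →₀ ℕ // I.degree = d i} => (F θ.1).coeff θ.2.1) ∘
        (fun θ : MIdx (n + 1) q d => ⟨θ.1, ⟨θ.2.1, mem_expo.mp θ.2.2⟩⟩) := rfl
    rw [h1]
    apply hgen.comp
    rintro ⟨i, I, h⟩ ⟨i', I', h'⟩ heq
    simp only [Sigma.mk.injEq] at heq
    obtain ⟨h1, h2⟩ := heq
    subst h1
    simp only [heq_eq_eq, Subtype.mk.injEq] at h2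
    subst h2
    rfl
  have hcast : (∑ i, (d i : ℤ)) = ((∑ i, d i : ℕ) : ℤ) := by push_cast; rfl
  rw [hcast] at hpos hk
  have hqn : q < n := by omega
  have hq : 1 ≤ q := by
    rcases Nat.eq_zero_or_pos q with h0 | h0
    · subst h0
      simp at hpos
      omega
    · exact h0
  obtain ⟨r, hr⟩ : ∃ r, n = q + r := ⟨n - q, by omega⟩
  subst hr
  obtain ⟨C, hC⟩ := compact_border.{w} (k₀ := ℚ) ht inferInstance (s := q + r + 1) (q := q) (r := r)
    rfl hq (by omega) hd (by omega) a hc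
  refine ⟨C, ?_⟩
  intro L _ _ _ _ _ x hx h0
  have hev : ∀ i, MvPolynomial.aeval x (F i) =
      Fval (d i) (fun I => algebraMap K L (a i I)) x := fun i => aeval_eq_Fval (F i) (hF i) x
  rcases hC ⟨L, x⟩ hx (fun i => by rw [← hev]; exact h0 i) with h | ⟨hs, y, ⟨i, k, hik⟩, hz⟩
  · left
    exact h
  · right
    refine ⟨by omega, y, linInd_of_plu ⟨i, k, hik⟩, fun f u v => ?_⟩
    rw [aeval_eq_Fval (F f) (hF f)]
    have h1 := hz f u v
    rw [← h1]
    congr 1
    funext j
    ring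

theorem poly_comb {κ K : Type*} [Field κ] [IsAlgClosed κ] [CharZero κ] [Field K] [CharZero K]
    [Algebra κ K] {t : K} (ht : Transcendental κ t)
    [FiniteDimensional (IntermediateField.adjoin κ {t}) K] {n q : ℕ} (d : Fin q → ℕ)
    (hd : ∀ i, 1 ≤ d i) (F : Fin q → MvPolynomial (Fin (n + 1)) K)
    (hF : ∀ i, (F i).IsHomogeneous (d i))
    (hgen : AlgebraicIndependent ℚ
      (fun θ : Σ i, {I : Fin (n + 1) →₀ ℕ // I.degree = d i} => (F θ.1).coeff θ.2.1))
    (S : Set (Place κ K)) (hS : S.Finite) :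
    ∃ C : ℕ, ∀ (L : Type w) [Field L] [Algebra K L] [FiniteDimensional K L] [Algebra κ L]
      [IsScalarTower κ K L] (x : Fin (n + 1) → L), x ≠ 0 →
      ((n : ℤ) - Nat.card {i // MvPolynomial.aeval x (F i) = 0} <
          2 * (∑ i, (d i : ℤ) - (n + 1)) ∨
        (n : ℤ) - Nat.card {i // MvPolynomial.aeval x (F i) = 0} =
          2 * (∑ i, (d i : ℤ) - (n + 1)) ∧
        (n : ℤ) + 1 < ∑ i, (d i : ℤ) ∧
        ((∀ i, MvPolynomial.aeval x (F i) = 0 ∧ 2 ≤ d i) ∨ (n = 2 ∧ q = 1))) →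
      height κ x ≤ C * ((truncCount κ F d S x : ℤ) + ramDeg κ L K + Module.finrank K L) ∨
      (∑ i, d i + Nat.card {i // MvPolynomial.aeval x (F i) = 0} ≤ 2 * n + 1 ∧
        ∃ y : Fin (n + 1) → L, LinearIndependent L ![x, y] ∧
          (∀ i, MvPolynomial.aeval x (F i) = 0 →
            ∀ u v : L, MvPolynomial.aeval (fun j => u * x j + v * y j) (F i) = 0) ∧
          {z : AlgebraicClosure L | ∃ i, MvPolynomial.aeval x (F i) ≠ 0 ∧
            MvPolynomial.aeval (fun j => z * algebraMap L (AlgebraicClosure L) (x j) +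
              algebraMap L (AlgebraicClosure L) (y j)) (F i) = 0}.encard ≤ 2) := by
  classical
  obtain ⟨C₁, hC₁⟩ := poly_log_main.{w} ht d hd F hF hgen S hS
  -- the compact border
  obtain ⟨C₂, hC₂⟩ : ∃ C : ℕ, ∀ (L : Type w) [Field L] [Algebra K L] [FiniteDimensional K L]
      [Algebra κ L] [IsScalarTower κ K L] (x : Fin (n + 1) → L), x ≠ 0 →
      (n : ℤ) - q = 2 * (∑ i, (d i : ℤ) - (n + 1)) → (n : ℤ) + 1 < ∑ i, (d i : ℤ) →
      (∀ i, 2 ≤ d i) →
      (∀ i, MvPolynomial.aeval x (F i) = 0) →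
      height κ x ≤ C * ((ramDeg κ L K : ℤ) + Module.finrank K L) ∨
      (∑ i, d i + q ≤ 2 * n + 1 ∧
        ∃ y : Fin (n + 1) → L, LinearIndependent L ![x, y] ∧
          (∀ i, ∀ u v : L, MvPolynomial.aeval (fun j => u * x j + v * y j) (F i) = 0)) := by
    by_cases h : (n : ℤ) - q = 2 * (∑ i, (d i : ℤ) - (n + 1)) ∧ (n : ℤ) + 1 < ∑ i, (d i : ℤ) ∧
      ∀ i, 2 ≤ d i
    · obtain ⟨C, hC⟩ := poly_compact.{w} ht d h.2.2 F hF hgen h.2.1 h.1
      exact ⟨C, fun L _ _ _ _ _ x hx _ _ _ h0 => hC L x hx h0⟩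
    · exact ⟨0, fun L _ _ _ _ _ x hx h1 h2 h3 => absurd ⟨h1, h2, h3⟩ h⟩
  -- the quartic
  obtain ⟨C₃, hC₃⟩ : ∃ C : ℕ, ∀ (L : Type w) [Field L] [Algebra K L] [FiniteDimensional K L]
      [Algebra κ L] [IsScalarTower κ K L] (x : Fin (n + 1) → L), x ≠ 0 →
      n = 2 → q = 1 → ∑ i, d i = 4 → (∀ i, MvPolynomial.aeval x (F i) ≠ 0) →
      height κ x ≤ C * ((truncCount κ F d S x : ℤ) + ramDeg κ L K + Module.finrank K L) ∨
      (∃ y : Fin (n + 1) → L, LinearIndependent L ![x, y] ∧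
          {z : AlgebraicClosure L | ∃ i, MvPolynomial.aeval x (F i) ≠ 0 ∧
            MvPolynomial.aeval (fun j => z * algebraMap L (AlgebraicClosure L) (x j) +
              algebraMap L (AlgebraicClosure L) (y j)) (F i) = 0}.encard ≤ 2) := by
    by_cases h : n = 2 ∧ q = 1 ∧ ∑ i, d i = 4
    · obtain ⟨hn, hq, hd4⟩ := h
      subst hn
      subst hq
      have hd0 : d 0 = 4 := by simpa using hd4
      have hF0 : (F 0).IsHomogeneous 4 := by
        have := hF 0
        rwa [hd0] at this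
      have hgen' : AlgebraicIndependent ℚ
          (fun θ : {I : Fin 3 →₀ ℕ // I.degree = 4} => (F 0).coeff θ.1) := by
        have h1 : (fun θ : {I : Fin 3 →₀ ℕ // I.degree = 4} => (F 0).coeff θ.1) =
            (fun θ : Σ i, {I : Fin (2 + 1) →₀ ℕ // I.degree = d i} => (F θ.1).coeff θ.2.1) ∘
            (fun θ : {I : Fin 3 →₀ ℕ // I.degree = 4} =>
              ⟨0, ⟨θ.1, by rw [hd0]; exact θ.2⟩⟩) := rfl
        rw [h1]
        apply hgen.comp
        rintro ⟨I, h⟩ ⟨I', h'⟩ heq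
        simp only [Sigma.mk.injEq, heq_eq_eq, Subtype.mk.injEq, true_and] at heq
        subst heq
        rfl
      obtain ⟨C, hC⟩ := quartic_border.{w} ht (F 0) hF0 hgen' S hS
      refine ⟨C, ?_⟩
      intro L _ _ _ _ _ x hx _ _ _ hz
      rcases hC L x (hz 0) with h1 | ⟨y, hy, h1⟩
      · left
        have h2 : truncCount κ (fun _ : Unit => F 0) (fun _ => 4) S x = truncCount κ F d S x := by
          unfold truncCount
          congr 1
          ext w
          simp only [Set.mem_ofPred_eq]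
          refine and_congr_right fun _ => ?_
          constructor
          · rintro ⟨-, h3, h4⟩
            exact ⟨0, h3, by rw [hd0]; exact h4⟩
          · rintro ⟨i, h3, h4⟩
            have hi : i = 0 := Subsingleton.elim _ _
            subst hi
            rw [hd0] at h4
            exact ⟨(), h3, h4⟩
        rw [h2] at h1
        exact h1
      · right
        refine ⟨y, hy, le_trans (Set.encard_le_encard ?_) h1⟩
        rintro z ⟨i, -, h3⟩
        have hi : i = 0 := Subsingleton.elim _ _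
        subst hi
        exact h3
    · exact ⟨0, fun L _ _ _ _ _ x hx h1 h2 h3 => absurd ⟨h1, h2, h3⟩ h⟩
  refine ⟨C₁ + C₂ + C₃, ?_⟩
  intro L _ _ _ _ _ x hx hyp
  have hN : (0 : ℤ) ≤ (truncCount κ F d S x : ℤ) := Int.natCast_nonneg _
  have hR : (0 : ℤ) ≤ (ramDeg κ L K : ℤ) := Int.natCast_nonneg _
  have hn : (0 : ℤ) ≤ (Module.finrank K L : ℤ) := Int.natCast_nonneg _
  have hc1 : (0 : ℤ) ≤ (C₁ : ℤ) := Int.natCast_nonneg _
  have hc2 : (0 : ℤ) ≤ (C₂ : ℤ) := Int.natCast_nonneg _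
  have hc3 : (0 : ℤ) ≤ (C₃ : ℤ) := Int.natCast_nonneg _
  set N : ℤ := (truncCount κ F d S x : ℤ) with hNdef
  set R : ℤ := (ramDeg κ L K : ℤ) with hRdef
  set m : ℤ := (Module.finrank K L : ℤ) with hmdef
  have hNRm : 0 ≤ N + R + m := by linarith
  rcases hyp with hyp | ⟨hyp, hpos, hcase⟩
  · rcases hC₁ L x hx hyp with h1 | h1
    · left
      refine h1.trans ?_
      push_cast
      nlinarith [mul_nonneg hc2 hNRm, mul_nonneg hc3 hNRm]
    · exact Or.inr h1
  · rcases hcase with hcase | ⟨hn2, hq1⟩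
    · have hcard : Nat.card {i // MvPolynomial.aeval x (F i) = 0} = q := by
        have h1 : Nat.card {i // MvPolynomial.aeval x (F i) = 0} = Nat.card (Fin q) :=
          Nat.card_congr ⟨fun i => i.1, fun i => ⟨i, (hcase i).1⟩, fun i => rfl, fun i => rfl⟩
        rw [h1, Nat.card_fin]
      rw [hcard] at hyp ⊢
      rcases hC₂ L x hx hyp hpos (fun i => (hcase i).2) (fun i => (hcase i).1) with h1 | ⟨h2, y, hy, h3⟩
      · left
        refine h1.trans ?_
        have h4 : (C₂ : ℤ) * (R + m) ≤ C₂ * (N + R + m) :=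
          mul_le_mul_of_nonneg_left (by linarith) hc2
        push_cast
        nlinarith [mul_nonneg hc1 hNRm, mul_nonneg hc3 hNRm]
      · right
        refine ⟨h2, y, hy, fun i _ u v => h3 i u v, ?_⟩
        have h4 : {z : AlgebraicClosure L | ∃ i, MvPolynomial.aeval x (F i) ≠ 0 ∧
            MvPolynomial.aeval (fun j => z * algebraMap L (AlgebraicClosure L) (x j) +
              algebraMap L (AlgebraicClosure L) (y j)) (F i) = 0} = ∅ := by
          ext z
          simp only [Set.mem_ofPred_eq, Set.mem_empty_iff_false, iff_false, not_exists, not_and]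
          intro i hi
          exact absurd (hcase i).1 hi
        rw [h4, Set.encard_empty]
        exact zero_le
    · subst hn2
      subst hq1
      have hsum : (∑ i, (d i : ℤ)) = ((∑ i, d i : ℕ) : ℤ) := by push_cast; rfl
      rw [hsum] at hyp hpos
      have hle : Nat.card {i : Fin 1 // MvPolynomial.aeval x (F i) = 0} ≤ 1 := by
        have h1 := Finite.card_subtype_le (fun i : Fin 1 => MvPolynomial.aeval x (F i) = 0)
        rwa [Nat.card_fin] at h1
      have hcard0 : Nat.card {i : Fin 1 // MvPolynomial.aeval x (F i) = 0} = 0 := by omega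
      have hd4 : ∑ i, d i = 4 := by omega
      have hne : ∀ i, MvPolynomial.aeval x (F i) ≠ 0 := by
        intro i hi
        have : Nonempty {i : Fin 1 // MvPolynomial.aeval x (F i) = 0} := ⟨⟨i, hi⟩⟩
        have h1 : 0 < Nat.card {i : Fin 1 // MvPolynomial.aeval x (F i) = 0} := Nat.card_pos
        omega
      rcases hC₃ L x hx rfl rfl hd4 hne with h1 | ⟨y, hy, h3⟩
      · left
        refine h1.trans ?_
        push_cast
        nlinarith [mul_nonneg hc1 hNRm, mul_nonneg hc2 hNRm]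
      · right
        refine ⟨by omega, y, hy, fun i hi => absurd hi (hne i), h3⟩

end Pool.Agent.Lib.MP_44a246_ntB
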